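import Pool.Agent.W_b4801b_h32.Cent

set_option autoImplicit false

/-!
# `sl₂`-triples

Theorem: `g`, `H` as in `Cent`.  Every weight vector `e ∈ g` which does not commute with `H` is part of an
`sl₂`-triple `(e, f, t)` with `f ∈ g`, `t ∈ H`, `tr (e f) ≠ 0`.

Proof.  Write `[x, y] = x y - y x` and `[h, e] = α(h) e`; `e ≠ 0` and `α(h₁) ≠ 0` for some `h₁ ∈ H`.  By
`nondeg` there is `z ∈ g` with `tr (e z) ≠ 0`, and by `wt_induction` (`U = g`, `C` = kernel of
`z ↦ tr (e z)`) there is such a `z = f` which is a weight vector: `[h, f] = β(h) f`.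
`0 = tr [h, e f] = (α(h) + β(h)) tr (e f)`, so `β = -α`.  So `t := [e, f]` commutes with `H`
(`[h, [e, f]] = [[h, e], f] + [e, [h, f]] = 0`), `t ∈ g`, so `t ∈ H` by `mem_of_forall_commute`.
`tr (t h₁) = tr (e f h₁ - f e h₁) = tr (e [f, h₁]) = α(h₁) tr (e f) ≠ 0`, so `t ≠ 0`.
`[t, e] = a e` with `a = α(t)`.  If `a = 0`: `t` commutes with `e`, so for every `k ≥ 1`
`tr (t ^ k) = tr (t ^ (k-1) e f) - tr (t ^ (k-1) f e) = 0` (as `t ^ (k-1)` commutes with `e`); so
`tr (t q(t)) = 0` for every polynomial `q`; as `t` is semisimple (diagonalizable) there is a polynomial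
`q` such that `t q(t)` is the projection onto the sum of the eigenspaces with nonzero eigenvalues, whose
trace is its rank; so `t = 0`, contradiction.  So `a ≠ 0`, `[t, f] = -a f`, and
`(e, (2 / a) f, (2 / a) t)` is the triple.
-/

noncomputable section

namespace Pool.Agent.B4801bT

variable {K : Type*} [Field K] [IsAlgClosed K] [CharZero K] {V : Type*} [AddCommGroup V]
  [Module K V] [FiniteDimensional K V]

omit [IsAlgClosed K] in
theorem Triple_isNilpotent_of_trace_pow (A : Module.End K V)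
    (h : ∀ k : ℕ, 1 ≤ k → LinearMap.trace K V (A ^ k) = 0) : IsNilpotent A := by
  classical
  have htr : ∀ p : Polynomial K, p.coeff 0 = 0 →
      LinearMap.trace K V (Polynomial.aeval A p) = 0 := by
    intro p hp
    rw [Polynomial.aeval_eq_sum_range, map_sum]
    refine Finset.sum_eq_zero fun k _ => ?_
    rw [map_smul]
    rcases Nat.eq_zero_or_pos k with hk | hk
    · rw [hk, hp, zero_smul]
    · rw [h k hk, smul_zero]
  have hne : minpoly K A ≠ 0 := minpoly.ne_zero (Algebra.IsIntegral.isIntegral A)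
  obtain ⟨q, hq1, hq2⟩ :=
    Polynomial.exists_eq_pow_rootMultiplicity_mul_and_not_dvd (minpoly K A) hne 0
  rw [Polynomial.C_0, sub_zero] at hq1 hq2
  set j := (minpoly K A).rootMultiplicity 0
  have hcop : IsCoprime (Polynomial.X ^ (j + 1)) q :=
    ((Polynomial.irreducible_X.coprime_iff_not_dvd).2 hq2).pow_left
  obtain ⟨u, v, huv⟩ := hcop
  have h0 : Polynomial.aeval A (Polynomial.X ^ j * q) = 0 := by
    rw [← hq1, minpoly.aeval]
  set e : Module.End K V := Polynomial.aeval A (u * Polynomial.X ^ (j + 1)) with he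
  have h1e : e + Polynomial.aeval A (v * q) = 1 := by
    rw [he, ← map_add, huv, map_one]
  have hemul : e * Polynomial.aeval A (v * q) = 0 := by
    have h2 : u * Polynomial.X ^ (j + 1) * (v * q) =
        (u * v * Polynomial.X) * (Polynomial.X ^ j * q) := by ring
    rw [he, ← map_mul, h2, map_mul, h0, mul_zero]
  have hidem : e * e = e := by
    have h3 : e * (e + Polynomial.aeval A (v * q)) = e := by rw [h1e, mul_one]
    rwa [mul_add, hemul, add_zero] at h3
  have htre : LinearMap.trace K V e = 0 := by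
    rw [he]
    apply htr
    rw [pow_succ, ← mul_assoc, Polynomial.mul_coeff_zero, Polynomial.coeff_X_zero, mul_zero]
  have he0 : e = 0 := (LinearMap.IsIdempotentElem.trace_eq_zero_iff hidem).1 htre
  rw [he0, zero_add] at h1e
  refine ⟨j, ?_⟩
  have h6 : A ^ j = Polynomial.aeval A ((Polynomial.X : Polynomial K) ^ j) := by
    rw [map_pow, Polynomial.aeval_X]
  have h7 : A ^ j * Polynomial.aeval A (v * q) = 0 := by
    rw [h6, ← map_mul]
    have h8 : (Polynomial.X : Polynomial K) ^ j * (v * q) = v * (Polynomial.X ^ j * q) := by ring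
    rw [h8, map_mul, h0, mul_zero]
  rwa [h1e, mul_one] at h7

theorem exists_triple {g H : Submodule K (Module.End K V)} (hg : AlgLie g)
    (hH : MaxTorus g H) (e : Module.End K V) (he : e ∈ g) (hwt : IsWt H e)
    (hne : ∃ h ∈ H, ¬ Commute h e) :
    ∃ f ∈ g, ∃ t ∈ H, IsTriple e f t ∧ LinearMap.trace K V (e * f) ≠ 0 := by
  obtain ⟨h₁, hh₁, hc₁⟩ := hne
  obtain ⟨ν₁, hν₁⟩ := hwt h₁ hh₁
  have he0 : e ≠ 0 := by
    rintro rfl
    exact hc₁ (Commute.zero_right _)
  have hν₁0 : ν₁ ≠ 0 := by
    rintro rfl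
    rw [zero_smul] at hν₁
    exact hc₁ (sub_eq_zero.1 hν₁)
  -- a weight vector `f` with `tr (e f) ≠ 0`
  obtain ⟨f, hfg, hfw, hf⟩ : ∃ f ∈ g, IsWt H f ∧ LinearMap.trace K V (e * f) ≠ 0 := by
    by_contra hcon
    push Not at hcon
    let C : Submodule K (Module.End K V) :=
      LinearMap.ker ((LinearMap.trace K V) ∘ₗ (LinearMap.mulLeft K e))
    have hgC : g ≤ C := by
      apply wt_induction H g C hH.ss hH.comm (fun h hh u hu => hg.lie h (hH.le hh) u hu)
      intro u hu huw
      exact hcon u hu huw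
    exact he0 (hg.nondeg e he fun y hy => hgC hy)
  have key : ∀ h ∈ H, ∀ a : K, h * e - e * h = a • e → h * f - f * h = -(a • f) := by
    intro h hh a ha
    obtain ⟨b, hb⟩ := hfw h hh
    have h1 : h * (e * f) - (e * f) * h = (a + b) • (e * f) := by
      have : h * (e * f) - (e * f) * h = (h * e - e * h) * f + e * (h * f - f * h) := by
        noncomm_ring
      rw [this, ha, hb, smul_mul_assoc, mul_smul_comm, add_smul]
    have h2 : (a + b) * LinearMap.trace K V (e * f) = 0 := by
      have h3 := congrArg (LinearMap.trace K V) h1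
      rw [map_sub, LinearMap.trace_mul_comm K h (e * f), sub_self, map_smul, smul_eq_mul] at h3
      exact h3.symm
    have h4 : b = -a := by
      have := (mul_eq_zero.1 h2).resolve_right hf
      linear_combination this
    rw [hb, h4, neg_smul]
  set t₀ : Module.End K V := e * f - f * e with ht₀
  have ht₀g : t₀ ∈ g := hg.lie e he f hfg
  have ht₀c : ∀ h ∈ H, Commute h t₀ := by
    intro h hh
    obtain ⟨a, ha⟩ := hwt h hh
    have hb := key h hh a ha
    have h1 : h * t₀ - t₀ * h = ((h * e - e * h) * f + e * (h * f - f * h)) -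
        ((h * f - f * h) * e + f * (h * e - e * h)) := by
      rw [ht₀]
      noncomm_ring
    rw [ha, hb] at h1
    have h2 : (a • e * f + e * -(a • f)) - (-(a • f) * e + f * a • e) = 0 := by
      simp only [smul_mul_assoc, mul_smul_comm, mul_neg, neg_mul]
      abel
    rw [h2] at h1
    exact sub_eq_zero.1 h1
  have ht₀H : t₀ ∈ H := mem_of_forall_commute hg hH t₀ ht₀g ht₀c
  have ht₀0 : t₀ ≠ 0 := by
    intro h0
    have h1 : LinearMap.trace K V (t₀ * h₁) = ν₁ * LinearMap.trace K V (e * f) := by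
      have h2 : t₀ * h₁ = e * f * h₁ - f * e * h₁ := by
        rw [ht₀]
        noncomm_ring
      have h3 : LinearMap.trace K V (f * e * h₁) = LinearMap.trace K V (e * (h₁ * f)) := by
        rw [mul_assoc, LinearMap.trace_mul_comm K f (e * h₁), mul_assoc]
      have h4 : LinearMap.trace K V (e * f * h₁) - LinearMap.trace K V (e * (h₁ * f)) =
          LinearMap.trace K V (ν₁ • (e * f)) := by
        rw [← map_sub]
        congr 1
        have h5 := key h₁ hh₁ ν₁ hν₁
        have h6 : e * f * h₁ - e * (h₁ * f) = -(e * (h₁ * f - f * h₁)) := by noncomm_ring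
        rw [h6, h5, mul_neg, neg_neg, mul_smul_comm]
      rw [h2, map_sub, h3, h4, map_smul, smul_eq_mul]
    rw [h0, zero_mul, map_zero] at h1
    exact mul_ne_zero hν₁0 hf h1.symm
  obtain ⟨a, ha⟩ := hwt t₀ ht₀H
  have ha0 : a ≠ 0 := by
    rintro rfl
    rw [zero_smul] at ha
    have hcomm : Commute t₀ e := sub_eq_zero.1 ha
    have htr : ∀ k : ℕ, 1 ≤ k → LinearMap.trace K V (t₀ ^ k) = 0 := by
      intro k hk
      obtain ⟨m, rfl⟩ := Nat.exists_eq_add_of_le' hk
      have h1 : t₀ ^ (m + 1) = t₀ ^ m * e * f - t₀ ^ m * (f * e) := by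
        rw [pow_succ, mul_assoc (t₀ ^ m) e f, ← mul_sub]
      have h2 : LinearMap.trace K V (t₀ ^ m * (f * e)) = LinearMap.trace K V (t₀ ^ m * e * f) := by
        rw [← mul_assoc, LinearMap.trace_mul_comm K (t₀ ^ m * f) e, ← mul_assoc,
          ((hcomm.pow_left m).eq : t₀ ^ m * e = e * t₀ ^ m)]
      rw [h1, map_sub, h2, sub_self]
    have hnil := Triple_isNilpotent_of_trace_pow t₀ htr
    exact ht₀0 (Module.End.eq_zero_of_isNilpotent_isSemisimple hnil (hH.ss t₀ ht₀H))
  have hb := key t₀ ht₀H a ha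
  refine ⟨(2 / a) • f, g.smul_mem _ hfg, (2 / a) • t₀, H.smul_mem _ ht₀H, ⟨?_, ?_, ?_⟩, ?_⟩
  · rw [mul_smul_comm, smul_mul_assoc, ← smul_sub]
  · rw [smul_mul_assoc, mul_smul_comm, ← smul_sub, ha, smul_smul, div_mul_cancel₀ _ ha0]
  · rw [smul_mul_smul_comm, smul_mul_smul_comm, ← smul_sub, hb, smul_neg, smul_smul, smul_smul]
    congr 2
    field_simp
  · rw [mul_smul_comm, map_smul, smul_eq_mul]
    exact mul_ne_zero (div_ne_zero two_ne_zero ha0) hf

end Pool.Agent.B4801bT
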