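import Pool.Agent.W_b4801b_h32.RedProj
import Pool.Agent.W_b4801b_h32.Triple

set_option autoImplicit false

/-!
# Linear Lie algebras with nondegenerate trace form which contain the nilpotent parts of their elements

Theorem: let `AlgLie p` (see `LieDefs`), and let `W` be a subspace of `V` stable under `p`.  There is a projection `P` of
`V` onto `W` which commutes with `p`.

Proof.  As in `RedSemi` and `RedProj`, with `Z = cen p`, `L = der p`.
(1) The elements of `Z` are semisimple: `z = s + m` (Jordan), `m ∈ p` by `nil`, `m` is a polynomial in `z`, so it commutes with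
`p`, so `tr (m y) = 0` for all `y ∈ p` (`m y` is nilpotent); `m = 0` by `nondeg`.
(2) `Z ⊓ L = ⊥` (the trace of a commutator on the eigenspaces of `z ∈ Z` is zero; see `Red.cen_inf_der`), `p ≤ Z ⊔ L`
(`nondeg` and dimensions; see `Red.le_cen_sup_der`).
(3) An abelian ideal `A` of `L` is zero: as `p ≤ Z ⊔ L`, `A` is stable under commutators with `p`.  For `x ∈ p`, `a ∈ A` the element
`b = x a - a x ∈ A` commutes with `a`, so it is nilpotent (Jacobson: `tr (b ^ k) = 0` for all `k ≥ 1`).  Let `A'` be the span of
all `x a - a x` (`x ∈ p`, `a ∈ A`): sums of commuting nilpotent elements, so all its elements are nilpotent, it is stable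
under commutators with `p`, and its elements commute with each other.  For `b ∈ A'`, `y ∈ p` the element `b y` is nilpotent
(`V_j := A' ⋯ A' V` (`j` factors) is `p`-stable and zero for large `j`), so `tr (b y) = 0` and `b = 0` by `nondeg`.  So
`A' = ⊥`: `A ≤ Z`, `A ≤ Z ⊓ L = ⊥`.
(4) So `L` is a Lie algebra with trivial radical; Weyl's theorem gives a projection onto `W` commuting with `L`; correct it
by the eigenspaces of a regular element of `Z` as in `RedProj`.

Shorter proof (used below): a commutative space `H ≤ p` of semisimple elements of maximal dimension is a maximal torus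
(`AlgProj_exists_maxTorus`), so `Red p H` by `mem_of_forall_commute` and `exists_triple`, and `Red.exists_proj` applies.
-/

noncomputable section

namespace Pool.Agent.B4801bT

variable {K : Type*} [Field K] [IsAlgClosed K] [CharZero K] {V : Type*} [AddCommGroup V]
  [Module K V] [FiniteDimensional K V]

/-- Commutative spaces of semisimple elements of `p`. -/
def AlgProj_Tor (p H : Submodule K (Module.End K V)) : Prop :=
  H ≤ p ∧ (∀ h ∈ H, h.IsSemisimple) ∧ ∀ h ∈ H, ∀ h' ∈ H, Commute h h'

omit [IsAlgClosed K] in
theorem AlgProj_exists_maxTorus (p : Submodule K (Module.End K V)) :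
    ∃ H : Submodule K (Module.End K V), MaxTorus p H := by
  classical
  -- a torus of maximal dimension
  have hex : ∃ d, ∃ H : Submodule K (Module.End K V), AlgProj_Tor p H ∧ Module.finrank K H = d := by
    refine ⟨0, ⊥, ⟨bot_le, ?_, ?_⟩, finrank_bot K _⟩
    · intro h hh
      rw [(Submodule.mem_bot K).1 hh]
      exact Module.End.isSemisimple_zero
    · intro h hh h' _
      rw [(Submodule.mem_bot K).1 hh]
      exact Commute.zero_left _
  have hbd : ∀ d, (∃ H : Submodule K (Module.End K V), AlgProj_Tor p H ∧ Module.finrank K H = d) →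
      d ≤ Module.finrank K (Module.End K V) := by
    rintro d ⟨H, -, rfl⟩
    exact Submodule.finrank_le H
  obtain ⟨H, ⟨hle, hss, hcomm⟩, hd⟩ := Nat.findGreatest_spec
    (P := fun d => ∃ H : Submodule K (Module.End K V), AlgProj_Tor p H ∧ Module.finrank K H = d)
    (hbd _ hex.choose_spec) hex.choose_spec
  set D := Nat.findGreatest
    (fun d => ∃ H : Submodule K (Module.End K V), AlgProj_Tor p H ∧ Module.finrank K H = d)
    (Module.finrank K (Module.End K V)) with hD
  have hmax : ∀ H' : Submodule K (Module.End K V), AlgProj_Tor p H' → Module.finrank K H' ≤ D :=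
    fun H' h' => Nat.le_findGreatest (hbd _ ⟨H', h', rfl⟩) ⟨H', h', rfl⟩
  refine ⟨H, hle, hss, hcomm, ?_⟩
  intro x hx hxs hxc
  have hsp : ∀ y ∈ H ⊔ Submodule.span K {x}, ∃ h ∈ H, ∃ c : K, y = h + c • x := by
    intro y hy
    obtain ⟨h, hh, z, hz, rfl⟩ := Submodule.mem_sup.1 hy
    obtain ⟨c, rfl⟩ := Submodule.mem_span_singleton.1 hz
    exact ⟨h, hh, c, rfl⟩
  have hTor : AlgProj_Tor p (H ⊔ Submodule.span K {x}) := by
    refine ⟨sup_le hle ?_, ?_, ?_⟩
    · rw [Submodule.span_singleton_le_iff_mem]
      exact hx
    · intro y hy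
      obtain ⟨h, hh, c, rfl⟩ := hsp y hy
      have h1 : Commute h (c • x) := (hxc h hh).smul_right c
      have h2 : (c • x).IsSemisimple := by
        have h3 : c • x = Polynomial.aeval x (Polynomial.C c * Polynomial.X) := by
          rw [map_mul, Polynomial.aeval_C, Polynomial.aeval_X, ← Algebra.smul_def]
        rw [h3]
        exact hxs.aeval _
      exact (hss h hh).add_of_commute h1 h2
    · intro y hy y' hy'
      obtain ⟨h, hh, c, rfl⟩ := hsp y hy
      obtain ⟨h', hh', c', rfl⟩ := hsp y' hy'
      have e1 : Commute h (h' + c' • x) := (hcomm h hh h' hh').add_right ((hxc h hh).smul_right c')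
      have e2 : Commute (c • x) (h' + c' • x) :=
        (((hxc h' hh').symm.smul_left c)).add_right
          (((Commute.refl x).smul_right c').smul_left c)
      exact e1.add_left e2
  have hfr : Module.finrank K ↥(H ⊔ Submodule.span K {x}) ≤ Module.finrank K H := by
    rw [hd]
    exact hmax _ hTor
  have heq : H = H ⊔ Submodule.span K {x} :=
    Submodule.eq_of_le_of_finrank_le le_sup_left hfr
  rw [heq]
  exact Submodule.mem_sup_right (Submodule.mem_span_singleton_self x)

theorem AlgProj_red {p H : Submodule K (Module.End K V)} (hp : AlgLie p) (hH : MaxTorus p H) :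
    Red p H :=
  ⟨hp.lie, hH.le, hH.ss, hH.comm, fun x hx hc => mem_of_forall_commute hp hH x hx hc,
    fun e he hwt hne => exists_triple hp hH e he hwt hne, hp.nondeg⟩

theorem AlgLie.exists_proj {p : Submodule K (Module.End K V)} (hp : AlgLie p)
    (W : Submodule K V) (hW : ∀ x ∈ p, ∀ v ∈ W, x v ∈ W) :
    ∃ P : Module.End K V, (∀ v, P v ∈ W) ∧ (∀ v ∈ W, P v = v) ∧ ∀ x ∈ p, Commute P x := by
  obtain ⟨H, hH⟩ := AlgProj_exists_maxTorus p
  exact (AlgProj_red hp hH).exists_proj W hW

end Pool.Agent.B4801bT
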