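import Pool.Agent.W_b4801b_h32.Defs

set_option autoImplicit false

/-!
# Algebraic linear Lie algebras with nondegenerate trace form and maximal toral subspaces

Everything is stated for submodules of `Module.End K V` which are closed under commutators.
-/

noncomputable section

namespace Pool.Agent.B4801bT

variable {K : Type*} [Field K] {V : Type*} [AddCommGroup V] [Module K V]

/-- `g` is a Lie algebra of endomorphisms which contains the nilpotent parts of its elements and on
which the trace form is nondegenerate. -/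
structure AlgLie (g : Submodule K (Module.End K V)) : Prop where
  lie : ∀ x ∈ g, ∀ y ∈ g, x * y - y * x ∈ g
  nil : ∀ x ∈ g, ∀ s m : Module.End K V, s.IsSemisimple → IsNilpotent m → Commute s m →
    x = s + m → m ∈ g
  nondeg : ∀ x ∈ g, (∀ y ∈ g, LinearMap.trace K V (x * y) = 0) → x = 0

/-- `H` is a maximal commutative space of semisimple elements of `g`. -/
structure MaxTorus (g H : Submodule K (Module.End K V)) : Prop where
  le : H ≤ g
  ss : ∀ h ∈ H, h.IsSemisimple
  comm : ∀ h ∈ H, ∀ h' ∈ H, Commute h h'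
  max : ∀ x ∈ g, x.IsSemisimple → (∀ h ∈ H, Commute h x) → x ∈ H

/-- `e` is a weight vector for the action of `H` by commutators. -/
def IsWt (H : Submodule K (Module.End K V)) (e : Module.End K V) : Prop :=
  ∀ h ∈ H, ∃ ν : K, h * e - e * h = ν • e

/-- `(e, f, t)` is an `sl₂`-triple: `[e, f] = t`, `[t, e] = 2 e`, `[t, f] = -2 f`. -/
structure IsTriple (e f t : Module.End K V) : Prop where
  ef : e * f - f * e = t
  te : t * e - e * t = (2 : K) • e
  tf : t * f - f * t = -((2 : K) • f)

/-- `p` is a Lie algebra of endomorphisms with nondegenerate trace form, `H` is a commutative space of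
semisimple elements of `p` which is its own centralizer in `p`, and every weight vector `e` in `p`
which does not commute with `H` is part of an `sl₂`-triple `(e, f, t)` with `f` in `p`, `t` in `H`. -/
structure Red (p H : Submodule K (Module.End K V)) : Prop where
  lie : ∀ x ∈ p, ∀ y ∈ p, x * y - y * x ∈ p
  le : H ≤ p
  ss : ∀ h ∈ H, h.IsSemisimple
  comm : ∀ h ∈ H, ∀ h' ∈ H, Commute h h'
  cent : ∀ x ∈ p, (∀ h ∈ H, Commute h x) → x ∈ H
  triple : ∀ e ∈ p, IsWt H e → (∃ h ∈ H, ¬ Commute h e) →
    ∃ f ∈ p, ∃ t ∈ H, IsTriple e f t ∧ LinearMap.trace K V (e * f) ≠ 0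
  nondeg : ∀ x ∈ p, (∀ y ∈ p, LinearMap.trace K V (x * y) = 0) → x = 0

/-- The stabilizer of the subspace `W` in `g`. -/
def stab (g : Submodule K (Module.End K V)) (W : Submodule K V) : Submodule K (Module.End K V) where
  carrier := {x | x ∈ g ∧ ∀ v ∈ W, x v ∈ W}
  add_mem' := fun ha hb =>
    ⟨g.add_mem ha.1 hb.1, fun v hv => W.add_mem (ha.2 v hv) (hb.2 v hv)⟩
  zero_mem' := ⟨g.zero_mem, fun _ _ => W.zero_mem⟩
  smul_mem' := fun c _ hx => ⟨g.smul_mem c hx.1, fun v hv => W.smul_mem c (hx.2 v hv)⟩

end Pool.Agent.B4801bT
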