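import Pool.Agent.W_b4801b_h32.RepTensor
import Pool.Agent.W_b4801b_h32.LieDefs

set_option autoImplicit false

/-!
# The Lie algebra of a set of rational tensors over an algebraically closed field

`gLie T K` is the space of the endomorphisms of `K ^ n` whose matrix lies in `ann T K`.

`algLie_gLie`: it is closed under commutators (`dtp_lie`), contains the nilpotent parts of its elements
(`dtp_commute_nil`, `diagonalizable_iff`), and if the trace form is nondegenerate on `ann T ℚ` then it is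
nondegenerate on `gLie T K`.
Proof of the last statement.  Let `φ : K → ℚ` be a `ℚ`-linear map.  For `Y ∈ ann T K` the matrix `Y.map φ` lies in
`ann T ℚ` (`dtp_map`; `(dtp Y · t).map φ = dtp (Y.map φ) · t` for a rational matrix `t`).  Let
`Y ∈ ann T K` with `tr (Y Z) = 0` for all `Z ∈ ann T K`.  For `Z ∈ ann T ℚ` the matrix `Z.map (algebraMap ℚ K)`
is in `ann T K`, so `tr (Y.map φ · Z) = φ (tr (Y · Z.map (algebraMap ℚ K))) = 0`.  So `Y.map φ = 0`
for all `φ`, so `Y = 0` (linear maps `K → ℚ` separate the elements of the `ℚ`-vector space `K`).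
-/

noncomputable section

namespace Pool.Agent.B4801bT

/-- The endomorphisms of `K ^ n` whose matrix is in `ann T K`. -/
def gLie {n : ℕ} (T : TensorSet n) (K : Type*) [Field K] [Algebra ℚ K] :
    Submodule K (Module.End K (Fin n → K)) :=
  (ann T K).map (Matrix.toLin' : Mat n K ≃ₗ[K] ((Fin n → K) →ₗ[K] (Fin n → K))).toLinearMap

theorem toLin'_mem_gLie {n : ℕ} (T : TensorSet n) (K : Type*) [Field K] [Algebra ℚ K]
    (Y : Mat n K) : (Matrix.toLin' Y : Module.End K (Fin n → K)) ∈ gLie T K ↔ Y ∈ ann T K := by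
  constructor
  · rintro ⟨Z, hZ, h⟩
    have h1 : Z = Y := Matrix.toLin'.injective h
    rw [← h1]
    exact hZ
  · exact fun h => ⟨Y, h, rfl⟩

theorem AnnLie_exists {n : ℕ} {T : TensorSet n} {K : Type*} [Field K] [Algebra ℚ K]
    {x : Module.End K (Fin n → K)} (hx : x ∈ gLie T K) :
    ∃ X ∈ ann T K, x = Matrix.toLin' X := by
  obtain ⟨X, hX, h⟩ := hx
  exact ⟨X, hX, h.symm⟩

theorem AnnLie_mul {n : ℕ} {K : Type*} [Field K] (X Y : Mat n K) :
    (Matrix.toLin' (X * Y) : Module.End K (Fin n → K)) =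
      (Matrix.toLin' X : Module.End K (Fin n → K)) * (Matrix.toLin' Y : Module.End K (Fin n → K)) :=
  Matrix.toLin'_mul X Y

/-- applying a rational linear functional to the entries -/
theorem AnnLie_map_mul {ι : Type*} [Fintype ι] {K : Type*} [Field K] [Algebra ℚ K] (φ : K →ₗ[ℚ] ℚ)
    (D : Matrix ι ι K) (t : Matrix ι ι ℚ) :
    (D * t.map (algebraMap ℚ K)).map φ = D.map φ * t := by
  ext i j
  simp only [Matrix.map_apply, Matrix.mul_apply, map_sum]
  refine Finset.sum_congr rfl fun k _ => ?_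
  have h : D i k * algebraMap ℚ K (t k j) = t k j • D i k := by
    rw [Algebra.smul_def, mul_comm]
  rw [h, map_smul, smul_eq_mul, mul_comm]

theorem AnnLie_map_mul' {ι : Type*} [Fintype ι] {K : Type*} [Field K] [Algebra ℚ K] (φ : K →ₗ[ℚ] ℚ)
    (D : Matrix ι ι K) (t : Matrix ι ι ℚ) :
    (t.map (algebraMap ℚ K) * D).map φ = t * D.map φ := by
  ext i j
  simp only [Matrix.map_apply, Matrix.mul_apply, map_sum]
  refine Finset.sum_congr rfl fun k _ => ?_
  have h : algebraMap ℚ K (t i k) * D k j = t i k • D k j := by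
    rw [Algebra.smul_def]
  rw [h, map_smul, smul_eq_mul]

theorem AnnLie_map_mem {n : ℕ} {T : TensorSet n} {K : Type*} [Field K] [Algebra ℚ K]
    {Y : Mat n K} (hY : Y ∈ ann T K) (φ : K →ₗ[ℚ] ℚ) : Y.map φ ∈ ann T ℚ := by
  intro t ht
  have h1 := hY t ht
  have h2 : dtp t.1 (Y.map φ) = (dtp t.1 Y).map φ := dtp_map (φ : K →+ ℚ) t.1 Y
  have h3 : t.2.map (algebraMap ℚ ℚ) = t.2 := by
    ext i j
    simp
  rw [h2, h3, ← AnnLie_map_mul, ← AnnLie_map_mul', h1]

theorem AnnLie_alg_mem {n : ℕ} {T : TensorSet n} {K : Type*} [Field K] [Algebra ℚ K]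
    {Z : Mat n ℚ} (hZ : Z ∈ ann T ℚ) : Z.map (algebraMap ℚ K) ∈ ann T K := by
  intro t ht
  have h1 := hZ t ht
  have h2 : dtp t.1 (Z.map (algebraMap ℚ K)) = (dtp t.1 Z).map (algebraMap ℚ K) :=
    dtp_map ((algebraMap ℚ K : ℚ →+* K) : ℚ →+ K) t.1 Z
  have h3 : t.2.map (algebraMap ℚ ℚ) = t.2 := by
    ext i j
    simp
  rw [h3] at h1
  rw [h2, ← Matrix.map_mul, ← Matrix.map_mul, h1]

theorem AnnLie_trace {n : ℕ} {K : Type*} [Field K] [Algebra ℚ K] (φ : K →ₗ[ℚ] ℚ)
    (Y : Mat n K) (Z : Mat n ℚ) :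
    (Y.map φ * Z).trace = φ ((Y * Z.map (algebraMap ℚ K)).trace) := by
  rw [← AnnLie_map_mul, Matrix.trace, Matrix.trace, map_sum]
  rfl

theorem algLie_gLie {n : ℕ} (T : TensorSet n) (hT : TraceNondeg T) (K : Type*) [Field K]
    [IsAlgClosed K] [CharZero K] [Algebra ℚ K] : AlgLie (gLie T K) := by
  constructor
  · intro x hx y hy
    obtain ⟨X, hX, rfl⟩ := AnnLie_exists hx
    obtain ⟨Y, hY, rfl⟩ := AnnLie_exists hy
    rw [← AnnLie_mul, ← AnnLie_mul, ← map_sub]
    refine (toLin'_mem_gLie T K _).2 ?_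
    intro t ht
    have h1 := hX t ht
    have h2 := hY t ht
    rw [dtp_lie, sub_mul, mul_sub]
    have e1 : dtp t.1 X * dtp t.1 Y * t.2.map (algebraMap ℚ K) =
        t.2.map (algebraMap ℚ K) * (dtp t.1 X * dtp t.1 Y) := by
      rw [mul_assoc, h2, ← mul_assoc, h1, mul_assoc]
    have e2 : dtp t.1 Y * dtp t.1 X * t.2.map (algebraMap ℚ K) =
        t.2.map (algebraMap ℚ K) * (dtp t.1 Y * dtp t.1 X) := by
      rw [mul_assoc, h1, ← mul_assoc, h2, mul_assoc]
    rw [e1, e2]
  · intro x hx s m hs hm hc hxs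
    obtain ⟨X, hX, rfl⟩ := AnnLie_exists hx
    obtain ⟨S, rfl⟩ := (Matrix.toLin' (R := K) (m := Fin n) (n := Fin n)).surjective s
    obtain ⟨M, rfl⟩ := (Matrix.toLin' (R := K) (m := Fin n) (n := Fin n)).surjective m
    refine (toLin'_mem_gLie T K _).2 ?_
    have hSd : Diagonalizable S := (diagonalizable_iff S).2 hs
    have hMn : IsNilpotent M := by
      obtain ⟨k, hk⟩ := hm
      refine ⟨k, ?_⟩
      apply (Matrix.toLin' (R := K) (m := Fin n) (n := Fin n)).injective
      rw [map_zero]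
      rw [← hk]
      exact Matrix.toLin'_pow M k
    have hSM : Commute S M := by
      apply (Matrix.toLin' (R := K) (m := Fin n) (n := Fin n)).injective
      rw [Matrix.toLin'_mul, Matrix.toLin'_mul]
      exact hc
    have hXSM : X = S + M := by
      apply (Matrix.toLin' (R := K) (m := Fin n) (n := Fin n)).injective
      rw [map_add]
      exact hxs
    intro t ht
    exact dtp_commute_nil t.1 X S M hSd hMn hSM hXSM (t.2.map (algebraMap ℚ K)) (hX t ht)
  · intro x hx h
    obtain ⟨Y, hY, rfl⟩ := AnnLie_exists hx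
    have h1 : ∀ Z ∈ ann T K, (Y * Z).trace = 0 := by
      intro Z hZ
      have h2 := h (Matrix.toLin' Z) ((toLin'_mem_gLie T K Z).2 hZ)
      rw [← AnnLie_mul, Matrix.trace_toLin'_eq] at h2
      exact h2
    have h3 : ∀ φ : K →ₗ[ℚ] ℚ, Y.map φ = 0 := by
      intro φ
      refine hT _ (AnnLie_map_mem hY φ) fun Z hZ => ?_
      rw [AnnLie_trace, h1 _ (AnnLie_alg_mem hZ), map_zero]
    have h4 : Y = 0 := by
      ext i j
      rw [Matrix.zero_apply, ← Module.forall_dual_apply_eq_zero_iff ℚ]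
      intro φ
      have := congrFun (congrFun (h3 φ) i) j
      exact this
    rw [h4, map_zero]

end Pool.Agent.B4801bT
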