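import Pool.Agent.W_b4801b_h32.Defs
import Pool.Agent.W_MP_b4801b_h67.Defs2

set_option autoImplicit false

/-!
# The determinant of Frobenius on a stable subspace

`algIn_of_mem_adjoin`: if all conjugates of `z` lie in `F` then all conjugates of `y ∈ ℚ(z)` lie in `F`.
Proof: `minpoly ℚ z` divides the polynomial `g` of `AlgIn`, so it splits over `F`; by
`IntermediateField.splits_of_mem_adjoin` (or: all embeddings of `ℚ(y)` into an algebraic closure of `F`
extend to `ℚ(z)`) the minimal polynomial of `y` splits over `F`.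

`arith`: Let `P` be a rational monic polynomial of degree `n`, all of whose complex roots have absolute value
`c > 0`; `K` an algebraically closed field of characteristic zero with an embedding `ι` into `ℂ`; let `s` be a
multiset contained in the multiset of roots of `P` in `K`, `N > 0` and `AlgIn F (s.prod ^ N)`; assume that
`F` embeds into `ℝ`, or that all elements `z` of `ratioGroup P ℂ` with `AlgIn F z` are roots of unity.  Then
`(s.prod ^ n) ^ M = (D ^ card s) ^ M` for some `M > 0`, `D` the product of all roots of `P`.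
Proof.  `z := s.prod ^ n / D ^ card s = ∏_{α ∈ s} ∏_β α / β` (`β` in the multiset of roots) is an element of
`ratioGroup P K`, and `ι z ∈ ratioGroup P ℂ`.  `D = ± P(0) ∈ ℚ` is not zero, `z ^ N = (s.prod ^ N) ^ n / D ^ (N card s)`
lies in `ℚ(s.prod ^ N)`, so `AlgIn F (z ^ N)`, and `AlgIn F (ι z ^ N)` (`ι` is a ring homomorphism, rational
polynomials).  If `F` embeds into `ℝ`: all complex roots of the polynomial of `AlgIn` are real, so
`ι z ^ N` is real of absolute value `1`, so its square is `1`.  Otherwise `ι z ^ N` is a root of unity by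
hypothesis.  `ι` is injective.
-/

noncomputable section

open Polynomial Pool.Agent.B4801b

namespace Pool.Agent.B4801bT

theorem Arith_isIntegral {k L : Type*} [Field k] [Field L] [Algebra k L] {z y : L}
    (hz : IsIntegral k z) (hy : y ∈ IntermediateField.adjoin k {z}) : IsIntegral k y := by
  have h1 : Algebra.IsAlgebraic k (IntermediateField.adjoin k {z}) :=
    IntermediateField.isAlgebraic_adjoin (by
      intro x hx
      rw [Set.mem_singleton_iff.1 hx]
      exact hz)
  exact (isAlgebraic_iff_isIntegral.1 (h1.isAlgebraic ⟨y, hy⟩)).map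
    (IntermediateField.adjoin k {z}).val

theorem algIn_of_mem_adjoin (F : Type*) [Field F] [Algebra ℚ F] {L : Type*} [Field L]
    [Algebra ℚ L] (z y : L) (hz : AlgIn F z) (hy : y ∈ IntermediateField.adjoin ℚ {z}) :
    AlgIn F y := by
  obtain ⟨g, hg0, hgs, hgz⟩ := hz
  have hzi : IsIntegral ℚ z := isAlgebraic_iff_isIntegral.1 ⟨g, hg0, hgz⟩
  have hzs : ((minpoly ℚ z).map (algebraMap ℚ F)).Splits :=
    hgs.of_dvd (Polynomial.map_ne_zero hg0) (Polynomial.map_dvd _ (minpoly.dvd ℚ z hgz))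
  have hys : ((minpoly ℚ y).map (algebraMap ℚ F)).Splits := by
    refine IntermediateField.splits_of_mem_adjoin (F := ℚ) (K := L) (L := F) (S := {z}) ?_ hy
    intro x hx
    rw [Set.mem_singleton_iff.1 hx]
    exact ⟨hzi, hzs⟩
  have hyi : IsIntegral ℚ y := Arith_isIntegral hzi hy
  exact ⟨minpoly ℚ y, minpoly.ne_zero hyi, hys, minpoly.aeval ℚ y⟩

/-- rational polynomials commute with homomorphisms of fields -/
theorem Arith_aeval {K : Type*} [Field K] [Algebra ℚ K] (ι : K →+* ℂ) (g : ℚ[X]) (x : K) :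
    aeval (ι x) g = ι (aeval x g) := by
  rw [aeval_def, aeval_def, hom_eval₂]
  congr 1
  exact Subsingleton.elim _ _

/-- the product of a multiset of numbers of absolute value `c` -/
theorem Arith_norm {K : Type*} [Field K] (ι : K →+* ℂ) (c : ℝ) (s : Multiset K)
    (hs : ∀ x ∈ s, ‖ι x‖ = c) : ‖ι s.prod‖ = c ^ Multiset.card s := by
  induction s using Multiset.induction with
  | empty => simp
  | cons a s ih =>
    rw [Multiset.prod_cons, map_mul, norm_mul, Multiset.card_cons,
      ih fun x hx => hs x (Multiset.mem_cons_of_mem hx), hs a (Multiset.mem_cons_self a s),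
      pow_succ']

/-- a real number of absolute value `1` -/
theorem Arith_real (F : Type*) [Field F] [Algebra ℚ F] (j : F →+* ℝ) (z : ℂ) (hz : ‖z‖ = 1)
    (hA : AlgIn F z) : z ^ 2 = 1 := by
  obtain ⟨g, hg0, hgs, hgz⟩ := hA
  have h1 : (g.map (algebraMap ℚ ℝ)).Splits := by
    have h2 := hgs.map j
    rw [Polynomial.map_map] at h2
    have h3 : j.comp (algebraMap ℚ F) = algebraMap ℚ ℝ := Subsingleton.elim _ _
    rwa [h3] at h2
  have h4 : ((g.map (algebraMap ℚ ℝ)).map (algebraMap ℝ ℂ)).IsRoot z := by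
    rw [Polynomial.map_map, Polynomial.IsRoot.def]
    have h3 : (algebraMap ℝ ℂ).comp (algebraMap ℚ ℝ) = algebraMap ℚ ℂ := Subsingleton.elim _ _
    rw [h3, eval_map_algebraMap]
    exact hgz
  obtain ⟨r, hr⟩ := h1.mem_range_of_isRoot (Polynomial.map_ne_zero hg0) h4
  have h5 : (r : ℂ) = z := hr
  rw [← h5] at hz ⊢
  rw [Complex.norm_real, Real.norm_eq_abs] at hz
  have h6 : r ^ 2 = 1 := by rw [← sq_abs, hz, one_pow]
  exact_mod_cast h6

/-- the quotient `a ^ n / D` for a root `a`, where `D` is the product of all roots -/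
theorem Arith_mem (P : ℚ[X]) {K : Type*} [Field K] [Algebra ℚ K] (ι : K →+* ℂ) (a : K)
    (ha0 : ι a ≠ 0) (ha : aeval a P = 0) (R : Multiset K)
    (hR : ∀ x ∈ R, ι x ≠ 0 ∧ aeval x P = 0) :
    ∃ u ∈ ratioGroup P ℂ, (u : ℂ) = ι a ^ Multiset.card R / ι R.prod := by
  induction R using Multiset.induction with
  | empty => exact ⟨1, one_mem _, by simp⟩
  | cons b R ih =>
    obtain ⟨u, hu, hu'⟩ := ih fun x hx => hR x (Multiset.mem_cons_of_mem hx)
    obtain ⟨hb0, hb⟩ := hR b (Multiset.mem_cons_self b R)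
    refine ⟨Units.mk0 (ι a) ha0 / Units.mk0 (ι b) hb0 * u, mul_mem (Subgroup.subset_closure
      ⟨Units.mk0 (ι a) ha0, Units.mk0 (ι b) hb0, ?_, ?_, rfl⟩) hu, ?_⟩
    · rw [Units.val_mk0, Arith_aeval, ha, map_zero]
    · rw [Units.val_mk0, Arith_aeval, hb, map_zero]
    · rw [Units.val_mul, Units.val_div_eq_div_val, Units.val_mk0, Units.val_mk0, hu',
        Multiset.prod_cons, Multiset.card_cons, map_mul, pow_succ', div_mul_div_comm]

theorem Arith_mem' (P : ℚ[X]) {K : Type*} [Field K] [Algebra ℚ K] (ι : K →+* ℂ)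
    (R : Multiset K) (hR : ∀ x ∈ R, ι x ≠ 0 ∧ aeval x P = 0) (s : Multiset K)
    (hs : ∀ x ∈ s, ι x ≠ 0 ∧ aeval x P = 0) :
    ∃ u ∈ ratioGroup P ℂ,
      (u : ℂ) = ι (s.prod ^ Multiset.card R / R.prod ^ Multiset.card s) := by
  induction s using Multiset.induction with
  | empty => exact ⟨1, one_mem _, by simp⟩
  | cons a s ih =>
    obtain ⟨u, hu, hu'⟩ := ih fun x hx => hs x (Multiset.mem_cons_of_mem hx)
    obtain ⟨ha0, ha⟩ := hs a (Multiset.mem_cons_self a s)
    obtain ⟨v, hv, hv'⟩ := Arith_mem P ι a ha0 ha R hR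
    refine ⟨v * u, mul_mem hv hu, ?_⟩
    rw [Units.val_mul, hu', hv', Multiset.prod_cons, Multiset.card_cons, mul_pow, pow_succ',
      mul_div_mul_comm, map_mul, map_div₀ ι (a ^ _), map_pow]

theorem arith (F : Type*) [Field F] [Algebra ℚ F] (P : ℚ[X]) (hP : P.Monic) (c : ℝ) (hc : 0 < c)
    (hpure : ∀ z : ℂ, aeval z P = 0 → ‖z‖ = c)
    (hZ : Nonempty (F →+* ℝ) ∨ ∀ z ∈ ratioGroup P ℂ, AlgIn F (z : ℂ) → ∃ N : ℕ, 0 < N ∧ z ^ N = 1)
    {K : Type*} [Field K] [IsAlgClosed K] [CharZero K] [Algebra ℚ K] (ι : K →+* ℂ)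
    (s : Multiset K) (hs : s ≤ P.aroots K) (N : ℕ) (hN : 0 < N) (hA : AlgIn F (s.prod ^ N)) :
    ∃ M : ℕ, 0 < M ∧ (s.prod ^ P.natDegree) ^ M = ((P.aroots K).prod ^ Multiset.card s) ^ M := by
  have hroot : ∀ x ∈ P.aroots K, ‖ι x‖ = c ∧ ι x ≠ 0 ∧ aeval x P = 0 := by
    intro x hx
    have h1 : aeval x P = 0 := ((mem_aroots (S := K)).1 hx).2
    have h2 : ‖ι x‖ = c := hpure _ (by rw [Arith_aeval, h1, map_zero])
    refine ⟨h2, ?_, h1⟩
    intro h3
    rw [h3, norm_zero] at h2
    exact hc.ne h2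
  have hs' : ∀ x ∈ s, x ∈ P.aroots K := fun x hx => Multiset.mem_of_le hs hx
  have hsplit : (P.map (algebraMap ℚ K)).Splits := IsAlgClosed.splits _
  have hmonic : (P.map (algebraMap ℚ K)).Monic := hP.map _
  have hdeg : (P.map (algebraMap ℚ K)).natDegree = P.natDegree := natDegree_map _
  have hcard : Multiset.card (P.aroots K) = P.natDegree := by
    rw [← hdeg]
    exact hsplit.natDegree_eq_card_roots.symm
  have hD : (P.aroots K).prod = algebraMap ℚ K ((-1) ^ P.natDegree * P.coeff 0) := by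
    have h1 := hsplit.coeff_zero_eq_prod_roots_of_monic hmonic
    rw [coeff_map, hdeg] at h1
    have h2 : (P.aroots K).prod = (P.map (algebraMap ℚ K)).roots.prod := rfl
    rw [map_mul, h1, h2, map_pow, map_neg, map_one, ← mul_assoc, ← mul_pow, neg_one_mul, neg_neg,
      one_pow, one_mul]
  have hnD : ‖ι (P.aroots K).prod‖ = c ^ P.natDegree := by
    rw [Arith_norm ι c _ fun x hx => (hroot x hx).1, hcard]
  have hns : ‖ι s.prod‖ = c ^ Multiset.card s := Arith_norm ι c _ fun x hx => (hroot x (hs' x hx)).1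
  have hD0 : (P.aroots K).prod ≠ 0 := by
    intro h
    rw [h, map_zero, norm_zero] at hnD
    exact (pow_pos hc _).ne hnD
  obtain ⟨u, hu, hu'⟩ := Arith_mem' P ι (P.aroots K) (fun x hx => (hroot x hx).2) s
    fun x hx => (hroot x (hs' x hx)).2
  rw [hcard] at hu'
  set z : K := s.prod ^ P.natDegree / (P.aroots K).prod ^ Multiset.card s with hz
  have hnz : ‖ι z‖ = 1 := by
    rw [hz, map_div₀, map_pow, map_pow, norm_div, norm_pow, norm_pow, hnD, hns, ← pow_mul,
      ← pow_mul, mul_comm]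
    exact div_self (pow_ne_zero _ hc.ne')
  have hzN : z ^ N ∈ IntermediateField.adjoin ℚ {s.prod ^ N} := by
    have h1 : z ^ N = (s.prod ^ N) ^ P.natDegree /
        (algebraMap ℚ K ((-1) ^ P.natDegree * P.coeff 0)) ^ (Multiset.card s * N) := by
      rw [hz, div_pow, hD, ← pow_mul, ← pow_mul, ← pow_mul, mul_comm N]
    rw [h1]
    exact div_mem (pow_mem (IntermediateField.mem_adjoin_simple_self ℚ _) _)
      (pow_mem (IntermediateField.algebraMap_mem _ _) _)
  have hAz : AlgIn F (ι (z ^ N)) := by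
    obtain ⟨g, h1, h2, h3⟩ := algIn_of_mem_adjoin F _ _ hA hzN
    exact ⟨g, h1, h2, by rw [Arith_aeval, h3, map_zero]⟩
  have hfin : ∃ M : ℕ, 0 < M ∧ (ι z) ^ M = 1 := by
    rcases hZ with ⟨⟨j⟩⟩ | hZ
    · refine ⟨N * 2, by positivity, ?_⟩
      rw [pow_mul, ← map_pow ι z N]
      refine Arith_real F j _ ?_ hAz
      rw [map_pow, norm_pow, hnz, one_pow]
    · obtain ⟨M, hM, hM'⟩ := hZ (u ^ N) (pow_mem hu N) (by
        rw [Units.val_pow_eq_pow_val, hu', ← map_pow]
        exact hAz)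
      refine ⟨N * M, Nat.mul_pos hN hM, ?_⟩
      rw [← hu', pow_mul]
      have h5 := congrArg (fun x : ℂˣ => (x : ℂ)) hM'
      simpa using h5
  obtain ⟨M, hM, hM'⟩ := hfin
  refine ⟨M, hM, ?_⟩
  have h6 : z ^ M = 1 := by
    apply ι.injective
    rw [map_pow, hM', map_one]
  rw [hz, div_pow, div_eq_one_iff_eq (pow_ne_zero _ (pow_ne_zero _ hD0))] at h6
  exact h6

end Pool.Agent.B4801bT
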