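import Pool.Agent.W_b4801b_h32.Regular

set_option autoImplicit false

/-!
# The centralizer of a maximal torus

Theorem: let `g` be a Lie algebra of endomorphisms of `V` which contains the nilpotent parts of its
elements and has nondegenerate trace form, `H` a maximal commutative space of semisimple elements of
`g`.  An element `x` of `g` which commutes with `H` lies in `H`.

Proof.  Let `C` be the set of the elements of `g` which commute with `H`; it is closed under
commutators.  Let `x ∈ C`, `x = s + m` with `s` semisimple, `m` nilpotent, both polynomials in `x`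
(`Module.End.exists_isNilpotent_isSemisimple`).  Then `m ∈ g` by `nil`, `s = x - m ∈ g`, both commute
with `H`, so `s ∈ H` by `max`.  So it is enough to prove: a nilpotent `m ∈ C` is zero.  By `nondeg` it is
enough that `tr (m z) = 0` for all `z ∈ g`; by `wt_induction` (with `U = g`, `C` the kernel of the linear
form `z ↦ tr (m z)`) for weight vectors `z ∈ g`.
* If `z` does not commute with some `h ∈ H`: `h z - z h = ν z` with `ν ≠ 0` and
  `ν tr (m z) = tr (m h z) - tr (m z h) = tr (m h z) - tr (h m z) = 0` as `m` commutes with `h`.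
* If `z ∈ C`: `z = s + m'` with `s ∈ H`, `m' ∈ C` nilpotent; `m s` is nilpotent (commuting, `m`
  nilpotent), so `tr (m s) = 0`; and `tr (m m') = 0` by the following.
Claim: for nilpotent `m, m' ∈ C` the product `m m'` is nilpotent.  Take a regular element `h0` of `H` on
`V` (`exists_regular` for the inclusion `H → End V`): its eigenspaces `E_μ` are joint eigenspaces of `H`,
and are preserved by `C`.  For `x = s + m ∈ C` as above: `x` is nilpotent iff `tr (x | E_μ) = 0` for all
`μ` (on `E_μ` the operator `s` is a scalar `c` and `m` is nilpotent, so the trace is `c dim E_μ`; if all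
these scalars are zero then `s = 0`).  So the set `N` of the nilpotent elements of `C` is a linear
subspace, closed under commutators (the trace of a commutator is zero on every `E_μ`).  `N` is a Lie
algebra of nilpotent endomorphisms of `V`.  By Engel's theorem
(`LieModule.isNilpotent_iff_forall'`, Mathlib `LieAlgebra.isEngelian_of_isNoetherian`) there is `k` with
`x₁ ⋯ x_k = 0` for all `x_i ∈ N`.  So `(m m')^k = 0`.
-/

noncomputable section

namespace Pool.Agent.B4801bT

variable {K : Type*} [Field K] [IsAlgClosed K] [CharZero K] {V : Type*} [AddCommGroup V]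
  [Module K V] [FiniteDimensional K V]

/-- A semisimple endomorphism is regular in the sense of von Neumann: `s = s q s` for a polynomial
`q` in `s`. -/
theorem Cent_regular {s : Module.End K V} (hs : s.IsSemisimple) :
    ∃ q ∈ Algebra.adjoin K {s}, s = s * q * s := by
  classical
  have hsq : Squarefree (minpoly K s) := hs.minpoly_squarefree
  set P : Polynomial K := minpoly K s with hP
  have hd : EuclideanDomain.gcd (Polynomial.X ^ 2) P ∣ (Polynomial.X : Polynomial K) := by
    have h1 : EuclideanDomain.gcd (Polynomial.X ^ 2) P ∣ (Polynomial.X : Polynomial K) ^ 2 :=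
      EuclideanDomain.gcd_dvd_left _ _
    have h2 : Squarefree (EuclideanDomain.gcd (Polynomial.X ^ 2) P) :=
      hsq.squarefree_of_dvd (EuclideanDomain.gcd_dvd_right _ _)
    exact (h2.dvd_pow_iff_dvd two_ne_zero).1 h1
  obtain ⟨c, hc⟩ := hd
  rw [EuclideanDomain.gcd_eq_gcd_ab] at hc
  set a := EuclideanDomain.gcdA (Polynomial.X ^ 2) P
  set b := EuclideanDomain.gcdB (Polynomial.X ^ 2) P
  refine ⟨Polynomial.aeval s (a * c), ?_, ?_⟩
  · rw [Algebra.adjoin_singleton_eq_range_aeval]
    exact ⟨a * c, rfl⟩
  · have h3 := congrArg (Polynomial.aeval s) hc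
    have h4 : Polynomial.aeval s P = 0 := minpoly.aeval K s
    have h5 : (Polynomial.X ^ 2 * a + P * b) * c
        = Polynomial.X * (a * c) * Polynomial.X + P * (b * c) := by ring
    rw [h5, map_add, map_mul, map_mul, map_mul _ P, h4, zero_mul, add_zero,
      Polynomial.aeval_X] at h3
    exact h3

/-- A semisimple endomorphism `s` with `tr (s q) = 0` for all polynomials `q` in `s` is zero. -/
theorem Cent_zero {s : Module.End K V} (hs : s.IsSemisimple)
    (h : ∀ q ∈ Algebra.adjoin K {s}, LinearMap.trace K V (s * q) = 0) : s = 0 := by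
  obtain ⟨q, hq, hsq⟩ := Cent_regular hs
  have he : IsIdempotentElem (s * q) := by
    show s * q * (s * q) = s * q
    rw [← mul_assoc, ← hsq]
  have h0 : s * q = 0 := LinearMap.IsIdempotentElem.eq_zero_of_trace_eq_zero he (h q hq)
  rw [hsq, h0, zero_mul]

theorem Cent_decomp {g H : Submodule K (Module.End K V)} (hg : AlgLie g)
    (hH : MaxTorus g H) {x : Module.End K V} (hx : x ∈ g) (hc : ∀ h ∈ H, Commute h x) :
    ∃ s m : Module.End K V, s ∈ H ∧ m ∈ g ∧ (∀ h ∈ H, Commute h m) ∧ IsNilpotent m ∧
      Commute s m ∧ x = s + m := by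
  obtain ⟨m, hm, s, hs, hmn, hss, hx'⟩ := x.exists_isNilpotent_isSemisimple
  have hcm : ∀ h ∈ H, Commute h m := fun h hh =>
    Algebra.commute_of_mem_adjoin_singleton_of_commute hm (hc h hh)
  have hcs : ∀ h ∈ H, Commute h s := fun h hh =>
    Algebra.commute_of_mem_adjoin_singleton_of_commute hs (hc h hh)
  have hms : Commute m s :=
    Algebra.commute_of_mem_adjoin_singleton_of_commute hs (Algebra.commute_of_mem_adjoin_self hm).symm
  have hmg : m ∈ g := hg.nil x hx s m hss hmn hms.symm (by rw [hx', add_comm])
  have hsg : s ∈ g := by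
    have : s = x - m := by rw [hx']; abel
    rw [this]
    exact g.sub_mem hx hmg
  exact ⟨s, m, hH.max s hsg hss hcs, hmg, hcm, hmn, hms.symm, by rw [hx', add_comm]⟩

/-- Characterization of the nilpotent elements of the centralizer. -/
theorem Cent_nil_iff {g H : Submodule K (Module.End K V)} (hg : AlgLie g)
    (hH : MaxTorus g H) {x : Module.End K V} (hx : x ∈ g) (hc : ∀ h ∈ H, Commute h x) :
    IsNilpotent x ↔ ∀ q ∈ Algebra.adjoin K (H : Set (Module.End K V)),
      LinearMap.trace K V (x * q) = 0 := by
  have key : ∀ y : Module.End K V, (∀ h ∈ H, Commute h y) → IsNilpotent y →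
      ∀ q ∈ Algebra.adjoin K (H : Set (Module.End K V)), LinearMap.trace K V (y * q) = 0 := by
    intro y hy hyn q hq
    have h1 : Commute y q :=
      Algebra.commute_of_mem_adjoin_of_forall_mem_commute hq (fun b hb => (hy b hb).symm)
    exact (LinearMap.isNilpotent_trace_of_isNilpotent (h1.isNilpotent_mul_right hyn)).eq_zero
  constructor
  · intro h
    exact key x hc h
  · intro h
    obtain ⟨s, m, hs, hm, hcm, hmn, hsm, hxe⟩ := Cent_decomp hg hH hx hc
    have h0 : s = 0 := by
      apply Cent_zero (hH.ss s hs)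
      intro q hq
      have hq' : q ∈ Algebra.adjoin K (H : Set (Module.End K V)) :=
        Algebra.adjoin_mono (by simpa using hs) hq
      have h1 := h q hq'
      rw [hxe, add_mul, map_add, key m hcm hmn q hq', add_zero] at h1
      exact h1
    rw [hxe, h0, zero_add]
    exact hmn

attribute [local instance 100] LieRing.ofAssociativeRing

/-- The Lie algebra of the nilpotent elements of the centralizer. -/
def Cent_N {g H : Submodule K (Module.End K V)} (hg : AlgLie g) (hH : MaxTorus g H) :
    LieSubalgebra K (Module.End K V) where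
  carrier := {x | x ∈ g ∧ (∀ h ∈ H, Commute h x) ∧
    ∀ q ∈ Algebra.adjoin K (H : Set (Module.End K V)), LinearMap.trace K V (x * q) = 0}
  add_mem' := by
    rintro a b ⟨ha1, ha2, ha3⟩ ⟨hb1, hb2, hb3⟩
    refine ⟨g.add_mem ha1 hb1, fun h hh => (ha2 h hh).add_right (hb2 h hh), fun q hq => ?_⟩
    rw [add_mul, map_add, ha3 q hq, hb3 q hq, add_zero]
  zero_mem' := ⟨g.zero_mem, fun h _ => Commute.zero_right h, fun q _ => by
    rw [zero_mul, map_zero]⟩
  smul_mem' := by
    rintro c a ⟨ha1, ha2, ha3⟩
    refine ⟨g.smul_mem c ha1, fun h hh => (ha2 h hh).smul_right c, fun q hq => ?_⟩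
    rw [smul_mul_assoc, map_smul, ha3 q hq, smul_zero]
  lie_mem' := by
    rintro a b ⟨ha1, ha2, ha3⟩ ⟨hb1, hb2, hb3⟩
    have hab : ⁅a, b⁆ = a * b - b * a := rfl
    refine ⟨?_, fun h hh => ?_, fun q hq => ?_⟩
    · rw [hab]; exact hg.lie a ha1 b hb1
    · rw [hab]
      exact ((ha2 h hh).mul_right (hb2 h hh)).sub_right ((hb2 h hh).mul_right (ha2 h hh))
    · have h1 : Commute a q :=
        Algebra.commute_of_mem_adjoin_of_forall_mem_commute hq (fun b hb => (ha2 b hb).symm)
      rw [hab, sub_mul, map_sub, sub_eq_zero, mul_assoc, mul_assoc, h1.eq,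
        LinearMap.trace_mul_comm K a (b * q), mul_assoc, ← h1.eq]

theorem Cent_trace {g H : Submodule K (Module.End K V)} (hg : AlgLie g)
    (hH : MaxTorus g H) {x y : Module.End K V} (hx : x ∈ g) (hcx : ∀ h ∈ H, Commute h x)
    (hxn : IsNilpotent x) (hy : y ∈ g) (hcy : ∀ h ∈ H, Commute h y) (hyn : IsNilpotent y) :
    LinearMap.trace K V (x * y) = 0 := by
  have hxN : x ∈ Cent_N hg hH := ⟨hx, hcx, (Cent_nil_iff hg hH hx hcx).1 hxn⟩
  have hyN : y ∈ Cent_N hg hH := ⟨hy, hcy, (Cent_nil_iff hg hH hy hcy).1 hyn⟩
  have hnil : LieModule.IsNilpotent (Cent_N hg hH) V := by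
    rw [LieModule.isNilpotent_iff_forall' (R := K)]
    rintro ⟨z, hz⟩
    exact (Cent_nil_iff hg hH hz.1 hz.2.1).2 hz.2.2
  have h0 := LieModule.traceForm_eq_zero_of_isNilpotent K (Cent_N hg hH) V
  have h1 : LieModule.traceForm K (Cent_N hg hH) V ⟨x, hxN⟩ ⟨y, hyN⟩ = 0 := by
    rw [h0]; rfl
  rw [LieModule.traceForm_apply_apply] at h1
  exact h1

theorem mem_of_forall_commute {g H : Submodule K (Module.End K V)} (hg : AlgLie g)
    (hH : MaxTorus g H) : ∀ x ∈ g, (∀ h ∈ H, Commute h x) → x ∈ H := by
  intro x hx hc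
  obtain ⟨s, m, hs, hm, hcm, hmn, hsm, hxe⟩ := Cent_decomp hg hH hx hc
  have hm0 : m = 0 := by
    apply hg.nondeg m hm
    have hle : g ≤ LinearMap.ker ((LinearMap.trace K V).comp (LinearMap.mulLeft K m)) := by
      apply wt_induction H g _ hH.ss hH.comm
      · intro h hh u hu
        exact hg.lie h (hH.le hh) u hu
      · intro u hu hwt
        rw [LinearMap.mem_ker, LinearMap.comp_apply, LinearMap.mulLeft_apply]
        by_cases hcu : ∀ h ∈ H, Commute h u
        · obtain ⟨s', m', hs', hm', hcm', hmn', hsm', hue⟩ := Cent_decomp hg hH hu hcu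
          rw [hue, mul_add, map_add, Cent_trace hg hH hm hcm hmn hm' hcm' hmn', add_zero]
          exact (LinearMap.isNilpotent_trace_of_isNilpotent
            ((hcm s' hs').symm.isNilpotent_mul_right hmn)).eq_zero
        · push Not at hcu
          obtain ⟨h, hh, hnc⟩ := hcu
          obtain ⟨ν, hν⟩ := hwt h hh
          have hν0 : ν ≠ 0 := by
            rintro rfl
            apply hnc
            rw [zero_smul, sub_eq_zero] at hν
            exact hν
          have h1 : ν * LinearMap.trace K V (m * u) = 0 := by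
            rw [← smul_eq_mul, ← map_smul, ← mul_smul_comm, ← hν, mul_sub, map_sub, sub_eq_zero,
              ← mul_assoc, ← (hcm h hh).eq, mul_assoc, LinearMap.trace_mul_comm K h (m * u),
              mul_assoc]
          exact (mul_eq_zero.1 h1).resolve_left hν0
    intro y hy
    have := hle hy
    rwa [LinearMap.mem_ker, LinearMap.comp_apply, LinearMap.mulLeft_apply] at this
  rw [hxe, hm0, add_zero]
  exact hs

end Pool.Agent.B4801bT
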