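import Mathlib

set_option autoImplicit false

/-!
# Tensors, abstract logarithms, replicas

Basic definitions for the maximal torus criterion of `MP_b4801b_ag`.
-/

noncomputable section

open Polynomial

namespace Pool.Agent.B4801bT

/-- `n × n` matrices. -/
abbrev Mat (n : ℕ) (R : Type*) := Matrix (Fin n) (Fin n) R

/-- Matrices of the operators on the `a`-th tensor power of `R ^ n`, whose standard basis is indexed
by the words `Fin a → Fin n`. -/
abbrev TMat (a n : ℕ) (R : Type*) := Matrix (Fin a → Fin n) (Fin a → Fin n) R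

section Tensor

variable {R : Type*} [CommRing R] {n : ℕ}

/-- The `a`-th tensor power `A ⊗ ⋯ ⊗ A` of the matrix `A`. -/
def tp (a : ℕ) (A : Mat n R) : TMat a n R := fun I J => ∏ i, A (I i) (J i)

/-- The derivation `∑ 1 ⊗ ⋯ ⊗ Y ⊗ ⋯ ⊗ 1` of the `a`-th tensor power defined by the matrix `Y`. -/
def dtp (a : ℕ) (Y : Mat n R) : TMat a n R :=
  fun I J => ∑ i, if ∀ j, j ≠ i → I j = J j then Y (I i) (J i) else 0

lemma dtp_add (a : ℕ) (Y Z : Mat n R) : dtp a (Y + Z) = dtp a Y + dtp a Z := by
  ext I J
  simp only [dtp, Matrix.add_apply, ← Finset.sum_add_distrib]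
  refine Finset.sum_congr rfl fun i _ => ?_
  split_ifs
  · rfl
  · rw [add_zero]

lemma dtp_smul (a : ℕ) (c : R) (Y : Mat n R) : dtp a (c • Y) = c • dtp a Y := by
  ext I J
  simp only [dtp, Matrix.smul_apply, smul_eq_mul, Finset.mul_sum]
  refine Finset.sum_congr rfl fun i _ => ?_
  split_ifs
  · rfl
  · rw [mul_zero]

lemma dtp_zero (a : ℕ) : dtp a (0 : Mat n R) = 0 := by
  have := dtp_smul a (0 : R) (0 : Mat n R)
  rwa [zero_smul, zero_smul] at this

end Tensor

/-- A set of rational operators on the tensor powers of `ℚ ^ n`. -/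
abbrev TensorSet (n : ℕ) := Set (Σ a : ℕ, TMat a n ℚ)

/-- The matrices `Y` over `K` whose derivations of the tensor powers commute with the operators of `T`:
the Lie algebra (over `K`) of the group of all matrices whose tensor powers commute with the
operators of `T`. -/
def ann {n : ℕ} (T : TensorSet n) (K : Type*) [Field K] [Algebra ℚ K] : Submodule K (Mat n K) where
  carrier := {Y | ∀ t ∈ T, dtp t.1 Y * t.2.map (algebraMap ℚ K) =
    t.2.map (algebraMap ℚ K) * dtp t.1 Y}
  add_mem' := fun {a b} ha hb t ht => by rw [dtp_add, add_mul, mul_add, ha t ht, hb t ht]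
  zero_mem' := fun t _ => by rw [dtp_zero, zero_mul, mul_zero]
  smul_mem' := fun c Y hY t ht => by rw [dtp_smul, Matrix.smul_mul, Matrix.mul_smul, hY t ht]

/-- The matrix `A` is diagonalizable: `P⁻¹ A P` is diagonal for an invertible matrix `P`. -/
def Diagonalizable {ι : Type*} [Fintype ι] [DecidableEq ι] {K : Type*} [Field K]
    (A : Matrix ι ι K) : Prop :=
  ∃ (P : Matrix ι ι K) (d : ι → K), IsUnit P ∧ A * P = P * Matrix.diagonal d

/-- The elements `v₁, …, v_d` of a commutative group are multiplicatively independent. -/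
def MulIndep {G : Type*} [CommGroup G] {d : ℕ} (v : Fin d → G) : Prop :=
  ∀ m : Fin d → ℤ, ∏ i, v i ^ m i = 1 → m = 0

/-- The subgroup of `Lˣ` generated by the quotients `a / b` of nonzero roots `a`, `b` of the rational
polynomial `P` in the field `L`. -/
def ratioGroup (P : ℚ[X]) (L : Type*) [Field L] [Algebra ℚ L] : Subgroup Lˣ :=
  Subgroup.closure {u | ∃ a b : Lˣ, aeval (a : L) P = 0 ∧ aeval (b : L) P = 0 ∧ u = a / b}

/-- The rank of the Lie algebra of `T` modulo the scalars is at most the rank of the group generated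
by the quotients of the complex roots of `P`: for every commutative space `U` of diagonalizable
matrices of trace zero in this Lie algebra over `ℂ` there are `dim U` multiplicatively independent
elements of this group. -/
def RankLE {n : ℕ} (T : TensorSet n) (P : ℚ[X]) : Prop :=
  ∀ U : Submodule ℂ (Mat n ℂ), U ≤ ann T ℂ → (∀ y ∈ U, y.trace = 0) → (∀ y ∈ U, Diagonalizable y) →
    (∀ y ∈ U, ∀ z ∈ U, y * z = z * y) →
      ∃ v : Fin (Module.finrank ℂ U) → ℂˣ, (∀ i, v i ∈ ratioGroup P ℂ) ∧ MulIndep v

/-- The trace form `tr (Y Z)` is nondegenerate on the Lie algebra (over `ℚ`) of `T`. -/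
def TraceNondeg {n : ℕ} (T : TensorSet n) : Prop :=
  ∀ Y ∈ ann T ℚ, (∀ Z ∈ ann T ℚ, (Y * Z).trace = 0) → Y = 0

/-- An abstract logarithm: `f (a b) = f a + f b` for nonzero `a`, `b`. -/
def IsLog {K : Type*} [Field K] (f : K → K) : Prop :=
  ∀ a b : K, a ≠ 0 → b ≠ 0 → f (a * b) = f a + f b

/-- `B` is the operator `f(A)`: it acts on the generalized eigenspace of `A` for `μ` as the scalar
`f μ`. -/
def IsRep {K : Type*} [Field K] {V : Type*} [AddCommGroup V] [Module K V] (f : K → K)
    (A B : Module.End K V) : Prop :=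
  ∀ μ : K, ∀ v ∈ A.maxGenEigenspace μ, B v = f μ • v

/-- The truncated logarithm `∑_{1 ≤ i ≤ m} (-1)^(i-1) x^i / i` of `1 + x`. -/
def lg (K : Type*) [Field K] {R : Type*} [Ring R] [Algebra K R] (m : ℕ) (x : R) : R :=
  ∑ i ∈ Finset.range m, ((-1 : K) ^ i / (i + 1 : K)) • x ^ (i + 1)

end Pool.Agent.B4801bT
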