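import Pool.Agent.W_b4801b_h32.Defs

set_option autoImplicit false

/-!
# Descent of complements

`baseW W` is the `K`-span in `K ^ n` of the subspace `W` of `K₀ ^ n`.
`finrank_baseW`: `dim_K (baseW W) = dim_{K₀} W` (a basis of `W` stays linearly independent over `K`).
`det_baseW`: if `W` is stable under the matrix `A` over `K₀`, then `det (A | baseW W) = det (A | W)`
(same matrix in a basis of `W`).

`exists_proj_descent`: let `R : G → M_n(K₀)` be multiplicative, `W` an `R`-stable subspace of `K₀ ^ n`, `Γ` a subgroup of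
finite index and `P` a projection of `K ^ n` onto `baseW W` which commutes with `R g`, `g ∈ Γ`.  Then there is a
projection of `K₀ ^ n` onto `W` which commutes with all `R g`.
Proof.  Let `λ : K → K₀` be a `K₀`-linear map with `λ(1) = 1`, applied to vectors and matrices entrywise.  `P₀ :=
λ(matrix of P)`, so `P₀ v = λ(P v)` for `v ∈ K₀ ^ n`.  `λ(baseW W) ⊆ W` (`λ(κ w) = λ(κ) w` for `w ∈ W`), so `P₀` maps into
`W`, and `P₀ w = w` for `w ∈ W`.  `P₀` commutes with `R g`, `g ∈ Γ`, as `λ(M · R g) = λ(M) R g`.  Average over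
the finite set `G / Γ`: `P₁ = 1/m ∑ R(g) P₀ R(g)⁻¹` (well defined) is a projection onto `W` which commutes with
all `R g` (characteristic zero).
-/

noncomputable section

namespace Pool.Agent.B4801bT

variable {K₀ : Type*} [Field K₀] {K : Type*} [Field K] [Algebra K₀ K] {n : ℕ}

/-- The `K`-span of the subspace `W` of `K₀ ^ n` in `K ^ n`. -/
def baseW (K : Type*) [Field K] [Algebra K₀ K] (W : Submodule K₀ (Fin n → K₀)) :
    Submodule K (Fin n → K) :=
  Submodule.span K ((fun (v : Fin n → K₀) (i : Fin n) => algebraMap K₀ K (v i)) '' W)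

/-- Entrywise inclusion. -/
def Descent_inc (K₀ K : Type*) [Field K₀] [Field K] [Algebra K₀ K] (n : ℕ) :
    (Fin n → K₀) →ₗ[K₀] (Fin n → K) where
  toFun v := fun i => algebraMap K₀ K (v i)
  map_add' v w := by
    funext i
    simp
  map_smul' c v := by
    funext i
    simp [Algebra.smul_def]

theorem Descent_inc_smul (c : K₀) (v : Fin n → K₀) :
    Descent_inc K₀ K n (c • v) = (algebraMap K₀ K c) • Descent_inc K₀ K n v := by
  funext i
  show algebraMap K₀ K (c * v i) = algebraMap K₀ K c * algebraMap K₀ K (v i)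
  rw [map_mul]

theorem Descent_baseW_eq (W : Submodule K₀ (Fin n → K₀)) :
    baseW K W = Submodule.span K (Descent_inc K₀ K n '' W) := rfl

theorem Descent_inc_mem (W : Submodule K₀ (Fin n → K₀)) (w : Fin n → K₀) (hw : w ∈ W) :
    Descent_inc K₀ K n w ∈ baseW K W :=
  Submodule.subset_span ⟨w, hw, rfl⟩

theorem Descent_inc_toLin (A : Mat n K₀) (v : Fin n → K₀) :
    Matrix.toLin' (A.map (algebraMap K₀ K)) (Descent_inc K₀ K n v) =
      Descent_inc K₀ K n (Matrix.toLin' A v) := by
  funext i
  simp [Descent_inc, Matrix.toLin'_apply, Matrix.mulVec, dotProduct]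

/-- Linear independence is preserved. -/
theorem Descent_indep {d : ℕ} (v : Fin d → (Fin n → K₀)) (hv : LinearIndependent K₀ v) :
    LinearIndependent K (fun i => Descent_inc K₀ K n (v i)) := by
  -- a left inverse of `K₀ ^ d → K₀ ^ n`
  have hker : LinearMap.ker (Fintype.linearCombination K₀ v) = ⊥ := by
    rw [LinearMap.ker_eq_bot]
    exact linearIndependent_iff_injective_fintypeLinearCombination.mp hv
  obtain ⟨N, hN⟩ := LinearMap.exists_leftInverse_of_injective _ hker
  rw [Fintype.linearIndependent_iff]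
  intro g hg j
  -- the functional `N_j`
  have hNv : ∀ i, N (v i) j = if i = j then 1 else 0 := by
    intro i
    have h1 := congrArg (fun f : (Fin d → K₀) →ₗ[K₀] (Fin d → K₀) => f (Pi.single i 1) j) hN
    simp only [LinearMap.comp_apply, LinearMap.id_apply] at h1
    rw [Fintype.linearCombination_apply_single, one_smul] at h1
    rw [h1, Pi.single_apply]
    by_cases h : j = i
    · subst h; simp
    · rw [if_neg h, if_neg (fun h' => h h'.symm)]
  have hexp : ∀ x : Fin n → K₀, N x j = ∑ k, x k * N (Pi.single k 1) j := by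
    intro x
    have h1 : x = ∑ k, x k • (Pi.single k (1 : K₀) : Fin n → K₀) := by
      funext l
      simp [Pi.single_apply]
    conv_lhs => rw [h1]
    rw [map_sum, Finset.sum_apply]
    simp
  have hsum : ∑ k, (∑ i, g i • Descent_inc K₀ K n (v i)) k * algebraMap K₀ K (N (Pi.single k 1) j) =
      g j := by
    have h1 : ∀ k, (∑ i, g i • Descent_inc K₀ K n (v i)) k *
        algebraMap K₀ K (N (Pi.single k 1) j) =
        ∑ i, g i * algebraMap K₀ K (v i k * N (Pi.single k 1) j) := by
      intro k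
      rw [Finset.sum_apply, Finset.sum_mul]
      apply Finset.sum_congr rfl
      intro i _
      rw [Pi.smul_apply, smul_eq_mul, map_mul, mul_assoc]
      rfl
    simp only [h1]
    rw [Finset.sum_comm]
    have h2 : ∀ i, ∑ k, g i * algebraMap K₀ K (v i k * N (Pi.single k 1) j) =
        g i * algebraMap K₀ K (N (v i) j) := by
      intro i
      rw [← Finset.mul_sum, ← map_sum, ← hexp]
    simp only [h2, hNv]
    simp
  rw [hg] at hsum
  rw [← hsum]
  simp

/-- The basis of `baseW`. -/
theorem Descent_span {d : ℕ} (W : Submodule K₀ (Fin n → K₀)) (b : Module.Basis (Fin d) K₀ W) :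
    Submodule.span K (Set.range fun i => Descent_inc K₀ K n ((b i : W) : Fin n → K₀)) =
      baseW K W := by
  apply le_antisymm
  · rw [Submodule.span_le]
    rintro _ ⟨i, rfl⟩
    exact Descent_inc_mem W _ (b i).2
  · rw [Descent_baseW_eq, Submodule.span_le]
    rintro _ ⟨w, hw, rfl⟩
    have h1 := congrArg W.subtype (b.sum_repr ⟨w, hw⟩)
    rw [map_sum] at h1
    simp only [map_smul] at h1
    have h2 : Descent_inc K₀ K n w = ∑ i, algebraMap K₀ K (b.repr ⟨w, hw⟩ i) •
        Descent_inc K₀ K n ((b i : W) : Fin n → K₀) := by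
      have h3 : w = ∑ i, b.repr ⟨w, hw⟩ i • ((b i : W) : Fin n → K₀) := h1.symm
      conv_lhs => rw [h3]
      rw [map_sum]
      exact Finset.sum_congr rfl fun i _ => Descent_inc_smul _ _
    show Descent_inc K₀ K n w ∈ _
    rw [h2]
    apply Submodule.sum_mem
    intro i _
    apply Submodule.smul_mem
    exact Submodule.subset_span ⟨i, rfl⟩

/-- The basis of `baseW`. -/
def Descent_basis {d : ℕ} (K : Type*) [Field K] [Algebra K₀ K] (W : Submodule K₀ (Fin n → K₀))
    (b : Module.Basis (Fin d) K₀ W) : Module.Basis (Fin d) K (baseW K W) :=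
  Module.Basis.mk (v := fun i => (⟨Descent_inc K₀ K n ((b i : W) : Fin n → K₀),
      Descent_inc_mem W _ (b i).2⟩ : baseW K W))
    (by
      have h1 : LinearIndependent K₀ (fun i => ((b i : W) : Fin n → K₀)) :=
        b.linearIndependent.map' W.subtype (Submodule.ker_subtype W)
      have h2 := Descent_indep (K := K) _ h1
      exact LinearIndependent.of_comp (baseW K W).subtype h2)
    (by
      intro x _
      have hx : (x : Fin n → K) ∈ Submodule.span K
          (Set.range fun i => Descent_inc K₀ K n ((b i : W) : Fin n → K₀)) := by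
        rw [Descent_span W b]; exact x.2
      have h3 : Submodule.map (baseW K W).subtype (Submodule.span K (Set.range fun i =>
          (⟨Descent_inc K₀ K n ((b i : W) : Fin n → K₀),
            Descent_inc_mem W _ (b i).2⟩ : baseW K W))) = Submodule.span K
          (Set.range fun i => Descent_inc K₀ K n ((b i : W) : Fin n → K₀)) := by
        rw [Submodule.map_span, ← Set.range_comp]
        rfl
      rw [← h3] at hx
      obtain ⟨y, hy, hyx⟩ := hx
      have h4 : y = x := Subtype.ext hyx
      rw [← h4]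
      exact hy)

theorem finrank_baseW (W : Submodule K₀ (Fin n → K₀)) :
    Module.finrank K (baseW K W) = Module.finrank K₀ W := by
  rw [Module.finrank_eq_card_basis (Descent_basis K W (Module.finBasis K₀ W)), Fintype.card_fin]

theorem baseW_stable (W : Submodule K₀ (Fin n → K₀)) (A : Mat n K₀)
    (hW : ∀ v ∈ W, Matrix.toLin' A v ∈ W) :
    ∀ v ∈ baseW K W, Matrix.toLin' (A.map (algebraMap K₀ K)) v ∈ baseW K W := by
  intro v hv
  rw [Descent_baseW_eq] at hv
  induction hv using Submodule.span_induction with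
  | mem x hx =>
    obtain ⟨w, hw, rfl⟩ := hx
    rw [Descent_inc_toLin]
    exact Descent_inc_mem W _ (hW w hw)
  | zero => rw [map_zero]; exact Submodule.zero_mem _
  | add x y _ _ hx hy => rw [map_add]; exact Submodule.add_mem _ hx hy
  | smul c x _ hx => rw [map_smul]; exact Submodule.smul_mem _ c hx

theorem det_baseW (W : Submodule K₀ (Fin n → K₀)) (A : Mat n K₀)
    (hW : ∀ v ∈ W, Matrix.toLin' A v ∈ W) :
    LinearMap.det ((Matrix.toLin' (A.map (algebraMap K₀ K))).restrict (baseW_stable W A hW)) =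
      algebraMap K₀ K (LinearMap.det ((Matrix.toLin' A).restrict hW)) := by
  set b := Module.finBasis K₀ W with hb
  set c := Descent_basis K W b with hc
  rw [← LinearMap.det_toMatrix c, ← LinearMap.det_toMatrix b]
  have hcv : ∀ i, ((c i : baseW K W) : Fin n → K) =
      Descent_inc K₀ K n ((b i : W) : Fin n → K₀) := by
    intro i
    rw [hc, Descent_basis, Module.Basis.mk_apply]
  have hM : LinearMap.toMatrix c c
      ((Matrix.toLin' (A.map (algebraMap K₀ K))).restrict (baseW_stable W A hW)) =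
      (LinearMap.toMatrix b b ((Matrix.toLin' A).restrict hW)).map (algebraMap K₀ K) := by
    ext i j
    rw [LinearMap.toMatrix_apply, Matrix.map_apply, LinearMap.toMatrix_apply]
    have h1 : ((Matrix.toLin' (A.map (algebraMap K₀ K))).restrict (baseW_stable W A hW)) (c j) =
        ∑ k, algebraMap K₀ K (b.repr (((Matrix.toLin' A).restrict hW) (b j)) k) • c k := by
      apply Subtype.ext
      show Matrix.toLin' (A.map (algebraMap K₀ K)) ((c j : baseW K W) : Fin n → K) =
        (baseW K W).subtype _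
      rw [hcv, Descent_inc_toLin, map_sum]
      have h2 := congrArg W.subtype (b.sum_repr (((Matrix.toLin' A).restrict hW) (b j)))
      rw [map_sum] at h2
      simp only [map_smul] at h2
      have h3 : Matrix.toLin' A ((b j : W) : Fin n → K₀) =
        ∑ k, b.repr (((Matrix.toLin' A).restrict hW) (b j)) k • ((b k : W) : Fin n → K₀) :=
        h2.symm
      rw [h3, map_sum]
      apply Finset.sum_congr rfl
      intro k _
      rw [Descent_inc_smul, map_smul]
      congr 1
      exact (hcv k).symm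
    rw [h1, map_sum, Finsupp.finsetSum_apply]
    simp only [map_smul, Module.Basis.repr_self, Finsupp.smul_apply, Finsupp.single_apply,
      smul_eq_mul]
    simp
  rw [hM, ← RingHom.mapMatrix_apply, ← RingHom.map_det]

theorem exists_proj_descent [CharZero K₀] {G : Type*} [Group G] (R : G →* Mat n K₀)
    (W : Submodule K₀ (Fin n → K₀)) (hW : ∀ g, ∀ v ∈ W, Matrix.toLin' (R g) v ∈ W)
    (Γ : Subgroup G) (hΓ : Γ.FiniteIndex) (P : Module.End K (Fin n → K))
    (hP1 : ∀ v, P v ∈ baseW K W) (hP2 : ∀ v ∈ baseW K W, P v = v)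
    (hP3 : ∀ g ∈ Γ, Commute P (Matrix.toLin' ((R g).map (algebraMap K₀ K)))) :
    ∃ P₀ : Module.End K₀ (Fin n → K₀), (∀ v, P₀ v ∈ W) ∧ (∀ v ∈ W, P₀ v = v) ∧
      ∀ g, Commute P₀ (Matrix.toLin' (R g)) := by
  classical
  obtain ⟨lam, hlam⟩ := LinearMap.exists_leftInverse_of_injective (Algebra.linearMap K₀ K)
    (by rw [LinearMap.ker_eq_bot]; exact (algebraMap K₀ K).injective)
  have hlam1 : ∀ c : K₀, lam (algebraMap K₀ K c) = c := by
    intro c
    have := congrArg (fun f : K₀ →ₗ[K₀] K₀ => f c) hlam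
    exact this
  -- entrywise lambda
  set Lam : (Fin n → K) →ₗ[K₀] (Fin n → K₀) :=
    { toFun := fun x i => lam (x i)
      map_add' := fun x y => by funext i; simp
      map_smul' := fun c x => by funext i; simp } with hLam
  have hLaminc : ∀ v, Lam (Descent_inc K₀ K n v) = v := by
    intro v
    funext i
    exact hlam1 (v i)
  have hLamA : ∀ (A : Mat n K₀) (x : Fin n → K),
      Lam (Matrix.toLin' (A.map (algebraMap K₀ K)) x) = Matrix.toLin' A (Lam x) := by
    intro A x
    funext i
    show lam (Matrix.toLin' (A.map (algebraMap K₀ K)) x i) = Matrix.toLin' A (Lam x) i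
    rw [Matrix.toLin'_apply, Matrix.toLin'_apply, Matrix.mulVec, Matrix.mulVec, dotProduct,
      dotProduct, map_sum]
    apply Finset.sum_congr rfl
    intro j _
    rw [Matrix.map_apply, ← Algebra.smul_def, map_smul, smul_eq_mul]
    rfl
  have hLamW : ∀ x ∈ baseW K W, ∀ κ : K, Lam (κ • x) ∈ W := by
    intro x hx
    rw [Descent_baseW_eq] at hx
    induction hx using Submodule.span_induction with
    | mem x hx =>
      obtain ⟨w, hw, rfl⟩ := hx
      intro κ
      have h1 : Lam (κ • Descent_inc K₀ K n w) = lam κ • w := by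
        funext i
        show lam (κ * algebraMap K₀ K (w i)) = lam κ * w i
        rw [mul_comm, ← Algebra.smul_def, map_smul, smul_eq_mul, mul_comm]
      rw [h1]
      exact W.smul_mem _ hw
    | zero => intro κ; rw [smul_zero, map_zero]; exact W.zero_mem
    | add x y _ _ hx hy =>
      intro κ
      rw [smul_add, map_add]
      exact W.add_mem (hx κ) (hy κ)
    | smul c x _ hx =>
      intro κ
      rw [smul_smul]
      exact hx _
  set Q : Module.End K₀ (Fin n → K₀) :=
    Lam ∘ₗ (P.restrictScalars K₀) ∘ₗ (Descent_inc K₀ K n) with hQ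
  have hQapp : ∀ v, Q v = Lam (P (Descent_inc K₀ K n v)) := fun v => rfl
  have hQW : ∀ v, Q v ∈ W := by
    intro v
    rw [hQapp]
    have := hLamW _ (hP1 (Descent_inc K₀ K n v)) 1
    rwa [one_smul] at this
  have hQid : ∀ v ∈ W, Q v = v := by
    intro v hv
    rw [hQapp, hP2 _ (Descent_inc_mem W v hv), hLaminc]
  set ρ : G → Module.End K₀ (Fin n → K₀) := fun g => Matrix.toLin' (R g) with hρ
  have hρmul : ∀ g h, ρ (g * h) = ρ g * ρ h := by
    intro g h
    simp only [hρ]
    rw [map_mul, Matrix.toLin'_mul]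
    rfl
  have hρone : ρ 1 = 1 := by
    simp only [hρ]
    rw [map_one, Matrix.toLin'_one]
    rfl
  have hQcomm : ∀ g ∈ Γ, ρ g * Q = Q * ρ g := by
    intro g hg
    apply LinearMap.ext
    intro v
    show Matrix.toLin' (R g) (Q v) = Q (Matrix.toLin' (R g) v)
    rw [hQapp, hQapp, ← hLamA, ← Descent_inc_toLin]
    congr 1
    have := congrArg (fun f : Module.End K (Fin n → K) => f (Descent_inc K₀ K n v)) (hP3 g hg)
    exact this.symm
  set F : G → Module.End K₀ (Fin n → K₀) := fun g => ρ g * Q * ρ g⁻¹ with hF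
  have hFcoset : ∀ g, ∀ γ ∈ Γ, F (g * γ) = F g := by
    intro g γ hγ
    simp only [hF]
    rw [mul_inv_rev, hρmul, hρmul, mul_assoc (ρ g), hQcomm γ hγ]
    have h1 : ρ γ * ρ γ⁻¹ = 1 := by rw [← hρmul, mul_inv_cancel, hρone]
    calc ρ g * (Q * ρ γ) * (ρ γ⁻¹ * ρ g⁻¹) = ρ g * Q * (ρ γ * ρ γ⁻¹) * ρ g⁻¹ := by
          simp only [mul_assoc]
      _ = ρ g * Q * ρ g⁻¹ := by rw [h1, mul_one]
  have hFW : ∀ g v, F g v ∈ W := by
    intro g v
    exact hW g _ (hQW _)
  have hFid : ∀ g, ∀ v ∈ W, F g v = v := by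
    intro g v hv
    show ρ g (Q (ρ g⁻¹ v)) = v
    rw [hQid _ (hW g⁻¹ v hv)]
    show (ρ g * ρ g⁻¹) v = v
    rw [← hρmul, mul_inv_cancel, hρone]
    rfl
  have hFconj : ∀ h g, ρ h * F g = F (h * g) * ρ h := by
    intro h g
    simp only [hF]
    rw [mul_inv_rev, hρmul h g, hρmul g⁻¹ h⁻¹]
    have h1 : ρ h⁻¹ * ρ h = 1 := by rw [← hρmul, inv_mul_cancel, hρone]
    calc ρ h * (ρ g * Q * ρ g⁻¹) = ρ h * ρ g * Q * ρ g⁻¹ * 1 := by
          rw [mul_one]; simp only [mul_assoc]
      _ = ρ h * ρ g * Q * (ρ g⁻¹ * ρ h⁻¹) * ρ h := by rw [← h1]; simp only [mul_assoc]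
  have : Fintype (G ⧸ Γ) := Subgroup.fintypeQuotientOfFiniteIndex
  set m : ℕ := Fintype.card (G ⧸ Γ) with hm
  have hm0 : (m : K₀) ≠ 0 := by
    have : m ≠ 0 := Fintype.card_ne_zero
    exact_mod_cast this
  set f : G ⧸ Γ → Module.End K₀ (Fin n → K₀) := fun q => F q.out with hf
  have hfmk : ∀ g : G, f (g : G ⧸ Γ) = F g := by
    intro g
    obtain ⟨γ, hγ⟩ := QuotientGroup.mk_out_eq_mul Γ g
    simp only [hf]
    rw [hγ]
    exact hFcoset g γ γ.2
  set S : Module.End K₀ (Fin n → K₀) := ∑ q, f q with hS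
  have hSapp : ∀ v, S v = ∑ q, f q v := by
    intro v
    rw [hS, LinearMap.sum_apply]
  have hScomm : ∀ h, ρ h * S = S * ρ h := by
    intro h
    rw [hS, Finset.mul_sum, Finset.sum_mul]
    have h1 : ∀ q : G ⧸ Γ, ρ h * f q = f (h • q) * ρ h := by
      intro q
      induction q using QuotientGroup.induction_on with
      | H g =>
        have h2 : h • (g : G ⧸ Γ) = ((h * g : G) : G ⧸ Γ) := rfl
        rw [h2, hfmk, hfmk]
        exact hFconj h g
    simp only [h1]
    exact Fintype.sum_equiv (MulAction.toPerm h) _ _ (fun q => rfl)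
  refine ⟨(m : K₀)⁻¹ • S, ?_, ?_, ?_⟩
  · intro v
    rw [LinearMap.smul_apply, hSapp]
    exact W.smul_mem _ (W.sum_mem fun q _ => hFW _ v)
  · intro v hv
    rw [LinearMap.smul_apply, hSapp]
    have h1 : ∀ q ∈ Finset.univ, f q v = v := fun q _ => hFid _ v hv
    rw [Finset.sum_congr rfl h1, Finset.sum_const, Finset.card_univ, ← hm,
      ← Nat.cast_smul_eq_nsmul K₀, smul_smul, inv_mul_cancel₀ hm0, one_smul]
  · intro g
    show ((m : K₀)⁻¹ • S) * ρ g = ρ g * ((m : K₀)⁻¹ • S)
    rw [smul_mul_assoc, mul_smul_comm, hScomm]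

end Pool.Agent.B4801bT
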