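import Pool.Agent.W_b4801b_h32.Defs

set_option autoImplicit false

/-!
# Embedding an algebraic closure of `ℚ_ℓ` into the complex numbers

Proof.  `#ℚ_ℓ ≤ 𝔠`: `ℚ_ℓ` is a quotient of the set of Cauchy sequences of rationals, `ℵ₀ ^ ℵ₀ = 𝔠` (or: a
separable metric space).  So `#K ≤ 𝔠` for `K = AlgebraicClosure ℚ_ℓ` (`Algebra.IsAlgebraic.cardinalMk_le_max`).
Let `B` be a transcendence basis of `K` over `ℚ`, `B'` one of `ℂ` over `ℚ`; `#B ≤ 𝔠 = #B'` (`ℂ` is algebraic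
over `ℚ(B')`, so `𝔠 = #ℂ ≤ max #B' ℵ₀`).  An injection `B → B'` gives a ring homomorphism of the subalgebra
(and field) generated by `B` into `ℂ`, and it extends to the algebraic extension `K` by `IsAlgClosed.lift`.
(Or: `#K = 𝔠` and `IsAlgClosed.ringEquiv_of_equiv_of_charZero`; `ℚ_ℓ` has `≥ 𝔠` elements.)
-/

noncomputable section

namespace Pool.Agent.B4801bT

open Cardinal in
theorem Emb_card_padic (ℓ : ℕ) [Fact ℓ.Prime] : #ℚ_[ℓ] ≤ Cardinal.continuum := by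
  have h1 : #(CauSeq.Completion.Cauchy (padicNorm ℓ)) ≤ Cardinal.continuum := by
    apply mk_quotient_le.trans
    apply (mk_subtype_le _).trans_eq
    rw [← power_def, mk_nat, Cardinal.mkRat, aleph0_power_aleph0]
  exact h1

open Cardinal in
theorem exists_embedding (ℓ : ℕ) [Fact ℓ.Prime] : Nonempty (AlgebraicClosure ℚ_[ℓ] →+* ℂ) := by
  have h1 : Cardinal.continuum ≤ #ℚ_[ℓ] := continuum_le_cardinal_of_nontriviallyNormedField ℚ_[ℓ]
  have h2 : #ℚ_[ℓ] = Cardinal.continuum := le_antisymm (Emb_card_padic ℓ) h1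
  have h3 : #(AlgebraicClosure ℚ_[ℓ]) ≤ Cardinal.continuum := by
    have := Algebra.IsAlgebraic.cardinalMk_le_max ℚ_[ℓ] (AlgebraicClosure ℚ_[ℓ])
    rw [h2] at this
    exact this.trans (max_le le_rfl aleph0_le_continuum)
  have h4 : Cardinal.continuum ≤ #(AlgebraicClosure ℚ_[ℓ]) := by
    rw [← h2]
    exact mk_le_of_injective (algebraMap ℚ_[ℓ] (AlgebraicClosure ℚ_[ℓ])).injective
  have h5 : #(AlgebraicClosure ℚ_[ℓ]) = #ℂ := by
    rw [mk_complex]
    exact le_antisymm h3 h4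
  have : CharZero (AlgebraicClosure ℚ_[ℓ]) :=
    charZero_of_injective_algebraMap (algebraMap ℚ_[ℓ] (AlgebraicClosure ℚ_[ℓ])).injective
  obtain ⟨e⟩ := IsAlgClosed.ringEquiv_of_equiv_of_charZero
    (K := AlgebraicClosure ℚ_[ℓ]) (L := ℂ) (lt_of_lt_of_le aleph0_lt_continuum h4)
    (Cardinal.eq.mp h5)
  exact ⟨e.toRingHom⟩

end Pool.Agent.B4801bT
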