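import Pool.Agent.W_b4801b_h32.HSpace

set_option autoImplicit false

/-!
# The group of quotients of roots and the dimension of `hSp`

`exists_ratio_lift`: `ι : K → ℂ` a ring homomorphism, `K` algebraically closed of characteristic zero, `P` a nonzero
rational polynomial: every element of `ratioGroup P ℂ` is the image of an element of `ratioGroup P K`.
Proof: `P` splits over `K`, so every complex root of `P` is the image of a root in `K`; `Subgroup.closure_induction`.

`le_finrank_hSp`: let `A` be an invertible matrix over `K` with characteristic polynomial `P`, and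
`w₁, …, w_d` multiplicatively independent elements of `ratioGroup P K`.  Then the space of the elements of
trace zero in `hSp A` has dimension at least `d`.
Proof.  If `n = 0` the ratio group is trivial and `d = 0`.  Let `n > 0`, `f_i` as in `exists_logs`,
`B_i = f_i(A)` (`exists_isRep`), `B_i' = B_i - tr(B_i)/n`, of trace zero.  The `B_i'` are linearly
independent: if `∑ c_i B_i' = 0` then for `f = ∑ c_i f_i` the operator `f(A) = ∑ c_i B_i` is a scalar, so `f` is
constant on the set of the eigenvalues of `A`, that is, of the roots of `P`; so `f` vanishes on the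
quotients of roots, so on `ratioGroup P K`, so `c_j = f(w_j) = 0`.
-/

noncomputable section

open Polynomial

namespace Pool.Agent.B4801bT

variable {K : Type*} [Field K] [IsAlgClosed K] [CharZero K] [Algebra ℚ K]

omit [CharZero K] in
lemma RankB.root_lift (ι : K →+* ℂ) (P : ℚ[X]) (hP : P ≠ 0) (a : ℂˣ)
    (ha : aeval (a : ℂ) P = 0) : ∃ b : Kˣ, aeval (b : K) P = 0 ∧ ι (b : K) = a := by
  have hι : ι.comp (algebraMap ℚ K) = algebraMap ℚ ℂ := Subsingleton.elim _ _
  have h0 : P.map (algebraMap ℚ K) ≠ 0 := Polynomial.map_ne_zero hP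
  have hr : ((P.map (algebraMap ℚ K)).map ι).IsRoot (a : ℂ) := by
    rw [Polynomial.map_map, hι, IsRoot.def, eval_map_algebraMap]
    exact ha
  obtain ⟨b, hb⟩ := (IsAlgClosed.splits (P.map (algebraMap ℚ K))).mem_range_of_isRoot h0 hr
  have hb0 : b ≠ 0 := by
    rintro rfl
    rw [map_zero] at hb
    exact a.ne_zero hb.symm
  refine ⟨Units.mk0 b hb0, ?_, hb⟩
  have h1 : ι (aeval b P) = 0 := by
    rw [aeval_def, hom_eval₂, hι, hb, ← aeval_def]
    exact ha
  rw [Units.val_mk0]
  exact (map_eq_zero ι).1 h1

theorem exists_ratio_lift (ι : K →+* ℂ) (P : ℚ[X]) (hP : P ≠ 0) (v : ℂˣ)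
    (hv : v ∈ ratioGroup P ℂ) : ∃ w ∈ ratioGroup P K, Units.map (ι : K →* ℂ) w = v := by
  induction hv using Subgroup.closure_induction with
  | mem x hx =>
    obtain ⟨a, b, ha, hb, rfl⟩ := hx
    obtain ⟨a', ha', haa⟩ := RankB.root_lift ι P hP a ha
    obtain ⟨b', hb', hbb⟩ := RankB.root_lift ι P hP b hb
    refine ⟨a' / b', Subgroup.subset_closure ⟨a', b', ha', hb', rfl⟩, ?_⟩
    rw [_root_.map_div]
    congr 1
    · ext
      exact haa
    · ext
      exact hbb
  | one => exact ⟨1, one_mem _, map_one _⟩
  | mul x y _ _ hx hy =>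
    obtain ⟨u, hu, rfl⟩ := hx
    obtain ⟨v, hv, rfl⟩ := hy
    exact ⟨u * v, mul_mem hu hv, map_mul _ _ _⟩
  | inv x _ hx =>
    obtain ⟨u, hu, rfl⟩ := hx
    exact ⟨u⁻¹, inv_mem hu, map_inv _ _⟩

theorem le_finrank_hSp {n : ℕ} (P : ℚ[X]) (A : Mat n K) (hA : IsUnit A)
    (hP : A.charpoly = P.map (algebraMap ℚ K)) {d : ℕ} (w : Fin d → Kˣ)
    (hw : ∀ i, w i ∈ ratioGroup P K) (hind : MulIndep w) :
    d ≤ Module.finrank K
      (hSp (Matrix.toLin' A : Module.End K (Fin n → K)) ⊓
        LinearMap.ker (LinearMap.trace K (Fin n → K)) :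
          Submodule K (Module.End K (Fin n → K))) := by
  classical
  obtain ⟨f, hf, hfw⟩ := exists_logs K w hind
  choose B hB _ _ using fun i => exists_isRep (f i) (Matrix.toLin' A : Module.End K (Fin n → K))
  set S : Submodule K (Module.End K (Fin n → K)) :=
    hSp (Matrix.toLin' A : Module.End K (Fin n → K)) ⊓
        LinearMap.ker (LinearMap.trace K (Fin n → K)) with hS
  let τ : Fin d → K := fun i => LinearMap.trace K (Fin n → K) (B i) / n
  have hmem : ∀ i, B i + (-τ i) • (1 : Module.End K (Fin n → K)) ∈ S := by
    intro i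
    refine Submodule.mem_inf.2 ⟨⟨f i, B i, -τ i, hf i, hB i, rfl⟩, ?_⟩
    rw [LinearMap.mem_ker, map_add, map_smul, LinearMap.trace_one, Module.finrank_fin_fun,
      smul_eq_mul]
    rcases Nat.eq_zero_or_pos n with hn | hn
    · subst hn
      have h1 : B i = 0 := by
        ext x
        exact Fin.elim0 ‹Fin 0›
      rw [h1, map_zero, Nat.cast_zero, mul_zero, add_zero]
    · have hn' : (n : K) ≠ 0 := Nat.cast_ne_zero.2 hn.ne'
      simp only [τ]
      field_simp
      ring
  let b : Fin d → S := fun i => ⟨B i + (-τ i) • (1 : Module.End K (Fin n → K)), hmem i⟩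
  have hlin : LinearIndependent K b := by
    refine (Fintype.linearIndependent_iff (R := K) (v := b)).2 ?_
    intro c hc j
    have hc' : ∑ i, c i • (B i + (-τ i) • (1 : Module.End K (Fin n → K))) = 0 := by
      have := congrArg (fun x : S => (x : Module.End K (Fin n → K))) hc
      simpa [b] using this
    let s : K := ∑ i, c i * τ i
    -- `F = ∑ c_i f_i` is constant on the roots
    have hroot : ∀ μ : K, aeval μ P = 0 → ∑ i, c i * f i μ = s := by
      intro μ hμ
      have hr : (Matrix.toLin' A : Module.End K (Fin n → K)).charpoly.IsRoot μ := by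
        rw [Matrix.charpoly_toLin', hP, IsRoot.def, eval_map_algebraMap]
        exact hμ
      obtain ⟨v, hv⟩ := ((Module.End.hasEigenvalue_iff_isRoot_charpoly _ μ).2 hr).exists_hasEigenvector
      have hv1 : v ∈ Module.End.maxGenEigenspace (Matrix.toLin' A : Module.End K (Fin n → K)) μ :=
        Module.End.mem_maxGenEigenspace _ _ _ |>.2 ⟨1, by
          rw [pow_one, LinearMap.sub_apply, LinearMap.smul_apply, Module.End.one_apply,
            hv.apply_eq_smul, sub_self]⟩
      have h1 := congrArg (fun φ : Module.End K (Fin n → K) => φ v) hc'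
      simp only [LinearMap.sum_apply, LinearMap.smul_apply, LinearMap.add_apply,
        Module.End.one_apply, LinearMap.zero_apply] at h1
      have h2 : ∀ i, c i • (B i v + (-τ i) • v) = (c i * f i μ - c i * τ i) • v := by
        intro i
        rw [hB i μ v hv1, ← add_smul, smul_smul]
        congr 1
        ring
      simp only [h2] at h1
      rw [← Finset.sum_smul, Finset.sum_sub_distrib] at h1
      rcases smul_eq_zero.1 h1 with h3 | h3
      · exact sub_eq_zero.1 h3
      · exact absurd h3 hv.2
    have hzero : ∀ u ∈ ratioGroup P K, ∑ i, c i * f i (u : K) = 0 := by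
      intro u hu
      induction hu using Subgroup.closure_induction with
      | mem x hx =>
        obtain ⟨a, a', ha, ha', rfl⟩ := hx
        have h1 : ∀ i, f i (a : K) = f i ((a / a' : Kˣ) : K) + f i (a' : K) := by
          intro i
          rw [← hf i _ _ (a / a').ne_zero a'.ne_zero, ← Units.val_mul, div_mul_cancel]
        have h2 := hroot a ha
        have h3 := hroot a' ha'
        simp only [h1, mul_add, Finset.sum_add_distrib] at h2
        rw [h3] at h2
        exact left_eq_add.1 ((add_comm _ _).trans h2).symm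
      | one =>
        refine Finset.sum_eq_zero fun i _ => ?_
        rw [Units.val_one, (hf i).one, mul_zero]
      | mul x y _ _ hx hy =>
        have h1 : ∀ i, f i ((x * y : Kˣ) : K) = f i (x : K) + f i (y : K) := by
          intro i
          rw [Units.val_mul, hf i _ _ x.ne_zero y.ne_zero]
        simp only [h1, mul_add, Finset.sum_add_distrib]
        rw [hx, hy, add_zero]
      | inv x _ hx =>
        have h1 : ∀ i, f i (x : K) + f i ((x⁻¹ : Kˣ) : K) = 0 := by
          intro i
          rw [← hf i _ _ x.ne_zero x⁻¹.ne_zero, ← Units.val_mul, mul_inv_cancel, Units.val_one,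
            (hf i).one]
        have h2 : ∑ i, c i * (f i (x : K) + f i ((x⁻¹ : Kˣ) : K)) = 0 :=
          Finset.sum_eq_zero fun i _ => by rw [h1 i, mul_zero]
        simp only [mul_add, Finset.sum_add_distrib] at h2
        rwa [hx, zero_add] at h2
    have := hzero _ (hw j)
    simpa [hfw] using this
  have := hlin.fintype_card_le_finrank
  simpa using this

end Pool.Agent.B4801bT
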