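import Pool.Agent.W_b4801b_h32.RankA
import Pool.Agent.W_b4801b_h32.RankB

set_option autoImplicit false

/-!
# Maximality of the Frobenius torus

Theorem: `hSp A` is a maximal toral space of `gLie T K`, if `RankLE T P`, `P` the characteristic polynomial of `A`.

Proof.  `le`, `ss`, `comm` are in `HSpace`.  `max`: let `y ∈ gLie T K` be semisimple and commute with `H = hSp A`.
If `n = 0` everything is zero.  Let `n > 0`, `H₀` the elements of trace zero of `H`,
`y₀ = y - (tr y / n)`, `U = H₀ + K y₀` (as a space of matrices): commutative, all elements are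
diagonalizable (sums of commuting semisimple operators are semisimple, `Module.End.IsSemisimple.add_of_commute`),
of trace zero, in `ann T K` (`ann T K` contains the scalars: `dtp a 1 = a • 1`).  `exists_complex_toral` gives
`U'`, and `RankLE` gives `dim U'` multiplicatively independent elements of `ratioGroup P ℂ`; lift them to
`ratioGroup P K` by `exists_ratio_lift` (the lifts are independent too); by `le_finrank_hSp`
`dim U ≤ dim U' ≤ dim H₀`, and `H₀ ≤ U`, so `U = H₀`, `y₀ ∈ H₀`, `y = y₀ + tr y / n ∈ H`.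
-/

noncomputable section

open Polynomial

namespace Pool.Agent.B4801bT

lemma HMax.finrank_le {K : Type*} [Field K] [IsAlgClosed K] [CharZero K] [Algebra ℚ K] {n : ℕ}
    (T : TensorSet n) (P : ℚ[X]) (hrank : RankLE T P) (ι : K →+* ℂ) (A : Mat n K)
    (hA : IsUnit A) (hP : A.charpoly = P.map (algebraMap ℚ K))
    (V : Submodule K (Module.End K (Fin n → K))) (h1 : V ≤ gLie T K)
    (h2 : ∀ y ∈ V, LinearMap.trace K (Fin n → K) y = 0) (h3 : ∀ y ∈ V, y.IsSemisimple)
    (h4 : ∀ y ∈ V, ∀ z ∈ V, Commute y z) :
    Module.finrank K V ≤ Module.finrank K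
      (hSp (Matrix.toLin' A : Module.End K (Fin n → K)) ⊓
        LinearMap.ker (LinearMap.trace K (Fin n → K)) :
          Submodule K (Module.End K (Fin n → K))) := by
  classical
  let e : Mat n K ≃ₗ[K] Module.End K (Fin n → K) := Matrix.toLin'
  have he : ∀ x, e x = Matrix.toLin' x := fun _ => rfl
  let U : Submodule K (Mat n K) := V.comap e.toLinearMap
  have hU : ∀ y, y ∈ U ↔ Matrix.toLin' y ∈ V := fun y => Iff.rfl
  have hfin : Module.finrank K U = Module.finrank K V := by
    have h5 : V = U.map e.toLinearMap := by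
      rw [Submodule.map_comap_eq_of_surjective e.surjective]
    rw [h5]
    exact (LinearEquiv.finrank_map_eq e U).symm
  obtain ⟨U', hU1, hU2, hU3, hU4, hU5⟩ := exists_complex_toral T K ι U
    (fun y hy => (toLin'_mem_gLie T K y).1 (h1 ((hU y).1 hy)))
    (fun y hy => by
      have := h2 _ ((hU y).1 hy)
      rwa [Matrix.trace_toLin'_eq] at this)
    (fun y hy => (diagonalizable_iff y).2 (h3 _ ((hU y).1 hy)))
    (fun y hy z hz => by
      have h6 : Matrix.toLin' y * Matrix.toLin' z = Matrix.toLin' z * Matrix.toLin' y :=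
        h4 _ ((hU y).1 hy) _ ((hU z).1 hz)
      have h7 : e (y * z) = e (z * y) := by
        rw [he, he, Matrix.toLin'_mul, Matrix.toLin'_mul]
        exact h6
      exact e.injective h7)
  obtain ⟨v, hv, hind⟩ := hrank U' hU1 hU2 hU3 hU4
  have hP0 : P ≠ 0 := by
    rintro rfl
    rw [Polynomial.map_zero] at hP
    exact (Matrix.charpoly_monic A).ne_zero hP
  choose w hw hwv using fun i => exists_ratio_lift (K := K) ι P hP0 (v i) (hv i)
  have hind' : MulIndep w := by
    intro m hm
    refine hind m ?_
    have := congrArg (Units.map (ι : K →* ℂ)) hm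
    rw [map_prod, map_one] at this
    rw [← this]
    refine Finset.prod_congr rfl fun i _ => ?_
    rw [map_zpow, hwv]
  have := le_finrank_hSp P A hA hP w hw hind'
  rw [← hfin]
  exact hU5.trans this

theorem maxTorus_hSp {K : Type*} [Field K] [IsAlgClosed K] [CharZero K] [Algebra ℚ K] {n : ℕ}
    (T : TensorSet n) (P : ℚ[X]) (hrank : RankLE T P) (ι : K →+* ℂ) (A : Mat n K)
    (hA : IsUnit A) (hP : A.charpoly = P.map (algebraMap ℚ K))
    (hfix : ∀ t ∈ T, ∃ N : ℕ, 0 < N ∧ Commute (tp t.1 (A ^ N)) (t.2.map (algebraMap ℚ K))) :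
    MaxTorus (gLie T K) (hSp (Matrix.toLin' A : Module.End K (Fin n → K))) := by
  classical
  have hle := hSp_le T A hA hfix
  have hss := hSp_ss (Matrix.toLin' A : Module.End K (Fin n → K))
  have hcomm := hSp_comm (Matrix.toLin' A : Module.End K (Fin n → K))
  refine ⟨hle, hss, hcomm, ?_⟩
  intro y hy hys hyc
  rcases Nat.eq_zero_or_pos n with hn | hn
  · subst hn
    have h1 : y = 0 := by
      ext x
      exact Fin.elim0 ‹Fin 0›
    rw [h1]
    exact Submodule.zero_mem _
  have hn' : (n : K) ≠ 0 := Nat.cast_ne_zero.2 hn.ne'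
  set H : Submodule K (Module.End K (Fin n → K)) :=
    hSp (Matrix.toLin' A : Module.End K (Fin n → K)) with hH
  let c : K := -(LinearMap.trace K (Fin n → K) y / n)
  have hscal : ∀ a : K, a • (1 : Module.End K (Fin n → K)) ∈ H := by
    intro a
    refine ⟨fun _ => 0, 0, a, ?_, ?_, ?_⟩
    · intro _ _ _ _
      rw [add_zero]
    · intro μ v _
      rw [LinearMap.zero_apply, zero_smul]
    · rw [zero_add]
  let y0 : Module.End K (Fin n → K) := y + c • 1
  have hy0g : y0 ∈ gLie T K := Submodule.add_mem _ hy (hle (hscal c))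
  have hy0c : ∀ h ∈ H, Commute h y0 := fun h hh =>
    (hyc h hh).add_right (hcomm h hh _ (hscal c))
  have hy0s : y0.IsSemisimple :=
    hys.add_of_commute ((hyc _ (hscal c)).symm) (hss _ (hscal c))
  have hy0t : LinearMap.trace K (Fin n → K) y0 = 0 := by
    show LinearMap.trace K (Fin n → K) (y + c • 1) = 0
    rw [map_add, map_smul, LinearMap.trace_one, Module.finrank_fin_fun, smul_eq_mul]
    simp only [c]
    field_simp
    ring
  let H0 : Submodule K (Module.End K (Fin n → K)) :=
    H ⊓ LinearMap.ker (LinearMap.trace K (Fin n → K))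
  let V : Submodule K (Module.End K (Fin n → K)) := H0 ⊔ Submodule.span K {y0}
  have hV : ∀ x ∈ V, ∃ h ∈ H0, ∃ a : K, x = h + a • y0 := by
    intro x hx
    obtain ⟨h, hh, z, hz, rfl⟩ := Submodule.mem_sup.1 hx
    obtain ⟨a, rfl⟩ := Submodule.mem_span_singleton.1 hz
    exact ⟨h, hh, a, rfl⟩
  have hle2 := HMax.finrank_le T P hrank ι A hA hP V
    (by
      intro x hx
      obtain ⟨h, hh, a, rfl⟩ := hV x hx
      exact Submodule.add_mem _ (hle hh.1) (Submodule.smul_mem _ _ hy0g))
    (by
      intro x hx
      obtain ⟨h, hh, a, rfl⟩ := hV x hx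
      have h1 : LinearMap.trace K (Fin n → K) h = 0 := hh.2
      rw [map_add, map_smul, h1, hy0t, smul_zero, add_zero])
    (by
      intro x hx
      obtain ⟨h, hh, a, rfl⟩ := hV x hx
      refine (hss h hh.1).add_of_commute ((hy0c h hh.1).smul_right a) ?_
      exact Module.End.IsSemisimple_smul a hy0s)
    (by
      intro x hx z hz
      obtain ⟨h, hh, a, rfl⟩ := hV x hx
      obtain ⟨h', hh', a', rfl⟩ := hV z hz
      refine Commute.add_left ?_ ?_
      · exact (hcomm h hh.1 h' hh'.1).add_right ((hy0c h hh.1).smul_right a')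
      · exact ((hy0c h' hh'.1).symm.smul_left a).add_right
          (((Commute.refl y0).smul_right a').smul_left a))
  have hEq : H0 = V := Submodule.eq_of_le_of_finrank_le le_sup_left hle2
  have hy0V : y0 ∈ V := Submodule.mem_sup_right (Submodule.mem_span_singleton_self y0)
  rw [← hEq] at hy0V
  have h1 : y = y0 + (-c) • (1 : Module.End K (Fin n → K)) := by
    show y = y + c • (1 : Module.End K (Fin n → K)) + (-c) • (1 : Module.End K (Fin n → K))
    rw [add_assoc, ← add_smul, add_neg_cancel, zero_smul, add_zero]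
  rw [h1]
  exact Submodule.add_mem _ hy0V.1 (hscal _)

end Pool.Agent.B4801bT
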