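import Pool.Agent.W_b4801b_h32.Defs

set_option autoImplicit false

/-!
# Neat subgroups

`padic_unity`: let `K` be an algebraic closure of `ℚ_ℓ`, `ζ ∈ K` a root of unity with
`ζ - 1 = ℓ ^ 2 c`, `c` integral over `ℤ_ℓ`.  Then `ζ = 1`.
Proof.  Suppose `ζ ≠ 1`.  Replacing `ζ` by a power we may assume that `ζ` has prime order `q`
(`ζ ^ k - 1 = (ζ - 1)(1 + ⋯ + ζ^(k-1))` is again `ℓ ^ 2` times an integral element).  Then
`q = ∏_{1 ≤ i < q} (1 - ζ ^ i)` (value of `1 + X + ⋯ + X^(q-1) = ∏ (X - ζ ^ i)` at `1`), so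
`q = ℓ ^ (2 (q-1)) c'` with `c'` integral over `ℤ_ℓ`; `c' = q / ℓ ^ (2 (q-1)) ∈ ℚ_ℓ` is integral over `ℤ_ℓ`, so
`c' ∈ ℤ_ℓ` (`IsIntegrallyClosed`), so `‖q‖ ≤ ℓ ^ (-2 (q-1))`.  But `‖q‖ = 1` if `q ≠ ℓ` and
`‖ℓ‖ = ℓ ^ (-1) > ℓ ^ (-2 (ℓ-1))`: contradiction.

`exists_neat`: `G` a compact topological group, `R : G → M_n(ℚ_ℓ)` multiplicative and continuous (entrywise).  There
is a subgroup `Γ` of finite index such that for `g ∈ Γ` no quotient of two eigenvalues of `R g` in `K` is a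
root of unity different from `1`.
Proof.  `Γ := {g | all entries of R g - 1 and of R g⁻¹ - 1 are in ℓ ^ 2 ℤ_ℓ}` is a subgroup
(`(1 + ℓ² X)(1 + ℓ² Y) = 1 + ℓ² (X + Y + ℓ² X Y)`), open as `R` is continuous (balls in `ℚ_ℓ` are open), so of
finite index (`Subgroup.quotient_finite_of_isOpen`).  For `g ∈ Γ` let `R g = 1 + ℓ² X`, `X ∈ M_n(ℤ_ℓ)`.  If `μ`
is an eigenvalue of `R g` then `μ = 1 + ℓ² c` with `c` an eigenvalue of `X`, integral over `ℤ_ℓ` (root of the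
characteristic polynomial of `X`).  Also `1/ν` is an eigenvalue of `R g⁻¹`, so it is integral.  So
`μ / ν - 1 = (μ - ν) / ν = ℓ² (c - c') / ν`; apply `padic_unity`.
-/

noncomputable section

namespace Pool.Agent.B4801bT

theorem Neat_sub_one (ℓ : ℕ) [Fact ℓ.Prime] (z c : AlgebraicClosure ℚ_[ℓ])
    (hz : IsIntegral ℤ_[ℓ] z) (hc : IsIntegral ℤ_[ℓ] c)
    (h : z - 1 = (ℓ : AlgebraicClosure ℚ_[ℓ]) ^ 2 * c) (i : ℕ) :
    ∃ c' : AlgebraicClosure ℚ_[ℓ], IsIntegral ℤ_[ℓ] c' ∧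
      z ^ i - 1 = (ℓ : AlgebraicClosure ℚ_[ℓ]) ^ 2 * c' := by
  refine ⟨(∑ j ∈ Finset.range i, z ^ j) * c, ?_, ?_⟩
  · exact (IsIntegral.sum _ fun j _ => hz.pow j).mul hc
  · rw [← geom_sum_mul, h]
    ring

theorem Neat_unity (ℓ : ℕ) [Fact ℓ.Prime] (ζ c : AlgebraicClosure ℚ_[ℓ]) (N : ℕ) (hN : 0 < N)
    (hζ : ζ ^ N = 1) (hc : IsIntegral ℤ_[ℓ] c)
    (h : ζ - 1 = (ℓ : AlgebraicClosure ℚ_[ℓ]) ^ 2 * c) : ζ = 1 := by
  classical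
  have hℓ : ℓ.Prime := Fact.out
  by_contra hne
  have hζi : IsIntegral ℤ_[ℓ] ζ := by
    have h1 : ζ = 1 + (ℓ : AlgebraicClosure ℚ_[ℓ]) ^ 2 * c := by rw [← h]; ring
    rw [h1]
    refine isIntegral_one.add ((IsIntegral.pow ?_ 2).mul hc)
    have h2 : (ℓ : AlgebraicClosure ℚ_[ℓ]) = algebraMap ℤ_[ℓ] _ (ℓ : ℤ_[ℓ]) := by
      rw [map_natCast]
    rw [h2]
    exact isIntegral_algebraMap
  -- a power of prime order
  have hm0 : 0 < orderOf ζ := orderOf_pos_iff.2 (isOfFinOrder_iff_pow_eq_one.2 ⟨N, hN, hζ⟩)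
  have hm1 : orderOf ζ ≠ 1 := fun h1 => hne (orderOf_eq_one_iff.1 h1)
  obtain ⟨q, hq, hqm⟩ := Nat.exists_prime_and_dvd hm1
  obtain ⟨k, hk⟩ := hqm
  have hord : orderOf (ζ ^ k) = q := by
    have hk0 : k ≠ 0 := by
      rintro rfl
      rw [mul_zero] at hk
      omega
    have h1 := orderOf_pow_of_dvd (x := ζ) hk0 ⟨q, by rw [hk, mul_comm]⟩
    rw [h1, hk, Nat.mul_div_cancel _ (Nat.pos_of_ne_zero hk0)]
  obtain ⟨c1, hc1, h1⟩ := Neat_sub_one ℓ ζ c hζi hc h k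
  have hprim : IsPrimitiveRoot (ζ ^ k) q := by
    rw [← hord]
    exact IsPrimitiveRoot.orderOf _
  haveI : Fact q.Prime := ⟨hq⟩
  have hmem : ∀ μ ∈ primitiveRoots q (AlgebraicClosure ℚ_[ℓ]),
      ∃ c' : AlgebraicClosure ℚ_[ℓ], IsIntegral ℤ_[ℓ] c' ∧
        1 - μ = (ℓ : AlgebraicClosure ℚ_[ℓ]) ^ 2 * c' := by
    intro μ hμ
    have h2 : IsPrimitiveRoot μ q := isPrimitiveRoot_of_mem_primitiveRoots hμ
    haveI : NeZero q := ⟨hq.ne_zero⟩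
    obtain ⟨i, _, hi⟩ := hprim.eq_pow_of_pow_eq_one h2.pow_eq_one
    obtain ⟨c2, hc2, h3⟩ := Neat_sub_one ℓ (ζ ^ k) c1 (hζi.pow k) hc1 h1 i
    refine ⟨-c2, hc2.neg, ?_⟩
    rw [← hi]
    linear_combination -h3
  choose! f hf1 hf2 using hmem
  have hprod : (q : AlgebraicClosure ℚ_[ℓ]) =
      ((ℓ : AlgebraicClosure ℚ_[ℓ]) ^ 2) ^ (q - 1) *
        ∏ μ ∈ primitiveRoots q (AlgebraicClosure ℚ_[ℓ]), f μ := by
    have h2 := Polynomial.eval_one_cyclotomic_prime (R := AlgebraicClosure ℚ_[ℓ]) (p := q)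
    rw [← h2, Polynomial.cyclotomic_eq_prod_X_sub_primitiveRoots hprim, Polynomial.eval_prod]
    simp only [Polynomial.eval_sub, Polynomial.eval_X, Polynomial.eval_C]
    rw [Finset.prod_congr rfl hf2, Finset.prod_mul_distrib, Finset.prod_const,
      hprim.card_primitiveRoots, Nat.totient_prime hq]
  have hint : IsIntegral ℤ_[ℓ] (∏ μ ∈ primitiveRoots q (AlgebraicClosure ℚ_[ℓ]), f μ) :=
    IsIntegral.prod _ hf1
  have hℓ0 : (ℓ : ℚ_[ℓ]) ≠ 0 := by exact_mod_cast hℓ.ne_zero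
  have hy : algebraMap ℚ_[ℓ] (AlgebraicClosure ℚ_[ℓ]) ((q : ℚ_[ℓ]) / ((ℓ : ℚ_[ℓ]) ^ 2) ^ (q - 1)) =
      ∏ μ ∈ primitiveRoots q (AlgebraicClosure ℚ_[ℓ]), f μ := by
    rw [map_div₀, map_pow, map_pow, map_natCast, map_natCast, div_eq_iff, hprod]
    · ring
    · have : (ℓ : AlgebraicClosure ℚ_[ℓ]) ≠ 0 := by exact_mod_cast hℓ.ne_zero
      positivity
  rw [← hy, isIntegral_algebraMap_iff (algebraMap ℚ_[ℓ] (AlgebraicClosure ℚ_[ℓ])).injective,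
    IsIntegrallyClosed.isIntegral_iff] at hint
  obtain ⟨y, hy2⟩ := hint
  have hy3 : ‖(q : ℚ_[ℓ]) / ((ℓ : ℚ_[ℓ]) ^ 2) ^ (q - 1)‖ ≤ 1 := by
    rw [← hy2]
    exact y.2
  rw [norm_div, norm_pow, norm_pow, Padic.norm_p] at hy3
  have hℓ1 : (2 : ℝ) ≤ ℓ := by exact_mod_cast hℓ.two_le
  have hpos : (0 : ℝ) < (((ℓ : ℝ)⁻¹) ^ 2) ^ (q - 1) := by positivity
  rw [div_le_one hpos] at hy3
  have hinv : (ℓ : ℝ)⁻¹ < 1 := inv_lt_one_of_one_lt₀ (by linarith)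
  have hinv0 : (0 : ℝ) < (ℓ : ℝ)⁻¹ := by positivity
  have hq2 := hq.two_le
  by_cases hqℓ : q = ℓ
  · rw [hqℓ, Padic.norm_p] at hy3
    rw [← pow_mul] at hy3
    have h5 : ((ℓ : ℝ)⁻¹) ^ (2 * (ℓ - 1)) < ((ℓ : ℝ)⁻¹) ^ 1 :=
      pow_lt_pow_right_of_lt_one₀ hinv0 hinv (by have := hℓ.two_le; omega)
    rw [pow_one] at h5
    linarith
  · have h6 : ‖(q : ℚ_[ℓ])‖ = 1 := by
      rw [Padic.norm_natCast_eq_one_iff]
      exact (Nat.coprime_primes hℓ hq).2 (Ne.symm hqℓ)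
    rw [h6, ← pow_mul] at hy3
    have h7 : ((ℓ : ℝ)⁻¹) ^ (2 * (q - 1)) < 1 :=
      pow_lt_one₀ hinv0.le hinv (by omega)
    linarith

theorem padic_unity (ℓ : ℕ) [Fact ℓ.Prime] (ζ c : AlgebraicClosure ℚ_[ℓ]) (N : ℕ) (hN : 0 < N)
    (hζ : ζ ^ N = 1) (hc : ∃ q : Polynomial ℤ_[ℓ], q.Monic ∧
      (q.map ((algebraMap ℚ_[ℓ] (AlgebraicClosure ℚ_[ℓ])).comp (algebraMap ℤ_[ℓ] ℚ_[ℓ]))).eval c = 0)
    (h : ζ - 1 = (ℓ : AlgebraicClosure ℚ_[ℓ]) ^ 2 * c) : ζ = 1 := by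
  obtain ⟨q, hq, hqc⟩ := hc
  refine Neat_unity ℓ ζ c N hN hζ ⟨q, hq, ?_⟩ h
  rw [Polynomial.eval_map] at hqc
  exact hqc

/-- `A = 1 + ℓ² X`, `X` integral. -/
def Neat_P (ℓ : ℕ) [Fact ℓ.Prime] (n : ℕ) (A : Mat n ℚ_[ℓ]) : Prop :=
  ∃ X : Mat n ℤ_[ℓ], A = 1 + ((ℓ : ℚ_[ℓ]) ^ 2) • X.map (algebraMap ℤ_[ℓ] ℚ_[ℓ])

theorem Neat_P_one (ℓ : ℕ) [Fact ℓ.Prime] (n : ℕ) : Neat_P ℓ n 1 := by
  refine ⟨0, ?_⟩
  ext i j
  rw [Matrix.add_apply, Matrix.smul_apply, Matrix.map_apply, Matrix.zero_apply, map_zero,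
    smul_zero, add_zero]

theorem Neat_P_mul (ℓ : ℕ) [Fact ℓ.Prime] (n : ℕ) (A B : Mat n ℚ_[ℓ]) (hA : Neat_P ℓ n A)
    (hB : Neat_P ℓ n B) : Neat_P ℓ n (A * B) := by
  obtain ⟨X, hX⟩ := hA
  obtain ⟨Y, hY⟩ := hB
  refine ⟨X + Y + ((ℓ : ℤ_[ℓ]) ^ 2) • (X * Y), ?_⟩
  have h1 : (X + Y + ((ℓ : ℤ_[ℓ]) ^ 2) • (X * Y)).map (algebraMap ℤ_[ℓ] ℚ_[ℓ]) =
      X.map (algebraMap ℤ_[ℓ] ℚ_[ℓ]) + Y.map (algebraMap ℤ_[ℓ] ℚ_[ℓ]) +
        ((ℓ : ℚ_[ℓ]) ^ 2) • (X.map (algebraMap ℤ_[ℓ] ℚ_[ℓ]) * Y.map (algebraMap ℤ_[ℓ] ℚ_[ℓ])) := by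
    rw [← Matrix.map_mul]
    ext i j
    simp only [Matrix.map_apply, Matrix.add_apply, Matrix.smul_apply, smul_eq_mul, map_add,
      map_mul, map_pow, map_natCast]
  rw [h1, hX, hY]
  simp only [mul_add, add_mul, one_mul, mul_one, smul_add, Matrix.smul_mul, Matrix.mul_smul]
  abel

theorem Neat_P_of_norm (ℓ : ℕ) [Fact ℓ.Prime] (n : ℕ) (A : Mat n ℚ_[ℓ])
    (h : ∀ i j, ‖(A - 1) i j‖ < ‖((ℓ : ℚ_[ℓ]) ^ 2)‖) : Neat_P ℓ n A := by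
  have hℓ : ℓ.Prime := Fact.out
  have hℓ0 : (ℓ : ℚ_[ℓ]) ≠ 0 := by exact_mod_cast hℓ.ne_zero
  have h1 : ∀ i j, ‖(A - 1) i j / (ℓ : ℚ_[ℓ]) ^ 2‖ ≤ 1 := by
    intro i j
    rw [norm_div, div_le_one]
    · exact (h i j).le
    · exact norm_pos_iff.2 (pow_ne_zero 2 hℓ0)
  refine ⟨Matrix.of fun i j => ⟨(A - 1) i j / (ℓ : ℚ_[ℓ]) ^ 2, h1 i j⟩, ?_⟩
  ext i j
  rw [Matrix.add_apply, Matrix.smul_apply, Matrix.map_apply]
  show A i j = (1 : Mat n ℚ_[ℓ]) i j + (ℓ : ℚ_[ℓ]) ^ 2 * ((A - 1) i j / (ℓ : ℚ_[ℓ]) ^ 2)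
  rw [mul_div_cancel₀ _ (pow_ne_zero 2 hℓ0), Matrix.sub_apply]
  ring

theorem Neat_eigen (ℓ : ℕ) [Fact ℓ.Prime] (n : ℕ) (A : Mat n ℚ_[ℓ]) (hA : Neat_P ℓ n A)
    (μ : AlgebraicClosure ℚ_[ℓ])
    (hμ : Module.End.HasEigenvalue (Matrix.toLin' (A.map (algebraMap ℚ_[ℓ] (AlgebraicClosure ℚ_[ℓ])))) μ) :
    ∃ c : AlgebraicClosure ℚ_[ℓ], IsIntegral ℤ_[ℓ] c ∧
      μ = 1 + (ℓ : AlgebraicClosure ℚ_[ℓ]) ^ 2 * c := by
  have hℓ : ℓ.Prime := Fact.out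
  have hℓ0 : (ℓ : AlgebraicClosure ℚ_[ℓ]) ≠ 0 := by exact_mod_cast hℓ.ne_zero
  obtain ⟨X, hX⟩ := hA
  obtain ⟨v, hv⟩ := hμ.exists_hasEigenvector
  have hv0 : v ≠ 0 := hv.2
  have hv1 := hv.apply_eq_smul
  rw [Matrix.toLin'_apply] at hv1
  set XK : Mat n (AlgebraicClosure ℚ_[ℓ]) :=
    X.map (algebraMap ℤ_[ℓ] (AlgebraicClosure ℚ_[ℓ])) with hXK
  have h1 : A.map (algebraMap ℚ_[ℓ] (AlgebraicClosure ℚ_[ℓ])) =
      1 + ((ℓ : AlgebraicClosure ℚ_[ℓ]) ^ 2) • XK := by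
    rw [hX]
    ext i j
    simp only [Matrix.map_apply, Matrix.add_apply, Matrix.smul_apply, map_add, smul_eq_mul,
      map_mul, map_pow, map_natCast, hXK]
    rw [← IsScalarTower.algebraMap_apply, Matrix.one_apply, Matrix.one_apply]
    congr 1
    split_ifs <;> simp
  rw [h1, Matrix.add_mulVec, Matrix.one_mulVec, Matrix.smul_mulVec] at hv1
  refine ⟨(μ - 1) / (ℓ : AlgebraicClosure ℚ_[ℓ]) ^ 2, ?_, ?_⟩
  · have h2 : XK.mulVec v = ((μ - 1) / (ℓ : AlgebraicClosure ℚ_[ℓ]) ^ 2) • v := by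
      have h3 : ((ℓ : AlgebraicClosure ℚ_[ℓ]) ^ 2) • XK.mulVec v = (μ - 1) • v := by
        rw [sub_smul, one_smul, ← hv1]
        abel
      rw [div_eq_inv_mul, mul_smul, ← h3, smul_smul, inv_mul_cancel₀ (pow_ne_zero 2 hℓ0), one_smul]
    have h4 : (XK.charpoly).eval ((μ - 1) / (ℓ : AlgebraicClosure ℚ_[ℓ]) ^ 2) = 0 := by
      rw [Matrix.eval_charpoly]
      apply Matrix.exists_mulVec_eq_zero_iff.1
      refine ⟨v, hv0, ?_⟩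
      rw [Matrix.sub_mulVec, h2, Matrix.scalar_apply, ← Matrix.smul_one_eq_diagonal,
        Matrix.smul_mulVec, Matrix.one_mulVec, sub_self]
    refine ⟨X.charpoly, Matrix.charpoly_monic X, ?_⟩
    rw [← Polynomial.eval_map, ← Matrix.charpoly_map]
    exact h4
  · rw [mul_div_cancel₀ _ (pow_ne_zero 2 hℓ0)]
    ring

theorem Neat_eigen_inv (ℓ : ℕ) [Fact ℓ.Prime] (n : ℕ) (A B : Mat n ℚ_[ℓ]) (hAB : B * A = 1)
    (ν : AlgebraicClosure ℚ_[ℓ])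
    (hν : Module.End.HasEigenvalue (Matrix.toLin' (A.map (algebraMap ℚ_[ℓ] (AlgebraicClosure ℚ_[ℓ])))) ν) :
    ν ≠ 0 ∧ Module.End.HasEigenvalue
      (Matrix.toLin' (B.map (algebraMap ℚ_[ℓ] (AlgebraicClosure ℚ_[ℓ])))) ν⁻¹ := by
  obtain ⟨v, hv⟩ := hν.exists_hasEigenvector
  have hv0 : v ≠ 0 := hv.2
  have hv1 := hv.apply_eq_smul
  rw [Matrix.toLin'_apply] at hv1
  have h1 : (B.map (algebraMap ℚ_[ℓ] (AlgebraicClosure ℚ_[ℓ]))) *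
      (A.map (algebraMap ℚ_[ℓ] (AlgebraicClosure ℚ_[ℓ]))) = 1 := by
    rw [← Matrix.map_mul, hAB]
    simp
  have h2 : v = ν • (B.map (algebraMap ℚ_[ℓ] (AlgebraicClosure ℚ_[ℓ]))).mulVec v := by
    rw [← Matrix.mulVec_smul, ← hv1, Matrix.mulVec_mulVec, h1, Matrix.one_mulVec]
  have hν0 : ν ≠ 0 := by
    rintro rfl
    rw [zero_smul] at h2
    exact hv0 h2
  refine ⟨hν0, ?_⟩
  apply Module.End.hasEigenvalue_of_hasEigenvector (x := v)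
  rw [Module.End.hasEigenvector_iff, Module.End.mem_eigenspace_iff, Matrix.toLin'_apply]
  refine ⟨?_, hv0⟩
  nth_rewrite 2 [h2]
  rw [smul_smul, inv_mul_cancel₀ hν0, one_smul]

theorem exists_neat {G : Type*} [Group G] [TopologicalSpace G] [IsTopologicalGroup G]
    [CompactSpace G] (ℓ : ℕ) [Fact ℓ.Prime] (n : ℕ) (R : G →* Mat n ℚ_[ℓ])
    (hc : ∀ i j, Continuous fun g => R g i j) :
    ∃ Γ : Subgroup G, Γ.FiniteIndex ∧ ∀ g ∈ Γ, ∀ μ ν : AlgebraicClosure ℚ_[ℓ],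
      Module.End.HasEigenvalue (Matrix.toLin' ((R g).map (algebraMap ℚ_[ℓ] _))) μ →
      Module.End.HasEigenvalue (Matrix.toLin' ((R g).map (algebraMap ℚ_[ℓ] _))) ν →
      ∀ N : ℕ, 0 < N → (μ / ν) ^ N = 1 → μ = ν := by
  have hℓ : ℓ.Prime := Fact.out
  have hℓ0 : (ℓ : ℚ_[ℓ]) ≠ 0 := by exact_mod_cast hℓ.ne_zero
  let Γ : Subgroup G :=
    { carrier := {g | Neat_P ℓ n (R g) ∧ Neat_P ℓ n (R g⁻¹)}
      mul_mem' := by
        intro a b ha hb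
        refine ⟨?_, ?_⟩
        · rw [map_mul]
          exact Neat_P_mul ℓ n _ _ ha.1 hb.1
        · rw [mul_inv_rev, map_mul]
          exact Neat_P_mul ℓ n _ _ hb.2 ha.2
      one_mem' := by
        refine ⟨?_, ?_⟩
        · rw [map_one]
          exact Neat_P_one ℓ n
        · rw [inv_one, map_one]
          exact Neat_P_one ℓ n
      inv_mem' := by
        intro a ha
        refine ⟨ha.2, ?_⟩
        rw [inv_inv]
        exact ha.1 }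
  have hU : ∀ᶠ g in nhds (1 : G), Neat_P ℓ n (R g) := by
    have h1 : ∀ i j, ∀ᶠ g in nhds (1 : G), ‖(R g - 1) i j‖ < ‖((ℓ : ℚ_[ℓ]) ^ 2)‖ := by
      intro i j
      have h2 : Continuous fun g => ‖(R g - 1) i j‖ := by
        simp only [Matrix.sub_apply]
        exact ((hc i j).sub continuous_const).norm
      have h3 : ‖(R 1 - 1) i j‖ < ‖((ℓ : ℚ_[ℓ]) ^ 2)‖ := by
        rw [map_one, sub_self, Matrix.zero_apply, norm_zero]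
        exact norm_pos_iff.2 (pow_ne_zero 2 hℓ0)
      exact h2.continuousAt.eventually_lt continuousAt_const h3
    have h4 : ∀ᶠ g in nhds (1 : G), ∀ i j, ‖(R g - 1) i j‖ < ‖((ℓ : ℚ_[ℓ]) ^ 2)‖ := by
      rw [Filter.eventually_all]
      intro i
      rw [Filter.eventually_all]
      intro j
      exact h1 i j
    exact h4.mono fun g hg => Neat_P_of_norm ℓ n _ hg
  have hopen : IsOpen (Γ : Set G) := by
    apply Subgroup.isOpen_of_mem_nhds Γ (g := 1)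
    have h5 : ∀ᶠ g in nhds (1 : G), Neat_P ℓ n (R g⁻¹) := by
      have h6 : Filter.Tendsto (fun g : G => g⁻¹) (nhds 1) (nhds 1) := by
        have h7 := (continuous_inv (G := G)).tendsto 1
        rwa [inv_one] at h7
      exact h6.eventually hU
    exact (hU.and h5)
  refine ⟨Γ, ?_, ?_⟩
  · haveI := Subgroup.quotient_finite_of_isOpen Γ hopen
    exact Subgroup.finiteIndex_of_finite_quotient
  · intro g hg μ ν hμ hν N hN hμν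
    obtain ⟨c, hc1, hc2⟩ := Neat_eigen ℓ n _ hg.1 μ hμ
    obtain ⟨c', hc1', hc2'⟩ := Neat_eigen ℓ n _ hg.1 ν hν
    have hinv := Neat_eigen_inv ℓ n (R g) (R g⁻¹) (by rw [← map_mul, inv_mul_cancel, map_one]) ν hν
    obtain ⟨c'', hc1'', hc2''⟩ := Neat_eigen ℓ n _ hg.2 ν⁻¹ hinv.2
    have hνi : IsIntegral ℤ_[ℓ] ν⁻¹ := by
      rw [hc2'']
      refine isIntegral_one.add ((IsIntegral.pow ?_ 2).mul hc1'')
      have h2 : (ℓ : AlgebraicClosure ℚ_[ℓ]) = algebraMap ℤ_[ℓ] _ (ℓ : ℤ_[ℓ]) := by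
        rw [map_natCast]
      rw [h2]
      exact isIntegral_algebraMap
    have h8 : μ / ν = 1 := by
      refine Neat_unity ℓ (μ / ν) ((c - c') * ν⁻¹) N hN hμν ((hc1.sub hc1').mul hνi) ?_
      have h9 : μ / ν - 1 = (μ - ν) * ν⁻¹ := by
        have := hinv.1
        field_simp
      rw [h9]
      nth_rewrite 1 [hc2]
      nth_rewrite 1 [hc2']
      ring
    exact (div_eq_one_iff_eq hinv.1).1 h8

end Pool.Agent.B4801bT
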