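import Pool.Agent.W_b4801b_h32.Whitehead

set_option autoImplicit false

/-!
# Weyl's theorem

Theorem: `L`, `M` as in `Whitehead`, `N` a Lie submodule of `M`.  There is a linear projection of `M` onto
`N` which commutes with `L`.

Proof.  Choose a linear projection `p₀ : M → M` onto `N` (`Submodule.exists_isCompl`, or
`exists_leftInverse_of_injective`).  The `L`-module `End M = (M →ₗ M)` (Mathlib
`LinearMap.instLieModule`, `[x, φ](v) = x φ(v) - φ(x v)`) has the Lie submodule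
`Q := {φ | φ(M) ⊆ N, φ(N) = 0}`.  For `x ∈ L` the map `[x, p₀]` lies in `Q`: for `v ∈ N`:
`x p₀ v - p₀ x v = x v - x v = 0`.  `x ↦ [x, p₀]` is a cocycle `L → Q`, so by Whitehead there is `φ ∈ Q`
with `[x, p₀] = [x, φ]` for all `x`.  `p := p₀ - φ` is a projection onto `N` commuting with `L`.
-/

noncomputable section

namespace Pool.Agent.B4801bT

theorem weyl (K : Type*) [Field K] [IsAlgClosed K] [CharZero K] (L : Type*) [LieRing L]
    [LieAlgebra K L] [FiniteDimensional K L] [LieAlgebra.HasTrivialRadical K L] (M : Type*)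
    [AddCommGroup M] [Module K M] [LieRingModule L M] [LieModule K L M] [FiniteDimensional K M]
    (N : LieSubmodule K L M) :
    ∃ p : M →ₗ[K] M, (∀ v, p v ∈ N) ∧ (∀ v ∈ N, p v = v) ∧ ∀ (x : L) (v : M), p ⁅x, v⁆ = ⁅x, p v⁆ := by
  classical
  obtain ⟨g, hg⟩ := (N : Submodule K M).subtype.exists_leftInverse_of_injective
    (Submodule.ker_subtype _)
  let p₀ : M →ₗ[K] M := (N : Submodule K M).subtype ∘ₗ g
  have hp1 : ∀ v, p₀ v ∈ N := fun v => (g v).2
  have hp2 : ∀ v ∈ N, p₀ v = v := by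
    intro v hv
    have := LinearMap.congr_fun hg ⟨v, hv⟩
    have h2 : g v = ⟨v, hv⟩ := this
    simp [p₀, h2]
  let Q : LieSubmodule K L (M →ₗ[K] M) :=
    { carrier := {φ | (∀ v, φ v ∈ N) ∧ ∀ v ∈ N, φ v = 0}
      add_mem' := by
        rintro a b ⟨ha1, ha2⟩ ⟨hb1, hb2⟩
        refine ⟨fun v => ?_, fun v hv => ?_⟩
        · rw [LinearMap.add_apply]; exact add_mem (ha1 v) (hb1 v)
        · rw [LinearMap.add_apply, ha2 v hv, hb2 v hv, add_zero]
      zero_mem' := ⟨fun v => by rw [LinearMap.zero_apply]; exact zero_mem _, fun v _ => rfl⟩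
      smul_mem' := by
        rintro c a ⟨ha1, ha2⟩
        refine ⟨fun v => ?_, fun v hv => ?_⟩
        · rw [LinearMap.smul_apply]; exact N.smul_mem c (ha1 v)
        · rw [LinearMap.smul_apply, ha2 v hv, smul_zero]
      lie_mem := by
        rintro x a ⟨ha1, ha2⟩
        refine ⟨fun v => ?_, fun v hv => ?_⟩
        · rw [LieHom.lie_apply]; exact sub_mem (N.lie_mem (ha1 v)) (ha1 _)
        · rw [LieHom.lie_apply, ha2 v hv, ha2 _ (N.lie_mem hv), lie_zero, sub_zero] }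
  have hQ : ∀ φ : M →ₗ[K] M, φ ∈ Q ↔ (∀ v, φ v ∈ N) ∧ ∀ v ∈ N, φ v = 0 := fun φ => Iff.rfl
  have hx : ∀ x : L, ⁅x, p₀⁆ ∈ Q := by
    intro x
    rw [hQ]
    refine ⟨fun v => ?_, fun v hv => ?_⟩
    · rw [LieHom.lie_apply]; exact sub_mem (N.lie_mem (hp1 v)) (hp1 _)
    · rw [LieHom.lie_apply, hp2 v hv, hp2 _ (N.lie_mem hv), sub_self]
  let f : L →ₗ[K] Q :=
    { toFun := fun x => ⟨⁅x, p₀⁆, hx x⟩
      map_add' := fun x y => by
        apply Subtype.ext
        exact add_lie x y p₀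
      map_smul' := fun c x => by
        apply Subtype.ext
        exact smul_lie c x p₀ }
  obtain ⟨φ, hφ⟩ := whitehead K L Q f (by
    intro x y
    apply Subtype.ext
    exact lie_lie x y p₀)
  refine ⟨p₀ - (φ : M →ₗ[K] M), fun v => ?_, fun v hv => ?_, fun x v => ?_⟩
  · rw [LinearMap.sub_apply]
    exact sub_mem (hp1 v) (((hQ _).1 φ.2).1 v)
  · rw [LinearMap.sub_apply, hp2 v hv, ((hQ _).1 φ.2).2 v hv, sub_zero]
  · have h1 : ⁅x, p₀⁆ = ⁅x, (φ : M →ₗ[K] M)⁆ := congrArg Subtype.val (hφ x)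
    have h2 := LinearMap.congr_fun h1 v
    rw [LieHom.lie_apply, LieHom.lie_apply] at h2
    rw [LinearMap.sub_apply, LinearMap.sub_apply, lie_sub]
    have h3 : ⁅x, p₀ v⁆ - p₀ ⁅x, v⁆ - (⁅x, (φ : M →ₗ[K] M) v⁆ - (φ : M →ₗ[K] M) ⁅x, v⁆) = 0 := by
      rw [h2, sub_self]
    rw [← sub_eq_zero, ← neg_eq_zero, ← h3]
    abel

end Pool.Agent.B4801bT
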