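import Pool.Agent.W_b4801b_h32.RedSemi
import Pool.Agent.W_b4801b_h32.Weyl

set_option autoImplicit false

/-!
# Stable subspaces of a reductive Lie algebra have stable complements

Theorem: let `Red p H` and let `W` be a subspace of `V` stable under `p`.  There is a projection `P` of `V`
onto `W` which commutes with `p`.

Proof.  (1) `L := der p` is closed under commutators (`der p ≤ p`), so it is a Lie subalgebra of
`Module.End K V` (use `attribute [local instance 100] LieRing.ofAssociativeRing`).  It has trivial radical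
by `LieAlgebra.hasTrivialRadical_iff_no_abelian_ideals` and `Red.eq_bot_of_abelian` (applied to the image in
`End V` of an abelian ideal).  `V` is an `L`-module and `W` a Lie submodule.  By `weyl` there is a
projection `P₀` of `V` onto `W` which commutes with `L`.
(2) Let `Z = cen p ≤ H` (`cent`), a commutative space of semisimple elements.  Let `z0 ∈ Z` be regular for
`V`: every eigenvector of `z0` is an eigenvector of all `z ∈ Z` (`exists_regular` for the inclusion
`Z → End V`).  For an eigenvalue `μ` of `z0` let `π_μ` be the projection onto the eigenspace `E_μ` along the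
others; it is a polynomial in `z0`, so it preserves `W` and commutes with `p` (as `z0` does), and
`∑ π_μ = 1`.  Put `P := ∑_μ π_μ P₀ π_μ`.  `P` maps `V` into `W`; for `w ∈ W`: `π_μ w ∈ W`, so
`P w = ∑ π_μ π_μ w = w`.  `P` commutes with `L` as `P₀` and the `π_μ` do.  `P` preserves each `E_μ`, on which
`z ∈ Z` acts as a scalar, so `P` commutes with `Z`.  As `p ≤ Z ⊔ L`, `P` commutes with `p`.
-/

noncomputable section

namespace Pool.Agent.B4801bT

variable {K : Type*} [Field K] [IsAlgClosed K] [CharZero K] {V : Type*} [AddCommGroup V]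
  [Module K V] [FiniteDimensional K V]

attribute [local instance 100] LieRing.ofAssociativeRing

omit [IsAlgClosed K] [CharZero K] [FiniteDimensional K V] in
theorem RedProj_der_le {p H : Submodule K (Module.End K V)} (hp : Red p H) : der p ≤ p := by
  refine Submodule.span_le.mpr ?_
  rintro z ⟨x, hx, y, hy, rfl⟩
  exact hp.lie x hx y hy

/-- The derived algebra as a Lie subalgebra. -/
def RedProj_lie {p H : Submodule K (Module.End K V)} (hp : Red p H) :
    LieSubalgebra K (Module.End K V) :=
  { der p with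
    lie_mem' := fun {x y} hx hy =>
      Submodule.subset_span ⟨x, RedProj_der_le hp hx, y, RedProj_der_le hp hy, rfl⟩ }

omit [IsAlgClosed K] [CharZero K] [FiniteDimensional K V] in
theorem RedProj_mem_lie {p H : Submodule K (Module.End K V)} (hp : Red p H) (x : Module.End K V) :
    x ∈ RedProj_lie hp ↔ x ∈ der p := Iff.rfl

theorem RedProj_radical {p H : Submodule K (Module.End K V)} (hp : Red p H) :
    LieAlgebra.HasTrivialRadical K (RedProj_lie hp) := by
  rw [LieAlgebra.hasTrivialRadical_iff_no_abelian_ideals]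
  intro I hI
  have hmem : ∀ a : Module.End K V,
      a ∈ (I.toSubmodule).map (RedProj_lie hp).toSubmodule.subtype ↔
        ∃ y : RedProj_lie hp, y ∈ I ∧ (y : Module.End K V) = a := by
    intro a
    rw [Submodule.mem_map]
    exact Iff.rfl
  have hA0 : (I.toSubmodule).map (RedProj_lie hp).toSubmodule.subtype = ⊥ := by
    refine hp.eq_bot_of_abelian _ ?_ ?_ ?_
    · intro a ha
      obtain ⟨y, -, rfl⟩ := (hmem a).mp ha
      exact y.2
    · intro x hx a ha
      obtain ⟨y, hy, rfl⟩ := (hmem a).mp ha
      refine (hmem _).mpr ⟨⁅(⟨x, hx⟩ : RedProj_lie hp), y⁆, lie_mem_right K _ I _ _ hy, ?_⟩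
      rfl
    · intro a ha b hb
      obtain ⟨y, hy, rfl⟩ := (hmem a).mp ha
      obtain ⟨z, hz, rfl⟩ := (hmem b).mp hb
      have h := hI.trivial ⟨y, hy⟩ ⟨z, hz⟩
      have h2 : ⁅y, z⁆ = 0 := congrArg (fun t : I => (t : RedProj_lie hp)) h
      have h3 : (y : Module.End K V) * z - z * y = 0 :=
        congrArg (fun t : RedProj_lie hp => (t : Module.End K V)) h2
      exact sub_eq_zero.mp h3
  rw [LieSubmodule.eq_bot_iff]
  intro y hy
  have h4 : (y : Module.End K V) ∈ (I.toSubmodule).map (RedProj_lie hp).toSubmodule.subtype :=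
    (hmem _).mpr ⟨y, hy, rfl⟩
  rw [hA0, Submodule.mem_bot] at h4
  exact Subtype.ext h4

theorem RedProj_step1 {p H : Submodule K (Module.End K V)} (hp : Red p H)
    (W : Submodule K V) (hW : ∀ x ∈ p, ∀ v ∈ W, x v ∈ W) :
    ∃ P : Module.End K V, (∀ v, P v ∈ W) ∧ (∀ v ∈ W, P v = v) ∧ ∀ x ∈ der p, Commute P x := by
  have := RedProj_radical hp
  let N : LieSubmodule K (RedProj_lie hp) V :=
    { W with
      lie_mem := fun {x v} hv => hW x (RedProj_der_le hp x.2) v hv }
  obtain ⟨P, h1, h2, h3⟩ := weyl K (RedProj_lie hp) V N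
  refine ⟨P, h1, h2, ?_⟩
  intro x hx
  refine LinearMap.ext fun v => ?_
  exact h3 ⟨x, hx⟩ v

omit [CharZero K] in
theorem RedProj_spectral [CharZero K] (z : Module.End K V) (hz : z.IsSemisimple) :
    ∃ (s : Finset K) (q : K → Polynomial K),
      ∑ μ ∈ s, Polynomial.aeval z (q μ) = 1 ∧
      (∀ μ ∈ s, z * Polynomial.aeval z (q μ) = μ • Polynomial.aeval z (q μ)) ∧
      (∀ μ ∈ s, (q μ).eval μ = 1) := by
  classical
  rcases subsingleton_or_nontrivial V with hV | hV
  · refine ⟨∅, fun _ => 0, ?_, by simp, by simp⟩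
    exact LinearMap.ext fun v => Subsingleton.elim _ _
  have hint : IsIntegral K z := Algebra.IsIntegral.isIntegral z
  have hm : (minpoly K z).Monic := minpoly.monic hint
  have hsep : (minpoly K z).Separable :=
    PerfectField.separable_iff_squarefree.mpr hz.minpoly_squarefree
  have hnod : (minpoly K z).roots.Nodup := Polynomial.nodup_roots hsep
  have hspl : (minpoly K z).Splits := IsAlgClosed.splits _
  set s : Finset K := ⟨(minpoly K z).roots, hnod⟩ with hs
  have hnodal : Lagrange.nodal s (fun x : K => x) = minpoly K z := by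
    rw [hspl.eq_prod_roots_of_monic hm, Lagrange.nodal_eq]
    rfl
  have hinj : Set.InjOn (fun x : K => x) (s : Set K) := fun a _ b _ h => h
  have hne : s.Nonempty := by
    rw [Finset.nonempty_iff_ne_empty]
    intro h0
    rw [h0, Lagrange.nodal_empty] at hnodal
    have := minpoly.ne_one K z
    exact this hnodal.symm
  refine ⟨s, fun μ => Lagrange.basis s (fun x : K => x) μ, ?_, ?_, ?_⟩
  · rw [← map_sum, Lagrange.sum_basis hinj hne, map_one]
  · intro μ hμ
    have h1 : (Polynomial.X - Polynomial.C μ) * Lagrange.basis s (fun x : K => x) μ =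
        Polynomial.C (Lagrange.nodalWeight s (fun x : K => x) μ) * minpoly K z := by
      rw [Lagrange.basis_eq_prod_sub_inv_mul_nodal_div hμ, ← Lagrange.nodal_erase_eq_nodal_div hμ,
        ← hnodal, Lagrange.nodal_eq_mul_nodal_erase hμ]
      ring
    have h2 := congrArg (Polynomial.aeval z) h1
    rw [map_mul, map_mul, minpoly.aeval, mul_zero, map_sub, Polynomial.aeval_X,
      Polynomial.aeval_C, sub_mul, sub_eq_zero] at h2
    rw [h2, Algebra.smul_def]
  · intro μ hμ
    exact Lagrange.eval_basis_self hinj hμ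

omit [IsAlgClosed K] [CharZero K] [FiniteDimensional K V] in
theorem RedProj_scalar (T : Module.End K V) (E : Submodule K V)
    (h : ∀ v ∈ E, ∃ ν : K, T v = ν • v) : ∃ ν : K, ∀ v ∈ E, T v = ν • v := by
  by_cases hE : ∃ v0 ∈ E, v0 ≠ 0
  · obtain ⟨v0, hv0, hne⟩ := hE
    obtain ⟨ν0, h0⟩ := h v0 hv0
    refine ⟨ν0, fun v hv => ?_⟩
    obtain ⟨ν, hν⟩ := h v hv
    obtain ⟨ν', hν'⟩ := h (v + v0) (E.add_mem hv hv0)
    rw [map_add, hν, h0, smul_add] at hν'
    have h5 : (ν - ν') • v = (ν' - ν0) • v0 := by
      rw [sub_smul, sub_smul, sub_eq_sub_iff_add_eq_add, hν']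
      rw [add_comm]
    by_cases h6 : ν = ν'
    · rw [h6, sub_self, zero_smul] at h5
      have h7 : ν' - ν0 = 0 := by
        rcases smul_eq_zero.mp h5.symm with h8 | h8
        · exact h8
        · exact absurd h8 hne
      rw [hν, h6, sub_eq_zero.mp h7]
    · have h8 : ν - ν' ≠ 0 := sub_ne_zero.mpr h6
      have h9 : v = ((ν - ν')⁻¹ * (ν' - ν0)) • v0 := by
        rw [mul_smul, ← h5, smul_smul, inv_mul_cancel₀ h8, one_smul]
      rw [h9, map_smul, h0, smul_comm]
  · push Not at hE
    refine ⟨0, fun v hv => ?_⟩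
    rw [hE v hv, map_zero, smul_zero]

omit [IsAlgClosed K] [CharZero K] [FiniteDimensional K V] in
theorem RedProj_commute_aeval (z x : Module.End K V) (h : Commute x z) (q : Polynomial K) :
    Commute x (Polynomial.aeval z q) := by
  induction q using Polynomial.induction_on' with
  | add a b ha hb => rw [map_add]; exact ha.add_right hb
  | monomial n a =>
    rw [Polynomial.aeval_monomial]
    have hax : Commute x (algebraMap K (Module.End K V) a) := (Algebra.commutes a x).symm
    exact hax.mul_right (h.pow_right n)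

omit [IsAlgClosed K] [CharZero K] [FiniteDimensional K V] in
theorem RedProj_aeval_mul (z y : Module.End K V) (μ : K) (h : z * y = μ • y)
    (q : Polynomial K) : Polynomial.aeval z q * y = q.eval μ • y := by
  induction q using Polynomial.induction_on' with
  | add a b ha hb => rw [map_add, add_mul, ha, hb, Polynomial.eval_add, add_smul]
  | monomial n a =>
    have hn : ∀ n : ℕ, z ^ n * y = μ ^ n • y := by
      intro n
      induction n with
      | zero => simp
      | succ n ih => rw [pow_succ, mul_assoc, h, mul_smul_comm, ih, smul_smul, pow_succ']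
    rw [Polynomial.aeval_monomial, mul_assoc, hn, Polynomial.eval_monomial, ← Algebra.smul_def,
      smul_smul]

theorem Red.exists_proj {p H : Submodule K (Module.End K V)} (hp : Red p H)
    (W : Submodule K V) (hW : ∀ x ∈ p, ∀ v ∈ W, x v ∈ W) :
    ∃ P : Module.End K V, (∀ v, P v ∈ W) ∧ (∀ v ∈ W, P v = v) ∧ ∀ x ∈ p, Commute P x := by
  obtain ⟨P₀, h1, h2, h3⟩ := RedProj_step1 hp W hW
  have hcenH : ∀ z ∈ cen p, z ∈ H := fun z hz => hp.cent z hz.1 (fun h hh => hz.2 h (hp.le hh))
  obtain ⟨z0, hz0⟩ := exists_regular (cen p).subtype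
    (fun z => hp.ss _ (hcenH _ z.2)) (fun z z' => hp.comm _ (hcenH _ z.2) _ (hcenH _ z'.2))
  set z : Module.End K V := (z0 : Module.End K V) with hzdef
  have hzc : z ∈ cen p := z0.2
  obtain ⟨s, q, hsum, hq1, hq2⟩ := RedProj_spectral z (hp.ss _ (hcenH _ hzc))
  have hidem : ∀ μ ∈ s, Polynomial.aeval z (q μ) * Polynomial.aeval z (q μ) =
      Polynomial.aeval z (q μ) := by
    intro μ hμ
    rw [RedProj_aeval_mul z _ μ (hq1 μ hμ) (q μ), hq2 μ hμ, one_smul]
  have hpres : ∀ μ : K, ∀ w ∈ W, Polynomial.aeval z (q μ) w ∈ W := by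
    intro μ w hw
    exact Polynomial.aeval_apply_smul_mem_of_le_comap hw (q μ) z (fun v hv => hW z hzc.1 v hv)
  refine ⟨∑ μ ∈ s, Polynomial.aeval z (q μ) * P₀ * Polynomial.aeval z (q μ), ?_, ?_, ?_⟩
  · intro v
    rw [LinearMap.sum_apply]
    refine W.sum_mem fun μ hμ => ?_
    exact hpres μ _ (h1 _)
  · intro w hw
    have h5 : ∀ μ ∈ s, (Polynomial.aeval z (q μ) * P₀ * Polynomial.aeval z (q μ)) w =
        Polynomial.aeval z (q μ) w := by
      intro μ hμ
      have h6 : P₀ (Polynomial.aeval z (q μ) w) = Polynomial.aeval z (q μ) w :=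
        h2 _ (hpres μ w hw)
      have h7 : Polynomial.aeval z (q μ) (Polynomial.aeval z (q μ) w) =
          Polynomial.aeval z (q μ) w := LinearMap.congr_fun (hidem μ hμ) w
      calc (Polynomial.aeval z (q μ) * P₀ * Polynomial.aeval z (q μ)) w
          = Polynomial.aeval z (q μ) (P₀ (Polynomial.aeval z (q μ) w)) := rfl
        _ = Polynomial.aeval z (q μ) w := by rw [h6, h7]
    rw [LinearMap.sum_apply, Finset.sum_congr rfl h5, ← LinearMap.sum_apply, hsum]
    rfl
  · have hL : ∀ x ∈ der p,
        Commute (∑ μ ∈ s, Polynomial.aeval z (q μ) * P₀ * Polynomial.aeval z (q μ)) x := by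
      intro x hx
      refine Commute.sum_left _ _ _ fun μ _ => ?_
      have hxz : Commute x z := hzc.2 x (RedProj_der_le hp hx)
      have hxq := (RedProj_commute_aeval z x hxz (q μ)).symm
      exact (hxq.mul_left (h3 x hx)).mul_left hxq
    have hC : ∀ x ∈ cen p,
        Commute (∑ μ ∈ s, Polynomial.aeval z (q μ) * P₀ * Polynomial.aeval z (q μ)) x := by
      intro x hx
      refine Commute.sum_left _ _ _ fun μ hμ => ?_
      have hxz : Commute x z := by
        have := hp.comm x (hcenH _ hx) z (hcenH _ hzc)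
        exact this
      have hxq := (RedProj_commute_aeval z x hxz (q μ)).symm
      obtain ⟨ν, hν⟩ := RedProj_scalar x (LinearMap.ker (z - μ • (1 : Module.End K V)))
        (fun v hv => by
          have hv' : z v = μ • v := by
            rw [LinearMap.mem_ker, LinearMap.sub_apply, sub_eq_zero] at hv
            exact hv
          exact hz0 μ v hv' ⟨x, hx⟩)
      have hxq2 : x * Polynomial.aeval z (q μ) = ν • Polynomial.aeval z (q μ) := by
        refine LinearMap.ext fun v => ?_
        refine hν _ ?_
        rw [LinearMap.mem_ker, LinearMap.sub_apply, sub_eq_zero]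
        exact LinearMap.congr_fun (hq1 μ hμ) v
      have hxq3 : Polynomial.aeval z (q μ) * x = ν • Polynomial.aeval z (q μ) := by
        rw [hxq.eq, hxq2]
      change Polynomial.aeval z (q μ) * P₀ * Polynomial.aeval z (q μ) * x =
        x * (Polynomial.aeval z (q μ) * P₀ * Polynomial.aeval z (q μ))
      rw [mul_assoc _ _ x, hxq3, mul_smul_comm, mul_assoc _ P₀, ← mul_assoc x, hxq2,
        smul_mul_assoc]
    intro x hx
    obtain ⟨c, hc, l, hl, rfl⟩ := Submodule.mem_sup.mp (hp.le_cen_sup_der hx)
    exact (hC c hc).add_right (hL l hl)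

end Pool.Agent.B4801bT
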