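import Pool.Agent.W_b4801b_h32.Defs

set_option autoImplicit false

/-!
# Jordan decomposition of matrices over an algebraically closed field

* `diagonalizable_iff`: `A` is diagonalizable iff `Matrix.toLin' A` is semisimple (basis of eigenvectors:
  `Module.End.IsSemisimple`, `iSup` of the eigenspaces is `⊤`; conversely a diagonal matrix has
  squarefree minimal polynomial / `Module.End.isSemisimple_of_squarefree_aeval_eq_zero`).
* `exists_jordan`: from `Module.End.exists_isNilpotent_isSemisimple`.
* `commute_of_jordan`: if `A = s + m` with `s` diagonalizable, `m` nilpotent, `s m = m s`, then everything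
  which commutes with `A` commutes with `s` and `m`: by uniqueness
  (`Module.End.isNilpotent_isSemisimple_unique`) `s`, `m` are the elements of `K[A]` given by
  `exists_isNilpotent_isSemisimple`.
* `exists_unipotent`: an invertible `A` is `s (1 + x)` with `s` diagonalizable and invertible, `x` nilpotent,
  `s x = x s`: `A = s + m`, `s` is invertible (its eigenvalues are those of `A`, or:
  `s = A - m` with `m` nilpotent commuting with the unit `A`, `IsUnit`/`IsNilpotent.isUnit_add_left...`), `x = s⁻¹ m`.
* `commute_of_unipotent`: everything which commutes with `s (1 + x)` (`s` invertible, diagonalizable,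
  `x` nilpotent, `s x = x s`) commutes with `s` and `1 + x`.  (`s (1 + x) = s + s x`.)
-/

noncomputable section

namespace Pool.Agent.B4801bT

variable {K : Type*} [Field K] [IsAlgClosed K] [CharZero K] {ι : Type*} [Fintype ι] [DecidableEq ι]

open Module Polynomial

theorem diagonalizable_iff (A : Matrix ι ι K) :
    Diagonalizable A ↔ Module.End.IsSemisimple (Matrix.toLin' A) := by
  constructor
  · rintro ⟨P, d, hP, h⟩
    classical
    let p : K[X] := ∏ μ ∈ Finset.univ.image d, (X - C μ)
    have hsq : Squarefree p := by
      apply Polynomial.Separable.squarefree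
      rw [Polynomial.separable_prod_X_sub_C_iff']
      intro x _ y _ hxy
      exact hxy
    refine Module.End.isSemisimple_of_squarefree_aeval_eq_zero hsq ?_
    have h1 : aeval (Matrix.toLin' A) p = Matrix.toLin' (aeval A p) := by
      exact Polynomial.aeval_algHom_apply (Matrix.toLinAlgEquiv' (R := K) (n := ι)).toAlgHom A p
    have h2 : ∀ q : K[X], aeval A q * P = P * Matrix.diagonal (fun i => q.eval (d i)) := by
      intro q
      induction q using Polynomial.induction_on' with
      | add q1 q2 h1 h2 =>
        rw [map_add, add_mul, h1, h2, ← mul_add, Matrix.diagonal_add]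
        simp
      | monomial n a =>
        rw [aeval_monomial]
        have hn : A ^ n * P = P * Matrix.diagonal (fun i => (d i) ^ n) := by
          induction n with
          | zero => simp
          | succ n ih =>
            rw [pow_succ, mul_assoc, h, ← mul_assoc, ih, mul_assoc, Matrix.diagonal_mul_diagonal]
            simp [pow_succ]
        rw [mul_assoc, hn, Algebra.algebraMap_eq_smul_one, smul_mul_assoc, one_mul]
        rw [← mul_smul_comm]
        congr 1
        rw [← Matrix.diagonal_smul]
        congr 1
        ext i
        simp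
    have h3 : aeval A p = 0 := by
      have h4 := h2 p
      have h5 : (fun i => p.eval (d i)) = 0 := by
        ext i
        simp only [p, eval_prod, eval_sub, eval_X, eval_C, Pi.zero_apply]
        apply Finset.prod_eq_zero (Finset.mem_image_of_mem d (Finset.mem_univ i))
        simp
      rw [h5] at h4
      have h6 : aeval A p * P = 0 := by
        rw [h4]
        simp
      exact (hP.mul_left_eq_zero).1 h6
    rw [h1, h3]
    simp
  · intro hs
    have htop : ⨆ μ, End.eigenspace (Matrix.toLin' A) μ = ⊤ := hs.iSup_eigenspace_eq_top
    let S : Set (ι → K) := {v | ∃ μ : K, Matrix.toLin' A v = μ • v}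
    have hS : ⊤ ≤ Submodule.span K S := by
      rw [← htop]
      refine iSup_le fun μ v hv => ?_
      apply Submodule.subset_span
      exact ⟨μ, End.mem_eigenspace_iff.1 hv⟩
    let b0 := Basis.ofSpan hS
    have hfin : Fintype ↑((linearIndepOn_empty K id).extend (Set.empty_subset S)) :=
      FiniteDimensional.fintypeBasisIndex b0
    have hcard : Fintype.card ↑((linearIndepOn_empty K id).extend (Set.empty_subset S)) =
        Fintype.card ι := by
      rw [← Module.finrank_eq_card_basis b0, Module.finrank_fintype_fun_eq_card]
    let b := b0.reindex (Fintype.equivOfCardEq hcard)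
    have hb : ∀ i, ∃ μ : K, Matrix.toLin' A (b i) = μ • b i := by
      intro i
      have : b i ∈ S := by
        apply Basis.ofSpan_subset hS
        refine ⟨(Fintype.equivOfCardEq hcard).symm i, ?_⟩
        simp [b, b0]
      exact this
    choose d hd using hb
    refine ⟨(Pi.basisFun K ι).toMatrix b, d, ?_, ?_⟩
    · have := (Pi.basisFun K ι).invertibleToMatrix b
      exact isUnit_of_invertible _
    · ext i j
      rw [Matrix.mul_diagonal, Matrix.mul_apply]
      have := congrFun (hd j) i
      rw [Matrix.toLin'_apply] at this
      simp only [Matrix.mulVec, dotProduct, Pi.smul_apply, smul_eq_mul] at this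
      simp only [Basis.toMatrix_apply, Pi.basisFun_repr]
      rw [this, mul_comm]

theorem exists_jordan (A : Matrix ι ι K) :
    ∃ s m : Matrix ι ι K, Diagonalizable s ∧ IsNilpotent m ∧ Commute s m ∧ A = s + m := by
  obtain ⟨n, hn, s, hs, hnil, hss, h⟩ :=
    End.exists_isNilpotent_isSemisimple (f := Matrix.toLin' A)
  let e := (Matrix.toLinAlgEquiv' (R := K) (n := ι))
  have he : ∀ B : Matrix ι ι K, e B = Matrix.toLin' B := fun B => rfl
  refine ⟨e.symm s, e.symm n, ?_, hnil.map e.symm, ?_, ?_⟩
  · rw [diagonalizable_iff, ← he, AlgEquiv.apply_symm_apply]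
    exact hss
  · have : Commute s n := by
      exact (Algebra.commute_of_mem_adjoin_singleton_of_commute hs
        (Algebra.commute_of_mem_adjoin_singleton_of_commute hn (Commute.refl _)).symm).symm
    exact this.map e.symm
  · apply e.injective
    rw [map_add, AlgEquiv.apply_symm_apply, AlgEquiv.apply_symm_apply, he, h, add_comm]

theorem commute_of_jordan (A s m t : Matrix ι ι K) (hs : Diagonalizable s) (hm : IsNilpotent m)
    (hc : Commute s m) (h : A = s + m) (ht : Commute A t) : Commute s t ∧ Commute m t := by
  obtain ⟨n', hn', s', hs', hnil, hss, h'⟩ :=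
    End.exists_isNilpotent_isSemisimple (f := Matrix.toLin' A)
  let e := (Matrix.toLinAlgEquiv' (R := K) (n := ι))
  have he : ∀ B : Matrix ι ι K, e B = Matrix.toLin' B := fun B => rfl
  have hcomm : Commute (Matrix.toLin' A) (Matrix.toLin' t) := by
    rw [← he, ← he]; exact ht.map e
  have hcs' : Commute s' (Matrix.toLin' t) :=
    (Algebra.commute_of_mem_adjoin_singleton_of_commute hs' hcomm.symm).symm
  have hcn' : Commute n' (Matrix.toLin' t) :=
    (Algebra.commute_of_mem_adjoin_singleton_of_commute hn' hcomm.symm).symm
  have hcns : Commute n' s' :=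
    (Algebra.commute_of_mem_adjoin_singleton_of_commute hs'
        (Algebra.commute_of_mem_adjoin_singleton_of_commute hn' (Commute.refl _)).symm)
  have huniq := End.isNilpotent_isSemisimple_unique (n₁ := e m) (s₁ := e s) (n₂ := n') (s₂ := s')
    (hm.map e) ((diagonalizable_iff s).1 hs) hnil hss (hc.symm.map e) hcns
    (by rw [← h', ← map_add, ← he, h, add_comm])
  constructor
  · have : Commute (e s) (e t) := by rw [huniq.2, he]; exact hcs'
    have := this.map e.symm
    simpa using this
  · have : Commute (e m) (e t) := by rw [huniq.1, he]; exact hcn'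
    have := this.map e.symm
    simpa using this

theorem exists_unipotent (A : Matrix ι ι K) (hA : IsUnit A) :
    ∃ s x : Matrix ι ι K, Diagonalizable s ∧ IsUnit s ∧ IsNilpotent x ∧ Commute s x ∧
      A = s * (1 + x) := by
  obtain ⟨s, m, hs, hm, hc, h⟩ := exists_jordan A
  have hmA : Commute m A := by rw [h]; exact hc.symm.add_right (Commute.refl m)
  have hsu : IsUnit s := by
    have : s = A + (-m) := by rw [h]; abel
    rw [this]
    exact IsNilpotent.isUnit_add_left_of_commute hm.neg hA hmA.neg_left
  obtain ⟨u, hu⟩ := hsu
  have hcinv : Commute (↑u⁻¹ : Matrix ι ι K) m := by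
    have : Commute (u : Matrix ι ι K) m := by rw [hu]; exact hc
    exact this.units_inv_left
  refine ⟨s, (↑u⁻¹ : Matrix ι ι K) * m, hs, ⟨u, hu⟩, ?_, ?_, ?_⟩
  · exact hcinv.isNilpotent_mul_left hm
  · have h1 : Commute s (↑u⁻¹ : Matrix ι ι K) := by
      rw [← hu]
      exact Units.commute_coe_inv _
    exact h1.mul_right hc
  · rw [mul_add, mul_one, ← mul_assoc, ← hu, Units.mul_inv, one_mul, hu, h]

theorem commute_of_unipotent (A s x t : Matrix ι ι K) (hs : Diagonalizable s) (hu : IsUnit s)
    (hx : IsNilpotent x) (hc : Commute s x) (h : A = s * (1 + x)) (ht : Commute A t) :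
    Commute s t ∧ Commute (1 + x) t := by
  have hsx : IsNilpotent (s * x) := hc.isNilpotent_mul_left hx
  have hcc : Commute s (s * x) := (Commute.refl s).mul_right hc
  obtain ⟨h1, h2⟩ := commute_of_jordan A s (s * x) t hs hsx hcc (by rw [h, mul_add, mul_one]) ht
  refine ⟨h1, ?_⟩
  obtain ⟨u, rfl⟩ := hu
  have h3 : Commute (↑u⁻¹ : Matrix ι ι K) t := h1.units_inv_left
  have h4 : Commute ((↑u⁻¹ : Matrix ι ι K) * ((u : Matrix ι ι K) * x)) t := h3.mul_left h2
  rw [← mul_assoc, Units.inv_mul, one_mul] at h4
  exact (Commute.one_left t).add_left h4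

end Pool.Agent.B4801bT
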