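import Pool.Agent.W_b4801b_h32.RepBasic
import Pool.Agent.W_b4801b_h32.MatJordan

set_option autoImplicit false

/-!
# Recovering a matrix from a replica and the logarithm of its unipotent part

`mem_adjoin_lg`: for nilpotent `x`, `x ^ m = 0`, in a `K`-algebra `R` (characteristic zero), `x` lies in
the algebra generated by `lg x`.  Proof: `(lg x) ^ k = x ^ k + ` a combination of higher powers of `x`; by
downward induction on `k` (`x ^ m = 0`) all `x ^ k`, `k ≥ 1`, are in the algebra.

`stable_of_rep_lg`: let `A = s (1 + x)` be an invertible matrix as in `exists_unipotent`, `f : K → K` injective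
on the set of the eigenvalues of `A`, `B = f(A)`, and let `W` be a subspace of `K ^ n` which is stable under
`B` and under `lg x`.  Then `W` is stable under `A`.
Proof.  `x` is a polynomial in `lg x`, so `W` is stable under `x`.  The generalized eigenspace of `A` for
`μ` is the eigenspace of `s` for `μ`; `B` acts on it as `f(μ)`, `f` is injective on the eigenvalues, so
`s = q(B)` for the Lagrange interpolation polynomial with `q(f(μ)) = μ`: `W` is stable under `s`.
-/

noncomputable section

namespace Pool.Agent.B4801bT

variable {K : Type*} [Field K]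

open Polynomial in
theorem Sep_down {R : Type*} [Ring R] [Algebra K R] (x : R) (m : ℕ)
    (hx : x ^ m = 0) (U : K[X]) (hU : 0 < m → U.coeff 0 = 1) (S : Subalgebra K R)
    (hS : aeval x (X * U) ∈ S) :
    ∀ n k : ℕ, m ≤ k + n → ∀ p : K[X], X ^ k ∣ p → aeval x p ∈ S := by
  intro n
  induction n with
  | zero =>
    rintro k hk p ⟨q, rfl⟩
    have : x ^ k = 0 := by
      have h1 : k = m + (k - m) := by omega
      rw [h1, pow_add, hx, zero_mul]
    rw [map_mul, map_pow, aeval_X, this, zero_mul]
    exact S.zero_mem
  | succ n ih =>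
    rintro k hk p ⟨q, rfl⟩
    by_cases hkm : m ≤ k
    · exact ih k (by omega) _ (dvd_mul_right _ _)
    have hm : 0 < m := by omega
    have ih' := ih (k + 1) (by omega)
    -- `X ^ k = (X U) ^ k - X ^ (k+1) W`
    have h1 : X ∣ U ^ k - 1 := by
      rw [X_dvd_iff, coeff_zero_eq_eval_zero, eval_sub, eval_pow, ← coeff_zero_eq_eval_zero, hU hm]
      simp
    obtain ⟨W, hW⟩ := h1
    have h2 : (X : K[X]) ^ k = (X * U) ^ k - X ^ (k + 1) * W := by
      have : U ^ k = 1 + X * W := by rw [← hW]; ring
      rw [mul_pow, this]
      ring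
    have h3 : aeval x ((X : K[X]) ^ k) ∈ S := by
      rw [h2, map_sub, map_pow]
      exact S.sub_mem (S.pow_mem hS k) (ih' _ (dvd_mul_right _ _))
    have h4 : X ∣ q - C (q.coeff 0) := by
      rw [X_dvd_iff]
      simp
    obtain ⟨q', hq'⟩ := h4
    have h5 : X ^ k * q = C (q.coeff 0) * X ^ k + X ^ (k + 1) * q' := by
      have : q = C (q.coeff 0) + X * q' := by rw [← hq']; ring
      calc X ^ k * q = X ^ k * (C (q.coeff 0) + X * q') := by rw [← this]
        _ = _ := by ring
    rw [h5, map_add, map_mul, aeval_C]
    refine S.add_mem (S.mul_mem (S.algebraMap_mem _) h3) (ih' _ (dvd_mul_right _ _))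

open Polynomial in
theorem mem_adjoin_lg [CharZero K] {R : Type*} [Ring R] [Algebra K R] (x : R) (m : ℕ)
    (hx : x ^ m = 0) : x ∈ Algebra.adjoin K {lg K m x} := by
  let U : K[X] := ∑ i ∈ Finset.range m, C ((-1 : K) ^ i / (i + 1 : K)) * X ^ i
  have hlg : aeval x (X * U) = lg K m x := by
    simp only [U, lg, Finset.mul_sum, map_sum]
    refine Finset.sum_congr rfl fun i _ => ?_
    rw [map_mul, map_mul, map_pow, aeval_X, aeval_C, Algebra.algebraMap_eq_smul_one,
      smul_mul_assoc, one_mul, mul_smul_comm, pow_succ']
  have hU : 0 < m → U.coeff 0 = 1 := by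
    intro hm
    simp only [U, finsetSum_coeff, coeff_C_mul, coeff_X_pow]
    rw [Finset.sum_eq_single 0]
    · simp
    · intro i _ hi
      rw [if_neg (Ne.symm hi), mul_zero]
    · intro h
      exact absurd (Finset.mem_range.2 hm) h
  have h := Sep_down x m hx U hU (Algebra.adjoin K {lg K m x})
    (by rw [hlg]; exact Algebra.subset_adjoin rfl) m 0 (by omega) X (by simp)
  rwa [aeval_X] at h

/-- the matrices which map the subspace `W` to itself -/
def Sep_stab {n : ℕ} (W : Submodule K (Fin n → K)) : Subalgebra K (Mat n K) where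
  carrier := {M | ∀ v ∈ W, Matrix.toLin' M v ∈ W}
  mul_mem' := fun {a b} ha hb v hv => by
    rw [Matrix.toLin'_mul, LinearMap.comp_apply]
    exact ha _ (hb v hv)
  add_mem' := fun {a b} ha hb v hv => by
    rw [map_add, LinearMap.add_apply]
    exact W.add_mem (ha v hv) (hb v hv)
  algebraMap_mem' := fun c v hv => by
    rw [Algebra.algebraMap_eq_smul_one, map_smul, Matrix.toLin'_one, LinearMap.smul_apply,
      LinearMap.id_apply]
    exact W.smul_mem c hv

theorem Sep_gen {V : Type*} [AddCommGroup V] [Module K V] {A S N : Module.End K V}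
    (hSN : Commute S N) (h : A = S + N) {n : ℕ} (hN : N ^ n = 0) {μ : K} {v : V}
    (hv : v ∈ A.maxGenEigenspace μ) : v ∈ S.maxGenEigenspace μ := by
  rw [Module.End.mem_maxGenEigenspace] at hv ⊢
  obtain ⟨k, hk⟩ := hv
  refine ⟨n + k, ?_⟩
  have e1 : S - μ • (1 : Module.End K V) = (-N) + (A - μ • 1) := by rw [h]; abel
  have hc : Commute (-N) (A - μ • (1 : Module.End K V)) := by
    rw [h]
    refine Commute.neg_left ?_
    refine Commute.sub_right (Commute.add_right hSN.symm (Commute.refl N)) ?_
    exact (Commute.one_right N).smul_right μ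
  rw [e1, hc.add_pow, LinearMap.sum_apply]
  refine Finset.sum_eq_zero fun i hi => ?_
  have hi' : i ≤ n + k := by
    have := Finset.mem_range.1 hi
    omega
  by_cases hin : n ≤ i
  · have : (-N) ^ i = 0 := by
      obtain ⟨d, rfl⟩ := Nat.exists_eq_add_of_le hin
      rw [neg_pow, pow_add N, hN, zero_mul, mul_zero]
    rw [this, zero_mul, zero_mul, LinearMap.zero_apply]
  · have h2 : n + k - i = (n + k - i - k) + k := by omega
    have h3 : ((A - μ • (1 : Module.End K V)) ^ (n + k - i)) v = 0 := by
      rw [h2, pow_add, Module.End.mul_apply, hk, map_zero]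
    have h4 : ((-N) ^ i * (A - μ • (1 : Module.End K V)) ^ (n + k - i) *
        (((n + k).choose i : ℕ) : Module.End K V)) =
        ((n + k).choose i) • ((-N) ^ i * (A - μ • (1 : Module.End K V)) ^ (n + k - i)) := by
      rw [nsmul_eq_mul, Nat.cast_comm]
    rw [h4, LinearMap.smul_apply, Module.End.mul_apply, h3, map_zero, smul_zero]

theorem stable_of_rep_lg [IsAlgClosed K] [CharZero K] {n : ℕ} (A s x B : Mat n K)
    (hs : Diagonalizable s) (hu : IsUnit s) (hx : IsNilpotent x) (hc : Commute s x)
    (h : A = s * (1 + x)) (f : K → K)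
    (hinj : ∀ μ ν : K, Module.End.HasEigenvalue (Matrix.toLin' A) μ →
      Module.End.HasEigenvalue (Matrix.toLin' A) ν → f μ = f ν → μ = ν)
    (hB : IsRep f (Matrix.toLin' A) (Matrix.toLin' B)) (W : Submodule K (Fin n → K))
    (hWB : ∀ v ∈ W, Matrix.toLin' B v ∈ W) (hWx : ∀ v ∈ W, Matrix.toLin' (lg K n x) v ∈ W) :
    ∀ v ∈ W, Matrix.toLin' A v ∈ W := by
  classical
  have hxn' : (Matrix.toLin' x) ^ n = 0 := by
    have h1 : IsNilpotent (Matrix.toLin' x) := by
      obtain ⟨k, hk⟩ := hx
      exact ⟨k, by rw [← Matrix.toLin'_pow, hk, map_zero]⟩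
    have h2 := h1.charpoly_eq_X_pow_finrank
    have h3 := LinearMap.aeval_self_charpoly (Matrix.toLin' x)
    rw [h2, map_pow, Polynomial.aeval_X, Module.finrank_fin_fun] at h3
    exact h3
  have hxn : x ^ n = 0 := by
    apply Matrix.toLin'.injective
    rw [Matrix.toLin'_pow, hxn', map_zero]
  -- `x` is in the stabilizer
  have hxW : x ∈ Sep_stab W := by
    have h1 : Algebra.adjoin K {lg K n x} ≤ Sep_stab W := by
      rw [Algebra.adjoin_le_iff, Set.singleton_subset_iff]
      exact hWx
    exact h1 (mem_adjoin_lg x n hxn)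
  have hBW : B ∈ Sep_stab W := hWB
  -- `s` on the generalized eigenspaces
  have hss : Module.End.IsSemisimple (Matrix.toLin' s) := (diagonalizable_iff s).1 hs
  have hN : Matrix.toLin' (s * x) ^ n = 0 := by
    rw [← Matrix.toLin'_pow, hc.mul_pow, hxn, mul_zero, map_zero]
  have hsN : Commute (Matrix.toLin' s) (Matrix.toLin' (s * x)) := by
    have : Commute s (s * x) := (Commute.refl s).mul_right hc
    exact this.map (Matrix.toLinAlgEquiv' (R := K) (n := Fin n))
  have hAsum : Matrix.toLin' A = Matrix.toLin' s + Matrix.toLin' (s * x) := by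
    rw [h, mul_add, mul_one, map_add]
  have hsv : ∀ μ : K, ∀ v ∈ Module.End.maxGenEigenspace (Matrix.toLin' A) μ,
      Matrix.toLin' s v = μ • v := by
    intro μ v hv
    have h1 := Sep_gen hsN hAsum hN hv
    rw [hss.isFinitelySemisimple.maxGenEigenspace_eq_eigenspace] at h1
    exact Module.End.mem_eigenspace_iff.1 h1
  -- interpolation
  let S : Finset K := (minpoly K (Matrix.toLin' A)).roots.toFinset
  have hS : ∀ μ, μ ∈ S ↔ Module.End.HasEigenvalue (Matrix.toLin' A) μ := by
    intro μ
    rw [Module.End.hasEigenvalue_iff_isRoot, Multiset.mem_toFinset, Polynomial.mem_roots]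
    exact minpoly.ne_zero (Algebra.IsIntegral.isIntegral _)
  let q : Polynomial K := Lagrange.interpolate S f id
  have hq : ∀ μ, Module.End.HasEigenvalue (Matrix.toLin' A) μ → q.eval (f μ) = μ := by
    intro μ hμ
    refine Lagrange.eval_interpolate_at_node id ?_ ((hS μ).2 hμ)
    intro a ha b hb hab
    exact hinj a b ((hS a).1 ha) ((hS b).1 hb) hab
  have hsB : Matrix.toLin' s = Polynomial.aeval (Matrix.toLin' B) q := by
    have h1 : (⊤ : Submodule K (Fin n → K)) ≤
        LinearMap.eqLocus (Matrix.toLin' s) (Polynomial.aeval (Matrix.toLin' B) q) := by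
      rw [← Module.End.iSup_maxGenEigenspace_eq_top (Matrix.toLin' A)]
      refine iSup_le fun μ v hv => ?_
      rw [LinearMap.mem_eqLocus]
      by_cases hv0 : v = 0
      · rw [hv0, map_zero, map_zero]
      have hμ : Module.End.HasEigenvalue (Matrix.toLin' A) μ := by
        by_contra hcon
        apply hv0
        have h2 : Module.End.maxGenEigenspace (Matrix.toLin' A) μ = ⊥ := by
          by_contra hne
          apply hcon
          have h3 := hv
          rw [Module.End.mem_maxGenEigenspace] at h3
          obtain ⟨k, hk⟩ := h3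
          have h4 : Module.End.HasGenEigenvalue (Matrix.toLin' A) μ k := by
            rw [Module.End.hasGenEigenvalue_iff]
            intro hb
            apply hv0
            have : v ∈ Module.End.genEigenspace (Matrix.toLin' A) μ k := by
              rw [Module.End.mem_genEigenspace_nat]
              exact hk
            rw [hb] at this
            exact (Submodule.mem_bot K).1 this
          exact Module.End.hasEigenvalue_of_hasGenEigenvalue h4
        rw [h2] at hv
        exact (Submodule.mem_bot K).1 hv
      rw [hsv μ v hv]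
      have h5 : ∀ r : Polynomial K, Polynomial.aeval (Matrix.toLin' B) r v = r.eval (f μ) • v := by
        intro r
        have h6 : Matrix.toLin' B v = f μ • v := hB μ v hv
        induction r using Polynomial.induction_on' with
        | add p1 p2 h1 h2 => rw [map_add, LinearMap.add_apply, h1, h2, Polynomial.eval_add, add_smul]
        | monomial k c =>
          rw [Polynomial.aeval_monomial, Polynomial.eval_monomial, Module.End.mul_apply,
            Module.algebraMap_end_apply]
          have h7 : ∀ k : ℕ, (Matrix.toLin' B ^ k) v = (f μ) ^ k • v := by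
            intro k
            induction k with
            | zero => rw [pow_zero, pow_zero, one_smul, Module.End.one_apply]
            | succ k ih => rw [pow_succ', Module.End.mul_apply, ih, map_smul, h6, smul_smul,
                pow_succ]
          rw [h7, smul_smul]
      rw [h5, hq μ hμ]
    ext1 i
    ext1
    exact LinearMap.mem_eqLocus.1 (h1 Submodule.mem_top)
  have hsW : s ∈ Sep_stab W := by
    intro v hv
    have h1 : s = Polynomial.aeval B q := by
      apply Matrix.toLin'.injective
      rw [hsB]
      exact (Polynomial.aeval_algHom_apply (Matrix.toLinAlgEquiv' (R := K) (n := Fin n)).toAlgHom B q)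
    have h2 : Polynomial.aeval B q ∈ Sep_stab W := by
      have h3 : Polynomial.aeval B q = ((Polynomial.aeval (⟨B, hBW⟩ : Sep_stab W) q : Sep_stab W) :
          Mat n K) := by
        exact (Polynomial.aeval_algHom_apply (Sep_stab W).val (⟨B, hBW⟩ : Sep_stab W) q)
      rw [h3]
      exact SetLike.coe_mem _
    rw [h1]
    exact h2 v hv
  have hA : A ∈ Sep_stab W := by
    rw [h]
    exact (Sep_stab W).mul_mem hsW ((Sep_stab W).add_mem (Sep_stab W).one_mem hxW)
  exact hA

end Pool.Agent.B4801bT
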