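import Pool.Agent.W_b4801b_h32.StabRed
import Pool.Agent.W_b4801b_h32.RedProj
import Pool.Agent.W_b4801b_h32.HMax
import Pool.Agent.W_b4801b_h32.Sep
import Pool.Agent.W_b4801b_h32.Neat
import Pool.Agent.W_b4801b_h32.Emb
import Pool.Agent.W_b4801b_h32.Descent

set_option autoImplicit false

/-!
# The main theorem for a matrix representation

`stable_of_neat`: let `T` be a set of tensors, `A` an invertible matrix over `K` such that for every `t ∈ T`
some `tp (A ^ N)`, `N > 0`, commutes with `t`; assume that no quotient of two eigenvalues of `A` is a root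
of unity different from `1`.  Let `P` be an endomorphism of `K ^ n` which commutes with the stabilizer of
a subspace `W` in `gLie T K`, `W` stable under `A`.  Then `P` commutes with `A`.
Proof.  Let `A = s (1 + x)` (`exists_unipotent`), and let `f` be an abstract logarithm which is not zero on the
quotients `μ / ν` of different eigenvalues (`exists_log_ne_zero`), so `f` is injective on the eigenvalues;
`B = f(A)` (`exists_isRep`).  `B` and `lg x` are in `gLie T K` (`dtp_commute_of_isRep`, `dtp_commute_lg`) and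
preserve `W` (`B` is a polynomial in `A`; `x` is a polynomial in `A`: apply `commute_of_unipotent`-like
uniqueness, or: `W` is stable under `s` and `1 + x` since both are polynomials in `A` by
`Module.End.exists_isNilpotent_isSemisimple` and uniqueness).  So `P` commutes with `B` and `lg x`.  The graph
`{(v, P v)} ⊆ K ^ n × K ^ n` ... or directly: `x` is a polynomial in `lg x` (`mem_adjoin_lg`) and `s` is a
polynomial in `B` (as in `stable_of_rep_lg`: Lagrange interpolation), so `P` commutes with `A = s (1 + x)`.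

`main_abs`: let `R : G → M_n(ℚ_ℓ)` be a continuous representation of a compact group, `T` a set of rational tensors
with `TraceNondeg`, each fixed by a subgroup of finite index, `φ ∈ G` with characteristic polynomial `P`,
`RankLE T P`, `W` an `R`-stable subspace such that `det (R φ | W) ^ n` and `det (R φ) ^ dim W` have equal `N`-th powers
for some `N > 0`.  Then there is a projection onto `W` which commutes with `G`.
Proof.  `K` = algebraic closure of `ℚ_ℓ`, `A_g = R(g)` over `K`.  For `t ∈ T` and `g ∈ G` some power `g ^ N`, `N > 0`, lies in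
the subgroup of finite index which fixes `t` (`Subgroup.exists_pow_mem_of_index_ne_zero`).  `H := hSp (A_φ)`, a maximal
toral space of `g := gLie T K` (`maxTorus_hSp`, `exists_embedding`), `AlgLie g` (`algLie_gLie`).  `W_K := baseW W` is
stable under all `A_g`, so under `H`, and balanced (`hSp_balanced`, `det_baseW`, `finrank_baseW`).  `red_stab` and
`Red.exists_proj` give a projection `Q` onto `W_K` which commutes with `stab g W_K`.  Let `Γ` be the neat subgroup
(`exists_neat`).  By `stable_of_neat` `Q` commutes with `A_g`, `g ∈ Γ`.  `exists_proj_descent`.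
-/

noncomputable section

open Polynomial

namespace Pool.Agent.B4801bT

lemma MainAbs_commute_toLin {K : Type*} [Field K] {n : ℕ} {A B : Mat n K} (h : Commute A B) :
    Commute (Matrix.toLin' A : Module.End K (Fin n → K)) (Matrix.toLin' B) :=
  h.map (Matrix.toLinAlgEquiv' : Mat n K ≃ₐ[K] _)

lemma MainAbs_isRep_id {K : Type*} [Field K] [IsAlgClosed K] [CharZero K] {n : ℕ}
    (A s x : Mat n K) (hs : Diagonalizable s)
    (hx : IsNilpotent x) (hc : Commute s x) (h : A = s * (1 + x)) :
    IsRep (fun μ => μ) (Matrix.toLin' A : Module.End K (Fin n → K)) (Matrix.toLin' s) := by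
  intro μ v hv
  have hss : Module.End.IsSemisimple (Matrix.toLin' s : Module.End K (Fin n → K)) :=
    (diagonalizable_iff s).mp hs
  have hsA : Commute A s := by
    rw [h]
    exact (Commute.refl s).mul_left ((Commute.one_left s).add_left hc.symm)
  have hnil : IsNilpotent ((Matrix.toLin' A : Module.End K (Fin n → K)) - Matrix.toLin' s) := by
    have : A - s = s * x := by rw [h, mul_add, mul_one, add_sub_cancel_left]
    have h2 : IsNilpotent (A - s) := by
      rw [this]
      exact hc.isNilpotent_mul_left hx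
    rw [← map_sub]
    exact h2.map (Matrix.toLinAlgEquiv' : Mat n K ≃ₐ[K] _)
  exact Module.End.apply_eq_of_mem_of_comm_of_isFinitelySemisimple_of_isNil hv
    (MainAbs_commute_toLin hsA) hss.isFinitelySemisimple hnil

/-- A subspace stable under an injective operator `s` is stable under a left inverse. -/
lemma MainAbs_stable_inv {K : Type*} [Field K] {V : Type*} [AddCommGroup V] [Module K V]
    [FiniteDimensional K V] (s s' : Module.End K V) (h : s' * s = 1) (W : Submodule K V)
    (hW : ∀ v ∈ W, s v ∈ W) : ∀ v ∈ W, s' v ∈ W := by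
  intro v hv
  have hinj : Function.Injective (s.restrict hW) := by
    intro a b hab
    have h1 : s a = s b := congrArg Subtype.val hab
    have h2 : (s' * s) a = (s' * s) b := by
      rw [Module.End.mul_apply, Module.End.mul_apply, h1]
    rw [h] at h2
    exact Subtype.ext h2
  obtain ⟨u, hu⟩ := (LinearMap.injective_iff_surjective.mp hinj) ⟨v, hv⟩
  have h3 : s (u : V) = v := congrArg Subtype.val hu
  have h4 : (s' * s) (u : V) = s' v := by rw [Module.End.mul_apply, h3]
  rw [h] at h4
  rw [← h4]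
  exact u.2

theorem commute_of_neat {K : Type*} [Field K] [IsAlgClosed K] [CharZero K] [Algebra ℚ K] {n : ℕ}
    (T : TensorSet n) (A : Mat n K) (hA : IsUnit A)
    (hfix : ∀ t ∈ T, ∃ N : ℕ, 0 < N ∧ Commute (tp t.1 (A ^ N)) (t.2.map (algebraMap ℚ K)))
    (hneat : ∀ μ ν : K, Module.End.HasEigenvalue (Matrix.toLin' A) μ →
      Module.End.HasEigenvalue (Matrix.toLin' A) ν →
      ∀ N : ℕ, 0 < N → (μ / ν) ^ N = 1 → μ = ν)
    (W : Submodule K (Fin n → K)) (hW : ∀ v ∈ W, Matrix.toLin' A v ∈ W)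
    (P : Module.End K (Fin n → K)) (hP : ∀ y ∈ stab (gLie T K) W, Commute P y) :
    Commute P (Matrix.toLin' A) := by
  classical
  obtain ⟨s, x, hs, hu, hx, hc, hAs⟩ := exists_unipotent A hA
  have hrs := MainAbs_isRep_id A s x hs hx hc hAs
  -- the eigenvalues
  let L : Module.End K (Fin n → K) := Matrix.toLin' A
  have hfin : {μ : K | L.HasEigenvalue μ}.Finite := Module.End.finite_hasEigenvalue L
  let E : Finset K := hfin.toFinset
  have hE : ∀ μ, μ ∈ E ↔ L.HasEigenvalue μ := fun μ => hfin.mem_toFinset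
  have hE0 : ∀ μ ∈ E, μ ≠ 0 := by
    intro μ hμ h0
    obtain ⟨v, hv⟩ := ((hE μ).mp hμ).exists_hasEigenvector
    have h1 : Matrix.toLin' A v = 0 := by rw [hv.apply_eq_smul, h0, zero_smul]
    obtain ⟨A', hA'⟩ := hA.exists_left_inv
    have h2 : Matrix.toLin' (A' * A) v = 0 := by
      rw [Matrix.toLin'_mul, LinearMap.comp_apply, h1, map_zero]
    rw [hA', Matrix.toLin'_one] at h2
    exact hv.2 h2
  let S : Finset K := ((E ×ˢ E).filter fun z => z.1 ≠ z.2).image fun z => z.1 / z.2
  have hS : ∀ s ∈ S, s ≠ 0 ∧ ∀ N : ℕ, 0 < N → s ^ N ≠ 1 := by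
    intro z hz
    obtain ⟨⟨μ, ν⟩, h1, rfl⟩ := Finset.mem_image.mp hz
    rw [Finset.mem_filter, Finset.mem_product] at h1
    refine ⟨div_ne_zero (hE0 _ h1.1.1) (hE0 _ h1.1.2), fun N hN h2 => h1.2 ?_⟩
    exact hneat _ _ ((hE _).mp h1.1.1) ((hE _).mp h1.1.2) N hN h2
  obtain ⟨f, hf, hfS⟩ := exists_log_ne_zero K S hS
  have hinj : ∀ μ ν : K, L.HasEigenvalue μ → L.HasEigenvalue ν → f μ = f ν → μ = ν := by
    intro μ ν hμ hν h
    by_contra hne
    have h1 : μ / ν ∈ S := Finset.mem_image.mpr ⟨(μ, ν), by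
      rw [Finset.mem_filter, Finset.mem_product]
      exact ⟨⟨(hE _).mpr hμ, (hE _).mpr hν⟩, hne⟩, rfl⟩
    have hν0 : ν ≠ 0 := hE0 _ ((hE _).mpr hν)
    have h2 := hf (μ / ν) ν (div_ne_zero (hE0 _ ((hE _).mpr hμ)) hν0) hν0
    rw [div_mul_cancel₀ _ hν0, h] at h2
    exact hfS _ h1 (by simpa using h2)
  -- the replica
  obtain ⟨B, hB, -, -⟩ := exists_isRep f L
  have hBm : Matrix.toLin' (LinearMap.toMatrix' B) = B := Matrix.toLin'_toMatrix' B
  have hBst : ∀ v ∈ W, B v ∈ W := hB.mapsTo W hW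
  have hPB : Commute P B := by
    apply hP
    refine ⟨?_, hBst⟩
    rw [← hBm, toLin'_mem_gLie]
    intro t ht
    obtain ⟨N, hN, hNt⟩ := hfix t ht
    exact (dtp_commute_of_isRep t.1 A (LinearMap.toMatrix' B) hA hf (by rw [hBm]; exact hB) N hN _
      hNt).eq
  -- stability under `s` and `x`
  have hsst : ∀ v ∈ W, Matrix.toLin' s v ∈ W := hrs.mapsTo W hW
  obtain ⟨s', hs'⟩ := hu.exists_left_inv
  have hs'st : ∀ v ∈ W, Matrix.toLin' s' v ∈ W := by
    refine MainAbs_stable_inv (Matrix.toLin' s) (Matrix.toLin' s') ?_ W hsst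
    show Matrix.toLin' s' ∘ₗ Matrix.toLin' s = 1
    rw [← Matrix.toLin'_mul, hs', Matrix.toLin'_one]
    rfl
  have hxe : x = s' * A - 1 := by
    rw [hAs, ← mul_assoc, hs', one_mul, add_sub_cancel_left]
  have hxst : ∀ v ∈ W, Matrix.toLin' x v ∈ W := by
    intro v hv
    rw [hxe, map_sub, Matrix.toLin'_one, LinearMap.sub_apply, Matrix.toLin'_mul,
      LinearMap.comp_apply]
    exact W.sub_mem (hs'st _ (hW v hv)) hv
  have hxpow : ∀ k : ℕ, ∀ v ∈ W, Matrix.toLin' (x ^ k) v ∈ W := by
    intro k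
    induction k with
    | zero =>
      intro v hv
      rw [pow_zero, Matrix.toLin'_one]
      exact hv
    | succ k ih =>
      intro v hv
      rw [pow_succ, Matrix.toLin'_mul, LinearMap.comp_apply]
      exact ih _ (hxst v hv)
  have hlst : ∀ v ∈ W, Matrix.toLin' (lg K n x) v ∈ W := by
    intro v hv
    rw [lg, map_sum, LinearMap.sum_apply]
    refine W.sum_mem fun i _ => ?_
    rw [map_smul, LinearMap.smul_apply]
    exact W.smul_mem _ (hxpow _ v hv)
  have hPl : Commute P (Matrix.toLin' (lg K n x)) := by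
    apply hP
    refine ⟨?_, hlst⟩
    rw [toLin'_mem_gLie]
    intro t ht
    obtain ⟨N, hN, hNt⟩ := hfix t ht
    exact (dtp_commute_lg t.1 A s x hs hu hx hc hAs N hN _ hNt).eq
  -- `P` commutes with `x`
  have hxn : x ^ n = 0 := by
    have h1 := Matrix.isNilpotent_charpoly_sub_pow_of_isNilpotent hx
    rw [Fintype.card_fin] at h1
    have h2 : x.charpoly = X ^ n := sub_eq_zero.mp h1.eq_zero
    have h3 := Matrix.aeval_self_charpoly x
    rw [h2, map_pow, aeval_X] at h3
    exact h3
  have hPx : Commute P (Matrix.toLin' x) := by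
    have h1 := mem_adjoin_lg (K := K) x n hxn
    have h2 : (Matrix.toLinAlgEquiv' : Mat n K ≃ₐ[K] _) x ∈
        Algebra.adjoin K {(Matrix.toLinAlgEquiv' : Mat n K ≃ₐ[K] _) (lg K n x)} := by
      have h3 : (Matrix.toLinAlgEquiv' : Mat n K ≃ₐ[K] _) x ∈
          (Algebra.adjoin K {lg K n x}).map
            ((Matrix.toLinAlgEquiv' : Mat n K ≃ₐ[K] _) : Mat n K →ₐ[K] _) := ⟨x, h1, rfl⟩
      rw [AlgHom.map_adjoin, Set.image_singleton] at h3
      exact h3
    exact Algebra.commute_of_mem_adjoin_singleton_of_commute h2 hPl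
  -- `P` commutes with `s`
  have hPs : Commute P (Matrix.toLin' s) := by
    have hfi : Set.InjOn f (E : Set K) := fun μ hμ ν hν h =>
      hinj μ ν ((hE _).mp hμ) ((hE _).mp hν) h
    let q : K[X] := Lagrange.interpolate E f id
    have hq : ∀ μ ∈ E, q.eval (f μ) = μ := fun μ hμ =>
      Lagrange.eval_interpolate_at_node id hfi hμ
    have hBq : ∀ (p : K[X]) (c : K) (v : Fin n → K), B v = c • v → aeval B p v = p.eval c • v := by
      intro p c v hv
      by_cases hv0 : v = 0
      · rw [hv0, map_zero, smul_zero]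
      · exact Module.End.aeval_apply_of_hasEigenvector
          ⟨Module.End.mem_eigenspace_iff.mpr hv, hv0⟩
    have hrep : IsRep (fun μ => μ) L (aeval B q) := by
      intro μ v hv
      by_cases hv0 : v = 0
      · rw [hv0, map_zero, smul_zero]
      · have hμ : L.HasEigenvalue μ := by
          refine (Module.End.hasUnifEigenvalue_iff_hasUnifEigenvalue_one
            (k := ⊤) (by simp)).mp fun h1 => ?_
          have h2 : v ∈ L.genEigenspace μ ⊤ := hv
          rw [h1] at h2
          exact hv0 ((Submodule.mem_bot K).mp h2)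
        rw [hBq q (f μ) v (hB μ v hv), hq μ ((hE _).mpr hμ)]
    have hseq : (Matrix.toLin' s : Module.End K (Fin n → K)) = aeval B q := hrs.unique hrep
    rw [hseq]
    have h4 : aeval B q ∈ Algebra.adjoin K {B} := by
      rw [Algebra.adjoin_singleton_eq_range_aeval]
      exact ⟨q, rfl⟩
    exact Algebra.commute_of_mem_adjoin_singleton_of_commute h4 hPB
  have : (Matrix.toLin' A : Module.End K (Fin n → K)) =
      Matrix.toLin' s * (1 + Matrix.toLin' x) := by
    rw [hAs, Matrix.toLin'_mul, map_add, Matrix.toLin'_one]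
    rfl
  rw [this]
  exact hPs.mul_right ((Commute.one_right P).add_right hPx)

theorem main_abs (ℓ : ℕ) [Fact ℓ.Prime] {G : Type*} [Group G] [TopologicalSpace G]
    [IsTopologicalGroup G] [CompactSpace G] {n : ℕ} (R : G →* Mat n ℚ_[ℓ])
    (hcont : ∀ i j, Continuous fun g => R g i j) (T : TensorSet n) (hT : TraceNondeg T)
    (hfix : ∀ t ∈ T, ∃ Γ : Subgroup G, Γ.FiniteIndex ∧
      ∀ g ∈ Γ, Commute (tp t.1 (R g)) (t.2.map (algebraMap ℚ ℚ_[ℓ])))
    (P : ℚ[X]) (hrank : RankLE T P) (φ : G) (hφ : (R φ).charpoly = P.map (algebraMap ℚ ℚ_[ℓ]))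
    (W : Submodule ℚ_[ℓ] (Fin n → ℚ_[ℓ])) (hW : ∀ g, ∀ v ∈ W, Matrix.toLin' (R g) v ∈ W)
    (N : ℕ) (hN : 0 < N)
    (hdet : (LinearMap.det ((Matrix.toLin' (R φ)).restrict (hW φ)) ^ n) ^ N =
      (LinearMap.det (Matrix.toLin' (R φ)) ^ Module.finrank ℚ_[ℓ] W) ^ N) :
    ∃ P₀ : Module.End ℚ_[ℓ] (Fin n → ℚ_[ℓ]), (∀ v, P₀ v ∈ W) ∧ (∀ v ∈ W, P₀ v = v) ∧
      ∀ g, Commute P₀ (Matrix.toLin' (R g)) := by
  classical
  let K := AlgebraicClosure ℚ_[ℓ]
  obtain ⟨ι⟩ := exists_embedding ℓ
  let A : G → Mat n K := fun g => (R g).map (algebraMap ℚ_[ℓ] K)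
  have hAmul : ∀ g h, A (g * h) = A g * A h := by
    intro g h
    show (R (g * h)).map (algebraMap ℚ_[ℓ] K) = _
    rw [map_mul, Matrix.map_mul]
  have hA1 : A 1 = 1 := by
    show (R 1).map (algebraMap ℚ_[ℓ] K) = _
    rw [map_one, Matrix.map_one _ (map_zero _) (map_one _)]
  have hApow : ∀ (g : G) (k : ℕ), A (g ^ k) = A g ^ k := by
    intro g k
    induction k with
    | zero => rw [pow_zero, pow_zero, hA1]
    | succ k ih => rw [pow_succ, pow_succ, hAmul, ih]
  have hAu : ∀ g, IsUnit (A g) := by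
    intro g
    refine ⟨⟨A g, A g⁻¹, ?_, ?_⟩, rfl⟩
    · rw [← hAmul, mul_inv_cancel, hA1]
    · rw [← hAmul, inv_mul_cancel, hA1]
  -- every element has a power fixing the tensor `t`
  have hfix' : ∀ g, ∀ t ∈ T, ∃ N : ℕ, 0 < N ∧
      Commute (tp t.1 (A g ^ N)) (t.2.map (algebraMap ℚ K)) := by
    intro g t ht
    obtain ⟨Γ, hΓ, hfixt⟩ := hfix t ht
    obtain ⟨N, hN, -, hgN⟩ := Γ.exists_pow_mem_of_index_ne_zero hΓ.index_ne_zero g
    refine ⟨N, hN, ?_⟩
    have h1 := hfixt _ hgN
    have h2 : tp t.1 (A g ^ N) = (tp t.1 (R (g ^ N))).map (algebraMap ℚ_[ℓ] K) := by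
      rw [← hApow, ← tp_map]
    have h3 : t.2.map (algebraMap ℚ K) = (t.2.map (algebraMap ℚ ℚ_[ℓ])).map
        (algebraMap ℚ_[ℓ] K) := by
      rw [Matrix.map_map]
      congr 1
    rw [h2, h3]
    show _ * _ = _ * _
    rw [← Matrix.map_mul, ← Matrix.map_mul, h1.eq]
  have hφK : (A φ).charpoly = P.map (algebraMap ℚ K) := by
    show ((R φ).map (algebraMap ℚ_[ℓ] K)).charpoly = _
    rw [Matrix.charpoly_map, hφ, Polynomial.map_map]
    congr 1
  let H : Submodule K (Module.End K (Fin n → K)) := hSp (Matrix.toLin' (A φ))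
  have hmax : MaxTorus (gLie T K) H := maxTorus_hSp T P hrank ι (A φ) (hAu φ) hφK (hfix' φ)
  have halg : AlgLie (gLie T K) := algLie_gLie T hT K
  let WK : Submodule K (Fin n → K) := baseW K W
  have hWK : ∀ g, ∀ v ∈ WK, Matrix.toLin' (A g) v ∈ WK := fun g => baseW_stable W (R g) (hW g)
  have hdetφ : LinearMap.det (Matrix.toLin' (A φ)) ≠ 0 := by
    rw [LinearMap.det_toLin']
    exact ((Matrix.isUnit_iff_isUnit_det _).mp (hAu φ)).ne_zero
  have hdetK : (LinearMap.det ((Matrix.toLin' (A φ)).restrict (hWK φ)) ^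
      Module.finrank K (Fin n → K)) ^ N =
      (LinearMap.det (Matrix.toLin' (A φ)) ^ Module.finrank K WK) ^ N := by
    have h1 : LinearMap.det ((Matrix.toLin' (A φ)).restrict (hWK φ)) =
        algebraMap ℚ_[ℓ] K (LinearMap.det ((Matrix.toLin' (R φ)).restrict (hW φ))) :=
      det_baseW W (R φ) (hW φ)
    have h2 : LinearMap.det (Matrix.toLin' (A φ)) =
        algebraMap ℚ_[ℓ] K (LinearMap.det (Matrix.toLin' (R φ))) := by
      rw [LinearMap.det_toLin', LinearMap.det_toLin']
      exact (RingHom.map_det (algebraMap ℚ_[ℓ] K) (R φ)).symm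
    have h3 : Module.finrank K WK = Module.finrank ℚ_[ℓ] W := finrank_baseW W
    rw [h1, h2, h3, Module.finrank_fin_fun, ← map_pow, ← map_pow, hdet, map_pow, map_pow]
  have hred : Red (stab (gLie T K) WK) H := by
    refine red_stab halg hmax WK (hSp_stable _ WK (hWK φ)) ?_
    intro h hh
    exact hSp_balanced (Matrix.toLin' (A φ)) hdetφ WK (hWK φ) N hN hdetK h hh
  obtain ⟨Q, hQ1, hQ2, hQ3⟩ := hred.exists_proj WK fun x hx => hx.2
  obtain ⟨Γ, hΓ, hneat⟩ := exists_neat ℓ n R hcont
  exact exists_proj_descent R W hW Γ hΓ Q hQ1 hQ2 fun g hg =>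
    commute_of_neat T (A g) (hAu g) (hfix' g) (hneat g hg) WK (hWK g) Q hQ3

end Pool.Agent.B4801bT
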