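import Pool.Agent.W_b4801b_h32.TorDefs
import Pool.Agent.W_b4801b_h32.MainAbs
import Pool.Agent.W_b4801b_h32.Arith
import Pool.Agent.W_MP_b4801b_h67.Transfer

set_option autoImplicit false

/-!
# From the matrix representation to the compatible system

Proof of `semisimple_of_rank`.  Let `ℓ ≠ p_x`, `V = V_ℓ` with the basis `b`, `R σ` the matrix of `ρ(σ)` (a monoid
homomorphism, with continuous entries by `PolRep.continuous`; `Gal k` is compact since `k` has
characteristic zero, so `AlgebraicClosure k / k` is Galois: `IsGalois`, `Mathlib/FieldTheory/Galois/Profinite`).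
Let `W` be a Galois-stable subspace of `V`, `W'` its image in `ℚ_ℓ ^ n` under `b.equivFun`.  The characteristic
polynomial of `R φ`, `φ = x.frob`, is `P_x` (`charpoly_frob`).  `det_alg` gives `N > 0` with
`AlgIn F (det (φ | W) ^ N)`.  Let `K` be the algebraic closure of `ℚ_ℓ` and `ι : K → ℂ` (`exists_embedding`).
The characteristic polynomial of `φ | W` divides the one of `φ` (in `Pool/Agent/W_MP_b4801b_h67` there are
such lemmas), so the multiset `s` of its roots in `K` is contained in `P_x.aroots K`, `s.prod = det (φ | W)`,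
`card s = dim W`.  All complex roots of `P_x` have absolute value `c = sqrt (q ^ w) > 0` (`pure`; `q ≠ 0` by
`cyc_frob`).  `arith` gives the hypothesis `hdet` of `main_abs` (over `ℚ_ℓ`: `algebraMap` is injective; the
product of all roots is `det (R φ)`).  `main_abs` gives a projection onto `W'` commuting with `R σ`; its kernel,
transported to `V`, is a Galois-stable complement of `W`.
-/

noncomputable section

open Polynomial Pool.Agent.B4801b

universe u v

namespace Pool.Agent.B4801bT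

theorem semisimple_of_rank (k : Type u) [Field k] [CharZero k] (w : ℕ) (F : Type*) [Field F]
    [Algebra ℚ F] (S : AlgCompSys.{u, v} k w F) (D : TensorData S.toCompSys) (x : Place k)
    (hx : x ∈ S.Pl) (hT : TraceNondeg D.T) (hrank : RankLE D.T (S.P x))
    (hZ : Nonempty (F →+* ℝ) ∨
      ∀ z ∈ ratioGroup (S.P x) ℂ, AlgIn F (z : ℂ) → ∃ N : ℕ, 0 < N ∧ z ^ N = 1) :
    ∀ (ℓ : ℕ) [Fact ℓ.Prime], ℓ ≠ x.p → (S.rep ℓ).Semisimple := by
  intro ℓ _ hℓ W hW
  classical
  let K := AlgebraicClosure ℚ_[ℓ]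
  obtain ⟨ι⟩ := exists_embedding ℓ
  let ρ := (S.rep ℓ).ρ
  let φ : Gal k := x.frob
  let b := D.basis ℓ
  let e := b.equivFun
  let R : Gal k →* Mat D.n ℚ_[ℓ] :=
    ((LinearMap.toMatrixAlgEquiv b : _ ≃ₐ[ℚ_[ℓ]] Mat D.n ℚ_[ℓ]) : _ →* Mat D.n ℚ_[ℓ]).comp ρ
  have hR : ∀ σ, R σ = LinearMap.toMatrix b b (ρ σ) := fun σ => rfl
  have hRe : ∀ σ v, Matrix.toLin' (R σ) (e v) = e (ρ σ v) := by
    intro σ v
    rw [Matrix.toLin'_apply, hR]
    exact LinearMap.toMatrix_mulVec_repr b b (ρ σ) v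
  have hcont : ∀ i j, Continuous fun σ => R σ i j := by
    intro i j
    have h1 : ∀ σ, R σ i j = b.coord i (ρ σ (b j)) := by
      intro σ
      rw [hR, LinearMap.toMatrix_apply]
      rfl
    simp only [h1]
    exact (S.rep ℓ).continuous (b.coord i) (b j)
  have hchar : (ρ φ).charpoly = (S.P x).map (algebraMap ℚ ℚ_[ℓ]) := S.charpoly_frob x hx ℓ hℓ
  have hRchar : (R φ).charpoly = (S.P x).map (algebraMap ℚ ℚ_[ℓ]) := by
    rw [← hchar, hR, LinearMap.charpoly_toMatrix]
  have hfix : ∀ t ∈ D.T, ∃ Γ : Subgroup (Gal k), Γ.FiniteIndex ∧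
      ∀ g ∈ Γ, Commute (tp t.1 (R g)) (t.2.map (algebraMap ℚ ℚ_[ℓ])) := by
    intro t ht
    obtain ⟨Γ, h1, h2⟩ := D.fixed ℓ t ht
    exact ⟨Γ, h1, fun g hg => h2 g hg⟩
  let W' : Submodule ℚ_[ℓ] (Fin D.n → ℚ_[ℓ]) := W.map e.toLinearMap
  have hW' : ∀ g, ∀ v ∈ W', Matrix.toLin' (R g) v ∈ W' := by
    rintro g _ ⟨v, hv, rfl⟩
    refine ⟨ρ g v, hW g v hv, ?_⟩
    exact (hRe g v).symm
  -- the determinant
  obtain ⟨N, hN, hdet⟩ := S.det_alg ℓ W hW
  have hdetx := hdet x.frob ⟨x, hx, hℓ, rfl⟩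
  let B : Module.End ℚ_[ℓ] W := (ρ φ).restrict (hW φ)
  have hB : detOn ρ W hW φ = LinearMap.det B := rfl
  let s : Multiset K := B.charpoly.aroots K
  have hsprod : s.prod = algebraMap ℚ_[ℓ] K (LinearMap.det B) := prod_aroots K B
  have hscard : Multiset.card s = Module.finrank ℚ_[ℓ] W := card_aroots K B
  have haroots : (S.P x).aroots K = (ρ φ).charpoly.aroots K := by
    rw [hchar, Polynomial.aroots, Polynomial.aroots, Polynomial.map_map,
      ← IsScalarTower.algebraMap_eq]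
  have hne : ((ρ φ).charpoly.map (algebraMap ℚ_[ℓ] K)) ≠ 0 :=
    Polynomial.map_ne_zero (LinearMap.charpoly_monic _).ne_zero
  have hs : s ≤ (S.P x).aroots K := by
    rw [haroots]
    refine Polynomial.roots.le_of_dvd hne (Polynomial.map_dvd _ ?_)
    rw [charpoly_mul W (ρ φ) (hW φ)]
    exact dvd_mul_right _ _
  have hPmonic : (S.P x).Monic := by
    have h1 : ((S.P x).map (algebraMap ℚ ℚ_[ℓ])).Monic := by
      rw [← hchar]
      exact LinearMap.charpoly_monic _
    exact Polynomial.monic_of_injective (algebraMap ℚ ℚ_[ℓ]).injective h1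
  have hq0 : x.q ≠ 0 := by
    intro h0
    have := x.cyc_frob ℓ hℓ
    rw [h0, Nat.cast_zero, mul_zero] at this
    exact zero_ne_one this
  have hcpos : (0 : ℝ) < (x.q : ℝ) ^ w := pow_pos (Nat.cast_pos.mpr (Nat.pos_of_ne_zero hq0)) w
  have hpure : ∀ z : ℂ, aeval z (S.P x) = 0 → ‖z‖ = Real.sqrt ((x.q : ℝ) ^ w) := by
    intro z hz
    rw [← S.pure x hx z hz, Real.sqrt_sq (norm_nonneg z)]
  have halg : AlgIn F (s.prod ^ N) := by
    rw [hsprod, ← map_pow]
    exact (algIn_map F (IsScalarTower.toAlgHom ℚ ℚ_[ℓ] K) _).mpr hdetx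
  obtain ⟨M, hM, hMeq⟩ := arith F (S.P x) hPmonic (Real.sqrt ((x.q : ℝ) ^ w))
    (Real.sqrt_pos.mpr hcpos) hpure hZ ι s hs N hN halg
  have hdeg : (S.P x).natDegree = D.n := by
    rw [← Polynomial.natDegree_map (algebraMap ℚ ℚ_[ℓ]), ← hchar, LinearMap.charpoly_natDegree,
      Module.finrank_eq_card_basis b, Fintype.card_fin]
  have hall : ((S.P x).aroots K).prod = algebraMap ℚ_[ℓ] K (LinearMap.det (ρ φ)) := by
    rw [haroots, prod_aroots K (ρ φ)]
  rw [hdeg, hall, hscard, hsprod] at hMeq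
  have hMeq' : (LinearMap.det B ^ D.n) ^ M =
      (LinearMap.det (ρ φ) ^ Module.finrank ℚ_[ℓ] W) ^ M := by
    apply (algebraMap ℚ_[ℓ] K).injective
    rw [map_pow, map_pow, map_pow, map_pow]
    exact hMeq
  -- transport to matrices
  let eW : W ≃ₗ[ℚ_[ℓ]] W' := e.submoduleMap W
  have heW : ∀ v : W, ((eW v : W') : Fin D.n → ℚ_[ℓ]) = e v := fun v => rfl
  have hconj : (Matrix.toLin' (R φ)).restrict (hW' φ) = eW.conj B := by
    refine LinearMap.ext fun v => ?_
    obtain ⟨u, rfl⟩ := eW.surjective v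
    rw [LinearEquiv.conj_apply_apply, LinearEquiv.symm_apply_apply]
    apply Subtype.ext
    show Matrix.toLin' (R φ) (e u) = e (ρ φ u)
    exact hRe φ u
  have hdetW : LinearMap.det ((Matrix.toLin' (R φ)).restrict (hW' φ)) = LinearMap.det B := by
    rw [hconj]
    exact LinearMap.det_conj B eW
  have hdetR : LinearMap.det (Matrix.toLin' (R φ)) = LinearMap.det (ρ φ) := by
    rw [LinearMap.det_toLin', hR, LinearMap.det_toMatrix]
  have hfr : Module.finrank ℚ_[ℓ] W' = Module.finrank ℚ_[ℓ] W := (LinearEquiv.finrank_eq eW).symm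
  obtain ⟨P₀, h1, h2, h3⟩ := main_abs ℓ R hcont D.T hT hfix (S.P x) hrank φ hRchar W' hW' M hM
    (by rw [hdetW, hdetR, hfr]; exact hMeq')
  -- the complement
  let Q : Module.End ℚ_[ℓ] (S.rep ℓ).V := (e.symm.toLinearMap ∘ₗ P₀) ∘ₗ e.toLinearMap
  have hQ : ∀ v, e (Q v) = P₀ (e v) := fun v => e.apply_symm_apply _
  have hQ1 : ∀ v, Q v ∈ W := by
    intro v
    obtain ⟨u, hu, hu'⟩ := h1 (e v)
    have : e u = e (Q v) := by rw [hQ]; exact hu'
    rw [← e.injective this]
    exact hu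
  have hQ2 : ∀ v ∈ W, Q v = v := by
    intro v hv
    apply e.injective
    rw [hQ]
    exact h2 _ ⟨v, hv, rfl⟩
  have hQ3 : ∀ σ v, Q (ρ σ v) = ρ σ (Q v) := by
    intro σ v
    apply e.injective
    rw [hQ, ← hRe, ← hRe, hQ]
    have h4 := LinearMap.congr_fun (h3 σ).eq (e v)
    exact h4
  refine ⟨LinearMap.ker Q, ?_, ?_⟩
  · intro σ v hv
    rw [LinearMap.mem_ker] at hv ⊢
    rw [hQ3, hv, map_zero]
  · rw [isCompl_iff, disjoint_iff, codisjoint_iff]
    constructor
    · rw [eq_bot_iff]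
      rintro v ⟨hv, hv'⟩
      have h5 : Q v = 0 := hv'
      rw [hQ2 v hv] at h5
      rw [h5]
      exact Submodule.zero_mem _
    · rw [eq_top_iff]
      intro v _
      refine Submodule.mem_sup.mpr ⟨Q v, hQ1 v, v - Q v, ?_, by abel⟩
      rw [LinearMap.mem_ker, map_sub, hQ2 _ (hQ1 v), sub_self]

end Pool.Agent.B4801bT
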