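import Pool.Agent.W_b4801b_h32.Defs

set_option autoImplicit false

/-!
# Abstract logarithms with given values

`exists_logs`: for multiplicatively independent `v₁, …, v_d ∈ Kˣ` there are abstract logarithms `f_i` with
`f_i(v_j) = δ_ij`.
`exists_log_ne_zero`: for a finite set `S` of nonzero elements of `K` none of which is a root of unity there
is an abstract logarithm `f` with `f(s) ≠ 0` for all `s ∈ S`.

Proof.  Let `M = Additive Kˣ`, `M_ℚ = ℚ ⊗ M` (or the localization of `M` at the nonzero integers).  The map
`M → M_ℚ` has as kernel the torsion of `M`, so the images of the `v_i` are linearly independent over `ℚ` and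
the images of the elements of `S` are not zero.  Linear forms `M_ℚ → ℚ` with given values on linearly
independent vectors exist (`LinearIndependent.extend`, `Basis.constr`), and there is a linear form which is
not zero on finitely many nonzero vectors (`Module.exists_dual_forall_apply_ne_zero`-like lemma, or: a
vector space over an infinite field is not a finite union of proper subspaces).  Compose with `ℚ → K` and
define `f(a) = 0` for `a = 0`.  (Other proof: `K` is a divisible group, so an injective `ℤ`-module; extend
homomorphisms from the finitely generated subgroup generated by the given elements.)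
-/

noncomputable section

namespace Pool.Agent.B4801bT

theorem LogHom_ext {K : Type*} [Field K] [CharZero K] {M N : Type*} [AddCommGroup M]
    [AddCommGroup N] (f : M →+ N) (hf : Function.Injective f) (g : M →+ K) :
    ∃ h : N →+ K, h.comp f = g :=
  (Module.Baer.of_divisible K).extension_property_addMonoidHom f hf g

/-- the function on the field defined by a homomorphism on the units -/
def LogHom_fun {K : Type*} [Field K] (g : Additive Kˣ →+ K) (a : K) : K := by
  classical exact if h : a = 0 then 0 else g (Additive.ofMul (Units.mk0 a h))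

theorem LogHom_fun_unit {K : Type*} [Field K] (g : Additive Kˣ →+ K) (a : Kˣ) :
    LogHom_fun g (a : K) = g (Additive.ofMul a) := by
  unfold LogHom_fun
  rw [dif_neg a.ne_zero, Units.mk0_val]

theorem LogHom_fun_isLog {K : Type*} [Field K] (g : Additive Kˣ →+ K) : IsLog (LogHom_fun g) := by
  intro a b ha hb
  have h1 := LogHom_fun_unit g (Units.mk0 a ha * Units.mk0 b hb)
  have h2 := LogHom_fun_unit g (Units.mk0 a ha)
  have h3 := LogHom_fun_unit g (Units.mk0 b hb)
  rw [Units.val_mul, Units.val_mk0, Units.val_mk0, ofMul_mul, map_add] at h1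
  rw [Units.val_mk0] at h2 h3
  rw [h1, h2, h3]

theorem exists_logs (K : Type*) [Field K] [CharZero K] {d : ℕ} (v : Fin d → Kˣ)
    (hv : MulIndep v) :
    ∃ f : Fin d → K → K, (∀ i, IsLog (f i)) ∧ ∀ i j, f i (v j : K) = if i = j then 1 else 0 := by
  classical
  let φ : (Fin d → ℤ) →+ Additive Kˣ :=
    (Fintype.linearCombination ℤ (fun i => Additive.ofMul (v i))).toAddMonoidHom
  have hφ : ∀ m, φ m = ∑ i, m i • Additive.ofMul (v i) := fun m => rfl
  have hinj : Function.Injective φ := by
    rw [injective_iff_map_eq_zero]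
    intro m hm
    apply hv m
    rw [hφ] at hm
    have h1 := congrArg Additive.toMul hm
    simpa using h1
  have hex : ∀ i : Fin d, ∃ h : Additive Kˣ →+ K, h.comp φ =
      (Int.castAddHom K).comp (Pi.evalAddMonoidHom (fun _ : Fin d => ℤ) i) :=
    fun i => LogHom_ext φ hinj _
  choose h hh using hex
  refine ⟨fun i => LogHom_fun (h i), fun i => LogHom_fun_isLog _, fun i j => ?_⟩
  change LogHom_fun (h i) (v j : K) = _
  rw [LogHom_fun_unit]
  have h1 := DFunLike.congr_fun (hh i) (Pi.single j 1)
  have h2 : φ (Pi.single j 1) = Additive.ofMul (v j) := by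
    rw [hφ, Finset.sum_eq_single j]
    · rw [Pi.single_eq_same, one_smul]
    · intro k _ hk
      rw [Pi.single_eq_of_ne hk, zero_smul]
    · intro hj
      exact absurd (Finset.mem_univ j) hj
  rw [AddMonoidHom.comp_apply, h2] at h1
  rw [h1, AddMonoidHom.comp_apply, Pi.evalAddMonoidHom_apply]
  by_cases hij : i = j
  · subst hij
    simp
  · rw [Pi.single_eq_of_ne hij, if_neg hij]
    simp

theorem exists_log_ne_zero (K : Type*) [Field K] [CharZero K] (S : Finset K)
    (hS : ∀ s ∈ S, s ≠ 0 ∧ ∀ N : ℕ, 0 < N → s ^ N ≠ 1) :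
    ∃ f : K → K, IsLog f ∧ ∀ s ∈ S, f s ≠ 0 := by
  classical
  have : Infinite K := inferInstance
  let u : S → Kˣ := fun s => Units.mk0 s.1 (hS s.1 s.2).1
  let ev : S → Module.Dual K (Additive Kˣ →+ K) := fun s =>
    { toFun := fun g => g (Additive.ofMul (u s))
      map_add' := fun g h => rfl
      map_smul' := fun c g => rfl }
  have hev : ∀ s, ∃ g, ev s g ≠ 0 := by
    intro s
    let φ : ℤ →+ Additive Kˣ := zmultiplesHom (Additive Kˣ) (Additive.ofMul (u s))
    have hφ : ∀ n, φ n = n • Additive.ofMul (u s) := fun n => rfl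
    have hpow : ∀ N : ℕ, 0 < N → (u s) ^ N ≠ 1 := by
      intro N hN h
      refine (hS s.1 s.2).2 N hN ?_
      have := congrArg Units.val h
      simpa [u] using this
    have hinj : Function.Injective φ := by
      rw [injective_iff_map_eq_zero]
      intro n hn
      by_contra hn0
      rw [hφ] at hn
      have h1 : u s ^ n = 1 := by
        have := congrArg Additive.toMul hn
        simpa using this
      rcases Int.eq_nat_or_neg n with ⟨k, rfl | rfl⟩
      · rw [zpow_natCast] at h1
        exact hpow k (by omega) h1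
      · rw [zpow_neg, zpow_natCast, inv_eq_one] at h1
        exact hpow k (by omega) h1
    obtain ⟨h, hh⟩ := LogHom_ext φ hinj (Int.castAddHom K)
    refine ⟨h, ?_⟩
    have h1 := DFunLike.congr_fun hh 1
    rw [AddMonoidHom.comp_apply, hφ, one_smul] at h1
    change h (Additive.ofMul (u s)) ≠ 0
    rw [h1]
    simp
  obtain ⟨g, hg⟩ := Module.Dual.exists_forall_ne_zero_of_forall_exists ev hev
  refine ⟨LogHom_fun g, LogHom_fun_isLog g, fun s hs => ?_⟩
  have h1 := LogHom_fun_unit g (u ⟨s, hs⟩)
  have h2 : ((u ⟨s, hs⟩ : Kˣ) : K) = s := rfl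
  rw [h2] at h1
  rw [h1]
  exact hg ⟨s, hs⟩

theorem IsLog.one {K : Type*} [Field K] {f : K → K} (hf : IsLog f) : f 1 = 0 := by
  have h := hf 1 1 one_ne_zero one_ne_zero
  rw [mul_one] at h
  exact left_eq_add.mp h

theorem IsLog.pow {K : Type*} [Field K] {f : K → K} (hf : IsLog f) (a : K) (ha : a ≠ 0) (N : ℕ) :
    f (a ^ N) = N * f a := by
  induction N with
  | zero => rw [pow_zero, hf.one, Nat.cast_zero, zero_mul]
  | succ N ih => rw [pow_succ, hf _ _ (pow_ne_zero N ha) ha, ih, Nat.cast_succ, add_mul, one_mul]

theorem IsLog.eq_zero_of_pow {K : Type*} [Field K] [CharZero K] {f : K → K} (hf : IsLog f) (a : K)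
    (N : ℕ) (hN : 0 < N) (ha : a ^ N = 1) : f a = 0 := by
  have h0 : a ≠ 0 := by
    rintro rfl
    rw [zero_pow hN.ne'] at ha
    exact zero_ne_one ha
  have h := hf.pow a h0 N
  rw [ha, hf.one] at h
  rcases mul_eq_zero.mp h.symm with h' | h'
  · exact absurd h' (Nat.cast_ne_zero.mpr hN.ne')
  · exact h'

end Pool.Agent.B4801bT
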