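import Pool.Agent.W_b4801b_h32.RepBasic

set_option autoImplicit false

/-!
# The trace of `f(A)`

Theorem: `A` an invertible endomorphism of `V`, `f` an abstract logarithm, `B = f(A)`.  Then
`tr B = f (det A)`.

Proof.  `V` is the direct sum of the generalized eigenspaces `V_μ` of `A` (`μ ≠ 0`), of dimension `d_μ`;
`tr B = ∑ d_μ f(μ)` and `det A = ∏ μ ^ d_μ`.  (E.g. `Module.End.charpoly` splits, `det A` is the product of
the roots of the characteristic polynomial, whose multiplicities are the `d_μ`; or induction on `dim V`: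
take an eigenvector `v` of `A`, `A` and `B` act on `V / K v` and on `K v`, and `IsRep` passes to the
quotient; or: choose a basis in which `A` is upper triangular and show that `B` is upper triangular with
the diagonal entries `f(μ_i)`.)  `f(∏ μ ^ d_μ) = ∑ d_μ f(μ)` as `f` is an abstract logarithm (and
`f 1 = 0`).
-/

noncomputable section

namespace Pool.Agent.B4801bT

variable {K : Type*} [Field K] [IsAlgClosed K] [CharZero K] {V : Type*} [AddCommGroup V]
  [Module K V] [FiniteDimensional K V]

theorem RepTrace_one {K : Type*} [Field K] {f : K → K} (hf : IsLog f) : f 1 = 0 := by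
  have h1 := hf 1 1 one_ne_zero one_ne_zero
  rw [mul_one] at h1
  exact left_eq_add.1 h1

theorem RepTrace_pow {K : Type*} [Field K] {f : K → K} (hf : IsLog f) {a : K} (ha : a ≠ 0)
    (n : ℕ) : f (a ^ n) = n * f a := by
  induction n with
  | zero => rw [pow_zero, RepTrace_one hf, Nat.cast_zero, zero_mul]
  | succ n ih =>
    rw [pow_succ, hf _ _ (pow_ne_zero _ ha) ha, ih]
    push_cast
    ring

theorem RepTrace_prod {K : Type*} [Field K] {f : K → K} (hf : IsLog f) {ι : Type*} (s : Finset ι)
    (a : ι → K) (ha : ∀ i ∈ s, a i ≠ 0) : f (∏ i ∈ s, a i) = ∑ i ∈ s, f (a i) := by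
  classical
  induction s using Finset.induction_on with
  | empty => rw [Finset.prod_empty, Finset.sum_empty, RepTrace_one hf]
  | insert i s hi ih =>
    rw [Finset.prod_insert hi, Finset.sum_insert hi, hf _ _ (ha i (Finset.mem_insert_self _ _))
      (Finset.prod_ne_zero_iff.2 fun j hj => ha j (Finset.mem_insert_of_mem hj)),
      ih fun j hj => ha j (Finset.mem_insert_of_mem hj)]

theorem IsRep.trace_eq {f : K → K} (hf : IsLog f) {A B : Module.End K V} (h : IsRep f A B)
    (hA : LinearMap.det A ≠ 0) : LinearMap.trace K V B = f (LinearMap.det A) := by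
  classical
  have hsplit : A.charpoly.Splits := IsAlgClosed.splits _
  have hdet := A.det_eq_prod_roots_charpoly_of_splits hsplit
  have hint : DirectSum.IsInternal (fun μ : K => A.maxGenEigenspace μ) :=
    DirectSum.isInternal_submodule_of_iSupIndep_of_iSup_eq_top
      A.independent_maxGenEigenspace (Module.End.iSup_maxGenEigenspace_eq_top A)
  have hfin : {μ : K | A.maxGenEigenspace μ ≠ ⊥}.Finite :=
    WellFoundedGT.finite_ne_bot_of_iSupIndep hint.submodule_iSupIndep
  have hmaps : ∀ μ : K, Set.MapsTo B (A.maxGenEigenspace μ) (A.maxGenEigenspace μ) := by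
    intro μ v hv
    rw [h μ v hv]
    exact Submodule.smul_mem _ _ hv
  have hset : hfin.toFinset = A.charpoly.roots.toFinset := by
    ext μ
    rw [Set.Finite.mem_toFinset, Set.mem_setOf_eq, Multiset.mem_toFinset,
      ← Multiset.count_pos, Polynomial.count_roots, ← LinearMap.finrank_maxGenEigenspace_eq,
      Module.finrank_pos_iff, Submodule.nontrivial_iff_ne_bot]
  have hroot : ∀ μ ∈ A.charpoly.roots.toFinset, μ ≠ 0 := by
    rintro μ hμ rfl
    rw [Multiset.mem_toFinset] at hμ
    exact hA (hdet.trans (Multiset.prod_eq_zero hμ))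
  rw [LinearMap.trace_eq_sum_trace_restrict' hint hfin hmaps, hset, hdet,
    Finset.prod_multiset_count, RepTrace_prod hf _ _ fun μ hμ => pow_ne_zero _ (hroot μ hμ)]
  refine Finset.sum_congr rfl fun μ hμ => ?_
  rw [RepTrace_pow hf (hroot μ hμ), Polynomial.count_roots, ← LinearMap.finrank_maxGenEigenspace_eq]
  have h1 : B.restrict (hmaps μ) = f μ • (1 : Module.End K (A.maxGenEigenspace μ)) :=
    LinearMap.ext fun v => Subtype.ext (h μ v v.2)
  rw [h1, map_smul, LinearMap.trace_one, smul_eq_mul, mul_comm]

end Pool.Agent.B4801bT
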