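import Pool.Agent.W_b4801b_h32.AnnLie
import Pool.Agent.W_b4801b_h32.RepTrace
import Pool.Agent.W_b4801b_h32.LogHom

set_option autoImplicit false

/-!
# The toral algebra generated by one invertible operator

`hSp A = {f(A) + c | f an abstract logarithm, c ∈ K}`.

* `hSp_ss`: its elements are semisimple (`f(A) + c` is `f'(A)` for `f' μ = f μ + c`; `IsRep.isSemisimple`);
* `hSp_comm`: they commute (polynomials in `A`, `IsRep.commute`);
* `hSp_le`: if for every `t ∈ T` some `tp (A ^ N)`, `N > 0`, commutes with `t`, then `hSp A ≤ gLie T K`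
  (`dtp_commute_of_isRep`; `dtp a 1 = a • 1` by `dtp_diagonal`);
* `hSp_stable`: subspaces stable under `A` are stable under `hSp A` (`IsRep.mapsTo`);
* `hSp_balanced`: if `W` is `A`-stable and `det (A | W) ^ dim V` and `det (A) ^ dim W` have equal `N`-th powers for
  some `N > 0`, then `dim V · tr (h | W) = dim W · tr h` for `h ∈ hSp A`: for `h = c` clear; for `h = f(A)`
  `tr (h | W) = f (det (A | W))`, `tr h = f (det A)` (`IsRep.trace_eq`, `IsRep.restrict`), and
  `N · dim V · f (det (A | W)) = N · dim W · f (det A)` by `IsLog.pow`.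
-/

noncomputable section

namespace Pool.Agent.B4801bT

/-- The operators `f(A) + c`, `f` an abstract logarithm. -/
def hSp {K : Type*} [Field K] {V : Type*} [AddCommGroup V] [Module K V] (A : Module.End K V) :
    Submodule K (Module.End K V) where
  carrier := {B | ∃ (f : K → K) (B' : Module.End K V) (c : K), IsLog f ∧ IsRep f A B' ∧
    B = B' + c • 1}
  add_mem' := by
    rintro _ _ ⟨f, B, c, hf, hB, rfl⟩ ⟨g, C, d, hg, hC, rfl⟩
    refine ⟨fun μ => f μ + g μ, B + C, c + d, ?_, ?_, ?_⟩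
    · intro a b ha hb
      show f (a * b) + g (a * b) = f a + g a + (f b + g b)
      rw [hf a b ha hb, hg a b ha hb]
      ring
    · intro μ v hv
      rw [LinearMap.add_apply, hB μ v hv, hC μ v hv, add_smul]
    · rw [add_smul]
      abel
  zero_mem' := by
    refine ⟨fun _ => 0, 0, 0, ?_, ?_, ?_⟩
    · intro a b _ _
      rw [add_zero]
    · intro μ v _
      rw [LinearMap.zero_apply, zero_smul]
    · rw [zero_smul, add_zero]
  smul_mem' := by
    rintro e _ ⟨f, B, c, hf, hB, rfl⟩
    refine ⟨fun μ => e * f μ, e • B, e * c, ?_, ?_, ?_⟩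
    · intro a b ha hb
      show e * f (a * b) = e * f a + e * f b
      rw [hf a b ha hb, mul_add]
    · intro μ v hv
      rw [LinearMap.smul_apply, hB μ v hv, mul_smul]
    · rw [smul_add, smul_smul]

variable {K : Type*} [Field K] [IsAlgClosed K] [CharZero K]

section

variable {V : Type*} [AddCommGroup V] [Module K V] [FiniteDimensional K V]

theorem HSpace_rep (A : Module.End K V) (h : Module.End K V) (hh : h ∈ hSp A) :
    ∃ g : K → K, IsRep g A h := by
  obtain ⟨f, B, c, _, hB, rfl⟩ := hh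
  refine ⟨fun μ => f μ + c, fun μ v hv => ?_⟩
  rw [LinearMap.add_apply, hB μ v hv, LinearMap.smul_apply, Module.End.one_apply, add_smul]

theorem hSp_ss (A : Module.End K V) : ∀ h ∈ hSp A, h.IsSemisimple := by
  intro h hh
  obtain ⟨g, hg⟩ := HSpace_rep A h hh
  exact hg.isSemisimple

theorem hSp_comm (A : Module.End K V) : ∀ h ∈ hSp A, ∀ h' ∈ hSp A, Commute h h' := by
  intro h hh h' hh'
  obtain ⟨g, hg⟩ := HSpace_rep A h hh
  obtain ⟨g', hg'⟩ := HSpace_rep A h' hh'
  exact hg.commute (hg'.commute (Commute.refl A)).symm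

theorem hSp_stable (A : Module.End K V) (W : Submodule K V) (hW : ∀ v ∈ W, A v ∈ W) :
    ∀ h ∈ hSp A, ∀ v ∈ W, h v ∈ W := by
  intro h hh
  obtain ⟨g, hg⟩ := HSpace_rep A h hh
  exact hg.mapsTo W hW

theorem HSpace_det (A : Module.End K V) (hA : LinearMap.det A ≠ 0) (W : Submodule K V)
    (hW : ∀ v ∈ W, A v ∈ W) : LinearMap.det (A.restrict hW) ≠ 0 := by
  intro h0
  have h1 := LinearMap.bot_lt_ker_of_det_eq_zero h0
  obtain ⟨v, hv, hv0⟩ := (Submodule.ne_bot_iff _).1 h1.ne'
  have h2 : A (v : V) = 0 := congrArg Subtype.val (LinearMap.mem_ker.1 hv)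
  have h3 : LinearMap.ker A = ⊥ := (LinearMap.isUnit_iff_ker_eq_bot A).1
    ((LinearMap.isUnit_iff_isUnit_det A).2 (isUnit_iff_ne_zero.2 hA))
  have h4 : (v : V) ∈ LinearMap.ker A := h2
  rw [h3, Submodule.mem_bot] at h4
  exact hv0 (Subtype.ext h4)

theorem hSp_balanced (A : Module.End K V) (hA : LinearMap.det A ≠ 0) (W : Submodule K V)
    (hW : ∀ v ∈ W, A v ∈ W) (N : ℕ) (hN : 0 < N)
    (hdet : (LinearMap.det (A.restrict hW) ^ Module.finrank K V) ^ N =
      (LinearMap.det A ^ Module.finrank K W) ^ N) (h : Module.End K V) (hh : h ∈ hSp A) :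
    (Module.finrank K V : K) * LinearMap.trace K W (h.restrict (hSp_stable A W hW h hh)) =
      (Module.finrank K W : K) * LinearMap.trace K V h := by
  obtain ⟨f, B, c, hf, hB, rfl⟩ := hh
  have hBW := hB.mapsTo W hW
  have h1 := hB.trace_eq hf hA
  have h2 := (hB.restrict W hW hBW).trace_eq hf (HSpace_det A hA W hW)
  have h3 : (B + c • (1 : Module.End K V)).restrict
      (hSp_stable A W hW _ ⟨f, B, c, hf, hB, rfl⟩) =
      B.restrict hBW + c • (1 : Module.End K W) := by
    ext v
    rfl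
  have h4 : (N : K) * ((Module.finrank K V : K) * f (LinearMap.det (A.restrict hW))) =
      N * ((Module.finrank K W : K) * f (LinearMap.det A)) := by
    have h5 := congrArg f hdet
    rwa [hf.pow _ (pow_ne_zero _ (HSpace_det A hA W hW)), hf.pow _ (HSpace_det A hA W hW),
      hf.pow _ (pow_ne_zero _ hA), hf.pow _ hA] at h5
  have h6 := mul_left_cancel₀ (Nat.cast_ne_zero.2 hN.ne') h4
  rw [h3, map_add, map_add, map_smul, map_smul, LinearMap.trace_one, LinearMap.trace_one, h1, h2,
    mul_add, mul_add, h6, smul_eq_mul, smul_eq_mul]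
  ring

end

theorem hSp_le {n : ℕ} (T : TensorSet n) [Algebra ℚ K] (A : Mat n K) (hA : IsUnit A)
    (hfix : ∀ t ∈ T, ∃ N : ℕ, 0 < N ∧ Commute (tp t.1 (A ^ N)) (t.2.map (algebraMap ℚ K))) :
    hSp (Matrix.toLin' A : Module.End K (Fin n → K)) ≤ gLie T K := by
  rintro _ ⟨f, B, c, hf, hB, rfl⟩
  have hone : (1 : Module.End K (Fin n → K)) ∈ gLie T K := by
    have h1 : (Matrix.toLin' (1 : Mat n K) : Module.End K (Fin n → K)) ∈ gLie T K := by
      rw [toLin'_mem_gLie]
      intro t _
      have h2 : dtp t.1 (1 : Mat n K) = (t.1 : K) • (1 : TMat t.1 n K) := by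
        rw [← Matrix.diagonal_one, dtp_diagonal, ← Matrix.diagonal_one, ← Matrix.diagonal_smul]
        congr 1
        ext I
        simp
      rw [h2, Matrix.smul_mul, Matrix.mul_smul, Matrix.one_mul, Matrix.mul_one]
    rw [Matrix.toLin'_one] at h1
    exact h1
  refine Submodule.add_mem _ ?_ (Submodule.smul_mem _ c hone)
  obtain ⟨M, rfl⟩ : ∃ M : Mat n K, B = Matrix.toLin' M := ⟨LinearMap.toMatrix' B, by simp⟩
  rw [toLin'_mem_gLie]
  intro t ht
  obtain ⟨N, hN, hc⟩ := hfix t ht
  exact (dtp_commute_of_isRep t.1 A M hA hf hB N hN _ hc).eq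

end Pool.Agent.B4801bT
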