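import Pool.Agent.W_b4801b_h32.TpAlg

set_option autoImplicit false

/-!
# The logarithm of a unipotent matrix which preserves a tensor

Theorem: let `x` be a nilpotent `n × n` matrix over a field `K` of characteristic zero, `x ^ m = 0`, `N > 0`,
and let `t` commute with `tp ((1 + x) ^ (N j))` for all `j ∈ ℕ`.  Then `t` commutes with
`dtp (lg x)`, `lg x = ∑_{1 ≤ i ≤ m} (-1)^(i-1) x^i / i`.

Proof.  Let `U(c) = ∑_{i < m+1} binom(c, i) x ^ i`, a matrix over `K[c]`, where
`binom(c, i) = c (c-1) ⋯ (c-i+1) / i!` (`Polynomial`: `descPochhammer`/`Ring.choose`, or any polynomial with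
these values at the natural numbers).  `U(j) = (1 + x) ^ j` for natural `j`.  The entries of
`tp (U(c)) t - t tp (U(c))` are polynomials in `c` which vanish at all `c = N j`, so they are zero.
The derivative at `c = 0`: `U(0) = 1`, `U'(0) = ∑_{i ≥ 1} (-1)^(i-1) / i · x ^ i = lg x` (the derivative of
`binom(c, i)` at `0` is `(-1)^(i-1) / i`), and the derivative of `tp (U(c))` at `0` is `dtp (U'(0))` by the
product rule (`deriv_tp` below): so `dtp (lg x) t = t dtp (lg x)`.

`deriv_tp`: entry `(I, J)`: `d/dc ∏_i U(c)(I i, J i)` at `0` is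
`∑_k U'(0)(I k, J k) ∏_{i ≠ k} U(0)(I i, J i)` (`Polynomial.derivative_prod`), and `U(0) = 1`.
-/

noncomputable section

open Polynomial

namespace Pool.Agent.B4801bT

variable {K : Type*} [Field K] {n : ℕ}

theorem deriv_tp (a : ℕ) (U : Mat n K[X]) (h0 : U.map (fun p => p.eval 0) = 1) :
    (tp a U).map (fun p => (derivative p).eval 0) =
      dtp a (U.map fun p => (derivative p).eval 0) := by
  classical
  have h1 : ∀ p q, (U p q).eval 0 = if p = q then 1 else 0 := by
    intro p q
    have := congrFun (congrFun h0 p) q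
    rw [Matrix.map_apply, Matrix.one_apply] at this
    exact this
  ext I J
  rw [Matrix.map_apply]
  simp only [tp, dtp, Matrix.map_apply]
  rw [derivative_prod_finset, eval_finsetSum]
  refine Finset.sum_congr rfl fun k _ => ?_
  rw [eval_mul, eval_prod]
  simp only [h1]
  by_cases hk : ∀ j, j ≠ k → I j = J j
  · rw [if_pos hk, Finset.prod_eq_one, one_mul]
    intro i hi
    rw [if_pos (hk i (Finset.ne_of_mem_erase hi))]
  · rw [if_neg hk]
    push Not at hk
    obtain ⟨j, hj, hIJ⟩ := hk
    rw [Finset.prod_eq_zero (Finset.mem_erase.2 ⟨hj, Finset.mem_univ j⟩) (if_neg hIJ), zero_mul]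

/-- The polynomial `binom(X, i)`. -/
def LogTensor_bi (K : Type*) [Field K] (i : ℕ) : K[X] :=
  C ((i.factorial : K)⁻¹) * descPochhammer K i

theorem LogTensor_bi_nat [CharZero K] (i j : ℕ) :
    (LogTensor_bi K i).eval (j : K) = (j.choose i : K) := by
  have h : (i.factorial : K) ≠ 0 := by exact_mod_cast i.factorial_ne_zero
  rw [LogTensor_bi, eval_mul, eval_C, descPochhammer_eval_eq_descFactorial,
    Nat.descFactorial_eq_factorial_mul_choose, Nat.cast_mul, ← mul_assoc, inv_mul_cancel₀ h, one_mul]

theorem LogTensor_desc_neg_one (i : ℕ) :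
    (descPochhammer K i).eval (-1) = (-1) ^ i * (i.factorial : K) := by
  induction i with
  | zero => simp
  | succ i ih =>
    rw [descPochhammer_succ_eval, ih, Nat.factorial_succ, Nat.cast_mul, Nat.cast_succ, pow_succ]
    ring

theorem LogTensor_bi_deriv [CharZero K] (i : ℕ) :
    (derivative (LogTensor_bi K (i + 1))).eval 0 = (-1) ^ i / (i + 1 : K) := by
  have h : (i.factorial : K) ≠ 0 := by exact_mod_cast i.factorial_ne_zero
  have h' : (i + 1 : K) ≠ 0 := by exact_mod_cast i.succ_ne_zero
  have e : (derivative (descPochhammer K (i + 1))).eval 0 = (-1) ^ i * (i.factorial : K) := by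
    rw [descPochhammer_succ_left, derivative_mul, derivative_X, one_mul, eval_add, eval_mul, eval_X,
      zero_mul, add_zero, eval_comp, eval_sub, eval_X, eval_one, zero_sub, LogTensor_desc_neg_one]
  rw [LogTensor_bi, derivative_C_mul, eval_mul, eval_C, e, Nat.factorial_succ, Nat.cast_mul,
    Nat.cast_succ]
  field_simp

theorem LogTensor_bi_deriv_zero : (derivative (LogTensor_bi K 0)).eval 0 = 0 := by
  simp [LogTensor_bi]

/-- `U(X) = ∑_{i ≤ m} binom(X, i) x ^ i`. -/
def LogTensor_U (m : ℕ) (x : Mat n K) : Mat n K[X] :=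
  fun p q => ∑ i ∈ Finset.range (m + 1), LogTensor_bi K i * C ((x ^ i) p q)

theorem LogTensor_U_nat [CharZero K] (m : ℕ) (x : Mat n K) (hx : x ^ m = 0) (j : ℕ) :
    (LogTensor_U m x).map (fun p => p.eval (j : K)) = (1 + x) ^ j := by
  have e1 : (1 + x) ^ j = ∑ i ∈ Finset.range (j + 1), (j.choose i : K) • x ^ i := by
    rw [add_comm, (Commute.one_right x).add_pow]
    refine Finset.sum_congr rfl fun i _ => ?_
    rw [one_pow, mul_one, Nat.cast_smul_eq_nsmul, nsmul_eq_mul, Nat.cast_comm]
  have e2 : (1 + x) ^ j = ∑ i ∈ Finset.range (m + 1), (j.choose i : K) • x ^ i := by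
    rw [e1]
    have s1 : ∑ i ∈ Finset.range (j + 1), (j.choose i : K) • x ^ i =
        ∑ i ∈ Finset.range (m + j + 1), (j.choose i : K) • x ^ i := by
      refine Finset.sum_subset (Finset.range_subset_range.2 (by omega)) fun i _ hi => ?_
      rw [Finset.mem_range, not_lt] at hi
      rw [Nat.choose_eq_zero_of_lt (by omega), Nat.cast_zero, zero_smul]
    have s2 : ∑ i ∈ Finset.range (m + 1), (j.choose i : K) • x ^ i =
        ∑ i ∈ Finset.range (m + j + 1), (j.choose i : K) • x ^ i := by
      refine Finset.sum_subset (Finset.range_subset_range.2 (by omega)) fun i _ hi => ?_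
      rw [Finset.mem_range, not_lt] at hi
      have : x ^ i = 0 := by
        rw [show i = m + (i - m) by omega, pow_add, hx, zero_mul]
      rw [this, smul_zero]
    rw [s1, s2]
  rw [e2]
  ext p q
  rw [Matrix.map_apply, LogTensor_U, eval_finsetSum, Matrix.sum_apply]
  refine Finset.sum_congr rfl fun i _ => ?_
  rw [eval_mul, eval_C, LogTensor_bi_nat, Matrix.smul_apply, smul_eq_mul]

theorem LogTensor_U_deriv [CharZero K] (m : ℕ) (x : Mat n K) :
    (LogTensor_U m x).map (fun p => (derivative p).eval 0) = lg K m x := by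
  ext p q
  rw [Matrix.map_apply, LogTensor_U, lg, derivative_sum, eval_finsetSum, Finset.sum_range_succ',
    Matrix.sum_apply]
  have h0 : (derivative (LogTensor_bi K 0 * C ((x ^ 0) p q))).eval 0 = 0 := by
    rw [derivative_mul, derivative_C, mul_zero, add_zero, eval_mul, LogTensor_bi_deriv_zero, zero_mul]
  rw [h0, add_zero]
  refine Finset.sum_congr rfl fun i _ => ?_
  rw [derivative_mul, derivative_C, mul_zero, add_zero, eval_mul, eval_C, LogTensor_bi_deriv,
    Matrix.smul_apply, smul_eq_mul]

theorem dtp_lg_commute [CharZero K] (a : ℕ) (x : Mat n K) (m : ℕ) (hx : x ^ m = 0) (N : ℕ)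
    (hN : 0 < N) (t : TMat a n K) (ht : ∀ j : ℕ, Commute (tp a ((1 + x) ^ (N * j))) t) :
    Commute (dtp a (lg K m x)) t := by
  have hU0 : (LogTensor_U m x).map (fun p => p.eval 0) = 1 := by
    have := LogTensor_U_nat m x hx 0
    rwa [Nat.cast_zero, pow_zero] at this
  have key : tp a (LogTensor_U m x) * t.map C = t.map C * tp a (LogTensor_U m x) := by
    ext1 I J
    rw [← sub_eq_zero]
    apply Polynomial.eq_zero_of_infinite_isRoot
    refine Set.Infinite.mono (s := Set.range fun j : ℕ => ((N * j : ℕ) : K)) ?_ ?_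
    · rintro _ ⟨j, rfl⟩
      show IsRoot _ _
      rw [IsRoot.def, eval_sub, sub_eq_zero]
      have h1 := congrFun (congrFun (ht j).eq I) J
      have h2 : tp a ((1 + x) ^ (N * j)) =
          (tp a (LogTensor_U m x)).map (fun p => p.eval ((N * j : ℕ) : K)) := by
        rw [← LogTensor_U_nat m x hx (N * j)]
        exact tp_map (evalRingHom ((N * j : ℕ) : K)) a (LogTensor_U m x)
      rw [h2, Matrix.mul_apply, Matrix.mul_apply] at h1
      rw [Matrix.mul_apply, Matrix.mul_apply, eval_finsetSum, eval_finsetSum]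
      simp only [eval_mul, Matrix.map_apply, eval_C] at h1 ⊢
      exact h1
    · apply Set.infinite_range_of_injective
      intro i j hij
      have : (N * i : ℕ) = N * j := Nat.cast_injective (R := K) hij
      exact Nat.eq_of_mul_eq_mul_left hN this
  have hD : ∀ A : TMat a n K[X], (A * t.map C).map (fun p => (derivative p).eval 0) =
      A.map (fun p => (derivative p).eval 0) * t := by
    intro A
    ext I J
    rw [Matrix.map_apply, Matrix.mul_apply, Matrix.mul_apply, derivative_sum, eval_finsetSum]
    refine Finset.sum_congr rfl fun k _ => ?_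
    rw [Matrix.map_apply, Matrix.map_apply, derivative_mul, derivative_C, mul_zero, add_zero,
      eval_mul, eval_C]
  have hD' : ∀ A : TMat a n K[X], (t.map C * A).map (fun p => (derivative p).eval 0) =
      t * A.map (fun p => (derivative p).eval 0) := by
    intro A
    ext I J
    rw [Matrix.map_apply, Matrix.mul_apply, Matrix.mul_apply, derivative_sum, eval_finsetSum]
    refine Finset.sum_congr rfl fun k _ => ?_
    rw [Matrix.map_apply, Matrix.map_apply, derivative_mul, derivative_C, zero_mul, zero_add,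
      eval_mul, eval_C]
  have h1 : (tp a (LogTensor_U m x) * t.map C).map (fun p => (derivative p).eval 0) =
      (t.map C * tp a (LogTensor_U m x)).map (fun p => (derivative p).eval 0) := by rw [key]
  rw [hD, hD', deriv_tp a _ hU0, LogTensor_U_deriv] at h1
  exact h1

end Pool.Agent.B4801bT
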