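import Pool.Agent.W_b4801b_h32.Defs

set_option autoImplicit false

/-!
# Tensor powers of matrices: algebraic rules

All by direct computation with words (`Finset.prod_univ_sum`, `Fintype.piFinset_univ` for `tp_mul`).
`tp_mul_dtp`: if `P Y = Z P` then `tp P · dtp Y = dtp Z · tp P`: both sides have the entries
`∑_k (P Y) (I k) (J k) · ∏_{i ≠ k} P (I i) (J i)`.
`dtp_lie`: write `dtp Y = ∑_i D_i Y`, `D_i Y (I, J) = Y (I i) (J i)` if `I j = J j` for all `j ≠ i`, else `0`;
`D_i` is multiplicative and `D_i X` commutes with `D_j Y` for `i ≠ j`.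
-/

noncomputable section

namespace Pool.Agent.B4801bT

variable {R : Type*} [CommRing R] {n : ℕ}

/-- The tensor product of the matrices `F 0, …, F (a - 1)`. -/
private def TpAlgtg {a : ℕ} (F : Fin a → Mat n R) : TMat a n R := fun I J => ∏ i, F i (I i) (J i)

private lemma TpAlgtg_mul {a : ℕ} (F G : Fin a → Mat n R) :
    TpAlgtg F * TpAlgtg G = TpAlgtg (fun i => F i * G i) := by
  ext I J
  simp only [TpAlgtg, Matrix.mul_apply]
  rw [Finset.prod_univ_sum, Fintype.piFinset_univ]
  exact Finset.sum_congr rfl fun K _ => Finset.prod_mul_distrib.symm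

private lemma TpAlgtp (a : ℕ) (A : Mat n R) : tp a A = TpAlgtg (fun _ => A) := rfl

private lemma TpAlgdtp (a : ℕ) (Y : Mat n R) :
    dtp a Y = ∑ i : Fin a, TpAlgtg (Function.update (fun _ => (1 : Mat n R)) i Y) := by
  ext I J
  rw [Matrix.sum_apply]
  simp only [dtp, TpAlgtg]
  refine Finset.sum_congr rfl fun i _ => ?_
  rw [← Finset.mul_prod_erase Finset.univ _ (Finset.mem_univ i), Function.update_self]
  split_ifs with h
  · rw [Finset.prod_eq_one, mul_one]
    intro j hj
    have hji := Finset.ne_of_mem_erase hj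
    rw [Function.update_of_ne hji, h j hji, Matrix.one_apply_eq]
  · push Not at h
    obtain ⟨j, hji, hne⟩ := h
    rw [Finset.prod_eq_zero (Finset.mem_erase.2 ⟨hji, Finset.mem_univ j⟩), mul_zero]
    rw [Function.update_of_ne hji, Matrix.one_apply_ne hne]

theorem tp_one (a : ℕ) : tp a (1 : Mat n R) = 1 := by
  ext I J
  simp only [tp]
  by_cases h : I = J
  · subst h
    rw [Matrix.one_apply_eq]
    exact Finset.prod_eq_one fun i _ => Matrix.one_apply_eq _
  · rw [Matrix.one_apply_ne h]
    obtain ⟨i, hi⟩ := Function.ne_iff.1 h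
    exact Finset.prod_eq_zero (Finset.mem_univ i) (Matrix.one_apply_ne hi)

theorem tp_mul (a : ℕ) (A B : Mat n R) : tp a (A * B) = tp a A * tp a B := by
  rw [TpAlgtp, TpAlgtp, TpAlgtp, TpAlgtg_mul]

theorem tp_pow (a : ℕ) (A : Mat n R) (k : ℕ) : tp a (A ^ k) = tp a A ^ k := by
  induction k with
  | zero => rw [pow_zero, pow_zero, tp_one]
  | succ k ih => rw [pow_succ, pow_succ, tp_mul, ih]

theorem tp_mul_dtp (a : ℕ) (P Y Z : Mat n R) (h : P * Y = Z * P) :
    tp a P * dtp a Y = dtp a Z * tp a P := by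
  rw [TpAlgtp, TpAlgdtp, TpAlgdtp, Finset.mul_sum, Finset.sum_mul]
  refine Finset.sum_congr rfl fun i _ => ?_
  rw [TpAlgtg_mul, TpAlgtg_mul]
  congr 1
  funext j
  by_cases hj : j = i
  · subst hj
    rw [Function.update_self, Function.update_self, h]
  · rw [Function.update_of_ne hj, Function.update_of_ne hj, mul_one, one_mul]

theorem tp_diagonal (a : ℕ) (d : Fin n → R) :
    tp a (Matrix.diagonal d) = Matrix.diagonal fun I : Fin a → Fin n => ∏ i, d (I i) := by
  ext I J
  simp only [tp]
  by_cases h : I = J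
  · subst h
    rw [Matrix.diagonal_apply_eq]
    exact Finset.prod_congr rfl fun i _ => Matrix.diagonal_apply_eq _ _
  · rw [Matrix.diagonal_apply_ne _ h]
    obtain ⟨i, hi⟩ := Function.ne_iff.1 h
    exact Finset.prod_eq_zero (Finset.mem_univ i) (Matrix.diagonal_apply_ne _ hi)

theorem dtp_diagonal (a : ℕ) (d : Fin n → R) :
    dtp a (Matrix.diagonal d) = Matrix.diagonal fun I : Fin a → Fin n => ∑ i, d (I i) := by
  ext I J
  simp only [dtp]
  by_cases h : I = J
  · subst h
    rw [Matrix.diagonal_apply_eq]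
    refine Finset.sum_congr rfl fun i _ => ?_
    rw [if_pos fun _ _ => rfl, Matrix.diagonal_apply_eq]
  · rw [Matrix.diagonal_apply_ne _ h]
    refine Finset.sum_eq_zero fun i _ => ?_
    split_ifs with hh
    · refine Matrix.diagonal_apply_ne _ fun hi => h (funext fun j => ?_)
      by_cases hj : j = i
      · subst hj; exact hi
      · exact hh j hj
    · rfl

private lemma TpAlgupd_mul {a : ℕ} (i : Fin a) (X Y : Mat n R) :
    (fun j => Function.update (fun _ => (1 : Mat n R)) i X j *
      Function.update (fun _ => (1 : Mat n R)) i Y j) =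
      Function.update (fun _ => (1 : Mat n R)) i (X * Y) := by
  funext j
  by_cases hj : j = i
  · subst hj
    rw [Function.update_self, Function.update_self, Function.update_self]
  · rw [Function.update_of_ne hj, Function.update_of_ne hj, Function.update_of_ne hj, mul_one]

private lemma TpAlgupd_comm {a : ℕ} (i k : Fin a) (hik : i ≠ k) (X Y : Mat n R) :
    (fun j => Function.update (fun _ => (1 : Mat n R)) i X j *
      Function.update (fun _ => (1 : Mat n R)) k Y j) =
      fun j => Function.update (fun _ => (1 : Mat n R)) k Y j *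
        Function.update (fun _ => (1 : Mat n R)) i X j := by
  funext j
  by_cases hj : j = i
  · subst hj
    rw [Function.update_self, Function.update_of_ne hik, mul_one, one_mul]
  · rw [Function.update_of_ne hj, mul_one, one_mul]

theorem dtp_lie (a : ℕ) (X Y : Mat n R) :
    dtp a (X * Y - Y * X) = dtp a X * dtp a Y - dtp a Y * dtp a X := by
  have h1 : dtp a (X * Y - Y * X) = dtp a (X * Y) - dtp a (Y * X) := by
    rw [eq_sub_iff_add_eq, ← dtp_add, sub_add_cancel]
  rw [h1, TpAlgdtp a X, TpAlgdtp a Y, TpAlgdtp a (X * Y), TpAlgdtp a (Y * X),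
    Finset.sum_mul_sum, Finset.sum_mul_sum, Finset.sum_comm (s := Finset.univ) (t := Finset.univ)
      (f := fun i j => TpAlgtg (Function.update (fun _ => (1 : Mat n R)) i Y) *
        TpAlgtg (Function.update (fun _ => (1 : Mat n R)) j X)),
    ← Finset.sum_sub_distrib, ← Finset.sum_sub_distrib]
  refine Finset.sum_congr rfl fun i _ => ?_
  rw [← Finset.sum_sub_distrib, Finset.sum_eq_single i]
  · rw [TpAlgtg_mul, TpAlgtg_mul, TpAlgupd_mul, TpAlgupd_mul]
  · intro k _ hk
    rw [TpAlgtg_mul, TpAlgtg_mul, TpAlgupd_comm i k hk.symm, sub_self]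
  · intro h
    exact absurd (Finset.mem_univ i) h

theorem tp_map {S : Type*} [CommRing S] (φ : R →+* S) (a : ℕ) (A : Mat n R) :
    tp a (A.map φ) = (tp a A).map φ := by
  ext I J
  simp only [tp, Matrix.map_apply, map_prod]

theorem dtp_map {S : Type*} [CommRing S] (φ : R →+ S) (a : ℕ) (A : Mat n R) :
    dtp a (A.map φ) = (dtp a A).map φ := by
  ext I J
  simp only [dtp, Matrix.map_apply, map_sum]
  refine Finset.sum_congr rfl fun i _ => ?_
  split_ifs
  · rfl
  · rw [map_zero]

end Pool.Agent.B4801bT
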