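import Pool.Agent.W_b4801b_h32.ParDefs
import Pool.Agent.W_b4801b_h32.TpAlg
import Pool.Agent.W_b4801b_h32.Descent

set_option autoImplicit false

/-!
# Extension of scalars

`bc K q` (see `ParDefs`) consists of the matrices `X` over `K` with `X.map φ ∈ q` for all `K₀`-linear `φ : K → K₀`.

* `map_mem_bc`: `x ∈ q ↔ x.map (algebraMap K₀ K) ∈ bc K q` (`φ (algebraMap x) = x φ(1)`, and there is `φ` with
  `φ(1) = 1`).
* `bc_eq_span`: `bc K q` is the `K`-span of `q`: let `(β_j)` be a basis of `K` over `K₀` with coordinate maps `φ_j`; then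
  `X = ∑ β_j X.map φ_j` (finite sum: finitely many `j` occur in the coordinates of the entries of `X`).
* `mem_baseW`: `v ∈ baseW K W ↔ φ ∘ v ∈ W` for all `φ` (same proof).
* `bc_lie`: closed under commutators if `q` is (spans).
* `bc_ann`: `bc K (ann T K₀) = ann T K` (the tensors are rational, `dtp_map`; linear maps `K → K₀` separate the elements of
  `K`).
* `bc_orth`: `orth (bc K g) (bc K q) = bc K (orth g q)`: for `y ∈ q`: `φ (tr (X · y)) = tr (X.map φ · y)`, and `bc K q` is the
  span of `q`.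
* `bc_mstab`: `mstab (bc K g) (baseW K W) = bc K (mstab g W)`: `(X w).map φ = X.map φ w` for `w ∈ W ⊆ K₀ ^ n`.
* `bc_mnorm`: `mnorm (bc K g) (bc K u) = bc K (mnorm g u)`.
* `bc_fixedBy`: `fixedBy (bc K u) = baseW K (fixedBy u)`.
* `bc_normalizes`: if `A y = z A` ... for `y ∈ q`, then the same over `K` (spans).
-/

noncomputable section

namespace Pool.Agent.B4801bT

variable {K₀ : Type*} [Field K₀] {K : Type*} [Field K] [Algebra K₀ K] {n : ℕ}

/-- Linear forms on `K` separate the elements. -/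
theorem ParBC_sep (x : K) (h : ∀ φ : K →ₗ[K₀] K₀, φ x = 0) : x = 0 :=
  (Module.forall_dual_apply_eq_zero_iff K₀ x).1 h

theorem ParBC_one : ∃ φ : K →ₗ[K₀] K₀, φ 1 = 1 := by
  obtain ⟨g, hg⟩ := LinearMap.exists_leftInverse_of_injective (Algebra.linearMap K₀ K)
    (LinearMap.ker_eq_bot.2 (algebraMap K₀ K).injective)
  refine ⟨g, ?_⟩
  have := congrArg (fun f : K₀ →ₗ[K₀] K₀ => f 1) hg
  simpa using this

theorem ParBC_phi (φ : K →ₗ[K₀] K₀) (a : K) (c : K₀) : φ (a * algebraMap K₀ K c) = φ a * c := by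
  rw [mul_comm a, ← Algebra.smul_def, map_smul, smul_eq_mul, mul_comm]

theorem ParBC_phi' (φ : K →ₗ[K₀] K₀) (a : K) (c : K₀) : φ (algebraMap K₀ K c * a) = c * φ a := by
  rw [← Algebra.smul_def, map_smul, smul_eq_mul]

/-- Finitely many elements of `K` written in a basis. -/
theorem ParBC_decomp {ι : Type*} [Finite ι] (X : ι → K) :
    ∃ (m : ℕ) (β : Fin m → K) (φ : Fin m → K →ₗ[K₀] K₀),
      ∀ i, X i = ∑ j, β j * algebraMap K₀ K (φ j (X i)) := by
  classical
  cases nonempty_fintype ι
  let b := Module.Basis.ofVectorSpace K₀ K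
  let S := Finset.univ.biUnion fun i : ι => (b.repr (X i)).support
  refine ⟨S.card, fun j => b (S.equivFin.symm j : _), fun j => b.coord (S.equivFin.symm j : _),
    fun i => ?_⟩
  have h1 : ∑ s ∈ S, b.repr (X i) s • b s = X i := by
    have h2 := b.linearCombination_repr (X i)
    rw [Finsupp.linearCombination_apply, Finsupp.sum] at h2
    refine Eq.trans ?_ h2
    refine (Finset.sum_subset ?_ ?_).symm
    · intro s hs
      exact Finset.mem_biUnion.2 ⟨i, Finset.mem_univ _, hs⟩
    · intro s _ hs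
      rw [Finsupp.notMem_support_iff.1 hs, zero_smul]
  conv_lhs => rw [← h1]
  rw [← Finset.sum_coe_sort S, ← S.equivFin.symm.sum_comp]
  refine Finset.sum_congr rfl fun j _ => ?_
  rw [Algebra.smul_def, mul_comm]
  rfl

section MapLemmas

variable {ι : Type*} [Fintype ι]

omit [Fintype ι] in
theorem ParBC_sub (φ : K →ₗ[K₀] K₀) (X Y : Matrix ι ι K) :
    (X - Y).map φ = X.map φ - Y.map φ := by
  ext i j
  simp only [Matrix.map_apply, Matrix.sub_apply, map_sub]

omit [Fintype ι] in
theorem ParBC_matsep (X : Matrix ι ι K) (h : ∀ φ : K →ₗ[K₀] K₀, X.map φ = 0) : X = 0 := by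
  ext i j
  refine ParBC_sep (K₀ := K₀) _ fun φ => ?_
  have := congrFun (congrFun (h φ) i) j
  simpa using this

theorem ParBC_mul_right (φ : K →ₗ[K₀] K₀) (X : Matrix ι ι K) (y : Matrix ι ι K₀) :
    (X * y.map (algebraMap K₀ K)).map φ = X.map φ * y := by
  ext i j
  simp only [Matrix.map_apply, Matrix.mul_apply, map_sum, ParBC_phi]

theorem ParBC_mul_left (φ : K →ₗ[K₀] K₀) (X : Matrix ι ι K) (y : Matrix ι ι K₀) :
    (y.map (algebraMap K₀ K) * X).map φ = y * X.map φ := by
  ext i j
  simp only [Matrix.map_apply, Matrix.mul_apply, map_sum, ParBC_phi']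

theorem ParBC_trace (φ : K →ₗ[K₀] K₀) (X : Matrix ι ι K) : φ X.trace = (X.map φ).trace := by
  simp only [Matrix.trace, Matrix.diag_apply, Matrix.map_apply, map_sum]

end MapLemmas

theorem ParBC_map_map (φ : K →ₗ[K₀] K₀) (x : Mat n K₀) :
    (x.map (algebraMap K₀ K)).map φ = φ 1 • x := by
  ext i j
  simp only [Matrix.map_apply, Matrix.smul_apply, smul_eq_mul]
  rw [← one_mul (algebraMap K₀ K (x i j)), ParBC_phi]

theorem ParBC_mem_of (q : Submodule K₀ (Mat n K₀)) (x : Mat n K₀) (hx : x ∈ q) :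
    x.map (algebraMap K₀ K) ∈ bc K q := by
  intro φ
  rw [ParBC_map_map]
  exact q.smul_mem _ hx

theorem map_mem_bc (q : Submodule K₀ (Mat n K₀)) (x : Mat n K₀) :
    x.map (algebraMap K₀ K) ∈ bc K q ↔ x ∈ q := by
  refine ⟨fun h => ?_, ParBC_mem_of q x⟩
  obtain ⟨φ, hφ⟩ := ParBC_one (K₀ := K₀) (K := K)
  have h1 := h φ
  rwa [ParBC_map_map, hφ, one_smul] at h1

theorem bc_eq_span (q : Submodule K₀ (Mat n K₀)) :
    bc K q = Submodule.span K ((fun x : Mat n K₀ => x.map (algebraMap K₀ K)) '' q) := by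
  refine le_antisymm ?_ ?_
  · intro X hX
    obtain ⟨m, β, φ, h⟩ := ParBC_decomp (K₀ := K₀) (fun p : Fin n × Fin n => X p.1 p.2)
    have h1 : X = ∑ j, β j • (X.map (φ j)).map (algebraMap K₀ K) := by
      ext i k
      rw [Matrix.sum_apply]
      exact h (i, k)
    rw [h1]
    exact Submodule.sum_mem _ fun j _ =>
      Submodule.smul_mem _ _ (Submodule.subset_span ⟨_, hX (φ j), rfl⟩)
  · rw [Submodule.span_le]
    rintro _ ⟨x, hx, rfl⟩
    exact ParBC_mem_of q x hx

/-- Induction on the elements of `bc K q`. -/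
theorem ParBC_induction (q : Submodule K₀ (Mat n K₀)) (r : Submodule K (Mat n K))
    (h : ∀ x ∈ q, x.map (algebraMap K₀ K) ∈ r) : bc K q ≤ r := by
  rw [bc_eq_span, Submodule.span_le]
  rintro _ ⟨x, hx, rfl⟩
  exact h x hx

theorem mem_baseW (W : Submodule K₀ (Fin n → K₀)) (v : Fin n → K) :
    v ∈ baseW K W ↔ ∀ φ : K →ₗ[K₀] K₀, (fun i => φ (v i)) ∈ W := by
  constructor
  · intro hv
    induction hv using Submodule.span_induction with
    | mem x hx =>
      obtain ⟨w, hw, rfl⟩ := hx
      intro φ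
      have h1 : (fun i => φ (algebraMap K₀ K (w i))) = φ 1 • w := by
        funext i
        rw [← one_mul (algebraMap K₀ K (w i)), ParBC_phi]
        rfl
      show (fun i => φ (algebraMap K₀ K (w i))) ∈ W
      rw [h1]
      exact W.smul_mem _ hw
    | zero =>
      intro φ
      have h1 : (fun i : Fin n => φ ((0 : Fin n → K) i)) = 0 := by
        funext i
        exact map_zero φ
      rw [h1]
      exact W.zero_mem
    | add x y _ _ hx hy =>
      intro φ
      have h1 : (fun i : Fin n => φ ((x + y) i)) = (fun i => φ (x i)) + fun i => φ (y i) := by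
        funext i
        exact map_add φ _ _
      rw [h1]
      exact W.add_mem (hx φ) (hy φ)
    | smul c x _ hx =>
      intro φ
      exact hx (φ ∘ₗ LinearMap.mulLeft K₀ c)
  · intro h
    obtain ⟨m, β, φ, h0⟩ := ParBC_decomp (K₀ := K₀) v
    have h1 : v = ∑ j, β j • (fun i => algebraMap K₀ K (φ j (v i))) := by
      funext i
      rw [Finset.sum_apply]
      exact h0 i
    rw [h1]
    exact Submodule.sum_mem _ fun j _ =>
      Submodule.smul_mem _ _ (Submodule.subset_span ⟨_, h (φ j), rfl⟩)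

theorem bc_lie (q : Submodule K₀ (Mat n K₀)) (h : ∀ x ∈ q, ∀ y ∈ q, x * y - y * x ∈ q) :
    ∀ x ∈ bc K q, ∀ y ∈ bc K q, x * y - y * x ∈ bc K q := by
  -- first for `y` rational, then in general
  have key : ∀ y ∈ q, ∀ x ∈ bc K q,
      x * y.map (algebraMap K₀ K) - y.map (algebraMap K₀ K) * x ∈ bc K q := by
    intro y hy x hx φ
    rw [ParBC_sub, ParBC_mul_right, ParBC_mul_left]
    exact h _ (hx φ) _ hy
  intro x hx
  refine ParBC_induction q
    { carrier := {y | x * y - y * x ∈ bc K q}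
      add_mem' := fun {a b} ha hb => ?_
      zero_mem' := ?_
      smul_mem' := fun c a ha => ?_ } fun y hy => key y hy x hx
  · have h1 : x * (a + b) - (a + b) * x = (x * a - a * x) + (x * b - b * x) := by
      rw [mul_add, add_mul]
      abel
    show x * (a + b) - (a + b) * x ∈ bc K q
    rw [h1]
    exact Submodule.add_mem _ ha hb
  · show x * 0 - 0 * x ∈ bc K q
    rw [mul_zero, zero_mul, sub_zero]
    exact Submodule.zero_mem _
  · show x * (c • a) - (c • a) * x ∈ bc K q
    rw [Matrix.mul_smul, Matrix.smul_mul, ← smul_sub]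
    exact Submodule.smul_mem _ c ha

theorem bc_ann [Algebra ℚ K₀] [Algebra ℚ K] (T : TensorSet n) :
    bc K (ann T K₀) = ann T K := by
  have hal : algebraMap ℚ K = (algebraMap K₀ K).comp (algebraMap ℚ K₀) := Subsingleton.elim _ _
  have hmap : ∀ t : (Σ a : ℕ, TMat a n ℚ), t.2.map (algebraMap ℚ K) =
      (t.2.map (algebraMap ℚ K₀)).map (algebraMap K₀ K) := by
    intro t
    rw [hal, Matrix.map_map]
    rfl
  have hd : ∀ (a : ℕ) (X : Mat n K) (φ : K →ₗ[K₀] K₀), (dtp a X).map φ = dtp a (X.map φ) :=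
    fun a X φ => (dtp_map φ.toAddMonoidHom a X).symm
  ext X
  constructor
  · intro hX t ht
    rw [← sub_eq_zero]
    refine ParBC_matsep (K₀ := K₀) _ fun φ => ?_
    rw [ParBC_sub, hmap, ParBC_mul_right, ParBC_mul_left, hd, hX φ t ht, sub_self]
  · intro hX φ t ht
    have h1 := congrArg (fun M : TMat t.1 n K => M.map φ) (hX t ht)
    rwa [hmap, ParBC_mul_right, ParBC_mul_left, hd] at h1

theorem bc_orth (g q : Submodule K₀ (Mat n K₀)) :
    orth (bc K g) (bc K q) = bc K (orth g q) := by
  ext X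
  constructor
  · intro hX φ
    refine ⟨hX.1 φ, fun y hy => ?_⟩
    rw [← ParBC_mul_right, ← ParBC_trace, hX.2 _ (ParBC_mem_of q y hy), map_zero]
  · intro hX
    refine ⟨fun φ => (hX φ).1, ?_⟩
    refine ParBC_induction q
      { carrier := {y : Mat n K | (X * y).trace = 0}
        add_mem' := fun {a b} ha hb => ?_
        zero_mem' := ?_
        smul_mem' := fun c a ha => ?_ } fun y hy => ?_
    · show (X * (a + b)).trace = 0
      rw [mul_add, Matrix.trace_add, ha, hb, add_zero]
    · show (X * 0).trace = 0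
      rw [mul_zero, Matrix.trace_zero]
    · show (X * (c • a)).trace = 0
      rw [Matrix.mul_smul, Matrix.trace_smul, ha, smul_zero]
    · show (X * y.map (algebraMap K₀ K)).trace = 0
      refine ParBC_sep (K₀ := K₀) _ fun φ => ?_
      rw [ParBC_trace, ParBC_mul_right]
      exact (hX φ).2 y hy

theorem ParBC_toLin (φ : K →ₗ[K₀] K₀) (X : Mat n K) (w : Fin n → K₀) :
    (fun i => φ (Matrix.toLin' X (fun j => algebraMap K₀ K (w j)) i)) =
      Matrix.toLin' (X.map φ) w := by
  funext i
  simp only [Matrix.toLin'_apply, Matrix.mulVec, dotProduct, map_sum, Matrix.map_apply, ParBC_phi]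

theorem ParBC_toLin' (φ : K →ₗ[K₀] K₀) (x : Mat n K₀) (v : Fin n → K) :
    (fun i => φ (Matrix.toLin' (x.map (algebraMap K₀ K)) v i)) =
      Matrix.toLin' x (fun i => φ (v i)) := by
  funext i
  simp only [Matrix.toLin'_apply, Matrix.mulVec, dotProduct, map_sum, Matrix.map_apply, ParBC_phi']

theorem bc_mstab (g : Submodule K₀ (Mat n K₀)) (W : Submodule K₀ (Fin n → K₀)) :
    mstab (bc K g) (baseW K W) = bc K (mstab g W) := by
  ext X
  constructor
  · intro hX φ
    refine ⟨hX.1 φ, fun w hw => ?_⟩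
    rw [← ParBC_toLin]
    exact (mem_baseW W _).1 (hX.2 _ (Descent_inc_mem W w hw)) φ
  · intro hX
    refine ⟨fun φ => (hX φ).1, fun v hv => ?_⟩
    induction hv using Submodule.span_induction with
    | mem x hx =>
      obtain ⟨w, hw, rfl⟩ := hx
      rw [mem_baseW]
      intro φ
      rw [ParBC_toLin]
      exact (hX φ).2 w hw
    | zero => rw [map_zero]; exact Submodule.zero_mem _
    | add x y _ _ hx hy => rw [map_add]; exact Submodule.add_mem _ hx hy
    | smul c x _ hx => rw [map_smul]; exact Submodule.smul_mem _ c hx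

theorem bc_mnorm (g u : Submodule K₀ (Mat n K₀)) :
    mnorm (bc K g) (bc K u) = bc K (mnorm g u) := by
  ext X
  constructor
  · intro hX φ
    refine ⟨hX.1 φ, fun y hy => ?_⟩
    have h1 := hX.2 _ (ParBC_mem_of u y hy) φ
    rwa [ParBC_sub, ParBC_mul_right, ParBC_mul_left] at h1
  · intro hX
    refine ⟨fun φ => (hX φ).1, ?_⟩
    refine ParBC_induction u
      { carrier := {y | X * y - y * X ∈ bc K u}
        add_mem' := fun {a b} ha hb => ?_
        zero_mem' := ?_
        smul_mem' := fun c a ha => ?_ } fun y hy => ?_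
    · have h1 : X * (a + b) - (a + b) * X = (X * a - a * X) + (X * b - b * X) := by
        rw [mul_add, add_mul]
        abel
      show X * (a + b) - (a + b) * X ∈ bc K u
      rw [h1]
      exact Submodule.add_mem _ ha hb
    · show X * 0 - 0 * X ∈ bc K u
      rw [mul_zero, zero_mul, sub_zero]
      exact Submodule.zero_mem _
    · show X * (c • a) - (c • a) * X ∈ bc K u
      rw [Matrix.mul_smul, Matrix.smul_mul, ← smul_sub]
      exact Submodule.smul_mem _ c ha
    · show X * y.map (algebraMap K₀ K) - y.map (algebraMap K₀ K) * X ∈ bc K u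
      intro φ
      rw [ParBC_sub, ParBC_mul_right, ParBC_mul_left]
      exact (hX φ).2 y hy

theorem bc_fixedBy (u : Submodule K₀ (Mat n K₀)) :
    fixedBy (bc K u) = baseW K (fixedBy u) := by
  ext v
  rw [mem_baseW]
  constructor
  · intro hv φ x hx
    have h0 : Matrix.toLin' (x.map (algebraMap K₀ K)) v = 0 := hv _ (ParBC_mem_of u x hx)
    show Matrix.toLin' x (fun i => φ (v i)) = 0
    rw [← ParBC_toLin', h0]
    funext i
    exact map_zero φ
  · intro hv
    refine ParBC_induction u
      { carrier := {y | Matrix.toLin' y v = 0}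
        add_mem' := fun {a b} ha hb => ?_
        zero_mem' := ?_
        smul_mem' := fun c a ha => ?_ } fun y hy => ?_
    · show Matrix.toLin' (a + b) v = 0
      rw [map_add, LinearMap.add_apply, ha, hb, add_zero]
    · show Matrix.toLin' 0 v = 0
      rw [map_zero, LinearMap.zero_apply]
    · show Matrix.toLin' (c • a) v = 0
      rw [map_smul, LinearMap.smul_apply, ha, smul_zero]
    · show Matrix.toLin' (y.map (algebraMap K₀ K)) v = 0
      funext i
      refine ParBC_sep (K₀ := K₀) _ fun φ => ?_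
      have h1 := congrFun (ParBC_toLin' φ y v) i
      have h2 : Matrix.toLin' y (fun i => φ (v i)) = 0 := hv φ y hy
      rw [h2] at h1
      rw [h1]
      rfl

theorem bc_normalizes (A : Mat n K₀) (q : Submodule K₀ (Mat n K₀)) (h : Normalizes A q) :
    Normalizes (A.map (algebraMap K₀ K)) (bc K q) := by
  refine ParBC_induction q
    { carrier := {y | ∃ z ∈ bc K q, A.map (algebraMap K₀ K) * y = z * A.map (algebraMap K₀ K)}
      add_mem' := ?_
      zero_mem' := ⟨0, Submodule.zero_mem _, by rw [mul_zero, zero_mul]⟩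
      smul_mem' := ?_ } fun y hy => ?_
  · rintro a b ⟨z, hz, h1⟩ ⟨w, hw, h2⟩
    exact ⟨z + w, Submodule.add_mem _ hz hw, by rw [mul_add, add_mul, h1, h2]⟩
  · rintro c a ⟨z, hz, h1⟩
    exact ⟨c • z, Submodule.smul_mem _ c hz, by rw [Matrix.mul_smul, Matrix.smul_mul, h1]⟩
  · obtain ⟨z, hz, h1⟩ := h y hy
    refine ⟨z.map (algebraMap K₀ K), ParBC_mem_of q z hz, ?_⟩
    rw [← Matrix.map_mul, ← Matrix.map_mul, h1]

end Pool.Agent.B4801bT
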