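import Pool.Agent.W_b4801b_h32.LieDefs

set_option autoImplicit false

/-!
# Parabolic subalgebras of linear Lie algebras

Matrices over a field; `g` is a Lie algebra of matrices, usually `ann T K`.
-/

noncomputable section

open Polynomial

namespace Pool.Agent.B4801bT

section Defs

/-- The operator `v ↦ A v` on `K ^ n`. -/
abbrev opOf {K : Type*} [Field K] {n : ℕ} (A : Mat n K) : (Fin n → K) →ₗ[K] (Fin n → K) :=
  A.mulVecLin

/-- The commutator of two matrices. -/
abbrev brk {K : Type*} [Field K] {n : ℕ} (x y : Mat n K) : Mat n K := x * y - y * x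

/-- The determinant of the operator `f`. -/
abbrev detOf {K : Type*} [Field K] {V : Type*} [AddCommGroup V] [Module K V] (f : V →ₗ[K] V) : K :=
  LinearMap.det f

/-- The operator `f` on the stable subspace `W`. -/
abbrev subOf {K : Type*} [Field K] {V : Type*} [AddCommGroup V] [Module K V] (f : V →ₗ[K] V)
    (W : Submodule K V) (hW : ∀ v ∈ W, f v ∈ W) : W →ₗ[K] W :=
  f.restrict hW

/-- The determinant of the operator `f` on the stable subspace `W`. -/
abbrev opDet {K : Type*} [Field K] {V : Type*} [AddCommGroup V] [Module K V] (f : V →ₗ[K] V)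
    (W : Submodule K V) (hW : ∀ v ∈ W, f v ∈ W) : K :=
  detOf (subOf f W hW)

variable {K : Type*} [Field K] {n : ℕ}

/-- The orthogonal of `q` in `g` for the trace form. -/
def orth (g q : Submodule K (Mat n K)) : Submodule K (Mat n K) where
  carrier := {x | x ∈ g ∧ ∀ y ∈ q, (x * y).trace = 0}
  add_mem' := fun ha hb => ⟨g.add_mem ha.1 hb.1, fun y hy => by
    rw [add_mul, Matrix.trace_add, ha.2 y hy, hb.2 y hy, add_zero]⟩
  zero_mem' := ⟨g.zero_mem, fun y _ => by rw [zero_mul, Matrix.trace_zero]⟩
  smul_mem' := fun c x hx => ⟨g.smul_mem c hx.1, fun y hy => by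
    rw [Matrix.smul_mul, Matrix.trace_smul, hx.2 y hy, smul_zero]⟩

/-- The matrix `x` is nilpotent. -/
abbrev MNil (x : Mat n K) : Prop := IsNilpotent x

/-- `q` is a parabolic subalgebra of `g`: a Lie subalgebra of `g` which contains its orthogonal in `g`
for the trace form, the elements of the orthogonal being nilpotent matrices. -/
structure IsParabolic (g q : Submodule K (Mat n K)) : Prop where
  le : q ≤ g
  lie : ∀ x ∈ q, ∀ y ∈ q, brk x y ∈ q
  orth_le : orth g q ≤ q
  nil : ∀ x ∈ orth g q, MNil x

/-- The space of the vectors `v` with `x v = 0` for all `x ∈ u`. -/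
def fixedBy (u : Submodule K (Mat n K)) : Submodule K (Fin n → K) where
  carrier := {v | ∀ x ∈ u, opOf x v = 0}
  add_mem' := fun ha hb x hx => by rw [map_add, ha x hx, hb x hx, add_zero]
  zero_mem' := fun _ _ => map_zero _
  smul_mem' := fun c v hv x hx => by rw [map_smul, hv x hx, smul_zero]

/-- Conjugation by the (invertible) matrix `A` preserves the space `q` of matrices. -/
def Normalizes (A : Mat n K) (q : Submodule K (Mat n K)) : Prop :=
  ∀ y ∈ q, ∃ z ∈ q, A * y = z * A

/-- The subspace `W` of `K ^ n` is stable under the matrix `A`. -/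
abbrev MStable (A : Mat n K) (W : Submodule K (Fin n → K)) : Prop := ∀ v ∈ W, opOf A v ∈ W

/-- The determinant of the matrix `A` on the stable subspace `W`. -/
abbrev mDet (A : Mat n K) (W : Submodule K (Fin n → K)) (hW : MStable A W) : K :=
  opDet (opOf A) W hW

/-- The subspace `W` of `K ^ n` is stable under the matrix `A`, and the numbers `det(A | W) ^ n` and
`det(A) ^ dim W` have equal `N`-th powers for some `N > 0`: the slope of `A` on `W` is the slope of `A`, up to
a root of unity. -/
def Balanced (A : Mat n K) (W : Submodule K (Fin n → K)) : Prop :=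
  ∃ hW : MStable A W, ∃ N : ℕ, 0 < N ∧
    (mDet A W hW ^ n) ^ N = (A.det ^ Module.finrank K W) ^ N

/-- The stabilizer in `g` of the subspace `W`. -/
def mstab (g : Submodule K (Mat n K)) (W : Submodule K (Fin n → K)) : Submodule K (Mat n K) where
  carrier := {x | x ∈ g ∧ ∀ v ∈ W, Matrix.toLin' x v ∈ W}
  add_mem' := fun ha hb => ⟨g.add_mem ha.1 hb.1, fun v hv => by
    rw [map_add, LinearMap.add_apply]
    exact W.add_mem (ha.2 v hv) (hb.2 v hv)⟩
  zero_mem' := ⟨g.zero_mem, fun v _ => by
    rw [map_zero, LinearMap.zero_apply]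
    exact W.zero_mem⟩
  smul_mem' := fun c x hx => ⟨g.smul_mem c hx.1, fun v hv => by
    rw [map_smul, LinearMap.smul_apply]
    exact W.smul_mem c (hx.2 v hv)⟩

/-- The normalizer in `g` of the space `u` of matrices. -/
def mnorm (g u : Submodule K (Mat n K)) : Submodule K (Mat n K) where
  carrier := {x | x ∈ g ∧ ∀ y ∈ u, x * y - y * x ∈ u}
  add_mem' := fun {a b} ha hb => ⟨g.add_mem ha.1 hb.1, fun y hy => by
    have h : (a + b) * y - y * (a + b) = (a * y - y * a) + (b * y - y * b) := by
      rw [add_mul, mul_add]
      abel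
    rw [h]
    exact u.add_mem (ha.2 y hy) (hb.2 y hy)⟩
  zero_mem' := ⟨g.zero_mem, fun y _ => by
    rw [zero_mul, mul_zero, sub_zero]
    exact u.zero_mem⟩
  smul_mem' := fun c x hx => ⟨g.smul_mem c hx.1, fun y hy => by
    rw [Matrix.smul_mul, Matrix.mul_smul, ← smul_sub]
    exact u.smul_mem c (hx.2 y hy)⟩

/-- The radical of the trace form on `q ≤ g`. -/
def mrad (g q : Submodule K (Mat n K)) : Submodule K (Mat n K) := q ⊓ orth g q

end Defs

/-- The parabolic test over the field `L` for the tensors `T` and the polynomial `P`: let `A` be an invertible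
matrix over `L` with characteristic polynomial `P`, some power of which commutes with each tensor of `T`, and
which normalizes the Lie algebra `g` of `T` and a proper parabolic subalgebra `q` of `g`.  Then `A` is not
balanced on the space of the vectors killed by the orthogonal of `q`. -/
def ParabolicTest {n : ℕ} (T : TensorSet n) (P : ℚ[X]) (L : Type*) [Field L] [Algebra ℚ L] : Prop :=
  ∀ A : Mat n L, IsUnit A → A.charpoly = P.map (algebraMap ℚ L) →
    (∀ t ∈ T, ∃ N : ℕ, 0 < N ∧ Commute (tp t.1 (A ^ N)) (t.2.map (algebraMap ℚ L))) →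
      Normalizes A (ann T L) → ∀ q : Submodule L (Mat n L), IsParabolic (ann T L) q →
        q ≠ ann T L → Normalizes A q → ¬ Balanced A (fixedBy (orth (ann T L) q))

section BaseChange

variable {K₀ : Type*} [Field K₀] {n : ℕ}

/-- The extension of scalars of a space `q` of matrices over `K₀` to the field `K`: the matrices `X` over
`K` such that applying any `K₀`-linear map `K → K₀` to the entries of `X` gives an element of `q`. -/
def bc (K : Type*) [Field K] [Algebra K₀ K] (q : Submodule K₀ (Mat n K₀)) :
    Submodule K (Mat n K) where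
  carrier := {X | ∀ φ : K →ₗ[K₀] K₀, X.map φ ∈ q}
  add_mem' := fun {a b} ha hb φ => by
    have h : (a + b).map φ = a.map φ + b.map φ := by
      ext i j
      exact map_add φ _ _
    rw [h]
    exact q.add_mem (ha φ) (hb φ)
  zero_mem' := fun φ => by
    have h : (0 : Mat n K).map φ = 0 := by
      ext i j
      exact map_zero φ
    rw [h]
    exact q.zero_mem
  smul_mem' := fun c X hX φ => by
    have h : (c • X).map φ = X.map (φ ∘ₗ LinearMap.mulLeft K₀ c) := by
      ext i j
      rfl
    rw [h]
    exact hX _

end BaseChange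

end Pool.Agent.B4801bT
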