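import Pool.Agent.W_b4801b_h32.ParDefs

set_option autoImplicit false

/-!
# Ideals of nilpotent matrices; a criterion for parabolic subalgebras

Let `K` be any field, `u`, `q` spaces of `n × n` matrices.

`trace_mul_eq_zero_of_nil`: let `u` be closed under commutators and under commutators with `q`, all elements of `u`
nilpotent.  Then `tr (x y) = 0` for `x ∈ u`, `y ∈ q`.
`exists_pow_fixed`: for such `u` there is `k` with `x₁ ⋯ x_k = 0` for all `x_i ∈ u`; stated as:
`fixedBy u ≠ ⊥` if `n > 0`, and the version for products.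
Proof.  Engel's theorem (see `Cent_trace` in `Cent.lean` for the use of `LieModule.isNilpotent_iff_forall'`): there is `k` such
that every product of `k` elements of `u` is zero.  Put `V_j` := the span of all `x₁ ⋯ x_j v`, `x_i ∈ u`.  It is stable under
`q` (`y x₁ ⋯ x_j v = [y, x₁] x₂ ⋯ v + x₁ y x₂ ⋯ v`, ...), `u V_j ⊆ V_{j+1}`, `V_k = 0`.  So `x y` maps `V_j` into `V_{j+1}` for
`x ∈ u`, `y ∈ q`; it is nilpotent.

`orth_le_of_norm`: let `g` be closed under commutators, `q ≤ g` closed under commutators, `u = mrad g q` (all elements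
nilpotent) and `q = mnorm g u`.  Then `orth g q ≤ q`.
Proof.  `M := orth g q` is stable under commutators with `q` (`tr ([y, x] z) = tr (x [z, y])`), `u = q ⊓ M ≤ M`, `u` is
stable under commutators with `q`.  Suppose `M ≠ u`.  The Lie algebra `u` acts on `M / u` by commutators, each `x ∈ u`
acts nilpotently (`ad x` is nilpotent on the space of all matrices), so by Engel's theorem there is a nonzero
vector of `M / u` killed by `u`: `y ∈ M`, `y ∉ u`, `x y - y x ∈ u` for all `x ∈ u`.  So `y ∈ mnorm g u = q`, `y ∈ q ⊓ M = u`: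
contradiction.  So `M = u ≤ q`.
-/

noncomputable section

namespace Pool.Agent.B4801bT

variable {K : Type*} [Field K] {n : ℕ}

attribute [local instance 100] LieRing.ofAssociativeRing

/-- The Lie algebra of the endomorphisms of the elements of `u`. -/
def ParEngel_N (u : Submodule K (Mat n K)) (huu : ∀ x ∈ u, ∀ y ∈ u, x * y - y * x ∈ u) :
    LieSubalgebra K (Module.End K (Fin n → K)) where
  carrier := {z | ∃ x ∈ u, Matrix.toLin' x = z}
  add_mem' := by
    rintro a b ⟨x, hx, rfl⟩ ⟨y, hy, rfl⟩
    exact ⟨x + y, u.add_mem hx hy, map_add _ _ _⟩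
  zero_mem' := ⟨0, u.zero_mem, map_zero _⟩
  smul_mem' := by
    rintro c a ⟨x, hx, rfl⟩
    exact ⟨c • x, u.smul_mem c hx, map_smul _ _ _⟩
  lie_mem' := by
    rintro a b ⟨x, hx, rfl⟩ ⟨y, hy, rfl⟩
    refine ⟨x * y - y * x, huu x hx y hy, ?_⟩
    rw [map_sub, Matrix.toLin'_mul, Matrix.toLin'_mul]
    rfl

theorem ParEngel_nil (x : Mat n K) (hx : IsNilpotent x) :
    IsNilpotent (Matrix.toLin' x : Module.End K (Fin n → K)) := by
  obtain ⟨k, hk⟩ := hx
  refine ⟨k, ?_⟩
  rw [← Matrix.toLin'_pow, hk, map_zero]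

/-- Engel: a power of the space `u` is zero. -/
theorem ParEngel_pow (u : Submodule K (Mat n K)) (hu : ∀ x ∈ u, IsNilpotent x)
    (huu : ∀ x ∈ u, ∀ y ∈ u, x * y - y * x ∈ u) : ∃ k : ℕ, u ^ k = ⊥ := by
  have hnil : LieModule.IsNilpotent (ParEngel_N u huu) (Fin n → K) := by
    rw [LieModule.isNilpotent_iff_forall' (R := K)]
    rintro ⟨z, x, hx, rfl⟩
    exact ParEngel_nil x (hu x hx)
  obtain ⟨k, hk⟩ := (LieModule.isNilpotent_iff K (ParEngel_N u huu) (Fin n → K)).1 hnil
  refine ⟨k, ?_⟩
  have key : ∀ j : ℕ, ∀ p ∈ u ^ j, ∀ v : Fin n → K, Matrix.toLin' p v ∈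
      LieModule.lowerCentralSeries K (ParEngel_N u huu) (Fin n → K) j := by
    intro j
    induction j with
    | zero =>
      intro p _ v
      rw [LieModule.lowerCentralSeries_zero]
      exact LieSubmodule.mem_top _
    | succ j ih =>
      intro p hp v
      rw [pow_succ'] at hp
      rw [LieModule.lowerCentralSeries_succ]
      refine Submodule.mul_induction_on hp ?_ ?_
      · intro x hx p' hp'
        have h1 : Matrix.toLin' (x * p') v =
            ⁅(⟨Matrix.toLin' x, x, hx, rfl⟩ : ParEngel_N u huu), Matrix.toLin' p' v⁆ := by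
          rw [Matrix.toLin'_mul]
          rfl
        rw [h1]
        exact LieSubmodule.lie_mem_lie (LieSubmodule.mem_top _) (ih p' hp' v)
      · intro a b ha hb
        rw [map_add, LinearMap.add_apply]
        exact add_mem ha hb
  rw [eq_bot_iff]
  intro p hp
  rw [Submodule.mem_bot]
  apply Matrix.toLin'.injective
  rw [map_zero]
  refine LinearMap.ext fun v => ?_
  have h1 := key k p hp v
  rw [hk, LieSubmodule.mem_bot] at h1
  rw [h1, LinearMap.zero_apply]

theorem ParEngel_comm (u q : Submodule K (Mat n K))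
    (hqu : ∀ y ∈ q, ∀ x ∈ u, y * x - x * y ∈ u) (y : Mat n K) (hy : y ∈ q) :
    ∀ j : ℕ, ∀ p ∈ u ^ j, y * p - p * y ∈ u ^ j := by
  intro j
  induction j with
  | zero =>
    intro p hp
    rw [pow_zero] at hp
    obtain ⟨c, rfl⟩ := Submodule.mem_one.1 hp
    rw [Algebra.commutes c y, sub_self]
    exact Submodule.zero_mem _
  | succ j ih =>
    intro p hp
    rw [pow_succ'] at hp ⊢
    refine Submodule.mul_induction_on hp ?_ ?_
    · intro x hx p' hp'
      have h1 : y * (x * p') - x * p' * y = (y * x - x * y) * p' + x * (y * p' - p' * y) := by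
        rw [sub_mul, mul_sub]
        simp only [mul_assoc]
        abel
      rw [h1]
      exact Submodule.add_mem _ (Submodule.mul_mem_mul (hqu y hy x hx) hp')
        (Submodule.mul_mem_mul hx (ih p' hp'))
    · intro a b ha hb
      have h1 : y * (a + b) - (a + b) * y = (y * a - a * y) + (y * b - b * y) := by
        rw [mul_add, add_mul]
        abel
      rw [h1]
      exact Submodule.add_mem _ ha hb

theorem trace_mul_eq_zero_of_nil (u q : Submodule K (Mat n K)) (hu : ∀ x ∈ u, IsNilpotent x)
    (huu : ∀ x ∈ u, ∀ y ∈ u, x * y - y * x ∈ u) (hqu : ∀ y ∈ q, ∀ x ∈ u, y * x - x * y ∈ u) :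
    ∀ x ∈ u, ∀ y ∈ q, (x * y).trace = 0 := by
  intro x hx y hy
  obtain ⟨k, hk⟩ := ParEngel_pow u hu huu
  have h1 : ∀ j : ℕ, (x * y) ^ j ∈ u ^ j * (⊤ : Submodule K (Mat n K)) := by
    intro j
    induction j with
    | zero =>
      rw [pow_zero, pow_zero, one_mul]
      exact Submodule.mem_top
    | succ j ih =>
      have h2 : y * (x * y) ^ j ∈ u ^ j * (⊤ : Submodule K (Mat n K)) := by
        refine Submodule.mul_induction_on ih ?_ ?_
        · intro p hp a _
          have h3 : y * (p * a) = p * (y * a) + (y * p - p * y) * a := by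
            rw [sub_mul]
            simp only [mul_assoc]
            abel
          rw [h3]
          exact Submodule.add_mem _ (Submodule.mul_mem_mul hp Submodule.mem_top)
            (Submodule.mul_mem_mul (ParEngel_comm u q hqu y hy j p hp) Submodule.mem_top)
        · intro a b ha hb
          rw [mul_add]
          exact Submodule.add_mem _ ha hb
      rw [pow_succ', pow_succ', mul_assoc, mul_assoc]
      exact Submodule.mul_mem_mul hx h2
  have h2 : IsNilpotent (x * y) := by
    refine ⟨k, ?_⟩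
    have h3 := h1 k
    rw [hk, Submodule.bot_mul, Submodule.mem_bot] at h3
    exact h3
  exact (Matrix.isNilpotent_trace_of_isNilpotent h2).eq_zero

theorem prod_eq_zero_of_nil (u : Submodule K (Mat n K)) (hu : ∀ x ∈ u, IsNilpotent x)
    (huu : ∀ x ∈ u, ∀ y ∈ u, x * y - y * x ∈ u) :
    ∃ k : ℕ, ∀ l : List (Mat n K), l.length = k → (∀ x ∈ l, x ∈ u) → l.prod = 0 := by
  obtain ⟨k, hk⟩ := ParEngel_pow u hu huu
  refine ⟨k, fun l hl hlu => ?_⟩
  have h1 : ∀ l : List (Mat n K), (∀ x ∈ l, x ∈ u) → l.prod ∈ u ^ l.length := by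
    intro l
    induction l with
    | nil =>
      intro _
      rw [List.prod_nil, List.length_nil, pow_zero]
      exact Submodule.one_le.1 le_rfl
    | cons a l ih =>
      intro h
      rw [List.prod_cons, List.length_cons, pow_succ']
      exact Submodule.mul_mem_mul (h a List.mem_cons_self)
        (ih fun x hx => h x (List.mem_cons_of_mem a hx))
  have h2 := h1 l hlu
  rw [hl, hk, Submodule.mem_bot] at h2
  exact h2

/-- Iterated commutators with elements of `u`. -/
def ParEngel_ad (l : List (Mat n K)) (z : Mat n K) : Mat n K :=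
  l.foldl (fun z x => x * z - z * x) z

theorem ParEngel_ad_cons (x : Mat n K) (l : List (Mat n K)) (z : Mat n K) :
    ParEngel_ad (x :: l) z = ParEngel_ad l (x * z - z * x) := rfl

theorem ParEngel_ad_sub (l : List (Mat n K)) : ∀ z w : Mat n K,
    ParEngel_ad l (z - w) = ParEngel_ad l z - ParEngel_ad l w := by
  induction l with
  | nil =>
    intro z w
    rfl
  | cons x l ih =>
    intro z w
    rw [ParEngel_ad_cons, ParEngel_ad_cons, ParEngel_ad_cons, ← ih]
    congr 1
    rw [mul_sub, sub_mul]
    abel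

theorem ParEngel_ad_zero (u : Submodule K (Mat n K)) (k : ℕ) (hk : u ^ k = ⊥) :
    ∀ (l : List (Mat n K)), (∀ x ∈ l, x ∈ u) → ∀ (a b : ℕ) (z : Mat n K),
      z ∈ u ^ a * (⊤ : Submodule K (Mat n K)) * u ^ b → 2 * k ≤ a + b + l.length →
        ParEngel_ad l z = 0 := by
  have hbot : ∀ a, k ≤ a → u ^ a = ⊥ := by
    intro a ha
    obtain ⟨c, rfl⟩ := Nat.exists_eq_add_of_le ha
    rw [pow_add, hk, Submodule.bot_mul]
  intro l
  induction l with
  | nil =>
    intro _ a b z hz hab
    rw [List.length_nil] at hab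
    have h1 : z = 0 := by
      rcases le_or_gt k a with ha | ha
      · rw [hbot a ha, Submodule.bot_mul, Submodule.bot_mul, Submodule.mem_bot] at hz
        exact hz
      · rw [hbot b (by omega), Submodule.mul_bot, Submodule.mem_bot] at hz
        exact hz
    rw [h1]
    rfl
  | cons x l ih =>
    intro h a b z hz hab
    rw [List.length_cons] at hab
    have hx : x ∈ u := h x List.mem_cons_self
    have hl : ∀ x ∈ l, x ∈ u := fun x hx => h x (List.mem_cons_of_mem _ hx)
    have h1 : x * z ∈ u ^ (a + 1) * (⊤ : Submodule K (Mat n K)) * u ^ b := by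
      have h3 := Submodule.mul_mem_mul hx hz
      rw [pow_succ', mul_assoc, mul_assoc]
      rw [mul_assoc] at h3
      exact h3
    have h2 : z * x ∈ u ^ a * (⊤ : Submodule K (Mat n K)) * u ^ (b + 1) := by
      have h3 := Submodule.mul_mem_mul hz hx
      rw [pow_succ, ← mul_assoc]
      exact h3
    rw [ParEngel_ad_cons, ParEngel_ad_sub, ih hl (a + 1) b _ h1 (by omega),
      ih hl a (b + 1) _ h2 (by omega), sub_zero]

theorem orth_le_of_norm (g q : Submodule K (Mat n K)) (hg : ∀ x ∈ g, ∀ y ∈ g, x * y - y * x ∈ g)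
    (hqg : q ≤ g) (hq : ∀ x ∈ q, ∀ y ∈ q, x * y - y * x ∈ q)
    (hnil : ∀ x ∈ mrad g q, IsNilpotent x) (hnorm : q = mnorm g (mrad g q)) :
    orth g q ≤ q := by
  -- commutators of `q` with the orthogonal
  have hqM : ∀ y ∈ q, ∀ x ∈ orth g q, y * x - x * y ∈ orth g q := by
    intro y hy x hx
    refine ⟨hg y (hqg hy) x hx.1, fun z hz => ?_⟩
    have h1 := hx.2 (z * y - y * z) (hq z hz y hy)
    rw [mul_sub, Matrix.trace_sub, sub_eq_zero] at h1
    have e1 : (y * x * z).trace = (x * (z * y)).trace := by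
      rw [mul_assoc, Matrix.trace_mul_comm, mul_assoc]
    have e2 : (x * y * z).trace = (x * (y * z)).trace := by rw [mul_assoc]
    rw [sub_mul, Matrix.trace_sub, e1, e2, h1, sub_self]
  have huu : ∀ x ∈ mrad g q, ∀ y ∈ mrad g q, x * y - y * x ∈ mrad g q := by
    intro x hx y hy
    exact ⟨hq x hx.1 y hy.1, hqM x hx.1 y hy.2⟩
  obtain ⟨k, hk⟩ := ParEngel_pow (mrad g q) hnil huu
  have key : ∀ j : ℕ, ∀ y ∈ orth g q, (∀ l : List (Mat n K), (∀ x ∈ l, x ∈ mrad g q) →
      l.length = j → ParEngel_ad l y ∈ mrad g q) → y ∈ mrad g q := by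
    intro j
    induction j with
    | zero =>
      intro y _ h
      exact h [] (fun x hx => absurd hx List.not_mem_nil) rfl
    | succ j ih =>
      intro y hy h
      have h1 : ∀ x ∈ mrad g q, x * y - y * x ∈ mrad g q := by
        intro x hx
        refine ih _ (hqM x hx.1 y hy) fun l hl hlj => ?_
        rw [← ParEngel_ad_cons]
        refine h (x :: l) ?_ (by rw [List.length_cons, hlj])
        intro z hz
        rcases List.mem_cons.1 hz with rfl | hz
        · exact hx
        · exact hl z hz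
      have h2 : y ∈ mnorm g (mrad g q) := by
        refine ⟨hy.1, fun x hx => ?_⟩
        have h3 := (mrad g q).neg_mem (h1 x hx)
        rwa [neg_sub] at h3
      rw [← hnorm] at h2
      exact ⟨h2, hy⟩
  intro y hy
  refine (key (2 * k) y hy fun l hl hlk => ?_).1
  rw [ParEngel_ad_zero (mrad g q) k hk l hl 0 0 y ?_ (by omega)]
  · exact (mrad g q).zero_mem
  · rw [pow_zero, one_mul, mul_one]
    exact Submodule.mem_top

end Pool.Agent.B4801bT
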