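import Pool.Agent.W_b4801b_h32.ParIter
import Pool.Agent.W_b4801b_h32.AlgProj
import Pool.Agent.W_b4801b_h32.MainAbs

set_option autoImplicit false

/-!
# The parabolic criterion for a matrix representation

`semisimple_or_parabolic`: let `R : G → M_n(ℚ_ℓ)` be a continuous representation of a compact group, `T` a set of tensors
with `TraceNondeg`, each fixed by a subgroup of finite index, `g = ann T ℚ_ℓ` normalized by all `R σ`.  Then either every
`R`-stable subspace `W` is the image of a projection which commutes with `R`, or there is a proper parabolic subalgebra of `g`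
which is normalized by all `R σ`.

Proof.  Let `W` be `R`-stable, `K` the algebraic closure.  If `mrad g (mstab g W) ≠ ⊥` take `exists_parabolic` (with
`S = {R σ}`; `orth g g = ⊥` follows from `TraceNondeg`, as in `AnnLie`, or: `bc_orth` with `K₀ = ℚ`).  If it is `⊥`: the trace form
is nondegenerate on `mstab g W`, so on `bc K (mstab g W) = mstab (ann T K) (baseW K W)` (`bc_orth`, `bc_mstab`, `bc_ann`).  So
`stab (gLie T K) (baseW K W)` satisfies `AlgLie` (`nil`: `algLie_gLie` and the nilpotent part is a polynomial in the element, so it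
preserves `baseW K W`).  `AlgLie.exists_proj` gives a projection onto `baseW K W` commuting with the stabilizer; conclude by
`exists_neat`, `commute_of_neat`, `exists_proj_descent` as in `main_abs`.

`fixedBy_stable`: if the invertible matrix `A` normalizes `g` and `q`, then `fixedBy (orth g q)` is stable under `A`.
Proof: `A` normalizes `orth g q` (`tr (A x A⁻¹ y) = tr (x A⁻¹ y A)`, and `A⁻¹ q A ⊆ q` by dimension); for `v` killed by `u = orth g q`
and `x ∈ u`: `x A v = A (A⁻¹ x A) v = 0`.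
-/

noncomputable section

open Polynomial

namespace Pool.Agent.B4801bT

theorem ParMain_conj_mem {K : Type*} [Field K] {n : ℕ} (A B : Mat n K) (h1 : A * B = 1)
    (q : Submodule K (Mat n K)) (hq : Normalizes A q) (w : Mat n K) (hw : w ∈ q) :
    A * w * B ∈ q := by
  obtain ⟨z, hz, h⟩ := hq w hw
  rw [h, mul_assoc, h1, mul_one]
  exact hz

theorem ParMain_surj {K : Type*} [Field K] {n : ℕ} (A B : Mat n K) (h1 : A * B = 1)
    (h2 : B * A = 1) (g : Submodule K (Mat n K)) (hg : Normalizes A g) (x : Mat n K)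
    (hx : x ∈ g) : ∃ y ∈ g, A * y * B = x := by
  let c : Mat n K →ₗ[K] Mat n K := LinearMap.mulRight K B ∘ₗ LinearMap.mulLeft K A
  have hc : ∀ y, c y = A * y * B := fun y => rfl
  have hcg : ∀ y ∈ g, c y ∈ g := fun y hy => by
    rw [hc]
    exact ParMain_conj_mem A B h1 g hg y hy
  have hinj : Function.Injective (c.restrict hcg) := by
    intro y z hyz
    have h3 : c y = c z := congrArg Subtype.val hyz
    rw [hc, hc] at h3
    have h4 : B * (A * (y : Mat n K) * B) * A = B * (A * (z : Mat n K) * B) * A := by rw [h3]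
    have h5 : ∀ w : Mat n K, B * (A * w * B) * A = w := by
      intro w
      calc B * (A * w * B) * A = (B * A) * w * (B * A) := by simp only [mul_assoc]
        _ = w := by rw [h2, one_mul, mul_one]
    rw [h5, h5] at h4
    exact Subtype.ext h4
  obtain ⟨y, hy⟩ := (LinearMap.injective_iff_surjective.mp hinj) ⟨x, hx⟩
  exact ⟨y, y.2, congrArg Subtype.val hy⟩

/-- Linear maps to the base field separate matrices. -/
theorem ParMain_sep {K₀ K : Type*} [Field K₀] [Field K] [Algebra K₀ K] {n : ℕ} (X : Mat n K)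
    (h : ∀ φ : K →ₗ[K₀] K₀, X.map φ = 0) : X = 0 := by
  ext i j
  rw [Matrix.zero_apply, ← Module.forall_dual_apply_eq_zero_iff K₀]
  intro φ
  have := congrFun (congrFun (h φ) i) j
  exact this

/-- The trace form is nondegenerate on the Lie algebra over any field extension. -/
theorem ParMain_orth {n : ℕ} (T : TensorSet n) (hT : TraceNondeg T) (K : Type*) [Field K]
    [Algebra ℚ K] : orth (ann T K) (ann T K) = ⊥ := by
  rw [eq_bot_iff]
  intro X hX
  rw [Submodule.mem_bot]
  refine ParMain_sep (K₀ := ℚ) X fun φ => ?_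
  refine hT _ (AnnLie_map_mem hX.1 φ) fun Z hZ => ?_
  rw [AnnLie_trace, hX.2 _ (AnnLie_alg_mem hZ), map_zero]

/-- The stabilizer of a subspace with nondegenerate trace form is algebraic. -/
theorem ParMain_alg {K₀ : Type*} [Field K₀] [Algebra ℚ K₀] (K : Type*) [Field K]
    [IsAlgClosed K] [CharZero K] [Algebra ℚ K] [Algebra K₀ K] {n : ℕ} (T : TensorSet n)
    (hT : TraceNondeg T) (W : Submodule K₀ (Fin n → K₀))
    (hrad : mrad (ann T K₀) (mstab (ann T K₀) W) = ⊥) :
    AlgLie (stab (gLie T K) (baseW K W)) := by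
  have halg : AlgLie (gLie T K) := algLie_gLie T hT K
  constructor
  · intro x hx y hy
    exact StabRed_lie halg _ hx hy
  · intro x hx s m hs hm hc hxs
    refine ⟨halg.nil x hx.1 s m hs hm hc hxs, ?_⟩
    have hrep : IsRep (fun μ => μ) x s := by
      intro μ v hv
      have hxsc : Commute x s := by
        rw [hxs]
        exact (Commute.refl s).add_left hc.symm
      have hnil : IsNilpotent (x - s) := by
        rw [hxs, add_sub_cancel_left]
        exact hm
      exact Module.End.apply_eq_of_mem_of_comm_of_isFinitelySemisimple_of_isNil hv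
        hxsc hs.isFinitelySemisimple hnil
    have hsst := hrep.mapsTo (baseW K W) hx.2
    intro v hv
    have hmx : m = x - s := by rw [hxs, add_sub_cancel_left]
    rw [hmx, LinearMap.sub_apply]
    exact Submodule.sub_mem _ (hx.2 v hv) (hsst v hv)
  · intro x hx h
    obtain ⟨X, hX, rfl⟩ := AnnLie_exists hx.1
    have hXs : X ∈ mstab (ann T K) (baseW K W) := ⟨hX, hx.2⟩
    have hbc : mstab (ann T K) (baseW K W) = bc K (mstab (ann T K₀) W) := by
      rw [← bc_mstab, bc_ann]
    have hXo : X ∈ orth (ann T K) (bc K (mstab (ann T K₀) W)) := by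
      refine ⟨hX, fun Y hY => ?_⟩
      rw [← hbc] at hY
      have h2 := h (Matrix.toLin' Y) ⟨(toLin'_mem_gLie T K Y).2 hY.1, hY.2⟩
      rw [← AnnLie_mul, Matrix.trace_toLin'_eq] at h2
      exact h2
    rw [← bc_ann (K₀ := K₀) (K := K) T, bc_orth] at hXo
    rw [hbc] at hXs
    have h0 : X = 0 := by
      refine ParMain_sep (K₀ := K₀) X fun φ => ?_
      have h3 : X.map φ ∈ mrad (ann T K₀) (mstab (ann T K₀) W) := ⟨hXs φ, hXo φ⟩
      rw [hrad] at h3
      exact (Submodule.mem_bot K₀).mp h3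
    rw [h0, map_zero]

theorem fixedBy_stable {K : Type*} [Field K] {n : ℕ} (g q : Submodule K (Mat n K)) (A : Mat n K)
    (hA : IsUnit A) (hg : Normalizes A g) (hq : Normalizes A q) :
    ∀ v ∈ fixedBy (orth g q), Matrix.toLin' A v ∈ fixedBy (orth g q) := by
  intro v hv x hx
  obtain ⟨⟨A', B, h1, h2⟩, rfl⟩ := hA
  simp only at hg hq ⊢
  obtain ⟨y, hy, hyx⟩ := ParMain_surj A' B h1 h2 g hg x hx.1
  have hyo : y ∈ orth g q := by
    refine ⟨hy, fun w hw => ?_⟩
    have hw' : A' * w * B ∈ q := ParMain_conj_mem A' B h1 q hq w hw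
    have h3 := hx.2 _ hw'
    have h4 : x * (A' * w * B) = A' * (y * w) * B := by
      rw [← hyx]
      calc A' * y * B * (A' * w * B) = A' * y * (B * A') * w * B := by
            simp only [mul_assoc]
        _ = A' * (y * w) * B := by rw [h2, mul_one]; simp only [mul_assoc]
    rw [h4, Matrix.trace_mul_comm, ← mul_assoc, h2, one_mul] at h3
    exact h3
  have h5 : Matrix.toLin' x (Matrix.toLin' A' v) = Matrix.toLin' A' (Matrix.toLin' y v) := by
    rw [← LinearMap.comp_apply, ← LinearMap.comp_apply, ← Matrix.toLin'_mul,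
      ← Matrix.toLin'_mul, ← hyx, mul_assoc (A' * y), h2, mul_one]
  have h6 : Matrix.toLin' y v = 0 := hv y hyo
  show Matrix.toLin' x (Matrix.toLin' A' v) = 0
  rw [h5, h6, map_zero]

theorem semisimple_or_parabolic (ℓ : ℕ) [Fact ℓ.Prime] {G : Type*} [Group G] [TopologicalSpace G]
    [IsTopologicalGroup G] [CompactSpace G] {n : ℕ} (R : G →* Mat n ℚ_[ℓ])
    (hcont : ∀ i j, Continuous fun g => R g i j) (T : TensorSet n) (hT : TraceNondeg T)
    (hfix : ∀ t ∈ T, ∃ Γ : Subgroup G, Γ.FiniteIndex ∧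
      ∀ g ∈ Γ, Commute (tp t.1 (R g)) (t.2.map (algebraMap ℚ ℚ_[ℓ])))
    (hnorm : ∀ g, Normalizes (R g) (ann T ℚ_[ℓ])) :
    (∀ W : Submodule ℚ_[ℓ] (Fin n → ℚ_[ℓ]), (∀ g, ∀ v ∈ W, Matrix.toLin' (R g) v ∈ W) →
      ∃ P₀ : Module.End ℚ_[ℓ] (Fin n → ℚ_[ℓ]), (∀ v, P₀ v ∈ W) ∧ (∀ v ∈ W, P₀ v = v) ∧
        ∀ g, Commute P₀ (Matrix.toLin' (R g))) ∨
    ∃ q : Submodule ℚ_[ℓ] (Mat n ℚ_[ℓ]), IsParabolic (ann T ℚ_[ℓ]) q ∧ q ≠ ann T ℚ_[ℓ] ∧
      ∀ g, Normalizes (R g) q := by
  classical
  by_cases hcase : ∀ W : Submodule ℚ_[ℓ] (Fin n → ℚ_[ℓ]),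
      (∀ g, ∀ v ∈ W, Matrix.toLin' (R g) v ∈ W) →
        mrad (ann T ℚ_[ℓ]) (mstab (ann T ℚ_[ℓ]) W) = ⊥
  · left
    intro W hW
    let K := AlgebraicClosure ℚ_[ℓ]
    let A : G → Mat n K := fun g => (R g).map (algebraMap ℚ_[ℓ] K)
    have hAmul : ∀ g h, A (g * h) = A g * A h := by
      intro g h
      show (R (g * h)).map (algebraMap ℚ_[ℓ] K) = _
      rw [map_mul, Matrix.map_mul]
    have hA1 : A 1 = 1 := by
      show (R 1).map (algebraMap ℚ_[ℓ] K) = _
      rw [map_one, Matrix.map_one _ (map_zero _) (map_one _)]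
    have hApow : ∀ (g : G) (k : ℕ), A (g ^ k) = A g ^ k := by
      intro g k
      induction k with
      | zero => rw [pow_zero, pow_zero, hA1]
      | succ k ih => rw [pow_succ, pow_succ, hAmul, ih]
    have hAu : ∀ g, IsUnit (A g) := by
      intro g
      refine ⟨⟨A g, A g⁻¹, ?_, ?_⟩, rfl⟩
      · rw [← hAmul, mul_inv_cancel, hA1]
      · rw [← hAmul, inv_mul_cancel, hA1]
    -- every element has a power fixing the tensor `t`
    have hfix' : ∀ g, ∀ t ∈ T, ∃ N : ℕ, 0 < N ∧
        Commute (tp t.1 (A g ^ N)) (t.2.map (algebraMap ℚ K)) := by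
      intro g t ht
      obtain ⟨Γ, hΓ, hfixt⟩ := hfix t ht
      obtain ⟨N, hN, -, hgN⟩ := Γ.exists_pow_mem_of_index_ne_zero hΓ.index_ne_zero g
      refine ⟨N, hN, ?_⟩
      have h1 := hfixt _ hgN
      have h2 : tp t.1 (A g ^ N) = (tp t.1 (R (g ^ N))).map (algebraMap ℚ_[ℓ] K) := by
        rw [← hApow, ← tp_map]
      have h3 : t.2.map (algebraMap ℚ K) = (t.2.map (algebraMap ℚ ℚ_[ℓ])).map
          (algebraMap ℚ_[ℓ] K) := by
        rw [Matrix.map_map]
        congr 1
      rw [h2, h3]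
      show _ * _ = _ * _
      rw [← Matrix.map_mul, ← Matrix.map_mul, h1.eq]
    let WK : Submodule K (Fin n → K) := baseW K W
    have hWK : ∀ g, ∀ v ∈ WK, Matrix.toLin' (A g) v ∈ WK := fun g => baseW_stable W (R g) (hW g)
    have halg : AlgLie (stab (gLie T K) WK) := ParMain_alg K T hT W (hcase W hW)
    obtain ⟨Q, hQ1, hQ2, hQ3⟩ := halg.exists_proj WK fun x hx => hx.2
    obtain ⟨Γ, hΓ, hneat⟩ := exists_neat ℓ n R hcont
    exact exists_proj_descent R W hW Γ hΓ Q hQ1 hQ2 fun g hg =>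
      commute_of_neat T (A g) (hAu g) (hfix' g) (hneat g hg) WK (hWK g) Q hQ3
  · right
    push Not at hcase
    obtain ⟨W, hW, hrad⟩ := hcase
    have hRu : ∀ g, IsUnit (R g) := by
      intro g
      refine ⟨⟨R g, R g⁻¹, ?_, ?_⟩, rfl⟩
      · rw [← map_mul, mul_inv_cancel, map_one]
      · rw [← map_mul, inv_mul_cancel, map_one]
    obtain ⟨q, hq1, hq2, hq3⟩ := exists_parabolic (AlgebraicClosure ℚ_[ℓ]) T
      (ParMain_orth T hT ℚ_[ℓ]) (Set.range R)
      (by rintro _ ⟨g, rfl⟩; exact hRu g)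
      (by rintro _ ⟨g, rfl⟩; exact hnorm g) W
      (by rintro _ ⟨g, rfl⟩; exact hW g) hrad
    exact ⟨q, hq1, hq2, fun g => hq3 _ ⟨g, rfl⟩⟩

end Pool.Agent.B4801bT
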