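import Pool.Agent.W_b4801b_h32.ParBC
import Pool.Agent.W_b4801b_h32.ParEngel

set_option autoImplicit false

/-!
# The parabolic test over an extension field implies the test over the base field

Theorem: let `K₀ → L` be a field extension in characteristic zero, `ParabolicTest T P L`.  Let `A` be an invertible matrix over
`K₀` with characteristic polynomial `P`, some power of which commutes with each tensor, normalizing `g = ann T K₀` and a
proper parabolic subalgebra `q` of `g`.  Then `A` is not balanced on `fixedBy (orth g q)`.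

Proof.  Over `L`: `bc L g = ann T L` (`bc_ann`), `bc L q` is a parabolic subalgebra: `bc_lie`, `orth (bc L g) (bc L q) =
bc L (orth g q) ≤ bc L q` (`bc_orth`), and the elements of `bc L (orth g q)` are nilpotent: `u = orth g q` is closed under commutators
(`u ≤ q`, and `orth g q` is stable under commutators with `q`), all its elements are nilpotent, so by `prod_eq_zero_of_nil`
(`ParEngel`) all products of `k` elements of `u` are zero, so also all products of `k` elements of the span of `u` over `L`
(`bc_eq_span`).  `bc L q ≠ bc L g` (`map_mem_bc`).  `A` over `L` has the characteristic polynomial `P`, normalizes `bc L g`, `bc L q`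
(`bc_normalizes`), powers commute with tensors (`tp_map`).  If `A` were balanced on `fixedBy u`, then `A` over `L` would be
balanced on `baseW L (fixedBy u) = fixedBy (bc L u)` (`bc_fixedBy`, `det_baseW`, `finrank_baseW`): contradiction to the test.
-/

noncomputable section

open Polynomial

namespace Pool.Agent.B4801bT

theorem ParTest_bc_mono {K₀ : Type*} [Field K₀] {L : Type*} [Field L] [Algebra K₀ L] {n : ℕ}
    {q g : Submodule K₀ (Mat n K₀)} (h : q ≤ g) : bc L q ≤ bc L g :=
  fun _ hX φ => h (hX φ)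

open Pointwise in
theorem ParTest_nil {K₀ : Type*} [Field K₀] {L : Type*} [Field L] [Algebra K₀ L] {n : ℕ}
    (u : Submodule K₀ (Mat n K₀)) (hu : ∀ x ∈ u, IsNilpotent x)
    (huu : ∀ x ∈ u, ∀ y ∈ u, x * y - y * x ∈ u) (X : Mat n L) (hX : X ∈ bc L u) :
    IsNilpotent X := by
  obtain ⟨k, hk⟩ := prod_eq_zero_of_nil u hu huu
  refine ⟨k, ?_⟩
  rw [bc_eq_span] at hX
  have h1 : X ^ k ∈ (Submodule.span L
      ((fun x : Mat n K₀ => x.map (algebraMap K₀ L)) '' (u : Set (Mat n K₀)))) ^ k :=
    Submodule.pow_mem_pow _ hX k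
  rw [Submodule.span_pow] at h1
  have h2 : ((fun x : Mat n K₀ => x.map (algebraMap K₀ L)) '' (u : Set (Mat n K₀))) ^ k ⊆
      ({0} : Set (Mat n L)) := by
    intro a ha
    rw [Set.mem_pow] at ha
    obtain ⟨f, rfl⟩ := ha
    have h3 : ∀ i, ∃ x ∈ u, x.map (algebraMap K₀ L) = (f i : Mat n L) := fun i => (f i).2
    choose x hx hxf using h3
    have h4 := hk (List.ofFn x) (List.length_ofFn) (by
      intro y hy
      rw [List.mem_ofFn] at hy
      obtain ⟨i, rfl⟩ := hy
      exact hx i)
    have h5 : (List.ofFn fun i => (f i : Mat n L)).prod =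
        (algebraMap K₀ L).mapMatrix (List.ofFn x).prod := by
      rw [map_list_prod, List.map_ofFn]
      congr 2
      funext i
      exact (hxf i).symm
    rw [Set.mem_singleton_iff, h5, h4, map_zero]
  have h6 := Submodule.span_mono (R := L) h2 h1
  rwa [Submodule.span_zero_singleton, Submodule.mem_bot] at h6

theorem not_balanced_of_test {K₀ : Type*} [Field K₀] [CharZero K₀] [Algebra ℚ K₀] (L : Type*)
    [Field L] [Algebra ℚ L] [Algebra K₀ L] {n : ℕ} (T : TensorSet n) (P : ℚ[X])
    (htest : ParabolicTest T P L) (A : Mat n K₀) (hA : IsUnit A)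
    (hP : A.charpoly = P.map (algebraMap ℚ K₀))
    (hfix : ∀ t ∈ T, ∃ N : ℕ, 0 < N ∧ Commute (tp t.1 (A ^ N)) (t.2.map (algebraMap ℚ K₀)))
    (hAg : Normalizes A (ann T K₀)) (q : Submodule K₀ (Mat n K₀))
    (hq : IsParabolic (ann T K₀) q) (hne : q ≠ ann T K₀) (hAq : Normalizes A q) :
    ¬ Balanced A (fixedBy (orth (ann T K₀) q)) := by
  intro hbal
  have hcomp : (algebraMap K₀ L).comp (algebraMap ℚ K₀) = algebraMap ℚ L := Subsingleton.elim _ _
  have hpow : ∀ N : ℕ, (A.map (algebraMap K₀ L)) ^ N = (A ^ N).map (algebraMap K₀ L) := by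
    intro N
    exact (map_pow (algebraMap K₀ L).mapMatrix A N).symm
  have horth : orth (ann T L) (bc L q) = bc L (orth (ann T K₀) q) := by
    rw [← bc_ann (K₀ := K₀) (K := L) T, bc_orth]
  have huu : ∀ x ∈ orth (ann T K₀) q, ∀ y ∈ orth (ann T K₀) q,
      x * y - y * x ∈ orth (ann T K₀) q := by
    intro x hx y hy
    have hxq := hq.orth_le hx
    have hyq := hq.orth_le hy
    refine ⟨hq.le (hq.lie x hxq y hyq), fun z hz => ?_⟩
    have h1 := hx.2 _ (hq.lie y hyq z hz)
    have h2 : ((x * y - y * x) * z).trace = (x * (y * z - z * y)).trace := by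
      rw [sub_mul, mul_sub, Matrix.trace_sub, Matrix.trace_sub, mul_assoc x y z,
        Matrix.trace_mul_comm (y * x) z, ← mul_assoc z y x, Matrix.trace_mul_comm (z * y) x]
    rw [h2, h1]
  have hpar : IsParabolic (ann T L) (bc L q) := by
    refine ⟨?_, bc_lie q hq.lie, ?_, ?_⟩
    · rw [← bc_ann (K₀ := K₀) (K := L) T]
      exact ParTest_bc_mono hq.le
    · rw [horth]
      exact ParTest_bc_mono hq.orth_le
    · rw [horth]
      intro X hX
      exact ParTest_nil _ hq.nil huu X hX
  have hne' : bc L q ≠ ann T L := by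
    intro h
    apply hne
    refine le_antisymm hq.le fun x hx => ?_
    rw [← map_mem_bc (K := L), h, ← bc_ann (K₀ := K₀) (K := L) T, map_mem_bc]
    exact hx
  refine htest (A.map (algebraMap K₀ L)) (hA.map (algebraMap K₀ L).mapMatrix) ?_ ?_ ?_ (bc L q) hpar
    hne' (bc_normalizes A q hAq) ?_
  · rw [Matrix.charpoly_map, hP, Polynomial.map_map, hcomp]
  · intro t ht
    obtain ⟨N, hN, hc⟩ := hfix t ht
    refine ⟨N, hN, ?_⟩
    have h1 := hc.map (algebraMap K₀ L).mapMatrix
    have h2 : (algebraMap K₀ L).mapMatrix (t.2.map (algebraMap ℚ K₀)) =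
        t.2.map (algebraMap ℚ L) := by
      rw [RingHom.mapMatrix_apply, Matrix.map_map, ← hcomp]
      rfl
    rw [hpow, tp_map, ← h2]
    exact h1
  · rw [← bc_ann (K₀ := K₀) (K := L) T]
    exact bc_normalizes A _ hAg
  · rw [horth, bc_fixedBy]
    obtain ⟨hW, N, hN, hdet⟩ := hbal
    refine ⟨baseW_stable _ A hW, N, hN, ?_⟩
    have h1 : (A.map (algebraMap K₀ L)).det = algebraMap K₀ L A.det :=
      ((algebraMap K₀ L).map_det A).symm
    have h2 : mDet (A.map (algebraMap K₀ L)) (baseW L (fixedBy (orth (ann T K₀) q)))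
        (baseW_stable _ A hW) = algebraMap K₀ L (mDet A _ hW) := det_baseW _ A hW
    rw [h2, finrank_baseW, h1, ← map_pow, ← map_pow, hdet, map_pow, map_pow]

end Pool.Agent.B4801bT
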