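import Pool.Agent.W_b4801b_h32.TorDefs
import Pool.Agent.W_b4801b_h32.ParMain
import Pool.Agent.W_b4801b_h32.ParTest
import Pool.Agent.W_b4801b_h32.FinalStep

set_option autoImplicit false

/-!
# The parabolic criterion for compatible systems

`balanced_of_stable`: in the situation of `semisimple_of_rank` every Galois-stable subspace is balanced for `x.frob` (first
part of the proof in `FinalStep`: `det_alg`, `arith`).
`semisimple_or_exists`: `semisimple_or_parabolic`; in the second case `fixedBy (orth g q)` is Galois-stable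
(`fixedBy_stable`), so balanced.  `semisimple_of_parabolic`: this contradicts the test over `ℂ` by
`not_balanced_of_test` (`L = ℂ`, `exists_embedding`).
-/

noncomputable section

open Polynomial Pool.Agent.B4801b

universe u v

namespace Pool.Agent.B4801bT

/-- The matrix of `σ` in the basis of `V_ℓ`. -/
def TensorData.mat {k : Type u} [Field k] {w : ℕ} {S : CompSys.{u, v} k w} (D : TensorData S)
    (ℓ : ℕ) [Fact ℓ.Prime] (σ : Gal k) : Mat D.n ℚ_[ℓ] :=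
  coordMat (D.basis ℓ) ((S.rep ℓ).ρ σ)

/-- The Galois group normalizes the Lie algebra of the tensors over `ℚ_ℓ`. -/
def TensorData.Normal {k : Type u} [Field k] {w : ℕ} {S : CompSys.{u, v} k w} (D : TensorData S)
    (ℓ : ℕ) [Fact ℓ.Prime] : Prop :=
  ∀ σ, Normalizes (D.mat ℓ σ) (ann D.T ℚ_[ℓ])

section Lemmas

variable {k : Type u} [Field k] {w : ℕ}

theorem ParFinal_mat_apply {S : CompSys.{u, v} k w} (D : TensorData S) (ℓ : ℕ) [Fact ℓ.Prime]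
    (σ : Gal k) (v : (S.rep ℓ).V) :
    Matrix.toLin' (D.mat ℓ σ) ((D.basis ℓ).equivFun v) =
      (D.basis ℓ).equivFun ((S.rep ℓ).ρ σ v) := by
  rw [Matrix.toLin'_apply]
  exact LinearMap.toMatrix_mulVec_repr (D.basis ℓ) (D.basis ℓ) ((S.rep ℓ).ρ σ) v

/-- The matrix representation. -/
def ParFinal_R {S : CompSys.{u, v} k w} (D : TensorData S) (ℓ : ℕ) [Fact ℓ.Prime] :
    Gal k →* Mat D.n ℚ_[ℓ] :=
  ((LinearMap.toMatrixAlgEquiv (D.basis ℓ) : _ ≃ₐ[ℚ_[ℓ]] Mat D.n ℚ_[ℓ]) :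
    _ →* Mat D.n ℚ_[ℓ]).comp (S.rep ℓ).ρ

theorem ParFinal_R_apply {S : CompSys.{u, v} k w} (D : TensorData S) (ℓ : ℕ) [Fact ℓ.Prime]
    (σ : Gal k) : ParFinal_R D ℓ σ = D.mat ℓ σ := rfl

theorem ParFinal_cont {S : CompSys.{u, v} k w} (D : TensorData S) (ℓ : ℕ) [Fact ℓ.Prime] :
    ∀ i j, Continuous fun σ => ParFinal_R D ℓ σ i j := by
  intro i j
  have h1 : ∀ σ, ParFinal_R D ℓ σ i j =
      (D.basis ℓ).coord i ((S.rep ℓ).ρ σ (D.basis ℓ j)) := by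
    intro σ
    show LinearMap.toMatrix (D.basis ℓ) (D.basis ℓ) ((S.rep ℓ).ρ σ) i j = _
    rw [LinearMap.toMatrix_apply]
    rfl
  simp only [h1]
  exact (S.rep ℓ).continuous ((D.basis ℓ).coord i) (D.basis ℓ j)

/-- Semisimplicity from projections in coordinates. -/
theorem ParFinal_semisimple {S : CompSys.{u, v} k w} (D : TensorData S) (ℓ : ℕ) [Fact ℓ.Prime]
    (h : ∀ W : Submodule ℚ_[ℓ] (Fin D.n → ℚ_[ℓ]),
      (∀ σ, ∀ v ∈ W, Matrix.toLin' (ParFinal_R D ℓ σ) v ∈ W) →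
      ∃ P₀ : Module.End ℚ_[ℓ] (Fin D.n → ℚ_[ℓ]), (∀ v, P₀ v ∈ W) ∧ (∀ v ∈ W, P₀ v = v) ∧
        ∀ σ, Commute P₀ (Matrix.toLin' (ParFinal_R D ℓ σ))) : (S.rep ℓ).Semisimple := by
  intro W hW
  let e := (D.basis ℓ).equivFun
  have hRe : ∀ σ v, Matrix.toLin' (ParFinal_R D ℓ σ) (e v) = e ((S.rep ℓ).ρ σ v) :=
    ParFinal_mat_apply D ℓ
  obtain ⟨P₀, h1, h2, h3⟩ := h (W.map e.toLinearMap) (by
    rintro g _ ⟨v, hv, rfl⟩
    exact ⟨(S.rep ℓ).ρ g v, hW g v hv, (hRe g v).symm⟩)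
  let Q : Module.End ℚ_[ℓ] (S.rep ℓ).V := (e.symm.toLinearMap ∘ₗ P₀) ∘ₗ e.toLinearMap
  have hQ : ∀ v, e (Q v) = P₀ (e v) := fun v => e.apply_symm_apply _
  have hQ1 : ∀ v, Q v ∈ W := by
    intro v
    obtain ⟨u, hu, hu'⟩ := h1 (e v)
    have : e u = e (Q v) := by rw [hQ]; exact hu'
    rw [← e.injective this]
    exact hu
  have hQ2 : ∀ v ∈ W, Q v = v := by
    intro v hv
    apply e.injective
    rw [hQ]
    exact h2 _ ⟨v, hv, rfl⟩
  have hQ3 : ∀ σ v, Q ((S.rep ℓ).ρ σ v) = (S.rep ℓ).ρ σ (Q v) := by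
    intro σ v
    apply e.injective
    rw [hQ, ← hRe, ← hRe, hQ]
    exact LinearMap.congr_fun (h3 σ).eq (e v)
  refine ⟨LinearMap.ker Q, ?_, ?_⟩
  · intro σ v hv
    rw [LinearMap.mem_ker] at hv ⊢
    rw [hQ3, hv, map_zero]
  · rw [isCompl_iff, disjoint_iff, codisjoint_iff]
    constructor
    · rw [eq_bot_iff]
      rintro v ⟨hv, hv'⟩
      have h5 : Q v = 0 := hv'
      rw [hQ2 v hv] at h5
      rw [h5]
      exact Submodule.zero_mem _
    · rw [eq_top_iff]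
      intro v _
      refine Submodule.mem_sup.mpr ⟨Q v, hQ1 v, v - Q v, ?_, by abel⟩
      rw [LinearMap.mem_ker, map_sub, hQ2 _ (hQ1 v), sub_self]

end Lemmas

theorem ParFinal_charpoly {k : Type u} [Field k] {w : ℕ} {F : Type*} [Field F]
    [Algebra ℚ F] (S : AlgCompSys.{u, v} k w F) (D : TensorData S.toCompSys) (x : Place k)
    (hx : x ∈ S.Pl) (ℓ : ℕ) [Fact ℓ.Prime] (hℓ : ℓ ≠ x.p) :
    (D.mat ℓ x.frob).charpoly = (S.P x).map (algebraMap ℚ ℚ_[ℓ]) := by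
  rw [← S.charpoly_frob x hx ℓ hℓ, TensorData.mat, LinearMap.charpoly_toMatrix]

/-- Every Galois-stable subspace is balanced for the Frobenius element of `x`. -/
theorem balanced_of_stable {k : Type u} [Field k] {w : ℕ} {F : Type*} [Field F]
    [Algebra ℚ F] (S : AlgCompSys.{u, v} k w F) (D : TensorData S.toCompSys) (x : Place k)
    (hx : x ∈ S.Pl)
    (hZ : Nonempty (F →+* ℝ) ∨
      ∀ z ∈ ratioGroup (S.P x) ℂ, AlgIn F (z : ℂ) → ∃ N : ℕ, 0 < N ∧ z ^ N = 1)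
    (ℓ : ℕ) [Fact ℓ.Prime] (hℓ : ℓ ≠ x.p) (W' : Submodule ℚ_[ℓ] (Fin D.n → ℚ_[ℓ]))
    (hW' : ∀ σ, ∀ v ∈ W', Matrix.toLin' (D.mat ℓ σ) v ∈ W') :
    Balanced (D.mat ℓ x.frob) W' := by
  classical
  let K := AlgebraicClosure ℚ_[ℓ]
  obtain ⟨ι⟩ := exists_embedding ℓ
  let ρ := (S.rep ℓ).ρ
  let φ : Gal k := x.frob
  let b := D.basis ℓ
  let e := b.equivFun
  have hRe : ∀ σ v, Matrix.toLin' (D.mat ℓ σ) (e v) = e (ρ σ v) := ParFinal_mat_apply D ℓ
  have hchar : (ρ φ).charpoly = (S.P x).map (algebraMap ℚ ℚ_[ℓ]) := S.charpoly_frob x hx ℓ hℓ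
  obtain ⟨W, rfl⟩ : ∃ W : Submodule ℚ_[ℓ] (S.rep ℓ).V, W' = W.map e.toLinearMap :=
    ⟨W'.comap e.toLinearMap, (Submodule.map_comap_eq_of_surjective e.surjective W').symm⟩
  have hW : ∀ σ, ∀ v ∈ W, ρ σ v ∈ W := by
    intro σ v hv
    obtain ⟨u, hu, hu'⟩ := hW' σ (e v) ⟨v, hv, rfl⟩
    rw [hRe] at hu'
    rw [← e.injective hu']
    exact hu
  -- the determinant
  obtain ⟨N, hN, hdet⟩ := S.det_alg ℓ W hW
  have hdetx := hdet x.frob ⟨x, hx, hℓ, rfl⟩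
  let B : Module.End ℚ_[ℓ] W := (ρ φ).restrict (hW φ)
  let s : Multiset K := B.charpoly.aroots K
  have hsprod : s.prod = algebraMap ℚ_[ℓ] K (LinearMap.det B) := prod_aroots K B
  have hscard : Multiset.card s = Module.finrank ℚ_[ℓ] W := card_aroots K B
  have haroots : (S.P x).aroots K = (ρ φ).charpoly.aroots K := by
    rw [hchar, Polynomial.aroots, Polynomial.aroots, Polynomial.map_map,
      ← IsScalarTower.algebraMap_eq]
  have hne : ((ρ φ).charpoly.map (algebraMap ℚ_[ℓ] K)) ≠ 0 :=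
    Polynomial.map_ne_zero (LinearMap.charpoly_monic _).ne_zero
  have hs : s ≤ (S.P x).aroots K := by
    rw [haroots]
    refine Polynomial.roots.le_of_dvd hne (Polynomial.map_dvd _ ?_)
    rw [charpoly_mul W (ρ φ) (hW φ)]
    exact dvd_mul_right _ _
  have hPmonic : (S.P x).Monic := by
    have h1 : ((S.P x).map (algebraMap ℚ ℚ_[ℓ])).Monic := by
      rw [← hchar]
      exact LinearMap.charpoly_monic _
    exact Polynomial.monic_of_injective (algebraMap ℚ ℚ_[ℓ]).injective h1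
  have hq0 : x.q ≠ 0 := by
    intro h0
    have := x.cyc_frob ℓ hℓ
    rw [h0, Nat.cast_zero, mul_zero] at this
    exact zero_ne_one this
  have hcpos : (0 : ℝ) < (x.q : ℝ) ^ w := pow_pos (Nat.cast_pos.mpr (Nat.pos_of_ne_zero hq0)) w
  have hpure : ∀ z : ℂ, aeval z (S.P x) = 0 → ‖z‖ = Real.sqrt ((x.q : ℝ) ^ w) := by
    intro z hz
    rw [← S.pure x hx z hz, Real.sqrt_sq (norm_nonneg z)]
  have halg : AlgIn F (s.prod ^ N) := by
    rw [hsprod, ← map_pow]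
    exact (algIn_map F (IsScalarTower.toAlgHom ℚ ℚ_[ℓ] K) _).mpr hdetx
  obtain ⟨M, hM, hMeq⟩ := arith F (S.P x) hPmonic (Real.sqrt ((x.q : ℝ) ^ w))
    (Real.sqrt_pos.mpr hcpos) hpure hZ ι s hs N hN halg
  have hdeg : (S.P x).natDegree = D.n := by
    rw [← Polynomial.natDegree_map (algebraMap ℚ ℚ_[ℓ]), ← hchar, LinearMap.charpoly_natDegree,
      Module.finrank_eq_card_basis b, Fintype.card_fin]
  have hall : ((S.P x).aroots K).prod = algebraMap ℚ_[ℓ] K (LinearMap.det (ρ φ)) := by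
    rw [haroots, prod_aroots K (ρ φ)]
  rw [hdeg, hall, hscard, hsprod] at hMeq
  have hMeq' : (LinearMap.det B ^ D.n) ^ M =
      (LinearMap.det (ρ φ) ^ Module.finrank ℚ_[ℓ] W) ^ M := by
    apply (algebraMap ℚ_[ℓ] K).injective
    rw [map_pow, map_pow, map_pow, map_pow]
    exact hMeq
  let eW : W ≃ₗ[ℚ_[ℓ]] (W.map e.toLinearMap : Submodule ℚ_[ℓ] (Fin D.n → ℚ_[ℓ])) :=
    e.submoduleMap W
  have hconj : (Matrix.toLin' (D.mat ℓ φ)).restrict (hW' φ) = eW.conj B := by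
    refine LinearMap.ext fun v => ?_
    obtain ⟨u, rfl⟩ := eW.surjective v
    rw [LinearEquiv.conj_apply_apply, LinearEquiv.symm_apply_apply]
    apply Subtype.ext
    show Matrix.toLin' (D.mat ℓ φ) (e u) = e (ρ φ u)
    exact hRe φ u
  have hdetW : mDet (D.mat ℓ φ) _ (hW' φ) = LinearMap.det B := by
    show LinearMap.det ((Matrix.toLin' (D.mat ℓ φ)).restrict (hW' φ)) = _
    rw [hconj]
    exact LinearMap.det_conj B eW
  have hdetR : (D.mat ℓ φ).det = LinearMap.det (ρ φ) :=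
    LinearMap.det_toMatrix b (ρ φ)
  have hfr : Module.finrank ℚ_[ℓ] (W.map e.toLinearMap : Submodule ℚ_[ℓ] (Fin D.n → ℚ_[ℓ])) =
      Module.finrank ℚ_[ℓ] W := (LinearEquiv.finrank_eq eW).symm
  refine ⟨hW' φ, M, hM, ?_⟩
  rw [hdetW, hdetR, hfr]
  exact hMeq'

/-- Either `V_ℓ` is semisimple, or the Galois group normalizes a proper parabolic subalgebra `q` of the Lie
algebra of the tensors over `ℚ_ℓ`, and then every Frobenius element which satisfies the condition on the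
determinants is balanced on the space killed by the orthogonal of `q`. -/
theorem semisimple_or_exists (k : Type u) [Field k] [CharZero k] (w : ℕ) (F : Type*) [Field F]
    [Algebra ℚ F] (S : AlgCompSys.{u, v} k w F) (D : TensorData S.toCompSys)
    (hT : TraceNondeg D.T) (ℓ : ℕ) [Fact ℓ.Prime] (hnorm : D.Normal ℓ) :
    (S.rep ℓ).Semisimple ∨
      ∃ q : Submodule ℚ_[ℓ] (Mat D.n ℚ_[ℓ]), IsParabolic (ann D.T ℚ_[ℓ]) q ∧
        q ≠ ann D.T ℚ_[ℓ] ∧ (∀ σ, Normalizes (D.mat ℓ σ) q) ∧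
        ∀ x ∈ S.Pl, ℓ ≠ x.p → (Nonempty (F →+* ℝ) ∨ ∀ z ∈ ratioGroup (S.P x) ℂ,
          AlgIn F (z : ℂ) → ∃ N : ℕ, 0 < N ∧ z ^ N = 1) →
            Balanced (D.mat ℓ x.frob) (fixedBy (orth (ann D.T ℚ_[ℓ]) q)) := by
  have hfix : ∀ t ∈ D.T, ∃ Γ : Subgroup (Gal k), Γ.FiniteIndex ∧
      ∀ g ∈ Γ, Commute (tp t.1 (ParFinal_R D ℓ g)) (t.2.map (algebraMap ℚ ℚ_[ℓ])) := by
    intro t ht
    obtain ⟨Γ, h1, h2⟩ := D.fixed ℓ t ht
    exact ⟨Γ, h1, fun g hg => h2 g hg⟩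
  rcases semisimple_or_parabolic ℓ (ParFinal_R D ℓ) (ParFinal_cont D ℓ) D.T hT hfix
    (fun σ => hnorm σ) with h | ⟨q, hq, hne, hqn⟩
  · exact Or.inl (ParFinal_semisimple D ℓ h)
  · refine Or.inr ⟨q, hq, hne, hqn, fun x hx hℓ hZ => ?_⟩
    refine balanced_of_stable S D x hx hZ ℓ hℓ _ fun σ => ?_
    have hu : IsUnit (D.mat ℓ σ) := by
      refine ⟨⟨ParFinal_R D ℓ σ, ParFinal_R D ℓ σ⁻¹, ?_, ?_⟩, rfl⟩
      · rw [← map_mul, mul_inv_cancel, map_one]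
      · rw [← map_mul, inv_mul_cancel, map_one]
    exact fixedBy_stable _ q _ hu (hnorm σ) (hqn σ)

theorem semisimple_of_parabolic (k : Type u) [Field k] [CharZero k] (w : ℕ) (F : Type*) [Field F]
    [Algebra ℚ F] (S : AlgCompSys.{u, v} k w F) (D : TensorData S.toCompSys) (x : Place k)
    (hx : x ∈ S.Pl) (hT : TraceNondeg D.T)
    (hZ : Nonempty (F →+* ℝ) ∨
      ∀ z ∈ ratioGroup (S.P x) ℂ, AlgIn F (z : ℂ) → ∃ N : ℕ, 0 < N ∧ z ^ N = 1)
    (htest : ParabolicTest D.T (S.P x) ℂ)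
    (ℓ : ℕ) [Fact ℓ.Prime] (hℓ : ℓ ≠ x.p) (hnorm : D.Normal ℓ) :
    (S.rep ℓ).Semisimple := by
  rcases semisimple_or_exists k w F S D hT ℓ hnorm with h | ⟨q, hq, hne, hqn, hbal⟩
  · exact h
  · exfalso
    obtain ⟨ι⟩ := exists_embedding ℓ
    let _ : Algebra ℚ_[ℓ] ℂ := (ι.comp (algebraMap ℚ_[ℓ] (AlgebraicClosure ℚ_[ℓ]))).toAlgebra
    have hu : IsUnit (D.mat ℓ x.frob) := by
      refine ⟨⟨ParFinal_R D ℓ x.frob, ParFinal_R D ℓ x.frob⁻¹, ?_, ?_⟩, rfl⟩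
      · rw [← map_mul, mul_inv_cancel, map_one]
      · rw [← map_mul, inv_mul_cancel, map_one]
    refine not_balanced_of_test ℂ D.T (S.P x) htest (D.mat ℓ x.frob) hu
      (ParFinal_charpoly S D x hx ℓ hℓ) ?_ (hnorm x.frob) q hq hne (hqn x.frob)
      (hbal x hx hℓ hZ)
    intro t ht
    obtain ⟨Γ, hΓ, hfixt⟩ := D.fixed ℓ t ht
    obtain ⟨N, hN, -, hgN⟩ := Γ.exists_pow_mem_of_index_ne_zero hΓ.index_ne_zero x.frob
    refine ⟨N, hN, ?_⟩
    have h2 : D.mat ℓ x.frob ^ N = D.mat ℓ (x.frob ^ N) :=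
      (map_pow (ParFinal_R D ℓ) x.frob N).symm
    rw [h2]
    exact hfixt _ hgN

/-- The Galois group normalizes a proper parabolic subalgebra `q` of the Lie algebra of the tensors over `ℚ_ℓ`,
and the Frobenius element of every place `x` with `p_x ≠ ℓ` which satisfies `RootCond` is balanced on the space
killed by the orthogonal of `q`. -/
def BalancedParabolic {k : Type u} [Field k] {w : ℕ} {F : Type*} [Field F] [Algebra ℚ F]
    (S : AlgCompSys.{u, v} k w F) (D : TensorData S.toCompSys) (ℓ : ℕ) [Fact ℓ.Prime] : Prop :=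
  ∃ q : Submodule ℚ_[ℓ] (Mat D.n ℚ_[ℓ]), IsParabolic (ann D.T ℚ_[ℓ]) q ∧ q ≠ ann D.T ℚ_[ℓ] ∧
    (∀ σ, Normalizes (D.mat ℓ σ) q) ∧ ∀ x ∈ S.Pl, ℓ ≠ x.p → RootCond F (S.P x) →
      Balanced (D.mat ℓ x.frob) (fixedBy (orth (ann D.T ℚ_[ℓ]) q))

end Pool.Agent.B4801bT
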