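import Pool.Agent.W_b4801b_h32.Defs

set_option autoImplicit false

/-!
# The operators `f(A)`

`exists_isRep`: the space `V` is the direct sum of the generalized eigenspaces of `A` (finitely many are not
zero); by the Chinese remainder theorem there is a polynomial `q` with `q ≡ f μ` modulo `(X - μ) ^ dim V` for
every eigenvalue `μ`; `B := q(A)` acts on the generalized eigenspace for `μ` as the scalar `f μ`.  `B` is
semisimple: it is annihilated by the squarefree polynomial `∏ (X - c)`, `c` in the finite set `f(eigenvalues)`.
(Alternative without the Chinese remainder theorem: let `A = s + m` be the Jordan decomposition, both in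
`K[A]`; the eigenspace of `s` for `μ` is the generalized eigenspace of `A`; `B = q(s)` with `q` the Lagrange
interpolation polynomial, `q(μ) = f(μ)` for the eigenvalues.)
`IsRep.unique`: the generalized eigenspaces span `V` (`Module.End.iSup_maxGenEigenspace_eq_top`).
`IsRep.restrict`: a generalized eigenvector of the restriction is a generalized eigenvector of `A`.
`IsRep.mem_adjoin`, `IsRep.isSemisimple` follow from existence and uniqueness.
`IsRep.eigen`: an eigenvector of `B` lies in the sum of the generalized eigenspaces of `A` for the `μ` with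
`f μ = c`.
-/

noncomputable section

namespace Pool.Agent.B4801bT

variable {K : Type*} [Field K] [IsAlgClosed K] [CharZero K] {V : Type*} [AddCommGroup V]
  [Module K V] [FiniteDimensional K V]

theorem exists_isRep (f : K → K) (A : Module.End K V) :
    ∃ B : Module.End K V, IsRep f A B ∧ B ∈ Algebra.adjoin K {A} ∧ B.IsSemisimple := by
  classical
  obtain ⟨m, hm, s, hs, hnil, hss, hA⟩ := A.exists_isNilpotent_isSemisimple
  obtain ⟨q, hq⟩ : ∃ q : Polynomial K, ∀ μ ∈ (minpoly K s).roots.toFinset, q.eval μ = f μ := by
    refine ⟨Lagrange.interpolate (minpoly K s).roots.toFinset id f, fun μ hμ => ?_⟩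
    exact Lagrange.eval_interpolate_at_node (v := id) f Function.injective_id.injOn hμ
  have hcomm : Commute A s := by
    have h1 : s ∈ Subalgebra.centralizer K {A} := by
      refine (Algebra.adjoin_le (S := Subalgebra.centralizer K {A}) ?_) hs
      rintro _ rfl
      rw [SetLike.mem_coe, Subalgebra.mem_centralizer_iff]
      rintro _ rfl
      rfl
    rw [Subalgebra.mem_centralizer_iff] at h1
    exact h1 A rfl
  refine ⟨Polynomial.aeval s q, ?_, ?_, hss.aeval q⟩
  · intro μ v hv
    have h1 : s v = μ • v :=
      Module.End.apply_eq_of_mem_of_comm_of_isFinitelySemisimple_of_isNil hv hcomm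
        hss.isFinitelySemisimple (by rw [hA, add_sub_cancel_right]; exact hnil)
    rw [Module.End.aeval_apply_of_mem_apply_eq_smul h1]
    rcases eq_or_ne v 0 with rfl | hv0
    · simp
    · rw [hq μ]
      rw [Multiset.mem_toFinset, Polynomial.mem_roots (minpoly.ne_zero (Algebra.IsIntegral.isIntegral s))]
      exact Module.End.isRoot_of_hasEigenvalue
        (Module.End.hasEigenvalue_of_hasEigenvector ⟨Module.End.mem_eigenspace_iff.2 h1, hv0⟩)
  · exact Polynomial.aeval_mem_adjoin_singleton K s |> fun h =>
      (Algebra.adjoin_le (S := Algebra.adjoin K {A}) (by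
        rintro _ rfl
        exact hs)) h

theorem IsRep.unique {f : K → K} {A B B' : Module.End K V} (h : IsRep f A B) (h' : IsRep f A B') :
    B = B' := by
  have h1 : (⊤ : Submodule K V) ≤ LinearMap.eqLocus B B' := by
    rw [← Module.End.iSup_maxGenEigenspace_eq_top A]
    refine iSup_le fun μ v hv => ?_
    rw [LinearMap.mem_eqLocus, h μ v hv, h' μ v hv]
  exact LinearMap.ext fun v => h1 Submodule.mem_top

theorem IsRep.mem_adjoin {f : K → K} {A B : Module.End K V} (h : IsRep f A B) :
    B ∈ Algebra.adjoin K {A} := by
  obtain ⟨B', h1, h2, _⟩ := exists_isRep f A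
  rwa [h.unique h1]

theorem IsRep.isSemisimple {f : K → K} {A B : Module.End K V} (h : IsRep f A B) :
    B.IsSemisimple := by
  obtain ⟨B', h1, _, h3⟩ := exists_isRep f A
  rwa [h.unique h1]

theorem IsRep.commute {f : K → K} {A B : Module.End K V} (h : IsRep f A B) {C : Module.End K V}
    (hC : Commute A C) : Commute B C := by
  have h1 : B ∈ Subalgebra.centralizer K {C} := by
    refine (Algebra.adjoin_le (S := Subalgebra.centralizer K {C}) ?_) h.mem_adjoin
    rintro _ rfl
    rw [SetLike.mem_coe, Subalgebra.mem_centralizer_iff]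
    rintro _ rfl
    exact hC.eq.symm
  rw [Subalgebra.mem_centralizer_iff] at h1
  exact (h1 C rfl).symm

theorem IsRep.mapsTo {f : K → K} {A B : Module.End K V} (h : IsRep f A B) (W : Submodule K V)
    (hA : ∀ v ∈ W, A v ∈ W) : ∀ v ∈ W, B v ∈ W := by
  have h1 := h.mem_adjoin
  clear h
  induction h1 using Algebra.adjoin_induction with
  | mem x hx =>
    obtain rfl : x = A := hx
    exact hA
  | algebraMap r =>
    intro v hv
    rw [Module.algebraMap_end_apply]
    exact W.smul_mem r hv
  | add x y _ _ hx hy =>
    intro v hv
    exact W.add_mem (hx v hv) (hy v hv)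
  | mul x y _ _ hx hy =>
    intro v hv
    exact hx _ (hy v hv)

theorem IsRep.restrict {f : K → K} {A B : Module.End K V} (h : IsRep f A B) (W : Submodule K V)
    (hA : ∀ v ∈ W, A v ∈ W) (hB : ∀ v ∈ W, B v ∈ W) :
    IsRep f (A.restrict hA) (B.restrict hB) := by
  intro μ v hv
  have h1 : (v : V) ∈ A.maxGenEigenspace μ := by
    have h2 := Module.End.genEigenspace_restrict A W ⊤ μ hA
    have h3 : v ∈ Submodule.comap W.subtype (A.genEigenspace μ ⊤) := h2 ▸ hv
    exact h3
  exact Subtype.ext (h μ v h1)

theorem IsRep.add {f g : K → K} {A B C : Module.End K V} (h : IsRep f A B) (h' : IsRep g A C) :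
    IsRep (fun μ => f μ + g μ) A (B + C) := by
  intro μ v hv
  rw [LinearMap.add_apply, h μ v hv, h' μ v hv, add_smul]

theorem IsRep.smul {f : K → K} {A B : Module.End K V} (h : IsRep f A B) (c : K) :
    IsRep (fun μ => c * f μ) A (c • B) := by
  intro μ v hv
  rw [LinearMap.smul_apply, h μ v hv, mul_smul]

end Pool.Agent.B4801bT
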