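import Pool.Agent.W_b4801b_h32.TpAlg

set_option autoImplicit false

/-!
# Tensor powers: nilpotent and diagonalizable matrices

`dtp_isNilpotent`: `dtp m = ∑_i D_i m` with commuting nilpotent `D_i m` (see `TpAlg`; `(D_i m)^k = D_i (m^k)`).
`tp_sub_one_isNilpotent`: `tp (1 + x) = ∏_i D_i (1 + x) = ∏ (1 + D_i x)`, so `tp (1 + x) - 1` is a sum of
products of the commuting nilpotent elements `D_i x`.  (Other proof for both: over the commutative ring
`R` expand `tp (1 + x) - 1 = ∑_{S ≠ ∅} x_S`, where `x_S` is the operator with `x` in the slots of `S` and `1`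
in the others; every product of `a k` such operators contains in some slot a power `x^k = 0`.)
`Diagonalizable.tp`, `Diagonalizable.dtp`: if `A P = P D` then `tp A · tp P = tp P · tp D` and
`dtp A · tp P = tp P · dtp D` (`tp_mul_dtp`).
-/

noncomputable section

namespace Pool.Agent.B4801bT

variable {n : ℕ}

/-- The tensor product of the matrices `f i`. -/
def TpNil_E {R : Type*} [CommRing R] (a : ℕ) : (Fin a → Mat n R) →* TMat a n R where
  toFun := fun f I J => ∏ i, f i (I i) (J i)
  map_one' := by
    ext I J
    change ∏ i, (1 : Mat n R) (I i) (J i) = _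
    by_cases h : I = J
    · subst h
      rw [Matrix.one_apply_eq]
      exact Finset.prod_eq_one fun i _ => Matrix.one_apply_eq _
    · rw [Matrix.one_apply_ne h]
      obtain ⟨i, hi⟩ := Function.ne_iff.mp h
      exact Finset.prod_eq_zero (Finset.mem_univ i) (Matrix.one_apply_ne hi)
  map_mul' := by
    intro f g
    ext I J
    change ∏ i, (f i * g i) (I i) (J i) = _
    simp only [Matrix.mul_apply]
    rw [Finset.prod_univ_sum, Fintype.piFinset_univ]
    exact Finset.sum_congr rfl fun k _ => Finset.prod_mul_distrib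

theorem TpNil_E_apply {R : Type*} [CommRing R] (a : ℕ) (f : Fin a → Mat n R)
    (I J : Fin a → Fin n) : TpNil_E a f I J = ∏ i, f i (I i) (J i) := rfl

/-- The matrix `Y` in the slot `i`. -/
def TpNil_D {R : Type*} [CommRing R] (a : ℕ) (i : Fin a) (Y : Mat n R) : TMat a n R :=
  TpNil_E a (Pi.mulSingle i Y)

theorem TpNil_tp {R : Type*} [CommRing R] (a : ℕ) (Y : Mat n R) :
    tp a Y = TpNil_E a fun _ => Y := rfl

theorem TpNil_D_apply {R : Type*} [CommRing R] (a : ℕ) (i : Fin a) (Y : Mat n R)
    (I J : Fin a → Fin n) :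
    TpNil_D a i Y I J = if ∀ j, j ≠ i → I j = J j then Y (I i) (J i) else 0 := by
  rw [TpNil_D, TpNil_E_apply]
  split_ifs with h
  · rw [Finset.prod_eq_single i]
    · rw [Pi.mulSingle_eq_same]
    · intro j _ hj
      rw [Pi.mulSingle_eq_of_ne hj, h j hj, Matrix.one_apply_eq]
    · intro hi
      exact absurd (Finset.mem_univ i) hi
  · push Not at h
    obtain ⟨j, hj, hne⟩ := h
    refine Finset.prod_eq_zero (Finset.mem_univ j) ?_
    rw [Pi.mulSingle_eq_of_ne hj, Matrix.one_apply_ne hne]

theorem TpNil_dtp {R : Type*} [CommRing R] (a : ℕ) (Y : Mat n R) :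
    dtp a Y = ∑ i, TpNil_D a i Y := by
  ext I J
  rw [Matrix.sum_apply]
  exact Finset.sum_congr rfl fun i _ => (TpNil_D_apply a i Y I J).symm

theorem TpNil_D_nilpotent {R : Type*} [CommRing R] (a : ℕ) (i : Fin a) (m : Mat n R)
    (hm : IsNilpotent m) : IsNilpotent (TpNil_D a i m) := by
  obtain ⟨k, hk⟩ := hm
  refine ⟨k, ?_⟩
  rw [TpNil_D, ← map_pow]
  ext I J
  rw [TpNil_E_apply]
  refine Finset.prod_eq_zero (Finset.mem_univ i) ?_
  rw [Pi.pow_apply, Pi.mulSingle_eq_same, hk]
  rfl

theorem TpNil_commute {R : Type*} [CommRing R] (a : ℕ) (f g : Fin a → Mat n R)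
    (h : ∀ k, Commute (f k) (g k)) : Commute (TpNil_E a f) (TpNil_E a g) := by
  have : Commute f g := funext fun k => h k
  exact this.map (TpNil_E a)

theorem TpNil_mulSingle_commute {R : Type*} [CommRing R] {a : ℕ} (i : Fin a) (x y : Mat n R)
    (h : Commute x y) (k : Fin a) :
    Commute ((Pi.mulSingle i x : Fin a → Mat n R) k) y := by
  by_cases hk : k = i
  · subst hk
    rwa [Pi.mulSingle_eq_same]
  · rw [Pi.mulSingle_eq_of_ne hk]
    exact Commute.one_left y

theorem dtp_isNilpotent {R : Type*} [CommRing R] (a : ℕ) (m : Mat n R) (hm : IsNilpotent m) :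
    IsNilpotent (dtp a m) := by
  rw [TpNil_dtp]
  refine Commute.isNilpotent_sum (fun i _ => TpNil_D_nilpotent a i m hm) fun i j _ _ => ?_
  refine TpNil_commute a _ _ fun k => ?_
  exact ((TpNil_mulSingle_commute j m m (Commute.refl m) k).symm.symm |> fun h =>
    (by
      by_cases hk : k = i
      · subst hk
        rw [Pi.mulSingle_eq_same]
        exact h.symm
      · rw [Pi.mulSingle_eq_of_ne hk]
        exact Commute.one_left _))

theorem tp_sub_one_isNilpotent {R : Type*} [CommRing R] (a : ℕ) (x : Mat n R)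
    (hx : IsNilpotent x) : IsNilpotent (tp a (1 + x) - 1) := by
  classical
  have key : ∀ S : Finset (Fin a),
      IsNilpotent (TpNil_E a (S.piecewise (fun _ => 1 + x) (fun _ => (1 : Mat n R))) - 1) := by
    intro S
    induction S using Finset.induction_on with
    | empty =>
      rw [Finset.piecewise_empty]
      have h1 : TpNil_E a (fun _ => (1 : Mat n R)) = 1 := map_one (TpNil_E a)
      rw [h1, sub_self]
      exact IsNilpotent.zero
    | insert i S hi ih =>
      set P : Fin a → Mat n R := S.piecewise (fun _ => 1 + x) (fun _ => (1 : Mat n R)) with hP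
      have hPk : ∀ k, Commute (P k) x := by
        intro k
        rw [hP]
        by_cases hk : k ∈ S
        · rw [Finset.piecewise_eq_of_mem _ _ _ hk]
          exact (Commute.one_left x).add_left (Commute.refl x)
        · rw [Finset.piecewise_eq_of_notMem _ _ _ hk]
          exact Commute.one_left x
      have hins : (insert i S).piecewise (fun _ => 1 + x) (fun _ => (1 : Mat n R))
          = P * Pi.mulSingle i (1 + x) := by
        funext k
        rw [Pi.mul_apply]
        by_cases hk : k = i
        · subst hk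
          rw [Pi.mulSingle_eq_same, hP, Finset.piecewise_eq_of_notMem _ _ _ hi, one_mul,
            Finset.piecewise_eq_of_mem _ _ _ (Finset.mem_insert_self _ _)]
        · rw [Pi.mulSingle_eq_of_ne hk, mul_one, hP]
          by_cases hkS : k ∈ S
          · rw [Finset.piecewise_eq_of_mem _ _ _ hkS,
              Finset.piecewise_eq_of_mem _ _ _ (Finset.mem_insert_of_mem hkS)]
          · rw [Finset.piecewise_eq_of_notMem _ _ _ hkS, Finset.piecewise_eq_of_notMem]
            rw [Finset.mem_insert]
            push Not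
            exact ⟨hk, hkS⟩
      have hD : TpNil_E a (Pi.mulSingle i (1 + x)) = 1 + TpNil_D a i x := by
        ext I J
        rw [Matrix.add_apply]
        have h1 := TpNil_D_apply a i (1 + x) I J
        rw [TpNil_D] at h1
        rw [h1, TpNil_D_apply]
        have h2 := TpNil_D_apply a i (1 : Mat n R) I J
        have h3 : TpNil_D a i (1 : Mat n R) = 1 := by
          rw [TpNil_D, Pi.mulSingle_one, map_one]
        rw [h3] at h2
        rw [h2]
        split_ifs
        · rfl
        · rw [add_zero]
      have hc : Commute (TpNil_E a P) (TpNil_D a i x) := by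
        refine TpNil_commute a _ _ fun k => ?_
        by_cases hk : k = i
        · subst hk
          rw [Pi.mulSingle_eq_same]
          exact hPk k
        · rw [Pi.mulSingle_eq_of_ne hk]
          exact Commute.one_right _
      have hc' : Commute (TpNil_E a P - 1) (TpNil_D a i x) :=
        hc.sub_left (Commute.one_left _)
      have hDn := TpNil_D_nilpotent a i x hx
      have hE : TpNil_E a ((insert i S).piecewise (fun _ => 1 + x) (fun _ => (1 : Mat n R))) - 1
          = (TpNil_E a P - 1) + TpNil_E a P * TpNil_D a i x := by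
        rw [hins, map_mul, hD, mul_add, mul_one]
        abel
      rw [hE]
      refine Commute.isNilpotent_add ?_ ih ?_
      · exact (((Commute.refl (TpNil_E a P)).sub_left (Commute.one_left _))).mul_right hc'
      · exact Commute.isNilpotent_mul_left hc hDn
  have h := key Finset.univ
  rw [Finset.piecewise_univ] at h
  exact h

theorem TpNil_isUnit {R : Type*} [CommRing R] (a : ℕ) (P : Mat n R) (hP : IsUnit P) :
    IsUnit (B4801bT.tp a P) := by
  obtain ⟨u, rfl⟩ := hP
  refine ⟨⟨B4801bT.tp a u.val, B4801bT.tp a u.inv, ?_, ?_⟩, rfl⟩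
  · rw [← tp_mul, u.val_inv, tp_one]
  · rw [← tp_mul, u.inv_val, tp_one]

theorem Diagonalizable.tp {K : Type*} [Field K] (a : ℕ) (A : Mat n K) (hA : Diagonalizable A) :
    Diagonalizable (B4801bT.tp a A) := by
  obtain ⟨P, d, hP, hAP⟩ := hA
  refine ⟨B4801bT.tp a P, fun I => ∏ i, d (I i), ?_, ?_⟩
  · exact TpNil_isUnit a P hP
  · rw [← tp_mul, hAP, tp_mul, tp_diagonal]

theorem Diagonalizable.dtp {K : Type*} [Field K] (a : ℕ) (A : Mat n K) (hA : Diagonalizable A) :
    Diagonalizable (B4801bT.dtp a A) := by
  obtain ⟨P, d, hP, hAP⟩ := hA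
  refine ⟨B4801bT.tp a P, fun I => ∑ i, d (I i), ?_, ?_⟩
  · exact TpNil_isUnit a P hP
  · rw [← tp_mul_dtp a P (Matrix.diagonal d) A hAP.symm, dtp_diagonal]

end Pool.Agent.B4801bT
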