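import Pool.Agent.W_b4801b_h32.RepBasic
import Pool.Agent.W_b4801b_h32.TpNil
import Pool.Agent.W_b4801b_h32.MatJordan
import Pool.Agent.W_b4801b_h32.LogTensor

set_option autoImplicit false

/-!
# Replicas and logarithms of a matrix which preserves a tensor

Let `A` be an invertible matrix, `N > 0`, and let `t` commute with `tp (A ^ N)`.

`dtp_commute_of_isRep`: `t` commutes with `dtp B` for `B = f(A)`, `f` an abstract logarithm.
Proof.  `A = s (1 + x)` (`exists_unipotent`), `s P = P diag(d)`, `d_i ≠ 0`.  Then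
`tp (A ^ N) = tp (s ^ N) · tp ((1 + x) ^ N)`, where `tp (s ^ N)` is diagonalizable and invertible and
`tp ((1 + x) ^ N) - 1` is nilpotent (`(1 + x) ^ N = 1 + x'`, `x'` nilpotent), and they commute; by
`commute_of_unipotent` `t` commutes with `tp (s ^ N)` (and with `tp ((1 + x) ^ N)`).
`t' := tp(P)⁻¹ t tp(P)` commutes with `diag(∏ d_{I i} ^ N)`: so `t'_{IJ} = 0` unless
`∏ d_{I i} ^ N = ∏ d_{J i} ^ N`; in that case `N ∑ f(d_{I i}) = N ∑ f(d_{J i})` (`f` is an abstract
logarithm), `∑ f(d_{I i}) = ∑ f(d_{J i})` (characteristic zero).  So `t'` commutes with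
`diag(∑ f(d_{I i})) = dtp (diag (f(d_i)))`, and `t` commutes with `dtp (P diag (f(d_i)) P⁻¹)`.  Finally
`B = P diag(f(d_i)) P⁻¹`: by `IsRep.unique` it is enough that the right-hand side acts as `f(μ)` on the
generalized eigenspace of `A` for `μ`, which is the eigenspace of `s` for `μ` (`A = s + s x`, `s x`
nilpotent commuting with `s`; if `A - μ` is nilpotent on `v`, then so is `s - μ`, which is semisimple).

`dtp_commute_lg`: if `A = s (1 + x)` as in `exists_unipotent`, then `t` commutes with `dtp (lg x)`.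
Proof.  By the above `t` commutes with `tp ((1 + x) ^ N)`, so with `tp ((1 + x) ^ (N j))`; `dtp_lg_commute`
(`x ^ n = 0` as `x` is a nilpotent `n × n` matrix).

`dtp_commute_nil`: if `t` commutes with `dtp Y`, `Y = s + m` with `s` diagonalizable, `m` nilpotent,
`s m = m s`, then `t` commutes with `dtp m`.
Proof.  `dtp Y = dtp s + dtp m`, `dtp s` diagonalizable, `dtp m` nilpotent, they commute (`dtp_lie`);
`commute_of_jordan`.
-/

noncomputable section

namespace Pool.Agent.B4801bT

variable {K : Type*} [Field K] [IsAlgClosed K] [CharZero K] {n : ℕ}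

/-- A nilpotent matrix of size `n` has zero `n`-th power. -/
theorem RepTensor_pow (x : Mat n K) (hx : IsNilpotent x) : x ^ n = 0 := by
  have h1 : IsNilpotent (x.charpoly - Polynomial.X ^ (Fintype.card (Fin n))) :=
    Matrix.isNilpotent_charpoly_sub_pow_of_isNilpotent hx
  have h2 : x.charpoly = Polynomial.X ^ n := by
    have h3 := h1.eq_zero
    rw [Fintype.card_fin] at h3
    exact sub_eq_zero.1 h3
  have h4 := Matrix.aeval_self_charpoly x
  rw [h2, map_pow, Polynomial.aeval_X] at h4
  exact h4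

theorem RepTensor_log_one {f : K → K} (hf : IsLog f) : f 1 = 0 := by
  have h := hf 1 1 one_ne_zero one_ne_zero
  rw [mul_one] at h
  linear_combination -h

theorem RepTensor_log_prod {f : K → K} (hf : IsLog f) {ι : Type*} (S : Finset ι) (d : ι → K)
    (hd : ∀ i, d i ≠ 0) : f (∏ i ∈ S, d i) = ∑ i ∈ S, f (d i) := by
  classical
  induction S using Finset.induction_on with
  | empty => rw [Finset.prod_empty, Finset.sum_empty, RepTensor_log_one hf]
  | insert a S ha ih =>
    rw [Finset.prod_insert ha, Finset.sum_insert ha,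
      hf _ _ (hd a) (Finset.prod_ne_zero_iff.2 fun i _ => hd i), ih]

theorem RepTensor_log_pow {f : K → K} (hf : IsLog f) (z : K) (hz : z ≠ 0) (N : ℕ) :
    f (z ^ N) = N * f z := by
  induction N with
  | zero => rw [pow_zero, RepTensor_log_one hf, Nat.cast_zero, zero_mul]
  | succ N ih =>
    rw [pow_succ, hf _ _ (pow_ne_zero N hz) hz, ih]
    push_cast
    ring

/-- conjugation. -/
theorem RepTensor_conj {ι : Type*} [Fintype ι] [DecidableEq ι] (T T' t : Matrix ι ι K)
    (h1 : T * T' = 1) (h2 : T' * T = 1) (X Y : Matrix ι ι K) (h : X * T = T * Y) :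
    Commute X t ↔ Commute Y (T' * t * T) := by
  have hY : Y = T' * X * T := by rw [mul_assoc, h, ← mul_assoc, h2, one_mul]
  have hX : X = T * Y * T' := by rw [← h, mul_assoc, h1, mul_one]
  constructor
  · intro hc
    show Y * (T' * t * T) = (T' * t * T) * Y
    have e1 : Y * (T' * t * T) = T' * (X * t) * T := by
      rw [hY]
      calc T' * X * T * (T' * t * T) = T' * X * (T * T') * t * T := by simp only [mul_assoc]
        _ = T' * (X * t) * T := by rw [h1, mul_one]; simp only [mul_assoc]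
    have e2 : (T' * t * T) * Y = T' * (t * X) * T := by
      rw [hY]
      calc T' * t * T * (T' * X * T) = T' * t * (T * T') * X * T := by simp only [mul_assoc]
        _ = T' * (t * X) * T := by rw [h1, mul_one]; simp only [mul_assoc]
    rw [e1, e2, hc.eq]
  · intro hc
    show X * t = t * X
    have e1 : X * t = T * (Y * (T' * t * T)) * T' := by
      rw [hX]
      calc T * Y * T' * t = T * Y * T' * t * 1 := by rw [mul_one]
        _ = T * Y * T' * t * (T * T') := by rw [h1]
        _ = T * (Y * (T' * t * T)) * T' := by simp only [mul_assoc]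
    have e2 : t * X = T * ((T' * t * T) * Y) * T' := by
      rw [hX]
      calc t * (T * Y * T') = 1 * (t * (T * Y * T')) := by rw [one_mul]
        _ = T * T' * (t * (T * Y * T')) := by rw [h1]
        _ = T * ((T' * t * T) * Y) * T' := by simp only [mul_assoc]
    rw [e1, e2, hc.eq]

/-- if `M` and a nilpotent `Z` commute and `M ^ k v = 0`, then a power of `M - Z` kills `v`. -/
theorem RepTensor_kill (M Z : Mat n K) (hc : Commute M Z) (hZ : IsNilpotent Z) (k : ℕ)
    (v : Fin n → K) (hv : (M ^ k).mulVec v = 0) : ∃ k', ((M - Z) ^ k').mulVec v = 0 := by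
  obtain ⟨l, hl⟩ := hZ
  refine ⟨k + l, ?_⟩
  have hc' : Commute M (-Z) := hc.neg_right
  rw [sub_eq_add_neg, hc'.add_pow, Matrix.sum_mulVec]
  apply Finset.sum_eq_zero
  intro m _
  rcases le_or_gt k m with hm | hm
  · obtain ⟨r, rfl⟩ := Nat.exists_eq_add_of_le hm
    have h1 : M ^ (k + r) * (-Z) ^ (k + l - (k + r)) * ((k + l).choose (k + r) : Mat n K) =
        ((k + l).choose (k + r) : Mat n K) * ((-Z) ^ (k + l - (k + r)) * M ^ r) * M ^ k := by
      have h2 : Commute (((k + l).choose (k + r) : Mat n K))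
          (M ^ (k + r) * (-Z) ^ (k + l - (k + r))) := Nat.cast_commute _ _
      have h4 : M ^ (k + r) = M ^ r * M ^ k := by rw [add_comm, pow_add]
      rw [← h2.eq, (hc'.pow_pow (k + r) (k + l - (k + r))).eq, h4]
      simp only [mul_assoc]
    rw [h1, ← Matrix.mulVec_mulVec, hv, Matrix.mulVec_zero]
  · have h1 : (-Z) ^ (k + l - m) = 0 := by
      have h2 : k + l - m = l + (k - m) := by omega
      have h3 : (-Z) ^ l = 0 := by rw [neg_pow, hl, mul_zero]
      rw [h2, pow_add, h3, zero_mul]
    rw [h1, mul_zero, zero_mul, Matrix.zero_mulVec]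

theorem RepTensor_pow_diag (s P : Mat n K) (d : Fin n → K) (hsP : s * P = P * Matrix.diagonal d)
    (N : ℕ) : s ^ N * P = P * Matrix.diagonal (fun i => d i ^ N) := by
  induction N with
  | zero => simp
  | succ N ih =>
    rw [pow_succ', mul_assoc, ih, ← mul_assoc, hsP, mul_assoc, Matrix.diagonal_mul_diagonal]
    congr 2
    funext i
    rw [pow_succ']

theorem RepTensor_split (a : ℕ) (A s x : Mat n K) (hs : Diagonalizable s) (hu : IsUnit s)
    (hx : IsNilpotent x) (hc : Commute s x) (h : A = s * (1 + x)) (N : ℕ)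
    (t : TMat a n K) (ht : Commute (tp a (A ^ N)) t) :
    Commute (tp a (s ^ N)) t ∧ Commute (tp a ((1 + x) ^ N)) t := by
  have hc1 : Commute s (1 + x) := (Commute.one_right s).add_right hc
  have hAN : tp a (A ^ N) = tp a (s ^ N) * tp a ((1 + x) ^ N) := by
    rw [h, hc1.mul_pow, tp_mul]
  have hsN : Diagonalizable (s ^ N) := by
    obtain ⟨P, d, hP, hsP⟩ := hs
    refine ⟨P, fun i => d i ^ N, hP, ?_⟩
    exact RepTensor_pow_diag s P d hsP N
  have hnil : IsNilpotent (tp a ((1 + x) ^ N) - 1) := by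
    have h1 : IsNilpotent ((1 + x) ^ N - 1) := by
      rw [← geom_sum_mul, add_sub_cancel_left]
      have h5 : Commute (∑ i ∈ Finset.range N, (1 + x) ^ i) x :=
        Commute.sum_left _ _ _ fun i _ =>
          (((Commute.one_left x).add_left (Commute.refl x)).pow_left i)
      exact h5.isNilpotent_mul_left hx
    have h2 : (1 + x) ^ N = 1 + ((1 + x) ^ N - 1) := by abel
    rw [h2]
    exact tp_sub_one_isNilpotent a _ h1
  have hunit : IsUnit (tp a (s ^ N)) := by
    obtain ⟨u, rfl⟩ := hu
    refine IsUnit.of_mul_eq_one (tp a ((↑u⁻¹ : Mat n K) ^ N)) ?_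
    rw [← tp_mul, ← (Commute.units_inv_right (Commute.refl (u : Mat n K))).mul_pow, u.mul_inv,
      one_pow, tp_one]
  have hcomm : Commute (tp a (s ^ N)) (tp a ((1 + x) ^ N) - 1) := by
    refine Commute.sub_right ?_ (Commute.one_right _)
    show tp a (s ^ N) * tp a ((1 + x) ^ N) = tp a ((1 + x) ^ N) * tp a (s ^ N)
    rw [← tp_mul, ← tp_mul, (hc1.pow_pow N N).eq]
  have hfin := commute_of_unipotent (tp a (A ^ N)) (tp a (s ^ N)) (tp a ((1 + x) ^ N) - 1) t
    (Diagonalizable.tp a _ hsN) hunit hnil hcomm (by rw [hAN]; congr 1; abel) ht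
  refine ⟨hfin.1, ?_⟩
  have h3 : tp a ((1 + x) ^ N) = 1 + (tp a ((1 + x) ^ N) - 1) := by abel
  rw [h3]
  exact hfin.2

/-- the operator with the eigenvalues `f (d i)` in the basis `P` is `f(A)`. -/
theorem RepTensor_isRep (A s x P P' : Mat n K) (d : Fin n → K) (f : K → K)
    (hx : IsNilpotent x) (hc : Commute s x) (h : A = s * (1 + x))
    (hPP' : P * P' = 1) (hP'P : P' * P = 1) (hsP : s * P = P * Matrix.diagonal d) :
    IsRep f (Matrix.toLin' A) (Matrix.toLin' (P * Matrix.diagonal (fun i => f (d i)) * P')) := by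
  intro μ v hv
  rw [Module.End.mem_maxGenEigenspace] at hv
  obtain ⟨k, hk⟩ := hv
  have e1 : (Matrix.toLin' A - μ • (1 : Module.End K (Fin n → K))) ^ k =
      Matrix.toLin' ((A - μ • 1) ^ k) := by
    rw [Matrix.toLin'_pow, map_sub, map_smul, Matrix.toLin'_one]
    rfl
  rw [e1, Matrix.toLin'_apply] at hk
  have hcz : Commute (A - μ • (1 : Mat n K)) (s * x) := by
    have h1 : Commute A (s * x) := by
      rw [h]
      have h2 : Commute s (s * x) := (Commute.refl s).mul_right hc
      have h3 : Commute (1 + x) (s * x) :=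
        ((Commute.one_left _).add_left (hc.symm.mul_right (Commute.refl x)))
      exact h2.mul_left h3
    refine h1.sub_left ?_
    exact (Commute.one_left (s * x)).smul_left μ
  obtain ⟨k', hk'⟩ := RepTensor_kill (A - μ • (1 : Mat n K)) (s * x) hcz
    (hc.isNilpotent_mul_left hx) k v hk
  have e2 : A - μ • (1 : Mat n K) - s * x = s - μ • (1 : Mat n K) := by
    rw [h, mul_add, mul_one]
    abel
  rw [e2] at hk'
  -- in the basis P
  have e3 : ∀ m : ℕ, P' * (s - μ • (1 : Mat n K)) ^ m =
      Matrix.diagonal (fun i => (d i - μ) ^ m) * P' := by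
    have e4 : P' * (s - μ • (1 : Mat n K)) = Matrix.diagonal (fun i => d i - μ) * P' := by
      have e5 : Matrix.diagonal (fun i => d i - μ) = Matrix.diagonal d - μ • (1 : Mat n K) := by
        rw [Matrix.smul_one_eq_diagonal, Matrix.diagonal_sub]
      have e6 : P' * s = Matrix.diagonal d * P' := by
        calc P' * s = P' * (s * P) * P' := by rw [mul_assoc, mul_assoc, hPP', mul_one]
          _ = Matrix.diagonal d * P' := by rw [hsP, ← mul_assoc P', hP'P, one_mul]
      rw [e5, mul_sub, sub_mul, e6, Matrix.mul_smul, Matrix.smul_mul, mul_one, one_mul]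
    intro m
    induction m with
    | zero => simp
    | succ m ih =>
      rw [pow_succ, ← mul_assoc, ih, mul_assoc, e4, ← mul_assoc, Matrix.diagonal_mul_diagonal]
      congr 2
      funext i
      rw [pow_succ]
  have e7 : (Matrix.diagonal (fun i => (d i - μ) ^ k')).mulVec (P'.mulVec v) = 0 := by
    rw [Matrix.mulVec_mulVec, ← e3, ← Matrix.mulVec_mulVec, hk', Matrix.mulVec_zero]
  have e8 : (Matrix.diagonal (fun i => f (d i))).mulVec (P'.mulVec v) = f μ • P'.mulVec v := by
    funext i
    have e9 := congrFun e7 i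
    rw [Matrix.mulVec_diagonal, Pi.zero_apply, mul_eq_zero] at e9
    rw [Matrix.mulVec_diagonal, Pi.smul_apply, smul_eq_mul]
    rcases e9 with e9 | e9
    · have h0 : k' ≠ 0 := by
        rintro rfl
        simp at e9
      rw [sub_eq_zero.1 ((pow_eq_zero_iff h0).1 e9)]
    · rw [e9, mul_zero, mul_zero]
  rw [Matrix.toLin'_apply, ← Matrix.mulVec_mulVec, ← Matrix.mulVec_mulVec, e8,
    Matrix.mulVec_smul, Matrix.mulVec_mulVec, hPP', Matrix.one_mulVec]

theorem dtp_commute_of_isRep (a : ℕ) (A B : Mat n K) (hA : IsUnit A) {f : K → K} (hf : IsLog f)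
    (hB : IsRep f (Matrix.toLin' A) (Matrix.toLin' B)) (N : ℕ) (hN : 0 < N) (t : TMat a n K)
    (ht : Commute (tp a (A ^ N)) t) : Commute (dtp a B) t := by
  obtain ⟨s, x, hs, hu, hx, hc, h⟩ := exists_unipotent A hA
  obtain ⟨P, d, hP, hsP⟩ := id hs
  obtain ⟨hs1, _⟩ := RepTensor_split a A s x hs hu hx hc h N t ht
  -- inverse of P
  obtain ⟨P', hPP', hP'P⟩ : ∃ P' : Mat n K, P * P' = 1 ∧ P' * P = 1 := by
    obtain ⟨u, rfl⟩ := hP
    exact ⟨↑u⁻¹, u.mul_inv, u.inv_mul⟩
  have hT1 : tp a P * tp a P' = 1 := by rw [← tp_mul, hPP', tp_one]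
  have hT2 : tp a P' * tp a P = 1 := by rw [← tp_mul, hP'P, tp_one]
  -- the numbers d i are not zero
  have hd : ∀ i, d i ≠ 0 := by
    have h1 : Matrix.diagonal d = P' * s * P := by
      rw [mul_assoc, hsP, ← mul_assoc, hP'P, one_mul]
    have h2 : IsUnit (Matrix.diagonal d) := by
      rw [h1]
      exact ((IsUnit.of_mul_eq_one _ hP'P).mul hu).mul (IsUnit.of_mul_eq_one _ hPP')
    have h3 := (Matrix.isUnit_iff_isUnit_det _).1 h2
    rw [Matrix.det_diagonal, isUnit_iff_ne_zero, Finset.prod_ne_zero_iff] at h3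
    exact fun i => h3 i (Finset.mem_univ i)
  have hsN : s ^ N * P = P * Matrix.diagonal (fun i => d i ^ N) := RepTensor_pow_diag s P d hsP N
  have hTs : tp a (s ^ N) * tp a P = tp a P *
      Matrix.diagonal (fun I : Fin a → Fin n => ∏ i, d (I i) ^ N) := by
    rw [← tp_mul, hsN, tp_mul, tp_diagonal]
  rw [RepTensor_conj (tp a P) (tp a P') t hT1 hT2 _ _ hTs] at hs1
  have hB' : B = P * Matrix.diagonal (fun i => f (d i)) * P' := by
    have h1 : IsRep f (Matrix.toLin' A)
        (Matrix.toLin' (P * Matrix.diagonal (fun i => f (d i)) * P')) :=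
      RepTensor_isRep A s x P P' d f hx hc h hPP' hP'P hsP
    exact (Matrix.toLin').injective (hB.unique h1)
  have hTB : dtp a B * tp a P = tp a P *
      Matrix.diagonal (fun I : Fin a → Fin n => ∑ i, f (d (I i))) := by
    rw [← dtp_diagonal a (fun i => f (d i))]
    refine (tp_mul_dtp a P _ B ?_).symm
    rw [hB', mul_assoc, hP'P, mul_one]
  rw [RepTensor_conj (tp a P) (tp a P') t hT1 hT2 _ _ hTB]
  set t' := tp a P' * t * tp a P with ht'
  show Matrix.diagonal _ * t' = t' * Matrix.diagonal _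
  ext I J
  rw [Matrix.diagonal_mul, Matrix.mul_diagonal]
  have h2 := congrFun (congrFun hs1.eq I) J
  rw [Matrix.diagonal_mul, Matrix.mul_diagonal] at h2
  by_cases h3 : t' I J = 0
  · rw [h3, mul_zero, zero_mul]
  · have h4 : ∏ i, d (I i) ^ N = ∏ i, d (J i) ^ N := by
      have h5 : (∏ i, d (I i) ^ N - ∏ i, d (J i) ^ N) * t' I J = 0 := by
        rw [sub_mul, h2]
        ring
      rcases mul_eq_zero.1 h5 with h6 | h6
      · exact sub_eq_zero.1 h6
      · exact absurd h6 h3
    have h7 : ∀ I : Fin a → Fin n, f (∏ i, d (I i) ^ N) = N * ∑ i, f (d (I i)) := by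
      intro I
      rw [RepTensor_log_prod hf Finset.univ (fun i => d (I i) ^ N)
        (fun i => pow_ne_zero N (hd _)), Finset.mul_sum]
      exact Finset.sum_congr rfl fun i _ => RepTensor_log_pow hf _ (hd _) N
    have h8 : (N : K) * ∑ i, f (d (I i)) = N * ∑ i, f (d (J i)) := by rw [← h7, ← h7, h4]
    have h9 : ∑ i, f (d (I i)) = ∑ i, f (d (J i)) := by
      have hN0 : (N : K) ≠ 0 := by exact_mod_cast hN.ne'
      exact mul_left_cancel₀ hN0 h8
    rw [h9, mul_comm]

theorem dtp_commute_lg (a : ℕ) (A s x : Mat n K) (hs : Diagonalizable s) (hu : IsUnit s)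
    (hx : IsNilpotent x) (hc : Commute s x) (h : A = s * (1 + x)) (N : ℕ) (hN : 0 < N)
    (t : TMat a n K) (ht : Commute (tp a (A ^ N)) t) : Commute (dtp a (lg K n x)) t := by
  obtain ⟨_, h1⟩ := RepTensor_split a A s x hs hu hx hc h N t ht
  refine dtp_lg_commute a x n (RepTensor_pow x hx) N hN t fun j => ?_
  rw [pow_mul, tp_pow]
  exact h1.pow_left j

theorem dtp_commute_nil (a : ℕ) (Y s m : Mat n K) (hs : Diagonalizable s) (hm : IsNilpotent m)
    (hc : Commute s m) (h : Y = s + m) (t : TMat a n K) (ht : Commute (dtp a Y) t) :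
    Commute (dtp a m) t := by
  have h1 : Commute (dtp a s) (dtp a m) := by
    have h2 := dtp_lie a s m
    rw [hc.eq, sub_self, dtp_zero] at h2
    exact (sub_eq_zero.1 h2.symm)
  exact (commute_of_jordan (dtp a Y) (dtp a s) (dtp a m) t (hs.dtp a s) (dtp_isNilpotent a m hm)
    h1 (by rw [h, dtp_add]) ht).2

end Pool.Agent.B4801bT
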