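import Pool.Agent.W_b4801b_h32.ParDefs
import Pool.Agent.W_b4801b_h32.RepBasic
import Pool.Agent.W_b4801b_h32.MatJordan
import Pool.Agent.W_b4801b_h32.TpNil
import Pool.Agent.W_b4801b_h32.RepTensor

set_option autoImplicit false

/-!
# Replicas of Lie algebra elements

Let `f : K → K` be additive, and `B = f(Y)` for an endomorphism (matrix) `Y` (`IsRep f Y B`).

`ann_rep`: if `Y ∈ ann T K` then `B ∈ ann T K`.
Proof.  `Y = s + m` (`exists_jordan`), `s P = P diag(d)`; `B = P diag(f(d_i)) P⁻¹` (as in `RepTensor`: the generalized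
eigenspace of `Y` for `μ` is the eigenspace of `s` for `μ`).  Let `t ∈ T` (over `K`).  `t` commutes with `dtp Y = dtp s + dtp m`, so
with `dtp s` (`dtp s` is diagonalizable, `dtp m` nilpotent, they commute; `commute_of_jordan`).
`t' := tp(P)⁻¹ t tp(P)` commutes with `diag(∑ d_{I i})`, so `t'_{IJ} = 0` unless `∑ d_{I i} = ∑ d_{J i}`, and then
`∑ f(d_{I i}) = ∑ f(d_{J i})` as `f` is additive.  So `t'` commutes with `diag(∑ f(d_{I i}))`, `t` with `dtp B`.

`rep_ad`: if a space `u` of endomorphisms satisfies `x y - y x ∈ u` for `y ∈ u`, and `B = f(x)`, then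
`B y - y B ∈ u` for `y ∈ u`.
Proof.  On `End V` the operator `ad B` is `f(ad x)`: for a generalized eigenvector `y` of `ad x` for `γ`, `y` maps the
generalized eigenspace `V_μ` of `x` into `V_{μ + γ}` (standard), so for `v ∈ V_μ`: `B y v - y B v = (f(μ + γ) - f(μ)) y v
= f(γ) y v`.  So `IsRep f (ad x) (ad B)`; `IsRep.mapsTo`.  (Or with the Jordan decomposition `x = s + m` and a basis
of eigenvectors of `s`: `ad s` is a polynomial in `ad x` (`LieAlgebra.ad_mem_adjoin_of_isSemisimple`) and
`ad B` is a polynomial in `ad s` by Lagrange interpolation: for matrix units `E_ij` in this basis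
`ad s E_ij = (d_i - d_j) E_ij`, `ad B E_ij = (f(d_i) - f(d_j)) E_ij = f(d_i - d_j) E_ij`.)

`nil_of_orth`: let `q` be a space of endomorphisms of `V` which contains all `f(x)`, `x ∈ q`, `f` additive.  If
`x ∈ q` and `tr (x y) = 0` for all `y ∈ q`, then `x` is nilpotent.
Proof.  Let `g : K → ℚ` be `ℚ`-linear, `f = algebraMap ℚ K ∘ g`, `B = f(x)` (`exists_isRep`).  `V` is the direct sum of the
generalized eigenspaces `V_μ` of `x`, on which `x B` has the trace `dim V_μ · μ f(μ)`.  So
`0 = tr (x B) = ∑ dim V_μ · g(μ) μ`, and applying `g` gives `∑ dim V_μ · g(μ)² = 0`, so `g(μ) = 0` for all eigenvalues.  This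
holds for all `g`, so all eigenvalues are `0`.
-/

noncomputable section

namespace Pool.Agent.B4801bT

variable {K : Type*} [Field K] [IsAlgClosed K] [CharZero K]

/-- the operator with the eigenvalues `f (d i)` in the basis `P` is `f(Y)`, `Y = s + m`. -/
theorem ParRep_isRep {n : ℕ} (Y s m P P' : Mat n K) (d : Fin n → K) (f : K → K)
    (hm : IsNilpotent m) (hc : Commute s m) (h : Y = s + m)
    (hPP' : P * P' = 1) (hP'P : P' * P = 1) (hsP : s * P = P * Matrix.diagonal d) :
    IsRep f (Matrix.toLin' Y) (Matrix.toLin' (P * Matrix.diagonal (fun i => f (d i)) * P')) := by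
  intro μ v hv
  rw [Module.End.mem_maxGenEigenspace] at hv
  obtain ⟨k, hk⟩ := hv
  have e1 : (Matrix.toLin' Y - μ • (1 : Module.End K (Fin n → K))) ^ k =
      Matrix.toLin' ((Y - μ • 1) ^ k) := by
    rw [Matrix.toLin'_pow, map_sub, map_smul, Matrix.toLin'_one]
    rfl
  rw [e1, Matrix.toLin'_apply] at hk
  have hcz : Commute (Y - μ • (1 : Mat n K)) m := by
    have h1 : Commute Y m := by
      rw [h]
      exact hc.add_left (Commute.refl m)
    refine h1.sub_left ?_
    exact (Commute.one_left m).smul_left μ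
  obtain ⟨k', hk'⟩ := RepTensor_kill (Y - μ • (1 : Mat n K)) m hcz hm k v hk
  have e2 : Y - μ • (1 : Mat n K) - m = s - μ • (1 : Mat n K) := by
    rw [h]
    abel
  rw [e2] at hk'
  have e3 : ∀ m : ℕ, P' * (s - μ • (1 : Mat n K)) ^ m =
      Matrix.diagonal (fun i => (d i - μ) ^ m) * P' := by
    have e4 : P' * (s - μ • (1 : Mat n K)) = Matrix.diagonal (fun i => d i - μ) * P' := by
      have e5 : Matrix.diagonal (fun i => d i - μ) = Matrix.diagonal d - μ • (1 : Mat n K) := by
        rw [Matrix.smul_one_eq_diagonal, Matrix.diagonal_sub]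
      have e6 : P' * s = Matrix.diagonal d * P' := by
        calc P' * s = P' * (s * P) * P' := by rw [mul_assoc, mul_assoc, hPP', mul_one]
          _ = Matrix.diagonal d * P' := by rw [hsP, ← mul_assoc P', hP'P, one_mul]
      rw [e5, mul_sub, sub_mul, e6, Matrix.mul_smul, Matrix.smul_mul, mul_one, one_mul]
    intro m
    induction m with
    | zero => simp
    | succ m ih =>
      rw [pow_succ, ← mul_assoc, ih, mul_assoc, e4, ← mul_assoc, Matrix.diagonal_mul_diagonal]
      congr 2
      funext i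
      rw [pow_succ]
  have e7 : (Matrix.diagonal (fun i => (d i - μ) ^ k')).mulVec (P'.mulVec v) = 0 := by
    rw [Matrix.mulVec_mulVec, ← e3, ← Matrix.mulVec_mulVec, hk', Matrix.mulVec_zero]
  have e8 : (Matrix.diagonal (fun i => f (d i))).mulVec (P'.mulVec v) = f μ • P'.mulVec v := by
    funext i
    have e9 := congrFun e7 i
    rw [Matrix.mulVec_diagonal, Pi.zero_apply, mul_eq_zero] at e9
    rw [Matrix.mulVec_diagonal, Pi.smul_apply, smul_eq_mul]
    rcases e9 with e9 | e9
    · have h0 : k' ≠ 0 := by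
        rintro rfl
        simp at e9
      rw [sub_eq_zero.1 ((pow_eq_zero_iff h0).1 e9)]
    · rw [e9, mul_zero, mul_zero]
  rw [Matrix.toLin'_apply, ← Matrix.mulVec_mulVec, ← Matrix.mulVec_mulVec, e8,
    Matrix.mulVec_smul, Matrix.mulVec_mulVec, hPP', Matrix.one_mulVec]

theorem ParRep_commute {n : ℕ} (a : ℕ) (Y B : Mat n K)
    (f : K → K) (hf : ∀ a b, f (a + b) = f a + f b)
    (hB : IsRep f (Matrix.toLin' Y) (Matrix.toLin' B)) (t : TMat a n K)
    (ht : Commute (dtp a Y) t) : Commute (dtp a B) t := by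
  obtain ⟨s, m, hs, hm, hc, h⟩ := exists_jordan Y
  obtain ⟨P, d, hP, hsP⟩ := id hs
  have hs1 : Commute (dtp a s) t := by
    have h1 : Commute (dtp a s) (dtp a m) := by
      have h2 := dtp_lie a s m
      rw [hc.eq, sub_self, dtp_zero] at h2
      exact (sub_eq_zero.1 h2.symm)
    exact (commute_of_jordan (dtp a Y) (dtp a s) (dtp a m) t (hs.dtp a s) (dtp_isNilpotent a m hm)
      h1 (by rw [h, dtp_add]) ht).1
  obtain ⟨P', hPP', hP'P⟩ : ∃ P' : Mat n K, P * P' = 1 ∧ P' * P = 1 := by
    obtain ⟨u, rfl⟩ := hP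
    exact ⟨↑u⁻¹, u.mul_inv, u.inv_mul⟩
  have hT1 : tp a P * tp a P' = 1 := by rw [← tp_mul, hPP', tp_one]
  have hT2 : tp a P' * tp a P = 1 := by rw [← tp_mul, hP'P, tp_one]
  have hTs : dtp a s * tp a P = tp a P *
      Matrix.diagonal (fun I : Fin a → Fin n => ∑ i, d (I i)) := by
    rw [← dtp_diagonal a d]
    exact (tp_mul_dtp a P _ s hsP.symm).symm
  rw [RepTensor_conj (tp a P) (tp a P') t hT1 hT2 _ _ hTs] at hs1
  have hB' : B = P * Matrix.diagonal (fun i => f (d i)) * P' := by
    have h1 : IsRep f (Matrix.toLin' Y)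
        (Matrix.toLin' (P * Matrix.diagonal (fun i => f (d i)) * P')) :=
      ParRep_isRep Y s m P P' d f hm hc h hPP' hP'P hsP
    exact (Matrix.toLin').injective (hB.unique h1)
  have hTB : dtp a B * tp a P = tp a P *
      Matrix.diagonal (fun I : Fin a → Fin n => ∑ i, f (d (I i))) := by
    rw [← dtp_diagonal a (fun i => f (d i))]
    refine (tp_mul_dtp a P _ B ?_).symm
    rw [hB', mul_assoc, hP'P, mul_one]
  rw [RepTensor_conj (tp a P) (tp a P') t hT1 hT2 _ _ hTB]
  set t' := tp a P' * t * tp a P with ht'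
  show Matrix.diagonal _ * t' = t' * Matrix.diagonal _
  ext I J
  rw [Matrix.diagonal_mul, Matrix.mul_diagonal]
  have h2 := congrFun (congrFun hs1.eq I) J
  rw [Matrix.diagonal_mul, Matrix.mul_diagonal] at h2
  by_cases h3 : t' I J = 0
  · rw [h3, mul_zero, zero_mul]
  · have h4 : ∑ i, d (I i) = ∑ i, d (J i) := by
      have h5 : (∑ i, d (I i) - ∑ i, d (J i)) * t' I J = 0 := by
        rw [sub_mul, h2]
        ring
      rcases mul_eq_zero.1 h5 with h6 | h6
      · exact sub_eq_zero.1 h6
      · exact absurd h6 h3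
    have h7 : ∀ I : Fin a → Fin n, f (∑ i, d (I i)) = ∑ i, f (d (I i)) := by
      intro I
      exact map_sum (AddMonoidHom.mk' f hf) (fun i => d (I i)) Finset.univ
    have h9 : ∑ i, f (d (I i)) = ∑ i, f (d (J i)) := by rw [← h7, ← h7, h4]
    rw [h9, mul_comm]

theorem ann_rep {n : ℕ} (T : TensorSet n) [Algebra ℚ K] (Y B : Mat n K) (hY : Y ∈ ann T K)
    (f : K → K) (hf : ∀ a b, f (a + b) = f a + f b)
    (hB : IsRep f (Matrix.toLin' Y) (Matrix.toLin' B)) : B ∈ ann T K := by
  intro t ht
  exact (ParRep_commute t.1 Y B f hf hB (t.2.map (algebraMap ℚ K)) (hY t ht)).eq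

/-- `ad x` on the endomorphisms. -/
def ParRep_ad {V : Type*} [AddCommGroup V] [Module K V] (x : Module.End K V) :
    Module.End K (Module.End K V) :=
  LinearMap.mulLeft K x - LinearMap.mulRight K x

theorem ParRep_ad_apply {V : Type*} [AddCommGroup V] [Module K V] (x y : Module.End K V) :
    ParRep_ad x y = x * y - y * x := rfl

theorem ParRep_weight {V : Type*} [AddCommGroup V] [Module K V] (x : Module.End K V) (γ μ : K) :
    ∀ (N k l : ℕ) (y : Module.End K V) (v : V), k + l = N →
      ((ParRep_ad x - γ • (1 : Module.End K (Module.End K V))) ^ k) y = 0 →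
      ((x - μ • (1 : Module.End K V)) ^ l) v = 0 →
      ((x - (μ + γ) • (1 : Module.End K V)) ^ N) (y v) = 0 := by
  intro N
  induction N with
  | zero =>
    intro k l y v hkl hy hv
    have hk : k = 0 := by omega
    subst hk
    rw [pow_zero, Module.End.one_apply] at hy
    rw [hy, LinearMap.zero_apply, map_zero]
  | succ N ih =>
    intro k l y v hkl hy hv
    rcases Nat.eq_zero_or_pos k with hk | hk
    · subst hk
      rw [pow_zero, Module.End.one_apply] at hy
      rw [hy, LinearMap.zero_apply, map_zero]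
    rcases Nat.eq_zero_or_pos l with hl | hl
    · subst hl
      rw [pow_zero, Module.End.one_apply] at hv
      rw [hv, map_zero, map_zero]
    obtain ⟨k', rfl⟩ := Nat.exists_eq_succ_of_ne_zero hk.ne'
    obtain ⟨l', rfl⟩ := Nat.exists_eq_succ_of_ne_zero hl.ne'
    have e1 : (x - (μ + γ) • (1 : Module.End K V)) (y v) =
        ((ParRep_ad x - γ • (1 : Module.End K (Module.End K V))) y) v +
          y ((x - μ • (1 : Module.End K V)) v) := by
      simp only [LinearMap.sub_apply, LinearMap.add_apply, LinearMap.smul_apply,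
        Module.End.one_apply, Module.End.mul_apply, ParRep_ad_apply, map_sub, map_smul, add_smul]
      abel
    rw [pow_succ, Module.End.mul_apply, e1, map_add]
    rw [pow_succ, Module.End.mul_apply] at hy hv
    rw [ih k' (l' + 1) _ v (by omega) hy (by rw [pow_succ, Module.End.mul_apply]; exact hv),
      ih (k' + 1) l' y _ (by omega) (by rw [pow_succ, Module.End.mul_apply]; exact hy) hv,
      add_zero]

theorem rep_ad {V : Type*} [AddCommGroup V] [Module K V] [FiniteDimensional K V]
    (x B : Module.End K V) (f : K → K) (hf : ∀ a b, f (a + b) = f a + f b) (hB : IsRep f x B)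
    (u : Submodule K (Module.End K V)) (hu : ∀ y ∈ u, x * y - y * x ∈ u) :
    ∀ y ∈ u, B * y - y * B ∈ u := by
  have hrep : IsRep f (ParRep_ad x) (ParRep_ad B) := by
    intro γ y hy
    rw [Module.End.mem_maxGenEigenspace] at hy
    obtain ⟨k, hk⟩ := hy
    have h1 : (⊤ : Submodule K V) ≤ LinearMap.eqLocus (ParRep_ad B y) (f γ • y) := by
      rw [← Module.End.iSup_maxGenEigenspace_eq_top x]
      refine iSup_le fun μ v hv => ?_
      have hBv := hB μ v hv
      rw [Module.End.mem_maxGenEigenspace] at hv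
      obtain ⟨l, hl⟩ := hv
      have h2 : y v ∈ x.maxGenEigenspace (μ + γ) := by
        rw [Module.End.mem_maxGenEigenspace]
        exact ⟨k + l, ParRep_weight x γ μ (k + l) k l y v rfl hk hl⟩
      have h3 := hB _ _ h2
      rw [LinearMap.mem_eqLocus, ParRep_ad_apply, LinearMap.sub_apply, Module.End.mul_apply,
        Module.End.mul_apply, h3, hBv, map_smul, LinearMap.smul_apply, hf, add_smul]
      abel
    exact LinearMap.ext fun v => h1 Submodule.mem_top
  exact hrep.mapsTo u hu

/-- The trace of `f(A)`, `f` arbitrary. -/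
theorem ParRep_trace {V : Type*} [AddCommGroup V] [Module K V] [FiniteDimensional K V]
    {f : K → K} {A B : Module.End K V} (h : IsRep f A B) :
    ∃ S : Finset K, (∀ μ, μ ∈ S ↔ A.maxGenEigenspace μ ≠ ⊥) ∧
      LinearMap.trace K V B = ∑ μ ∈ S, (Module.finrank K (A.maxGenEigenspace μ) : K) * f μ := by
  classical
  have hint : DirectSum.IsInternal (fun μ : K => A.maxGenEigenspace μ) :=
    DirectSum.isInternal_submodule_of_iSupIndep_of_iSup_eq_top
      A.independent_maxGenEigenspace (Module.End.iSup_maxGenEigenspace_eq_top A)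
  have hfin : {μ : K | A.maxGenEigenspace μ ≠ ⊥}.Finite :=
    WellFoundedGT.finite_ne_bot_of_iSupIndep hint.submodule_iSupIndep
  have hmaps : ∀ μ : K, Set.MapsTo B (A.maxGenEigenspace μ) (A.maxGenEigenspace μ) := by
    intro μ v hv
    rw [h μ v hv]
    exact Submodule.smul_mem _ _ hv
  refine ⟨hfin.toFinset, fun μ => by rw [Set.Finite.mem_toFinset, Set.mem_setOf_eq], ?_⟩
  rw [LinearMap.trace_eq_sum_trace_restrict' hint hfin hmaps]
  refine Finset.sum_congr rfl fun μ _ => ?_
  have h1 : B.restrict (hmaps μ) = f μ • (1 : Module.End K (A.maxGenEigenspace μ)) :=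
    LinearMap.ext fun v => Subtype.ext (h μ v v.2)
  rw [h1, map_smul, LinearMap.trace_one, smul_eq_mul, mul_comm]

/-- The semisimple part. -/
theorem ParRep_ss {V : Type*} [AddCommGroup V] [Module K V] [FiniteDimensional K V]
    (x : Module.End K V) : ∃ s m : Module.End K V, s ∈ Algebra.adjoin K {x} ∧
      m ∈ Algebra.adjoin K {x} ∧ IsNilpotent m ∧ x = m + s ∧ IsRep (fun μ => μ) x s := by
  obtain ⟨m, hm, s, hs, hnil, hss, hA⟩ := x.exists_isNilpotent_isSemisimple
  refine ⟨s, m, hs, hm, hnil, hA, ?_⟩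
  have hcomm : Commute x s := by
    have h1 : s ∈ Subalgebra.centralizer K {x} := by
      refine (Algebra.adjoin_le (S := Subalgebra.centralizer K {x}) ?_) hs
      rintro _ rfl
      rw [SetLike.mem_coe, Subalgebra.mem_centralizer_iff]
      rintro _ rfl
      rfl
    rw [Subalgebra.mem_centralizer_iff] at h1
    exact h1 x rfl
  intro μ v hv
  exact Module.End.apply_eq_of_mem_of_comm_of_isFinitelySemisimple_of_isNil hv hcomm
    hss.isFinitelySemisimple (by rw [hA, add_sub_cancel_right]; exact hnil)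

theorem nil_of_orth {V : Type*} [AddCommGroup V] [Module K V] [FiniteDimensional K V]
    (q : Submodule K (Module.End K V))
    (hq : ∀ x ∈ q, ∀ f : K → K, (∀ a b, f (a + b) = f a + f b) → ∀ B, IsRep f x B → B ∈ q)
    (x : Module.End K V) (hx : x ∈ q) (hxq : ∀ y ∈ q, LinearMap.trace K V (x * y) = 0) :
    IsNilpotent x := by
  obtain ⟨s, m, hs, hm, hnil, hxs, hrs⟩ := ParRep_ss x
  have key : ∀ g : Module.Dual ℚ K, ∀ μ, x.maxGenEigenspace μ ≠ ⊥ → g μ = 0 := by
    intro g
    have hf : ∀ a b : K, (algebraMap ℚ K (g (a + b))) = algebraMap ℚ K (g a) + algebraMap ℚ K (g b) := by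
      intro a b
      rw [map_add, map_add]
    obtain ⟨B, hB, hBa, _⟩ := exists_isRep (fun a => algebraMap ℚ K (g a)) x
    have h1 := hxq B (hq x hx _ hf B hB)
    have hcm : Commute m B := by
      have h2 : Commute x m := by
        have h3 : m ∈ Subalgebra.centralizer K {x} := by
          refine (Algebra.adjoin_le (S := Subalgebra.centralizer K {x}) ?_) hm
          rintro _ rfl
          rw [SetLike.mem_coe, Subalgebra.mem_centralizer_iff]
          rintro _ rfl
          rfl
        rw [Subalgebra.mem_centralizer_iff] at h3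
        exact h3 x rfl
      exact (hB.commute h2).symm
    have h2 : LinearMap.trace K V (m * B) = 0 := by
      have h3 : IsNilpotent (m * B) := hcm.isNilpotent_mul_right hnil
      exact (LinearMap.isNilpotent_trace_of_isNilpotent h3).eq_zero
    have h3 : LinearMap.trace K V (s * B) = 0 := by
      have h4 : x * B = m * B + s * B := by
        conv_lhs => rw [hxs]
        rw [add_mul]
      rw [h4, map_add, h2, zero_add] at h1
      exact h1
    have h4 : IsRep (fun μ => μ * algebraMap ℚ K (g μ)) x (s * B) := by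
      intro μ v hv
      rw [Module.End.mul_apply, hB μ v hv, map_smul, hrs μ v hv, smul_smul, mul_comm]
    obtain ⟨S, hS, hST⟩ := ParRep_trace h4
    rw [h3] at hST
    have h5 : ∑ μ ∈ S, (Module.finrank K (x.maxGenEigenspace μ) : ℚ) * (g μ * g μ) = 0 := by
      have h6 := congrArg g hST
      rw [map_zero, map_sum] at h6
      rw [h6]
      refine Finset.sum_congr rfl fun μ _ => ?_
      have h7 : (Module.finrank K (x.maxGenEigenspace μ) : K) * (μ * algebraMap ℚ K (g μ)) =
          ((Module.finrank K (x.maxGenEigenspace μ) : ℚ) * g μ) • μ := by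
        rw [Algebra.smul_def, map_mul, map_natCast]
        ring
      rw [h7, map_smul, smul_eq_mul]
      ring
    have h6 := (Finset.sum_eq_zero_iff_of_nonneg (fun μ _ =>
      mul_nonneg (Nat.cast_nonneg _) (mul_self_nonneg _))).1 h5
    intro μ hμ
    have h7 := h6 μ ((hS μ).2 hμ)
    have h8 : (Module.finrank K (x.maxGenEigenspace μ) : ℚ) ≠ 0 := by
      have h9 : 0 < Module.finrank K (x.maxGenEigenspace μ) := by
        rw [Module.finrank_pos_iff, Submodule.nontrivial_iff_ne_bot]
        exact hμ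
      exact_mod_cast h9.ne'
    rcases mul_eq_zero.1 h7 with h9 | h9
    · exact absurd h9 h8
    · exact mul_self_eq_zero.1 h9
  have hz : ∀ μ, x.maxGenEigenspace μ ≠ ⊥ → μ = 0 := by
    intro μ hμ
    rw [← Module.forall_dual_apply_eq_zero_iff ℚ μ]
    intro g
    exact key g μ hμ
  have hs0 : s = 0 := by
    refine hrs.unique ?_
    intro μ v hv
    by_cases hμ : x.maxGenEigenspace μ = ⊥
    · rw [hμ, Submodule.mem_bot] at hv
      rw [hv, map_zero, smul_zero]
    · rw [hz μ hμ, zero_smul, LinearMap.zero_apply]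
  rw [hxs, hs0, add_zero]
  exact hnil

end Pool.Agent.B4801bT
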