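import Pool.Agent.W_b4801b_h32.ParBC
import Pool.Agent.W_b4801b_h32.ParRep
import Pool.Agent.W_b4801b_h32.ParEngel

set_option autoImplicit false

/-!
# Construction of a parabolic subalgebra (after Borel and Tits)

Let `K₀` be a field of characteristic zero, `K` an algebraically closed extension, `T` a set of tensors, `g = ann T K₀`
with nondegenerate trace form, `S` a set of matrices normalizing `g`, `W` a subspace of `K₀ ^ n` stable under
the invertible matrices in `S`.  If the trace form is degenerate on `mstab g W`, then there is a proper parabolic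
subalgebra `q` of `g` normalized by the elements of `S`.

Proof.  Call `q ≤ g` good if (1) it is closed under commutators, (2) `bc K q` contains `f(x)` for `x ∈ bc K q`, `f : K → K`
additive, (3) it is normalized by `S`, (4) `mrad g q ≠ ⊥`.
(a) `mstab g W` is good: (2): `bc K (mstab g W) = mstab (ann T K) (baseW K W)` by `bc_mstab`, `bc_ann`; use `ann_rep`, and
`IsRep.mapsTo`.  (3): for `A ∈ S` invertible with `A W ⊆ W` (so `A W = W`) and `y ∈ mstab g W`, `A y = z A` with `z ∈ g`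
(`g` is normalized), and `z` preserves `W = A W`.
(b) For good `q` the elements of `mrad g q` are nilpotent: let `x ∈ mrad g q`; its image over `K` lies in `bc K q` and is
orthogonal to `bc K q` (`bc_orth`), so it is nilpotent by `nil_of_orth` (in `End (K ^ n)`), so `x` is nilpotent.
(c) If `q` is good then `q' := mnorm g (mrad g q)` is good and `q ≤ q'`: `mrad g q` is stable under commutators with `q`
(invariance of the trace form), so `q ≤ q'`.  (1): Jacobi identity.  (2): `bc_mnorm`, `bc_ann`, `ann_rep`, `rep_ad`.  (3): `S`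
normalizes `g`, `q`, so `orth g q`, `mrad g q` and its normalizer (for invertible `A` and a finite-dimensional space `A q A⁻¹ ⊆ q`
implies equality; `A y = z A` means `z = A y A⁻¹`).  (4): `u = mrad g q` is closed under commutators, consists of nilpotent
matrices by (b), and is stable under commutators with `q'`, so it is orthogonal to `q'` by
`trace_mul_eq_zero_of_nil`; `u ≤ q ≤ q'`; so `⊥ ≠ u ≤ mrad g q'`.
(d) Take a good `q` of maximal dimension containing `mstab g W`... (or induction on `dim g - dim q`): then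
`q = mnorm g (mrad g q)`, so `orth g q ≤ q` by `orth_le_of_norm`; `orth g q = mrad g q` consists of nilpotent matrices: `q` is
parabolic.  If `q = g` then `mrad g q = orth g g = ⊥` by nondegeneracy, contradicting (4).
-/

noncomputable section

namespace Pool.Agent.B4801bT

section Aux

variable {F : Type*} [Field F] {n : ℕ}

theorem ParIter_surj {E : Type*} [AddCommGroup E] [Module F E] [FiniteDimensional F E]
    (φ : E →ₗ[F] E) (hφ : Function.Injective φ) (W : Submodule F E) (hW : ∀ w ∈ W, φ w ∈ W) :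
    ∀ w ∈ W, ∃ w' ∈ W, φ w' = w := by
  intro w hw
  have hinj : Function.Injective (φ.restrict hW) := by
    intro x y hxy
    apply Subtype.ext
    apply hφ
    have := congrArg Subtype.val hxy
    simpa using this
  obtain ⟨w', hw'⟩ := (LinearMap.injective_iff_surjective.1 hinj) ⟨w, hw⟩
  refine ⟨w', w'.2, ?_⟩
  have := congrArg Subtype.val hw'
  simpa using this

/-- `Normalizes A q` with the roles exchanged, for invertible `A`. -/
theorem ParIter_norm_symm {A : Mat n F} (hA : IsUnit A) {q : Submodule F (Mat n F)}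
    (h : Normalizes A q) : ∀ w ∈ q, ∃ w' ∈ q, A * w' = w * A := by
  obtain ⟨u, rfl⟩ := hA
  set B : Mat n F := ((u⁻¹ : (Mat n F)ˣ) : Mat n F) with hB
  have hAB : (u : Mat n F) * B = 1 := u.mul_inv
  have hBA : B * (u : Mat n F) = 1 := u.inv_mul
  set φ : Mat n F →ₗ[F] Mat n F :=
    (LinearMap.mulLeft F (u : Mat n F)) ∘ₗ (LinearMap.mulRight F B) with hφ
  have hφa : ∀ y, φ y = (u : Mat n F) * (y * B) := fun y => rfl
  have hinj : Function.Injective φ := by
    intro x y hxy
    rw [hφa, hφa] at hxy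
    have h1 : B * ((u : Mat n F) * (x * B)) * (u : Mat n F) =
        B * ((u : Mat n F) * (y * B)) * (u : Mat n F) := by rw [hxy]
    have e : ∀ z : Mat n F, B * ((u : Mat n F) * (z * B)) * (u : Mat n F) = z := by
      intro z
      calc B * ((u : Mat n F) * (z * B)) * (u : Mat n F)
          = (B * (u : Mat n F)) * z * (B * (u : Mat n F)) := by noncomm_ring
        _ = z := by rw [hBA, one_mul, mul_one]
    rwa [e, e] at h1
  have hmap : ∀ y ∈ q, φ y ∈ q := by
    intro y hy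
    obtain ⟨z, hz, hyz⟩ := h y hy
    have : φ y = z := by
      rw [hφa, ← mul_assoc, hyz, mul_assoc, hAB, mul_one]
    rwa [this]
  intro w hw
  obtain ⟨w', hw', hww'⟩ := ParIter_surj φ hinj q hmap w hw
  refine ⟨w', hw', ?_⟩
  rw [hφa] at hww'
  rw [← hww', mul_assoc, mul_assoc, hBA, mul_one]

/-- Traces are preserved by conjugation. -/
theorem ParIter_trace {A y z w w' : Mat n F} (hA : IsUnit A) (h1 : A * y = z * A)
    (h2 : A * w' = w * A) : (z * w).trace = (y * w').trace := by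
  obtain ⟨u, rfl⟩ := hA
  set B : Mat n F := ((u⁻¹ : (Mat n F)ˣ) : Mat n F) with hB
  have hAB : (u : Mat n F) * B = 1 := u.mul_inv
  have hBA : B * (u : Mat n F) = 1 := u.inv_mul
  have hz : z * w = (u : Mat n F) * (y * w' * B) := by
    calc z * w = z * (w * ((u : Mat n F) * B)) := by rw [hAB, mul_one]
      _ = z * ((w * (u : Mat n F)) * B) := by rw [mul_assoc w]
      _ = z * (((u : Mat n F) * w') * B) := by rw [h2]
      _ = (z * (u : Mat n F)) * (w' * B) := by rw [mul_assoc, mul_assoc]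
      _ = ((u : Mat n F) * y) * (w' * B) := by rw [h1]
      _ = _ := by rw [mul_assoc, mul_assoc]
  rw [hz, Matrix.trace_mul_comm, mul_assoc, mul_assoc, hBA, mul_one]

theorem ParIter_unique {A z z' : Mat n F} (hA : IsUnit A) (h : z * A = z' * A) : z = z' :=
  hA.mul_right_cancel h

theorem ParIter_norm_orth {A : Mat n F} (hA : IsUnit A) {g q : Submodule F (Mat n F)}
    (hg : Normalizes A g) (hq : Normalizes A q) : Normalizes A (orth g q) := by
  intro y hy
  obtain ⟨z, hz, hyz⟩ := hg y hy.1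
  refine ⟨z, ⟨hz, ?_⟩, hyz⟩
  intro w hw
  obtain ⟨w', hw', hww'⟩ := ParIter_norm_symm hA hq w hw
  rw [ParIter_trace hA hyz hww']
  exact hy.2 w' hw'

theorem ParIter_norm_inf {A : Mat n F} (hA : IsUnit A) {p q : Submodule F (Mat n F)}
    (hp : Normalizes A p) (hq : Normalizes A q) : Normalizes A (p ⊓ q) := by
  intro y hy
  obtain ⟨z, hz, hyz⟩ := hp y hy.1
  obtain ⟨z', hz', hyz'⟩ := hq y hy.2
  obtain rfl : z = z' := ParIter_unique hA (hyz.symm.trans hyz')
  exact ⟨z, ⟨hz, hz'⟩, hyz⟩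

theorem ParIter_norm_mrad {A : Mat n F} (hA : IsUnit A) {g q : Submodule F (Mat n F)}
    (hg : Normalizes A g) (hq : Normalizes A q) : Normalizes A (mrad g q) :=
  ParIter_norm_inf hA hq (ParIter_norm_orth hA hg hq)

theorem ParIter_norm_mnorm {A : Mat n F} (hA : IsUnit A) {g u : Submodule F (Mat n F)}
    (hg : Normalizes A g) (hu : Normalizes A u) : Normalizes A (mnorm g u) := by
  intro y hy
  obtain ⟨z, hz, hyz⟩ := hg y hy.1
  refine ⟨z, ⟨hz, ?_⟩, hyz⟩
  intro w hw
  obtain ⟨w', hw', hww'⟩ := ParIter_norm_symm hA hu w hw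
  obtain ⟨v, hv, hvv⟩ := hu _ (hy.2 w' hw')
  have : v = z * w - w * z := by
    apply ParIter_unique hA
    rw [← hvv, mul_sub, sub_mul, ← mul_assoc, hyz, mul_assoc, hww', ← mul_assoc, ← mul_assoc,
      hww', mul_assoc w, hyz, ← mul_assoc]
  rwa [← this]

theorem ParIter_le_mnorm {g q : Submodule F (Mat n F)} (hqg : q ≤ g)
    (hg : ∀ x ∈ g, ∀ y ∈ g, x * y - y * x ∈ g) (hq : ∀ x ∈ q, ∀ y ∈ q, x * y - y * x ∈ q) :
    q ≤ mnorm g (mrad g q) := by
  intro x hx
  refine ⟨hqg hx, fun y hy => ⟨hq x hx y hy.1, hg x (hqg hx) y (hqg hy.1), fun z hz => ?_⟩⟩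
  have h1 : ((x * y - y * x) * z).trace = (y * (z * x - x * z)).trace := by
    rw [sub_mul, mul_sub, Matrix.trace_sub, Matrix.trace_sub]
    congr 1
    · rw [mul_assoc, Matrix.trace_mul_comm, mul_assoc]
    · rw [mul_assoc]
  rw [h1]
  exact hy.2.2 _ (hq z hz x hx)

theorem ParIter_mnorm_lie {g u : Submodule F (Mat n F)}
    (hg : ∀ x ∈ g, ∀ y ∈ g, x * y - y * x ∈ g) :
    ∀ x ∈ mnorm g u, ∀ y ∈ mnorm g u, x * y - y * x ∈ mnorm g u := by
  intro x hx y hy
  refine ⟨hg x hx.1 y hy.1, fun z hz => ?_⟩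
  have h1 : (x * y - y * x) * z - z * (x * y - y * x) =
      (x * (y * z - z * y) - (y * z - z * y) * x) -
        (y * (x * z - z * x) - (x * z - z * x) * y) := by noncomm_ring
  rw [h1]
  exact u.sub_mem (hx.2 _ (hy.2 z hz)) (hy.2 _ (hx.2 z hz))

theorem ParIter_ann_lie [Algebra ℚ F] (T : TensorSet n) :
    ∀ x ∈ ann T F, ∀ y ∈ ann T F, x * y - y * x ∈ ann T F := by
  intro x hx y hy t ht
  have h1 := hx t ht
  have h2 := hy t ht
  have h3 : dtp t.1 (x * y - y * x) = dtp t.1 x * dtp t.1 y - dtp t.1 y * dtp t.1 x :=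
    dtp_lie t.1 x y
  rw [h3, sub_mul, mul_sub, mul_assoc, h2, ← mul_assoc, h1, mul_assoc, mul_assoc (dtp t.1 y), h1,
    ← mul_assoc (dtp t.1 y), h2, mul_assoc]

end Aux

section Good

variable {K₀ : Type*} [Field K₀] [CharZero K₀] [Algebra ℚ K₀] (K : Type*)
    [Field K] [IsAlgClosed K] [CharZero K] [Algebra ℚ K] [Algebra K₀ K] {n : ℕ}

/-- The subalgebras occurring in the construction. -/
structure ParIterGood (T : TensorSet n) (S : Set (Mat n K₀)) (q : Submodule K₀ (Mat n K₀)) :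
    Prop where
  le : q ≤ ann T K₀
  lie : ∀ x ∈ q, ∀ y ∈ q, x * y - y * x ∈ q
  rep : ∀ X ∈ bc K q, ∀ f : K → K, (∀ a b, f (a + b) = f a + f b) → ∀ B : Mat n K,
    IsRep f (Matrix.toLin' X) (Matrix.toLin' B) → B ∈ bc K q
  norm : ∀ A ∈ S, Normalizes A q
  rad : mrad (ann T K₀) q ≠ ⊥

omit [CharZero K₀] in
theorem ParIter_nil {T : TensorSet n} {S : Set (Mat n K₀)} {q : Submodule K₀ (Mat n K₀)}
    (h : ParIterGood K T S q) : ∀ x ∈ mrad (ann T K₀) q, IsNilpotent x := by
  intro x hx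
  set X : Mat n K := x.map (algebraMap K₀ K) with hX
  have hXq : X ∈ bc K q := (map_mem_bc q x).2 hx.1
  have hXo : X ∈ bc K (orth (ann T K₀) q) := (map_mem_bc _ x).2 hx.2
  rw [← bc_orth] at hXo
  have hnil : IsNilpotent (Matrix.toLin' X) := by
    refine nil_of_orth (Submodule.map (Matrix.toLin' (R := K) (m := Fin n) (n := Fin n)).toLinearMap
      (bc K q)) ?_ _ ⟨X, hXq, rfl⟩ ?_
    · rintro _ ⟨Y, hY, rfl⟩ f hf B hB
      refine ⟨LinearMap.toMatrix' B, h.rep Y hY f hf _ ?_, ?_⟩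
      · rw [Matrix.toLin'_toMatrix']
        exact hB
      · exact Matrix.toLin'_toMatrix' B
    · rintro _ ⟨Y, hY, rfl⟩
      have h1 : (X * Y).trace = 0 := hXo.2 Y hY
      have h2 : Matrix.toLin' X * Matrix.toLin' Y = Matrix.toLin' (X * Y) :=
        (Matrix.toLin'_mul X Y).symm
      show LinearMap.trace K (Fin n → K) (Matrix.toLin' X * Matrix.toLin' Y) = 0
      rw [h2, Matrix.trace_toLin'_eq, h1]
  obtain ⟨k, hk⟩ := hnil
  refine ⟨k, ?_⟩
  have h1 : Matrix.toLin' (X ^ k) = 0 := by rw [Matrix.toLin'_pow, hk]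
  have h2 : X ^ k = 0 := by
    apply Matrix.toLin'.injective
    rw [h1, map_zero]
  have h3 : (x ^ k).map (algebraMap K₀ K) = 0 := by
    have : (x ^ k).map (algebraMap K₀ K) = X ^ k := by
      rw [hX]
      exact map_pow (RingHom.mapMatrix (algebraMap K₀ K)) x k
    rw [this, h2]
  ext i j
  have h4 := congrFun (congrFun h3 i) j
  rw [Matrix.map_apply, Matrix.zero_apply] at h4
  rw [Matrix.zero_apply]
  exact (map_eq_zero (algebraMap K₀ K)).1 h4

theorem ParIter_next {T : TensorSet n} {S : Set (Mat n K₀)} (hS : ∀ A ∈ S, IsUnit A)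
    (hSg : ∀ A ∈ S, Normalizes A (ann T K₀)) {q : Submodule K₀ (Mat n K₀)}
    (h : ParIterGood K T S q) :
    ParIterGood K T S (mnorm (ann T K₀) (mrad (ann T K₀) q)) ∧
      q ≤ mnorm (ann T K₀) (mrad (ann T K₀) q) := by
  have hle := ParIter_le_mnorm h.le (ParIter_ann_lie T) h.lie
  refine ⟨⟨fun x hx => hx.1, ParIter_mnorm_lie (ParIter_ann_lie T), ?_, ?_, ?_⟩, hle⟩
  · intro X hX f hf B hB
    rw [← bc_mnorm, bc_ann] at hX ⊢
    refine ⟨ann_rep T X B hX.1 f hf hB, ?_⟩
    intro Y hY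
    have h1 := rep_ad (Matrix.toLin' X) (Matrix.toLin' B) f hf hB
      (Submodule.map (Matrix.toLin' (R := K) (m := Fin n) (n := Fin n)).toLinearMap
        (bc K (mrad (ann T K₀) q))) ?_ (Matrix.toLin' Y) ⟨Y, hY, rfl⟩
    · obtain ⟨Z, hZ, hZ'⟩ := h1
      have h2 : Matrix.toLin' Z = Matrix.toLin' (B * Y - Y * B) := by
        have h3 : Matrix.toLin' Z = Matrix.toLin' B * Matrix.toLin' Y -
          Matrix.toLin' Y * Matrix.toLin' B := hZ'
        rw [h3, map_sub, Matrix.toLin'_mul, Matrix.toLin'_mul]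
        rfl
      rwa [← Matrix.toLin'.injective h2]
    · rintro _ ⟨Y', hY', rfl⟩
      refine ⟨X * Y' - Y' * X, hX.2 Y' hY', ?_⟩
      show Matrix.toLin' (X * Y' - Y' * X) = Matrix.toLin' X * Matrix.toLin' Y' -
        Matrix.toLin' Y' * Matrix.toLin' X
      rw [map_sub, Matrix.toLin'_mul, Matrix.toLin'_mul]
      rfl
  · intro A hA
    exact ParIter_norm_mnorm (hS A hA) (hSg A hA)
      (ParIter_norm_mrad (hS A hA) (hSg A hA) (h.norm A hA))
  · intro hbot
    apply h.rad
    rw [eq_bot_iff, ← hbot]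
    intro x hx
    refine ⟨hle hx.1, h.le hx.1, ?_⟩
    intro y hy
    refine trace_mul_eq_zero_of_nil (mrad (ann T K₀) q) (mnorm (ann T K₀) (mrad (ann T K₀) q))
      (ParIter_nil K h) ?_ (fun y hy => hy.2) x hx y hy
    intro x hx y hy
    exact (hle hx.1).2 y hy

theorem ParIter_start {T : TensorSet n} {S : Set (Mat n K₀)} (hS : ∀ A ∈ S, IsUnit A)
    (hSg : ∀ A ∈ S, Normalizes A (ann T K₀)) (W : Submodule K₀ (Fin n → K₀))
    (hW : ∀ A ∈ S, ∀ v ∈ W, Matrix.toLin' A v ∈ W)
    (hdeg : mrad (ann T K₀) (mstab (ann T K₀) W) ≠ ⊥) :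
    ParIterGood K T S (mstab (ann T K₀) W) := by
  refine ⟨fun x hx => hx.1, ?_, ?_, ?_, hdeg⟩
  · intro x hx y hy
    refine ⟨ParIter_ann_lie T x hx.1 y hy.1, fun v hv => ?_⟩
    rw [map_sub, Matrix.toLin'_mul, Matrix.toLin'_mul, LinearMap.sub_apply]
    exact W.sub_mem (hx.2 _ (hy.2 v hv)) (hy.2 _ (hx.2 v hv))
  · intro X hX f hf B hB
    rw [← bc_mstab, bc_ann] at hX ⊢
    exact ⟨ann_rep T X B hX.1 f hf hB, IsRep.mapsTo hB _ hX.2⟩
  · intro A hA y hy
    obtain ⟨z, hz, hyz⟩ := hSg A hA y hy.1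
    refine ⟨z, ⟨hz, fun w hw => ?_⟩, hyz⟩
    have hinj : Function.Injective (Matrix.toLin' A) := by
      obtain ⟨u, hu⟩ := hS A hA
      intro a b hab
      have h1 := congrArg (Matrix.toLin' ((u⁻¹ : (Mat n K₀)ˣ) : Mat n K₀)) hab
      rw [← hu, ← Matrix.toLin'_mul_apply, ← Matrix.toLin'_mul_apply, Units.inv_mul,
        Matrix.toLin'_one] at h1
      simpa using h1
    obtain ⟨w', hw', rfl⟩ := ParIter_surj (Matrix.toLin' A) hinj W (hW A hA) w hw
    rw [← Matrix.toLin'_mul_apply, ← hyz, Matrix.toLin'_mul_apply]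
    exact hW A hA _ (hy.2 w' hw')

end Good

theorem exists_parabolic {K₀ : Type*} [Field K₀] [CharZero K₀] [Algebra ℚ K₀] (K : Type*)
    [Field K] [IsAlgClosed K] [CharZero K] [Algebra ℚ K] [Algebra K₀ K] {n : ℕ} (T : TensorSet n)
    (hT : orth (ann T K₀) (ann T K₀) = ⊥) (S : Set (Mat n K₀)) (hS : ∀ A ∈ S, IsUnit A)
    (hSg : ∀ A ∈ S, Normalizes A (ann T K₀)) (W : Submodule K₀ (Fin n → K₀))
    (hW : ∀ A ∈ S, ∀ v ∈ W, Matrix.toLin' A v ∈ W)
    (hdeg : mrad (ann T K₀) (mstab (ann T K₀) W) ≠ ⊥) :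
    ∃ q : Submodule K₀ (Mat n K₀), IsParabolic (ann T K₀) q ∧ q ≠ ann T K₀ ∧
      ∀ A ∈ S, Normalizes A q := by
  classical
  have hex : ∃ q : Submodule K₀ (Mat n K₀), ParIterGood K T S q ∧
      ∀ q' : Submodule K₀ (Mat n K₀), ParIterGood K T S q' → ¬ q < q' := by
    have hwf : WellFounded (fun a b : Submodule K₀ (Mat n K₀) => a > b) :=
      (inferInstance : WellFoundedGT (Submodule K₀ (Mat n K₀))).wf
    obtain ⟨q, hq, hmax⟩ := hwf.has_min {q | ParIterGood K T S q}
      ⟨_, ParIter_start K hS hSg W hW hdeg⟩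
    exact ⟨q, hq, fun q' hq' => hmax q' hq'⟩
  obtain ⟨q, hq, hmax⟩ := hex
  obtain ⟨hnext, hle⟩ := ParIter_next K hS hSg hq
  have heq : q = mnorm (ann T K₀) (mrad (ann T K₀) q) := by
    by_contra hne
    exact hmax _ hnext (lt_of_le_of_ne hle hne)
  have hol : orth (ann T K₀) q ≤ q :=
    orth_le_of_norm (ann T K₀) q (ParIter_ann_lie T) hq.le hq.lie (ParIter_nil K hq) heq
  refine ⟨q, ⟨hq.le, hq.lie, hol, fun x hx => ParIter_nil K hq x ⟨hol hx, hx⟩⟩, ?_, hq.norm⟩
  intro hqg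
  apply hq.rad
  rw [hqg, eq_bot_iff, ← hT]
  intro x hx
  exact hx.2

end Pool.Agent.B4801bT
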