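import Pool.Agent.W_b4801b_h32.LieDefs

set_option autoImplicit false

/-!
# Regular elements and weight decompositions

`exists_regular`: let `r : H → End M` be a linear map whose values are semisimple and commute with each
other (`M` finite-dimensional over the algebraically closed field `K` of characteristic zero).  There is
`h0` whose eigenspaces consist of joint eigenvectors.

Proof.  The number of distinct eigenvalues of `r h` is at most `dim M`; choose `h0` with the maximal
number of eigenvalues.  If some eigenspace `E` of `r h0` were not contained in an eigenspace of `r h`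
for some `h`, then `r h` (which preserves `E` and is semisimple, so diagonalizable on `E`) has two
different eigenvalues on `E`.  For `c ∈ K` outside a finite set, `r (h0 + c h)` has more eigenvalues than
`r h0`: on each eigenspace of `r h0` choose joint eigenvectors; the pairs `(μ, ν)` of joint eigenvalues
number more than the `μ`, and `μ + c ν` are distinct for different pairs for all but finitely many `c`.
(Other proof: there are finitely many joint weights `χ : H → K`, and `H` is not the union of finitely
many proper subspaces `ker (χ - χ')`.)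

`eig_induction`: let `A` be a semisimple endomorphism of `M`, `U` an `A`-stable subspace, `C` a subspace
which contains all eigenvectors of `A` in `U`.  Then `U ≤ C`.
Proof: the restriction of `A` to `U` is semisimple, so `U` is the sum of its eigenspaces.  (In Mathlib:
`Module.End.IsSemisimple.restrict`, `Module.End.iSup_maxGenEigenspace_eq_top`,
`Module.End.IsFinitelySemisimple.maxGenEigenspace_eq_eigenspace`.)

`wt_induction`: let `H` be a commutative space of semisimple endomorphisms of `V`, `U` a subspace of
`End V` stable under the commutators with `H`, `C` a subspace of `End V` which contains all weight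
vectors in `U`.  Then `U ≤ C`.
Proof: `h ↦ ad h` is a linear map from `H` to `End (End V)` with semisimple
(`LieAlgebra.ad_isSemisimple_of_isSemisimple`, or: left and right multiplications by `h` are commuting
semisimple operators) commuting values.  Take `h0` as in `exists_regular` and apply `eig_induction` to
`A = ad h0`.
-/

noncomputable section

namespace Pool.Agent.B4801bT

variable {K : Type*} [Field K] [IsAlgClosed K] [CharZero K]

theorem exists_regular {H M : Type*} [AddCommGroup H] [Module K H] [AddCommGroup M] [Module K M]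
    [FiniteDimensional K M] (r : H →ₗ[K] Module.End K M) (hs : ∀ h, (r h).IsSemisimple)
    (hc : ∀ h h', Commute (r h) (r h')) :
    ∃ h0 : H, ∀ (μ : K) (v : M), r h0 v = μ • v → ∀ h, ∃ ν : K, r h v = ν • v := by
  classical
  set N : (H → K) → Submodule K M := fun χ => ⨅ h, (r h).maxGenEigenspace (χ h) with hN
  have hmem : ∀ χ v, v ∈ N χ → ∀ h, r h v = χ h • v := by
    intro χ v hv h
    have h1 : v ∈ (r h).maxGenEigenspace (χ h) := (Submodule.mem_iInf _).1 hv h
    rw [(hs h).isFinitelySemisimple.maxGenEigenspace_eq_eigenspace] at h1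
    exact Module.End.mem_eigenspace_iff.1 h1
  have htop : ⨆ χ, N χ = ⊤ :=
    Module.End.iSup_iInf_maxGenEigenspace_eq_top_of_iSup_maxGenEigenspace_eq_top_of_commute
      (fun h => r h) (fun h h' _ => hc h h') (fun h => Module.End.iSup_maxGenEigenspace_eq_top (r h))
  have hind : iSupIndep N :=
    Module.End.independent_iInf_maxGenEigenspace_of_forall_mapsTo (fun h => r h)
      (fun h h' φ => Module.End.mapsTo_maxGenEigenspace_of_comm (hc h' h) φ)
  have hfin : {χ | N χ ≠ ⊥}.Finite := Submodule.finite_ne_bot_of_iSupIndep hind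
  -- the weights are linear
  have hlin : ∀ χ, N χ ≠ ⊥ → (∀ h h', χ (h + h') = χ h + χ h') ∧ (∀ (c : K) h, χ (c • h) = c * χ h) := by
    intro χ hχ
    obtain ⟨v, hv, hv0⟩ := Submodule.exists_mem_ne_zero_of_ne_bot hχ
    have hm := hmem χ v hv
    constructor
    · intro h h'
      have h1 := hm (h + h')
      rw [map_add, LinearMap.add_apply, hm h, hm h', ← add_smul] at h1
      exact (smul_left_injective K hv0 h1).symm
    · intro c h
      have h1 := hm (c • h)
      rw [map_smul, LinearMap.smul_apply, hm h, smul_smul] at h1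
      exact (smul_left_injective K hv0 h1).symm
  -- the separating element
  obtain ⟨h0, hh0⟩ : ∃ h0 : H, ∀ χ χ', N χ ≠ ⊥ → N χ' ≠ ⊥ → χ h0 = χ' h0 → χ = χ' := by
    by_contra hcon
    push Not at hcon
    have : Finite {χ | N χ ≠ ⊥} := hfin
    let ι := {q : {χ | N χ ≠ ⊥} × {χ | N χ ≠ ⊥} // q.1.1 ≠ q.2.1}
    let p : ι → Submodule K H := fun q =>
      { carrier := {h | q.1.1.1 h = q.1.2.1 h}
        add_mem' := by
          intro a b ha hb
          show q.1.1.1 (a + b) = q.1.2.1 (a + b)
          rw [(hlin _ q.1.1.2).1, (hlin _ q.1.2.2).1, show q.1.1.1 a = q.1.2.1 a from ha,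
            show q.1.1.1 b = q.1.2.1 b from hb]
        zero_mem' := by
          show q.1.1.1 0 = q.1.2.1 0
          have e1 := (hlin _ q.1.1.2).2 0 0
          have e2 := (hlin _ q.1.2.2).2 0 0
          rw [zero_smul, zero_mul] at e1 e2
          rw [e1, e2]
        smul_mem' := by
          intro c a ha
          show q.1.1.1 (c • a) = q.1.2.1 (c • a)
          rw [(hlin _ q.1.1.2).2, (hlin _ q.1.2.2).2, show q.1.1.1 a = q.1.2.1 a from ha] }
    have hcov : ⋃ i, (p i : Set H) = Set.univ := by
      rw [Set.eq_univ_iff_forall]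
      intro h
      obtain ⟨χ, χ', h1, h2, h3, h4⟩ := hcon h
      exact Set.mem_iUnion.2 ⟨⟨(⟨χ, h1⟩, ⟨χ', h2⟩), h4⟩, h3⟩
    obtain ⟨i, hi⟩ := Subspace.exists_eq_top_of_iUnion_eq_univ hcov
    apply i.2
    funext h
    have : h ∈ p i := by rw [hi]; trivial
    exact this
  refine ⟨h0, fun μ v hv h => ?_⟩
  rcases eq_or_ne v 0 with rfl | hv0
  · exact ⟨0, by simp⟩
  obtain ⟨f, hf, hsum⟩ := (Submodule.mem_iSup_iff_exists_finsupp N v).1
    (by rw [htop]; trivial)
  have hli : LinearIndependent K (fun χ : f.support => f χ.1) := by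
    refine iSupIndep.linearIndependent (fun χ : f.support => N χ.1)
      (hind.comp Subtype.val_injective) (fun χ => hf χ.1) (fun χ => ?_)
    exact Finsupp.mem_support_iff.1 χ.2
  have hz : ∑ χ : f.support, (χ.1 h0 - μ) • f χ.1 = 0 := by
    have e1 : ∑ χ : f.support, (χ.1 h0 - μ) • f χ.1 = ∑ χ ∈ f.support, (χ h0 - μ) • f χ :=
      Finset.sum_coe_sort f.support (fun χ => (χ h0 - μ) • f χ)
    rw [e1]
    have e2 : ∀ χ ∈ f.support, (χ h0 - μ) • f χ = r h0 (f χ) - μ • f χ := by
      intro χ _
      rw [sub_smul, hmem χ _ (hf χ)]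
    rw [Finset.sum_congr rfl e2, Finset.sum_sub_distrib, ← map_sum, ← Finset.smul_sum]
    have e3 : ∑ χ ∈ f.support, f χ = v := hsum
    rw [e3, hv, sub_self]
  have hcoef := Fintype.linearIndependent_iff.1 hli _ hz
  have hbot : ∀ χ ∈ f.support, N χ ≠ ⊥ := by
    intro χ hχ hb
    have := hf χ
    rw [hb, Submodule.mem_bot] at this
    exact Finsupp.mem_support_iff.1 hχ this
  have hne : f.support.Nonempty := by
    rw [Finset.nonempty_iff_ne_empty]
    intro he
    apply hv0
    rw [← hsum, Finsupp.sum, he, Finset.sum_empty]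
  obtain ⟨χ, hχ⟩ := hne
  have huniq : f.support = {χ} := by
    refine Finset.eq_singleton_iff_unique_mem.2 ⟨hχ, fun χ' hχ' => ?_⟩
    refine hh0 χ' χ (hbot _ hχ') (hbot _ hχ) ?_
    have a1 := hcoef ⟨χ', hχ'⟩
    have a2 := hcoef ⟨χ, hχ⟩
    rw [sub_eq_zero] at a1 a2
    exact a1.trans a2.symm
  have hvχ : v = f χ := by
    have e3 : ∑ χ ∈ f.support, f χ = v := hsum
    rw [← e3, huniq, Finset.sum_singleton]
  exact ⟨χ h, by rw [hvχ]; exact hmem χ _ (hf χ) h⟩

theorem eig_induction {M : Type*} [AddCommGroup M] [Module K M] [FiniteDimensional K M]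
    (A : Module.End K M) (hA : A.IsSemisimple) (U C : Submodule K M) (hU : ∀ u ∈ U, A u ∈ U)
    (hC : ∀ (μ : K), ∀ u ∈ U, A u = μ • u → u ∈ C) : U ≤ C := by
  have hU' : U ∈ A.invtSubmodule := fun u hu => hU u hu
  set A' : Module.End K U := LinearMap.restrict A hU' with hA'
  have hss : A'.IsSemisimple := hA.restrict hU'
  have htop : ⨆ μ, A'.eigenspace μ = ⊤ := by
    have h1 := Module.End.iSup_maxGenEigenspace_eq_top A'
    simpa only [hss.isFinitelySemisimple.maxGenEigenspace_eq_eigenspace] using h1
  have hle : (⊤ : Submodule K U) ≤ C.comap U.subtype := by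
    rw [← htop]
    refine iSup_le fun μ u hu => ?_
    have h1 := Module.End.mem_eigenspace_iff.1 hu
    have h2 := congrArg Subtype.val h1
    exact hC μ u.1 u.2 h2
  intro u hu
  exact hle (x := ⟨u, hu⟩) trivial

theorem wt_induction {V : Type*} [AddCommGroup V] [Module K V] [FiniteDimensional K V]
    (H U C : Submodule K (Module.End K V)) (hs : ∀ h ∈ H, h.IsSemisimple)
    (hc : ∀ h ∈ H, ∀ h' ∈ H, Commute h h') (hU : ∀ h ∈ H, ∀ u ∈ U, h * u - u * h ∈ U)
    (hC : ∀ u ∈ U, IsWt H u → u ∈ C) : U ≤ C := by
  let r : H →ₗ[K] Module.End K (Module.End K V) :=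
    { toFun := fun h => LinearMap.mulLeft K (h : Module.End K V) -
        LinearMap.mulRight K (h : Module.End K V)
      map_add' := by
        intro a b
        apply LinearMap.ext
        intro x
        simp only [Submodule.coe_add, LinearMap.sub_apply, LinearMap.mulLeft_apply,
          LinearMap.mulRight_apply, LinearMap.add_apply]
        noncomm_ring
      map_smul' := by
        intro c a
        apply LinearMap.ext
        intro x
        simp only [Submodule.coe_smul, LinearMap.sub_apply, LinearMap.mulLeft_apply,
          LinearMap.mulRight_apply, LinearMap.smul_apply, RingHom.id_apply, smul_mul_assoc,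
          mul_smul_comm, smul_sub] }
  have hr : ∀ (h : H) (x : Module.End K V), r h x = (h : Module.End K V) * x - x * h :=
    fun h x => rfl
  have hss : ∀ h, (r h).IsSemisimple := by
    intro h
    have ha := hs h.1 h.2
    have hl : Module.End.IsSemisimple (LinearMap.mulLeft K (h : Module.End K V)) := by
      apply Module.End.isSemisimple_of_squarefree_aeval_eq_zero ha.minpoly_squarefree
      have : Polynomial.aeval (Algebra.lmul K (Module.End K V) h.1) (minpoly K h.1) = 0 := by
        rw [Polynomial.aeval_algHom_apply, minpoly.aeval, map_zero]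
      simpa using! this
    have hr : Module.End.IsSemisimple (LinearMap.mulRight K (h : Module.End K V)) := by
      apply Module.End.isSemisimple_of_squarefree_aeval_eq_zero ha.minpoly_squarefree
      have hrw : LinearMap.mulRight K (h : Module.End K V) =
          (Algebra.lsmul (A := (Module.End K V)ᵐᵒᵖ) K K (Module.End K V)) (.op h.1) := by
        ext; simp [Algebra.lsmul]
      rw [hrw, Polynomial.aeval_algHom_apply, Polynomial.aeval_op_apply, minpoly.aeval,
        MulOpposite.op_zero, map_zero]
    exact hl.sub_of_commute (LinearMap.commute_mulLeft_right h.1 h.1) hr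
  have hcc : ∀ h h', Commute (r h) (r h') := by
    intro h h'
    apply LinearMap.ext
    intro x
    have e := (hc h.1 h.2 h'.1 h'.2).eq
    show r h (r h' x) = r h' (r h x)
    simp only [hr]
    have e1 : (h : Module.End K V) * (h' * x) = h' * (h * x) := by
      rw [← mul_assoc, e, mul_assoc]
    have e2 : x * (h' : Module.End K V) * h = x * h * h' := by
      rw [mul_assoc, ← e, ← mul_assoc]
    simp only [mul_sub, sub_mul]
    rw [e1, e2]
    simp only [mul_assoc]
    abel
  obtain ⟨h0, hh0⟩ := exists_regular r hss hcc
  refine eig_induction (r h0) (hss h0) U C (fun u hu => ?_) (fun μ u hu hμ => ?_)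
  · exact hU h0.1 h0.2 u hu
  · refine hC u hu fun h hh => ?_
    obtain ⟨ν, hν⟩ := hh0 μ u hμ ⟨h, hh⟩
    exact ⟨ν, hν⟩

end Pool.Agent.B4801bT
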