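import Pool.Agent.W_b4801b_h32.Defs
import Pool.Agent.W_b4801b_h32.MatJordan
import Pool.Agent.W_b4801b_h32.TpAlg
import Pool.Agent.W_b4801b_h32.Regular

set_option autoImplicit false

/-!
# Toral spaces over `K` and over the complex numbers

Theorem: let `ι : K → ℂ` be a ring homomorphism, `K` algebraically closed of characteristic zero, `U` a commutative
space of diagonalizable matrices of trace zero in `ann T K`.  There is a commutative space `U'` of
diagonalizable complex matrices of trace zero in `ann T ℂ` with `dim U ≤ dim U'`.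

Proof.  There is an invertible `P` with `M P = P diag(d_M)` for all `M ∈ U` (simultaneous diagonalization:
a basis of joint eigenvectors; e.g. by `exists_regular`, or Mathlib's joint eigenspaces).  `U'` := the complex
span of the `M.map ι`, `M ∈ U`.  For `M ∈ U`: `M.map ι · P.map ι = P.map ι · diag(ι d_M)`, so the elements
of `U'` are diagonalizable by the same matrix `P.map ι`; they commute, have trace zero, and are in
`ann T ℂ` (`dtp_map`, the tensors of `T` are rational; `ann T ℂ` is a subspace).  `dim U ≤ dim U'`: a basis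
`M_j` of `U` has a dual family of linear forms on the matrices (over `K`); applying `ι` to their coefficients
gives linear forms showing that the `M_j.map ι` are linearly independent over `ℂ`.
-/

noncomputable section

namespace Pool.Agent.B4801bT

/-- Simultaneous diagonalization of a commutative space of diagonalizable matrices. -/
lemma RankA.exists_simul {n : ℕ} (K : Type*) [Field K] [IsAlgClosed K] [CharZero K]
    (U : Submodule K (Mat n K)) (h3 : ∀ y ∈ U, Diagonalizable y)
    (h4 : ∀ y ∈ U, ∀ z ∈ U, y * z = z * y) :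
    ∃ P : Mat n K, IsUnit P ∧ ∀ y ∈ U, ∃ d : Fin n → K, y * P = P * Matrix.diagonal d := by
  classical
  let r : U →ₗ[K] Module.End K (Fin n → K) :=
    (Matrix.toLin' : Mat n K ≃ₗ[K] ((Fin n → K) →ₗ[K] (Fin n → K))).toLinearMap ∘ₗ U.subtype
  have hr : ∀ y : U, r y = Matrix.toLin' (y : Mat n K) := fun y => rfl
  obtain ⟨h0, hh0⟩ := exists_regular r
    (fun h => by rw [hr]; exact (diagonalizable_iff _).1 (h3 _ h.2))
    (fun h h' => by
      show (Matrix.toLin' (h : Mat n K)) ∘ₗ (Matrix.toLin' (h' : Mat n K)) =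
        (Matrix.toLin' (h' : Mat n K)) ∘ₗ (Matrix.toLin' (h : Mat n K))
      rw [← Matrix.toLin'_mul, ← Matrix.toLin'_mul, h4 _ h.2 _ h'.2])
  obtain ⟨P, d, hP, hd⟩ := h3 _ h0.2
  refine ⟨P, hP, fun y hy => ?_⟩
  have key : ∀ j : Fin n, ∃ ν : K, y.mulVec (P.col j) = ν • P.col j := by
    intro j
    have h1 : r h0 (P.col j) = d j • P.col j := by
      rw [hr, Matrix.toLin'_apply]
      ext i
      have h2 := congrFun (congrFun hd i) j
      rw [Matrix.mul_diagonal] at h2
      rw [Pi.smul_apply, smul_eq_mul, mul_comm]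
      exact h2
    obtain ⟨ν, hν⟩ := hh0 _ _ h1 ⟨y, hy⟩
    refine ⟨ν, ?_⟩
    rw [hr, Matrix.toLin'_apply] at hν
    exact hν
  choose e he using key
  refine ⟨e, ?_⟩
  ext i j
  rw [Matrix.mul_diagonal, mul_comm]
  exact congrFun (he j) i

theorem exists_complex_toral {n : ℕ} (T : TensorSet n) (K : Type*) [Field K] [IsAlgClosed K]
    [CharZero K] [Algebra ℚ K] (ι : K →+* ℂ) (U : Submodule K (Mat n K)) (h1 : U ≤ ann T K)
    (h2 : ∀ y ∈ U, y.trace = 0) (h3 : ∀ y ∈ U, Diagonalizable y)
    (h4 : ∀ y ∈ U, ∀ z ∈ U, y * z = z * y) :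
    ∃ U' : Submodule ℂ (Mat n ℂ), U' ≤ ann T ℂ ∧ (∀ y ∈ U', y.trace = 0) ∧
      (∀ y ∈ U', Diagonalizable y) ∧ (∀ y ∈ U', ∀ z ∈ U', y * z = z * y) ∧
      Module.finrank K U ≤ Module.finrank ℂ U' := by
  classical
  obtain ⟨P, hP, hdiag⟩ := RankA.exists_simul K U h3 h4
  let U' : Submodule ℂ (Mat n ℂ) := Submodule.span ℂ ((fun M : Mat n K => M.map ι) '' (U : Set (Mat n K)))
  have hPι : IsUnit (P.map ι) := by
    have := hP.map (RingHom.mapMatrix (m := Fin n) ι)
    simpa [RingHom.mapMatrix_apply] using this
  have hdiag' : ∀ y ∈ U', ∃ d : Fin n → ℂ, y * P.map ι = P.map ι * Matrix.diagonal d := by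
    intro y hy
    induction hy using Submodule.span_induction with
    | mem x hx =>
      obtain ⟨M, hM, rfl⟩ := hx
      obtain ⟨d, hd⟩ := hdiag M hM
      refine ⟨fun i => ι (d i), ?_⟩
      show M.map ι * P.map ι = _
      rw [← Matrix.map_mul, hd, Matrix.map_mul, Matrix.diagonal_map (map_zero ι)]
    | zero => exact ⟨0, by simp⟩
    | add x y _ _ hx hy =>
      obtain ⟨d, hd⟩ := hx
      obtain ⟨e, he⟩ := hy
      refine ⟨d + e, ?_⟩
      rw [add_mul, hd, he, ← mul_add, Matrix.diagonal_add]
      rfl
    | smul c x _ hx =>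
      obtain ⟨d, hd⟩ := hx
      refine ⟨c • d, ?_⟩
      rw [Matrix.smul_mul, hd, Matrix.diagonal_smul, Matrix.mul_smul]
  refine ⟨U', ?_, ?_, ?_, ?_, ?_⟩
  · refine Submodule.span_le.2 ?_
    rintro _ ⟨M, hM, rfl⟩
    intro t ht
    have h := h1 hM t ht
    have h5 := congrArg (fun X : TMat t.1 n K => X.map ι) h
    simp only [Matrix.map_mul] at h5
    have h6 : (t.2.map (algebraMap ℚ K)).map ι = t.2.map (algebraMap ℚ ℂ) := by
      rw [Matrix.map_map]
      congr 1
      ext q
      have : ι.comp (algebraMap ℚ K) = algebraMap ℚ ℂ := Subsingleton.elim _ _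
      exact congrArg (fun φ : ℚ →+* ℂ => φ q) this
    rw [h6] at h5
    have h7 : dtp t.1 (M.map ι) = (dtp t.1 M).map ι := dtp_map (ι : K →+ ℂ) t.1 M
    show dtp t.1 (M.map ι) * _ = _ * dtp t.1 (M.map ι)
    rw [h7]
    exact h5
  · intro y hy
    induction hy using Submodule.span_induction with
    | mem x hx =>
      obtain ⟨M, hM, rfl⟩ := hx
      show (M.map ι).trace = 0
      have h : (M.map ι).trace = ι M.trace := by
        simp [Matrix.trace, map_sum]
      rw [h, h2 M hM, map_zero]
    | zero => simp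
    | add x y _ _ hx hy => rw [Matrix.trace_add, hx, hy, add_zero]
    | smul c x _ hx => rw [Matrix.trace_smul, hx, smul_zero]
  · intro y hy
    obtain ⟨d, hd⟩ := hdiag' y hy
    exact ⟨P.map ι, d, hPι, hd⟩
  · intro y hy z hz
    obtain ⟨d, hd⟩ := hdiag' y hy
    obtain ⟨e, he⟩ := hdiag' z hz
    have hyz : y * z * P.map ι = z * y * P.map ι := by
      rw [mul_assoc, he, ← mul_assoc, hd, mul_assoc, Matrix.diagonal_mul_diagonal,
        mul_assoc z, hd, ← mul_assoc z, he, mul_assoc (P.map ι), Matrix.diagonal_mul_diagonal]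
      simp only [mul_comm]
    exact hPι.mul_left_injective hyz
  · obtain ⟨g, hg⟩ := LinearMap.exists_leftInverse_of_injective U.subtype
      (by rw [Submodule.ker_subtype])
    let b := Module.finBasis K U
    have hmem : ∀ j, ((b j : U) : Mat n K).map ι ∈ U' := fun j =>
      Submodule.subset_span ⟨_, (b j).2, rfl⟩
    let w : Fin (Module.finrank K U) → U' := fun j => ⟨((b j : U) : Mat n K).map ι, hmem j⟩
    -- the dual forms
    let ψ : Fin (Module.finrank K U) → Mat n K →ₗ[K] K := fun i => b.coord i ∘ₗ g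
    have hψ : ∀ i j, ψ i ((b j : U) : Mat n K) = if j = i then 1 else 0 := by
      intro i j
      have h := congrArg (fun φ : U →ₗ[K] U => φ (b j)) hg
      simp only [LinearMap.comp_apply, Submodule.subtype_apply, LinearMap.id_apply] at h
      simp only [ψ, LinearMap.comp_apply, h, Module.Basis.coord_apply, Module.Basis.repr_self]
      rw [Finsupp.single_apply]
    have hψ' : ∀ i (M : Mat n K), ψ i M = ∑ k, ∑ l, M k l * ψ i (Matrix.single k l 1) := by
      intro i M
      conv_lhs => rw [Matrix.matrix_eq_sum_single M]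
      rw [map_sum]
      refine Finset.sum_congr rfl fun k _ => ?_
      rw [map_sum]
      refine Finset.sum_congr rfl fun l _ => ?_
      rw [← smul_eq_mul, ← map_smul, Matrix.smul_single, smul_eq_mul, mul_one]
    have hlin : LinearIndependent ℂ w := by
      rw [Fintype.linearIndependent_iff]
      intro c hc i
      have h1 : ∑ j, c j • ((b j : U) : Mat n K).map ι = 0 := by
        have := congrArg (fun x : U' => (x : Mat n ℂ)) hc
        simpa [w] using this
      have h2 : ∑ j, c j * ι (ψ i ((b j : U) : Mat n K)) = 0 := by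
        have h3 : ∀ j, ι (ψ i ((b j : U) : Mat n K)) =
            ∑ k, ∑ l, (((b j : U) : Mat n K).map ι) k l * ι (ψ i (Matrix.single k l 1)) := by
          intro j
          rw [hψ' i]
          simp [map_sum]
        simp only [h3, Finset.mul_sum]
        rw [Finset.sum_comm]
        refine Finset.sum_eq_zero fun k _ => ?_
        rw [Finset.sum_comm]
        refine Finset.sum_eq_zero fun l _ => ?_
        have h4 := congrFun (congrFun h1 k) l
        rw [Matrix.sum_apply] at h4
        simp only [← mul_assoc]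
        rw [← Finset.sum_mul]
        have h5 : ∑ j, c j * (((b j : U) : Mat n K).map ι) k l = 0 := by
          simpa [Matrix.smul_apply] using h4
        rw [h5, zero_mul]
      simpa [hψ] using h2
    have := hlin.fintype_card_le_finrank
    simpa using this

end Pool.Agent.B4801bT
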