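import Pool.Agent.W_b4801b_h32.Regular

set_option autoImplicit false

/-!
# Structure of a reductive `p`: center and derived algebra

Let `Red p H` (see `LieDefs`).  `Z := {z ∈ p | z commutes with p}`, `L := span {x y - y x | x, y ∈ p}`.

`Red.cen_inf_der`: `Z ⊓ L = ⊥`.  Proof: let `z ∈ Z ⊓ L`.  `z ∈ H` by `cent`, so `z` is semisimple.  Let `E` be the
`μ`-eigenspace of `z`; it is stable under `p`.  The trace on `E` of a commutator of elements of `p` is
zero, so `tr (z | E) = 0`, that is `μ dim E = 0`: all eigenvalues of `z` are zero, `z = 0`.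
`Red.le_cen_sup_der`: `p ≤ Z ⊔ L`.  Proof: the trace form is a nondegenerate symmetric bilinear form on `p`, and
for `z ∈ p`: `tr (z (x y - y x)) = tr ((z x - x z) y)`, so `z` is orthogonal to `L` iff `z x - x z` is
orthogonal to `p` for all `x ∈ p` iff `z ∈ Z` (`nondeg`).  So `dim L + dim Z = dim p`
(`LinearMap.BilinForm.finrank_orthogonal`), and with `Z ⊓ L = ⊥` we get `Z ⊔ L = p`.
`Red.eq_zero_of_abelian`: let `A ≤ L` be a subspace with `x a - a x ∈ A` for `x ∈ L`, `a ∈ A`, and
`a b = b a` for `a, b ∈ A`.  Then `A = ⊥`.  Proof: by the above `x a - a x ∈ A` also for all `x ∈ p`.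
By `wt_induction` (`U = A`, `C = ⊥`) it is enough that every weight vector `a ∈ A` is zero.  If `a` does
not commute with `H`: take `f ∈ p`, `t ∈ H` with `IsTriple a f t`; `t = a f - f a ∈ A` (as `A` is stable
under commutators with `f ∈ p`), so `t` commutes with `a`, `2 a = t a - a t = 0`.  So every weight vector
in `A`, hence `A`, commutes with `H`: `A ≤ H` by `cent`.  Now let `a ∈ A` and `e ∈ p` a weight vector of
`H`: `a e - e a = ν e ∈ A ≤ H` commutes with `a ∈ H`: `0 = [a, ν e] = ν² e`, so `ν e = 0`:
`a` commutes with `e`.  By `wt_induction` (`U = p`, `C` = centralizer of `a`) `a ∈ Z`, so `a ∈ Z ⊓ L = ⊥`.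
-/

noncomputable section

namespace Pool.Agent.B4801bT

variable {K : Type*} [Field K] {V : Type*} [AddCommGroup V] [Module K V]

/-- The center of `p`. -/
def cen (p : Submodule K (Module.End K V)) : Submodule K (Module.End K V) where
  carrier := {z | z ∈ p ∧ ∀ x ∈ p, x * z = z * x}
  add_mem' := fun ha hb =>
    ⟨p.add_mem ha.1 hb.1, fun x hx => by rw [mul_add, add_mul, ha.2 x hx, hb.2 x hx]⟩
  zero_mem' := ⟨p.zero_mem, fun x _ => by rw [mul_zero, zero_mul]⟩
  smul_mem' := fun c z hz => ⟨p.smul_mem c hz.1, fun x hx => by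
    rw [mul_smul_comm, smul_mul_assoc, hz.2 x hx]⟩

/-- The derived algebra of `p`. -/
def der (p : Submodule K (Module.End K V)) : Submodule K (Module.End K V) :=
  Submodule.span K {z | ∃ x ∈ p, ∃ y ∈ p, z = x * y - y * x}

variable [IsAlgClosed K] [CharZero K] [FiniteDimensional K V]

theorem RedSemi_der_le {p H : Submodule K (Module.End K V)} (hp : Red p H) : der p ≤ p := by
  refine Submodule.span_le.mpr ?_
  rintro z ⟨x, hx, y, hy, rfl⟩
  exact hp.lie x hx y hy

/-- The trace of `w z` vanishes for `z` in the derived algebra if `w` commutes with `p`. -/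
theorem RedSemi_trace_mul {p : Submodule K (Module.End K V)} (w : Module.End K V)
    (hw : ∀ x ∈ p, x * w = w * x) (z : Module.End K V) (hz : z ∈ der p) :
    LinearMap.trace K V (w * z) = 0 := by
  induction hz using Submodule.span_induction with
  | mem z hz =>
    obtain ⟨x, hx, y, hy, rfl⟩ := hz
    have h1 : LinearMap.trace K V (w * (y * x)) = LinearMap.trace K V (w * (x * y)) := by
      rw [← mul_assoc, ← hw y hy, mul_assoc, LinearMap.trace_mul_comm, mul_assoc]
    rw [mul_sub, map_sub, h1, sub_self]
  | zero => rw [mul_zero, map_zero]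
  | add a b _ _ ha hb => rw [mul_add, map_add, ha, hb, add_zero]
  | smul c a _ ha => rw [mul_smul_comm, map_smul, ha, smul_zero]

open Polynomial in
/-- A semisimple endomorphism is von Neumann regular. -/
theorem RedSemi_regular (z : Module.End K V) (hz : z.IsSemisimple) :
    ∃ q : K[X], z = aeval z q * (z * z) := by
  have hsq : Squarefree (minpoly K z) := hz.minpoly_squarefree
  by_cases hd : (X : K[X]) ∣ minpoly K z
  · obtain ⟨r, hr⟩ := hd
    have hcop : IsCoprime (X : K[X]) r := by
      refine (Polynomial.irreducible_X.coprime_iff_not_dvd).mpr fun hXr => ?_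
      obtain ⟨r', hr'⟩ := hXr
      have : (X : K[X]) * X ∣ minpoly K z := ⟨r', by rw [hr, hr', mul_assoc]⟩
      exact Polynomial.irreducible_X.not_isUnit (hsq X this)
    obtain ⟨a, b, hab⟩ := hcop
    refine ⟨a, ?_⟩
    have h1 : (X : K[X]) = a * (X * X) + b * minpoly K z := by
      calc (X : K[X]) = (a * X + b * r) * X := by rw [hab, one_mul]
        _ = a * (X * X) + b * minpoly K z := by rw [hr]; ring
    have h2 := congrArg (aeval z) h1
    simpa using h2
  · have hcop : IsCoprime (X : K[X]) (minpoly K z) :=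
      (Polynomial.irreducible_X.coprime_iff_not_dvd).mpr hd
    obtain ⟨a, b, hab⟩ := hcop
    refine ⟨a, ?_⟩
    have h1 : (X : K[X]) = a * (X * X) + b * X * minpoly K z := by
      calc (X : K[X]) = (a * X + b * minpoly K z) * X := by rw [hab, one_mul]
        _ = a * (X * X) + b * X * minpoly K z := by ring
    have h2 := congrArg (aeval z) h1
    simpa using h2

open Polynomial in
theorem Red.cen_inf_der {p H : Submodule K (Module.End K V)} (hp : Red p H) :
    cen p ⊓ der p = ⊥ := by
  rw [eq_bot_iff]
  rintro z ⟨⟨hzp, hzc⟩, hzd⟩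
  have hzH : z ∈ H := hp.cent z hzp fun h hh => hzc h (hp.le hh)
  obtain ⟨q, hq⟩ := RedSemi_regular z (hp.ss z hzH)
  set w : Module.End K V := aeval z q with hwdef
  have hwc : ∀ x ∈ p, x * w = w * x := by
    intro x hx
    have hxz : Commute x z := hzc x hx
    have : Commute x w := by
      rw [hwdef, Polynomial.aeval_eq_sum_range]
      exact Commute.sum_right _ _ _ fun i _ => (hxz.pow_right i).smul_right _
    exact this
  have hwz : Commute w z := (hwc z hzp).symm
  have htr : LinearMap.trace K V (w * z) = 0 := RedSemi_trace_mul w hwc z hzd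
  have hid : IsIdempotentElem (w * z) := by
    change w * z * (w * z) = w * z
    calc w * z * (w * z) = w * (w * (z * z)) := by
          rw [mul_assoc, ← mul_assoc z w z, ← hwz.eq, mul_assoc w z z]
      _ = w * z := by rw [← hq]
  have h0 : w * z = 0 := LinearMap.IsIdempotentElem.eq_zero_of_trace_eq_zero hid htr
  have : z = 0 := by
    rw [hq, ← mul_assoc, h0, zero_mul]
  exact (Submodule.mem_bot K).mpr this

theorem Red.le_cen_sup_der {p H : Submodule K (Module.End K V)} (hp : Red p H) :
    p ≤ cen p ⊔ der p := by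
  set B : Module.End K V →ₗ[K] Module.End K V →ₗ[K] K :=
    (LinearMap.mul K (Module.End K V)).compr₂ (LinearMap.trace K V) with hB
  have hBa : ∀ x y, B x y = LinearMap.trace K V (x * y) := fun x y => rfl
  set φ : p →ₗ[K] (der p) →ₗ[K] K := B.domRestrict₁₂ p (der p) with hφ
  have hφa : ∀ (x : p) (y : der p), φ x y = LinearMap.trace K V (x.1 * y.1) := fun x y => rfl
  have hker : (LinearMap.ker φ).map p.subtype ≤ cen p := by
    rintro _ ⟨x, hx, rfl⟩
    have hx0 : φ x = 0 := hx
    refine ⟨x.2, fun y hy => ?_⟩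
    have hcom : (x : Module.End K V) * y - y * x ∈ p := hp.lie _ x.2 _ hy
    have hz : (x : Module.End K V) * y - y * x = 0 := by
      refine hp.nondeg _ hcom fun v hv => ?_
      have hmem : y * v - v * y ∈ der p := Submodule.subset_span ⟨y, hy, v, hv, rfl⟩
      have h1 : LinearMap.trace K V ((x : Module.End K V) * (y * v - v * y)) = 0 := by
        have := hφa x ⟨_, hmem⟩
        rw [hx0] at this
        exact this.symm
      rw [sub_mul, map_sub]
      rw [mul_sub, map_sub] at h1
      have h2 : LinearMap.trace K V ((x : Module.End K V) * (v * y))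
          = LinearMap.trace K V (y * (x : Module.End K V) * v) := by
        rw [← mul_assoc, LinearMap.trace_mul_comm, mul_assoc]
      rw [h2, ← mul_assoc] at h1
      exact h1
    exact (sub_eq_zero.mp hz).symm
  have h1 := LinearMap.finrank_range_add_finrank_ker φ
  have h2 : Module.finrank K (LinearMap.range φ) ≤ Module.finrank K (der p) := by
    calc Module.finrank K (LinearMap.range φ) ≤ Module.finrank K ((der p) →ₗ[K] K) :=
          Submodule.finrank_le _
      _ = Module.finrank K (der p) := Subspace.dual_finrank_eq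
  have h3 : Module.finrank K (LinearMap.ker φ) ≤ Module.finrank K (cen p) := by
    rw [← Submodule.finrank_map_subtype_eq p (LinearMap.ker φ)]
    exact Submodule.finrank_mono hker
  have h4 := Submodule.finrank_sup_add_finrank_inf_eq (cen p) (der p)
  rw [hp.cen_inf_der, finrank_bot, add_zero] at h4
  have hle : cen p ⊔ der p ≤ p := sup_le (fun z hz => hz.1) (RedSemi_der_le hp)
  have h5 : Module.finrank K p ≤ Module.finrank K ↥(cen p ⊔ der p) := by omega
  exact (Submodule.eq_of_le_of_finrank_le hle h5).ge

theorem Red.eq_bot_of_abelian {p H : Submodule K (Module.End K V)} (hp : Red p H)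
    (A : Submodule K (Module.End K V)) (hA : A ≤ der p)
    (hLA : ∀ x ∈ der p, ∀ a ∈ A, x * a - a * x ∈ A) (hAA : ∀ a ∈ A, ∀ b ∈ A, a * b = b * a) :
    A = ⊥ := by
  have hAp : A ≤ p := hA.trans (RedSemi_der_le hp)
  have hst : ∀ x ∈ p, ∀ a ∈ A, x * a - a * x ∈ A := by
    intro x hx a ha
    obtain ⟨c, hc, l, hl, rfl⟩ := Submodule.mem_sup.mp (hp.le_cen_sup_der hx)
    have h1 : a * c = c * a := hc.2 a (hAp ha)
    have h2 : (c + l) * a - a * (c + l) = l * a - a * l := by
      rw [add_mul, mul_add, h1]; abel
    rw [h2]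
    exact hLA l hl a ha
  have hAH : A ≤ H := by
    refine wt_induction H A H hp.ss hp.comm (fun h hh u hu => hst h (hp.le hh) u hu)
      fun a ha hwt => ?_
    by_contra hna
    have hne : ∃ h ∈ H, ¬ Commute h a := by
      by_contra hc
      push Not at hc
      exact hna (hp.cent a (hAp ha) hc)
    obtain ⟨f, hf, t, ht, htr, -⟩ := hp.triple a (hAp ha) hwt hne
    have htA : t ∈ A := by
      have h1 := A.neg_mem (hst f hf a ha)
      rw [neg_sub, htr.ef] at h1
      exact h1
    have h2 : (2 : K) • a = 0 := by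
      rw [← htr.te, hAA t htA a ha, sub_self]
    have h3 : a = 0 := by
      rcases smul_eq_zero.mp h2 with h | h
      · exact absurd h two_ne_zero
      · exact h
    exact hna (h3 ▸ H.zero_mem)
  rw [eq_bot_iff, ← hp.cen_inf_der]
  intro a ha
  refine ⟨⟨hAp ha, ?_⟩, hA ha⟩
  let C : Submodule K (Module.End K V) :=
    { carrier := {x | x * a = a * x}
      add_mem' := fun {x y} hx hy => by
        simp only [Set.mem_ofPred_eq] at hx hy ⊢
        rw [add_mul, mul_add, hx, hy]
      zero_mem' := by simp
      smul_mem' := fun c x hx => by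
        simp only [Set.mem_ofPred_eq] at hx ⊢
        rw [smul_mul_assoc, mul_smul_comm, hx] }
  have hpC : p ≤ C := by
    refine wt_induction H p C hp.ss hp.comm (fun h hh u hu => hp.lie h (hp.le hh) u hu)
      fun e he hwt => ?_
    obtain ⟨ν, hν⟩ := hwt a (hAH ha)
    have hmem : ν • e ∈ A := by
      rw [← hν, ← neg_sub]
      exact A.neg_mem (hst e he a ha)
    have h1 : a * (ν • e) = (ν • e) * a := hAA a ha _ hmem
    have h2 : ν • (a * e - e * a) = 0 := by
      rw [smul_sub, ← mul_smul_comm, ← smul_mul_assoc, h1, sub_self]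
    rw [hν, smul_smul] at h2
    have h3 : ν • e = 0 := by
      rcases smul_eq_zero.mp h2 with h | h
      · rw [mul_self_eq_zero.mp h, zero_smul]
      · rw [h, smul_zero]
    rw [h3] at hν
    exact (sub_eq_zero.mp hν).symm
  exact fun x hx => hpC hx

end Pool.Agent.B4801bT
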