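import Pool.Agent.W_b4801b_h32.LieDefs

set_option autoImplicit false

/-!
# Representations of `sl₂`: hard Lefschetz

Let `(e, f, t)` be an `sl₂`-triple in `End V`, `V` finite-dimensional over the algebraically closed field
`K` of characteristic zero, `t` semisimple.

`IsTriple.eigenvalue_int`: the eigenvalues of `t` are integers.
`IsTriple.pow_injective`: `e ^ i` is injective on the eigenspace of `t` for `-i`.

Proof.  Induction on `dim V` (over all spaces `V`).  Let `V ≠ 0`.  `e` maps the `μ`-eigenspace of `t` to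
the `(μ + 2)`-eigenspace; as there are finitely many eigenvalues there is an eigenvector `u ≠ 0` of `t`,
`t u = m u`, with `e u = 0`.  By the usual formula `e f^k u = k (m - k + 1) f^(k-1) u` (and
`t f^k u = (m - 2k) f^k u`), and `f^k u = 0` for large `k`; the smallest such `k` gives `m = k - 1`, a
natural number (Mathlib: `IsSl2Triple.HasPrimitiveVectorWith.exists_nat`, `lie_e_pow_succ_toEnd_f`; the
direct proof is short).  So `f^(m+1) u = 0` and `V₁ := span (f^k u, 0 ≤ k ≤ m)` is stable under `e`, `f`,
`t`.  The triple acts on `V / V₁`, of smaller dimension (`Submodule.mapQ`; `t` is semisimple there too).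
* eigenvalues: an eigenvector `v` of `t` for `μ` is either in `V₁`, where the eigenvalues of `t` are
  the integers `m - 2k`, or gives an eigenvector in `V / V₁`.
* injectivity: let `t v = -i v`, `e ^ i v = 0`.  In `V / V₁` the image of `v` is zero by induction, so
  `v ∈ V₁`, the `-i`-eigenspace of `t` in `V₁` is spanned by `f^k u` with `m - 2k = -i` (or is zero), and
  `e ^ i f^k u` is a nonzero multiple of `f^(k-i) u = f^((m - i)/2) u ≠ 0` (as `k ≤ m`, the factors
  `j (m - j + 1)`, `k - i < j ≤ k`, are not zero).  So `v = 0`.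
-/

noncomputable section

namespace Pool.Agent.B4801bT

variable {K : Type*} [Field K] [IsAlgClosed K] [CharZero K] {V : Type*} [AddCommGroup V]
  [Module K V] [FiniteDimensional K V]

/-- The triple with `e` and `f` exchanged. -/
theorem SlInj_swap {e f t : Module.End K V} (h : IsTriple e f t) : IsTriple f e (-t) := by
  refine ⟨?_, ?_, ?_⟩
  · rw [← h.ef]; abel
  · have := h.tf
    calc -t * f - f * -t = -(t * f - f * t) := by noncomm_ring
      _ = (2 : K) • f := by rw [this, neg_neg]
  · have := h.te
    calc -t * e - e * -t = -(t * e - e * t) := by noncomm_ring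
      _ = -((2 : K) • e) := by rw [this]

theorem SlInj_te {e f t : Module.End K V} (h : IsTriple e f t) (w : V) :
    t (e w) = e (t w) + (2 : K) • e w := by
  have h1 := congrArg (fun x : Module.End K V => x w) h.te
  simp only [LinearMap.sub_apply, Module.End.mul_apply, LinearMap.smul_apply] at h1
  rw [← h1]; abel

theorem SlInj_fe {e f t : Module.End K V} (h : IsTriple e f t) (w : V) :
    f (e w) = e (f w) - t w := by
  have h1 := congrArg (fun x : Module.End K V => x w) h.ef
  simp only [LinearMap.sub_apply, Module.End.mul_apply] at h1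
  rw [← h1]; abel

theorem SlInj_pow_succ (e : Module.End K V) (j : ℕ) (w : V) :
    (e ^ (j + 1)) w = e ((e ^ j) w) := by
  rw [pow_succ', Module.End.mul_apply]

theorem SlInj_weight {e f t : Module.End K V} (h : IsTriple e f t) {w : V} {a : K}
    (hw : t w = a • w) (j : ℕ) : t ((e ^ j) w) = (a + 2 * j) • (e ^ j) w := by
  induction j with
  | zero => simp [hw]
  | succ j ih =>
    rw [SlInj_pow_succ, SlInj_te h, ih, map_smul, ← add_smul]
    congr 1
    push_cast
    ring

theorem SlInj_string {e f t : Module.End K V} (h : IsTriple e f t) {w : V} {a : K}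
    (hw : t w = a • w) (j : ℕ) :
    f ((e ^ (j + 1)) w) = (e ^ j) (f (e w)) - (j * a + j * (j + 1)) • (e ^ j) w := by
  induction j with
  | zero => simp
  | succ j ih =>
    rw [SlInj_pow_succ e (j + 1), SlInj_fe h, ih, SlInj_weight h hw, map_sub, map_smul,
      SlInj_pow_succ e j w, SlInj_pow_succ e j (f (e w)), sub_sub, ← add_smul]
    congr 2
    push_cast
    ring

/-- A chain `w, e w, e² w, ...` which starts at a weight vector stops. -/
theorem SlInj_stop {e f t : Module.End K V} (h : IsTriple e f t) {w : V} {a : K}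
    (hw : t w = a • w) (hw0 : w ≠ 0) : ∃ l : ℕ, (e ^ l) w ≠ 0 ∧ (e ^ (l + 1)) w = 0 := by
  by_contra hcon
  push Not at hcon
  have hne : ∀ l : ℕ, (e ^ l) w ≠ 0 := by
    intro l
    induction l with
    | zero => simpa using hw0
    | succ l ih => exact hcon l ih
  have hinj : Function.Injective (fun l : ℕ => a + 2 * (l : K)) := by
    intro x y hxy
    have h1 : (2 : K) * x = 2 * y := add_left_cancel hxy
    have h2 : (x : K) = y := mul_left_cancel₀ (by norm_num) h1
    exact_mod_cast h2
  have hfin : Set.Finite {μ : K | t.HasEigenvalue μ} := Module.End.finite_hasEigenvalue t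
  have hsub : Set.range (fun l : ℕ => a + 2 * (l : K)) ⊆ {μ : K | t.HasEigenvalue μ} := by
    rintro _ ⟨l, rfl⟩
    exact Module.End.hasEigenvalue_of_hasEigenvector
      ⟨Module.End.mem_eigenspace_iff.2 (SlInj_weight h hw l), hne l⟩
  exact (Set.infinite_range_of_injective hinj) (hfin.subset hsub)

theorem IsTriple.eigenvalue_int {e f t : Module.End K V} (h : IsTriple e f t)
    (ht : t.IsSemisimple) (μ : K) (v : V) (hv : t v = μ • v) (hv0 : v ≠ 0) :
    ∃ z : ℤ, μ = (z : K) := by
  obtain ⟨l, hl, hl1⟩ := SlInj_stop h hv hv0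
  set u : V := (e ^ l) v with hu
  have hu1 : e u = 0 := by rw [hu, ← SlInj_pow_succ]; exact hl1
  have htu : t u = (μ + 2 * l) • u := SlInj_weight h hv l
  have htu' : (-t) u = (-(μ + 2 * l)) • u := by rw [LinearMap.neg_apply, htu, neg_smul]
  have h' := SlInj_swap h
  obtain ⟨k, hk, hk1⟩ := SlInj_stop h' htu' hl
  have hs := SlInj_string h' htu' k
  rw [hk1, map_zero] at hs
  have hef : e (f u) = (μ + 2 * l) • u := by
    have := SlInj_fe h u
    rw [hu1, map_zero, htu] at this
    exact (sub_eq_zero.1 this.symm)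
  rw [hef, map_smul, ← sub_smul] at hs
  have hz := (smul_eq_zero.1 hs.symm).resolve_right hk
  have hfac : ((k : K) + 1) * (μ + 2 * l - k) = 0 := by
    rw [← hz]; ring
  have hk0 : ((k : K) + 1) ≠ 0 := by exact_mod_cast Nat.succ_ne_zero k
  have hm := (mul_eq_zero.1 hfac).resolve_left hk0
  refine ⟨(k : ℤ) - 2 * l, ?_⟩
  push_cast
  linear_combination hm

theorem IsTriple.pow_injective {e f t : Module.End K V} (h : IsTriple e f t)
    (ht : t.IsSemisimple) (i : ℕ) (v : V) (hv : t v = (-(i : K)) • v) (he : (e ^ i) v = 0) :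
    v = 0 := by
  by_contra hv0
  have hi : 1 ≤ i := by
    rcases Nat.eq_zero_or_pos i with rfl | hi
    · exact absurd (by simpa using he) hv0
    · exact hi
  obtain ⟨i', rfl⟩ : ∃ i', i = i' + 1 := ⟨i - 1, by omega⟩
  set a : K := -((i' + 1 : ℕ) : K) with ha
  set N : Submodule K V := LinearMap.ker (t - a • (1 : Module.End K V)) ⊓
    LinearMap.ker (e ^ (i' + 1)) with hN
  have memN : ∀ x : V, x ∈ N ↔ t x = a • x ∧ (e ^ (i' + 1)) x = 0 := by
    intro x
    rw [hN, Submodule.mem_inf, LinearMap.mem_ker, LinearMap.mem_ker]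
    simp only [LinearMap.sub_apply, LinearMap.smul_apply, Module.End.one_apply, sub_eq_zero]
  have hvN : v ∈ N := (memN v).2 ⟨hv, he⟩
  have hmaps : ∀ x ∈ N, (f * e) x ∈ N := by
    intro x hx
    obtain ⟨hx1, hx2⟩ := (memN x).1 hx
    refine (memN _).2 ⟨?_, ?_⟩
    · rw [Module.End.mul_apply]
      have h1 : t (e x) = (a + 2) • e x := by
        rw [SlInj_te h, hx1, map_smul, ← add_smul]
      have h2 := SlInj_te (SlInj_swap h) (e x)
      rw [LinearMap.neg_apply, LinearMap.neg_apply, h1, map_neg, map_smul] at h2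
      have h3 : t (f (e x)) = (a + 2) • f (e x) - (2 : K) • f (e x) := by
        rw [← neg_inj, h2]; abel
      rw [h3, ← sub_smul]
      congr 1
      ring
    · rw [Module.End.mul_apply]
      have h1 := SlInj_string h hx1 (i' + 1)
      rw [SlInj_pow_succ e (i' + 1), hx2, map_zero, map_zero, smul_zero, sub_zero] at h1
      exact h1.symm
  have : Nontrivial N := ⟨⟨⟨v, hvN⟩, 0, fun hh => hv0 (by simpa using congrArg Subtype.val hh)⟩⟩
  obtain ⟨c, hc⟩ := Module.End.exists_eigenvalue ((f * e).restrict hmaps)
  obtain ⟨w', hw'⟩ := hc.exists_hasEigenvector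
  have hw0 : (w' : V) ≠ 0 := fun hh => hw'.2 (by exact_mod_cast hh)
  obtain ⟨hw1, hw2⟩ := (memN w').1 w'.2
  have hcw : f (e (w' : V)) = c • (w' : V) := by
    have h1 := congrArg Subtype.val hw'.apply_eq_smul
    simpa using h1
  -- going up
  obtain ⟨k, hk, hk1⟩ := SlInj_stop h hw1 hw0
  have hki : k < i' + 1 := by
    by_contra hcon
    push Not at hcon
    apply hk
    obtain ⟨r, rfl⟩ := Nat.exists_eq_add_of_le hcon
    rw [add_comm, pow_add, Module.End.mul_apply, hw2, map_zero]
  have hs := SlInj_string h hw1 k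
  rw [hk1, map_zero, hcw, map_smul, ← sub_smul] at hs
  have hz := (smul_eq_zero.1 hs.symm).resolve_right hk
  -- going down
  have hw1' : (-t) (w' : V) = (-a) • (w' : V) := by
    rw [LinearMap.neg_apply, hw1]
    exact (neg_smul a (w' : V)).symm
  have h' := SlInj_swap h
  obtain ⟨l, hl, hl1⟩ := SlInj_stop h' hw1' hw0
  have hs' := SlInj_string h' hw1' l
  have hef : e (f (w' : V)) = (c + a) • (w' : V) := by
    have h1 := SlInj_fe h (w' : V)
    rw [hcw, hw1] at h1
    rw [add_smul, h1]; abel
  rw [hl1, map_zero, hef, map_smul, ← sub_smul] at hs'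
  have hz' := (smul_eq_zero.1 hs'.symm).resolve_right hl
  have hfin : ((l : K) + 1) * (l + (i' + 1)) + k * (i' - k) = 0 := by
    have ha' : a = -((i' : K) + 1) := by rw [ha]; push_cast; ring
    rw [ha'] at hz hz'
    linear_combination hz - hz'
  obtain ⟨r, hr⟩ := Nat.exists_eq_add_of_lt hki
  have hr' : (i' : K) = k + r := by
    have : i' = k + r := by omega
    rw [this]; push_cast; ring
  have hfin2 : ((((l + 1) * (l + (i' + 1)) + k * r : ℕ)) : K) = 0 := by
    push_cast
    rw [← hfin, hr']
    ring
  have hnat : (l + 1) * (l + (i' + 1)) + k * r = 0 := by exact_mod_cast hfin2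
  have : 0 < (l + 1) * (l + (i' + 1)) := by positivity
  omega

end Pool.Agent.B4801bT
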