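import Pool.Agent.W_b4801b_h32.SlInj
import Pool.Agent.W_b4801b_h32.Regular

set_option autoImplicit false

/-!
# A subspace stable under `e` and `t` with `tr (t | W) = 0` is stable under `f`

Theorem: let `(e, f, t)` be an `sl₂`-triple in `End V` with `t` semisimple, `W` a subspace stable under
`e` and `t` with `tr (t | W) = 0`.  Then `W` is stable under `f`.

Proof.  Let `V_i` be the eigenspace of `t` for the integer `i`, `W_i = W ∩ V_i`; by
`eigenvalue_int` and since `t` is semisimple `W` is the direct sum of the `W_i` (finitely many are not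
zero), and `tr (t | W) = ∑ i dim W_i = ∑_{i ≥ 1} i (dim W_i - dim W_{-i})`.  For `i ≥ 0` the map
`e ^ i : W_{-i} → W_i` is injective (`pow_injective`), so `dim W_{-i} ≤ dim W_i`, and as the trace is zero
(characteristic zero) equality holds for all `i`, so `e ^ i W_{-i} = W_i`.
(1) Let `i ≥ 0`, `v ∈ V_{-i}` with `e ^ (i+1) v = 0`.  Then `f v = 0`: `f v ∈ V_{-i-2}` and
`e ^ (i+2) f v = f e ^ (i+2) v + (i+2) e ^ (i+1) (t + (i+1)) v = 0` (formula
`[e ^ j, f] = j e ^ (j-1) (t + (j-1))`; `t v = -i v`, so the second term is `(i+2) e ^ (i+1) v = 0` too),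
so `f v = 0` by `pow_injective`.
(2) Let `i ≥ 0`, `w ∈ W_{-i}`; then `f w ∈ W`, by induction from large `i` (where `W_{-i} = 0`) downwards:
`e ^ (i+1) w ∈ W_{i+2} = e ^ (i+2) W_{-i-2}`, so there is `w' ∈ W_{-i-2}` with
`e ^ (i+1) (w - e w') = 0`; by (1) `f w = f e w' = e f w' - t w'`, and `f w' ∈ W` by induction.
(3) Let `i ≥ 1`, `w ∈ W_i`, `w = e ^ i w''` with `w'' ∈ W_{-i}`; `f w = e ^ i f w'' - i e ^ (i-1)
(t + (i-1)) w''` lies in `W` by (2).
Since `W` is spanned by the `W_i` (`eig_induction` with `A = t`) the theorem follows.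
-/

noncomputable section

namespace Pool.Agent.B4801bT

variable {K : Type*} [Field K] [IsAlgClosed K] [CharZero K] {V : Type*} [AddCommGroup V]
  [Module K V] [FiniteDimensional K V]

omit [IsAlgClosed K] [FiniteDimensional K V] in
/-- `e ^ (j+1) f = f e ^ (j+1) + (j+1) e ^ j t + (j+1) j e ^ j`. -/
theorem SlStable_comm {e f t : Module.End K V} (h : IsTriple e f t) (j : ℕ) :
    e ^ (j + 1) * f = f * e ^ (j + 1) + ((j : K) + 1) • (e ^ j * t) +
      (((j : K) + 1) * (j : K)) • e ^ j := by
  have h1 : e * f = f * e + t := by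
    have := h.ef
    rw [← this]; abel
  have h2 : t * e = e * t + (2 : K) • e := by
    have := h.te
    rw [← this]; abel
  have h3 : ∀ j : ℕ, t * e ^ j = e ^ j * t + (2 * (j : K)) • e ^ j := by
    intro j
    induction j with
    | zero => simp
    | succ j ih =>
      rw [pow_succ, ← mul_assoc, ih, add_mul, mul_assoc, h2, mul_add, mul_smul_comm, smul_mul_assoc,
        ← mul_assoc, ← pow_succ, add_assoc, ← add_smul]
      congr 2
      push_cast
      ring
  induction j with
  | zero => simp [h1]
  | succ j ih =>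
    rw [pow_succ' e (j + 1), mul_assoc, ih, mul_add, mul_add, ← mul_assoc e f, h1, add_mul,
      mul_smul_comm, mul_smul_comm, ← mul_assoc e (e ^ j) t, ← pow_succ', h3 (j + 1), mul_assoc]
    push_cast
    module

theorem SlStable_f_zero {e f t : Module.End K V} (h : IsTriple e f t) (ht : t.IsSemisimple)
    (i : ℕ) (v : V) (hv : t v = (-(i : K)) • v) (he : (e ^ (i + 1)) v = 0) : f v = 0 := by
  have h1 : t (f v) = (-((i + 2 : ℕ) : K)) • f v := by
    have h2 := congrArg (fun g : Module.End K V => g v) h.tf
    simp only [LinearMap.sub_apply, Module.End.mul_apply, LinearMap.neg_apply,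
      LinearMap.smul_apply] at h2
    have h3 : t (f v) = f (t v) - (2 : K) • f v := by
      rw [sub_eq_iff_eq_add] at h2
      rw [h2]; abel
    rw [h3, hv, map_smul]
    push_cast
    module
  apply h.pow_injective ht (i + 2) (f v) h1
  have h2 := congrArg (fun g : Module.End K V => g v) (SlStable_comm h (i + 1))
  simp only [LinearMap.add_apply, Module.End.mul_apply, LinearMap.smul_apply] at h2
  have h4 : (e ^ (i + 1 + 1)) v = 0 := by
    rw [pow_succ', Module.End.mul_apply, he, map_zero]
  rw [h4, map_zero, hv, map_smul, he, smul_zero, smul_zero, smul_zero, add_zero, add_zero] at h2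
  exact h2

omit [IsAlgClosed K] [FiniteDimensional K V] in
theorem SlStable_e_pow {e f t : Module.End K V} (h : IsTriple e f t) (μ : K) (v : V)
    (hv : t v = μ • v) (j : ℕ) : t ((e ^ j) v) = (μ + 2 * (j : K)) • (e ^ j) v := by
  induction j with
  | zero => simp [hv]
  | succ j ih =>
    have h2 := congrArg (fun g : Module.End K V => g ((e ^ j) v)) h.te
    simp only [LinearMap.sub_apply, Module.End.mul_apply, LinearMap.smul_apply] at h2
    rw [pow_succ', Module.End.mul_apply]
    rw [sub_eq_iff_eq_add] at h2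
    rw [h2, ih, map_smul]
    push_cast
    module

/-- The dimension count: `e ^ i` maps `W_{-i}` onto `W_i`. -/
theorem SlStable_surj {e f t : Module.End K V} (h : IsTriple e f t)
    (ht : t.IsSemisimple) (W : Submodule K V) (hWe : ∀ v ∈ W, e v ∈ W) (hWt : ∀ v ∈ W, t v ∈ W)
    (htr : LinearMap.trace K W (t.restrict hWt) = 0) (i : ℕ) (w : V) (hw : w ∈ W)
    (hwt : t w = (i : K) • w) : ∃ w' ∈ W, t w' = (-(i : K)) • w' ∧ (e ^ i) w' = w := by
  classical
  set T : Module.End K W := t.restrict hWt with hT
  set N : ℤ → Submodule K W := fun z => Module.End.eigenspace T (z : K) with hN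
  have hTs : T.IsSemisimple := by
    have h1 : t.IsFinitelySemisimple := Module.End.isFinitelySemisimple_iff_isSemisimple.mpr ht
    have h2 := Module.End.isFinitelySemisimple_iff'.mp h1 W hWt inferInstance
    exact h2
  have hind : iSupIndep N := (Module.End.eigenspaces_iSupIndep T).comp Int.cast_injective
  have hmem : ∀ (z : ℤ) (x : W), x ∈ N z ↔ t (x : V) = (z : K) • (x : V) := by
    intro z x
    rw [hN, Module.End.mem_eigenspace_iff, Subtype.ext_iff]
    rfl
  have htop : (⨆ z, N z) = ⊤ := by
    rw [eq_top_iff, ← hTs.iSup_eigenspace_eq_top]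
    apply iSup_le
    intro μ x hx
    by_cases hx0 : x = 0
    · rw [hx0]; exact Submodule.zero_mem _
    · rw [Module.End.mem_eigenspace_iff, Subtype.ext_iff] at hx
      have hx' : t (x : V) = μ • (x : V) := hx
      obtain ⟨z, hz⟩ := h.eigenvalue_int ht μ x hx' (by
        intro h0
        exact hx0 (Subtype.ext h0))
      apply Submodule.mem_iSup_of_mem z
      rw [hmem, hx', hz]
  have hint : DirectSum.IsInternal N :=
    DirectSum.isInternal_submodule_of_iSupIndep_of_iSup_eq_top hind htop
  have hfin : {z | N z ≠ ⊥}.Finite := WellFoundedGT.finite_ne_bot_of_iSupIndep hind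
  have hmaps : ∀ z, Set.MapsTo T (N z) (N z) := by
    intro z x hx
    have hx' : T x = (z : K) • x := Module.End.mem_eigenspace_iff.mp hx
    show T x ∈ N z
    rw [hx']
    exact (N z).smul_mem _ hx
  have htrace := LinearMap.trace_eq_sum_trace_restrict' hint hfin hmaps
  have hloc : ∀ z : ℤ, LinearMap.trace K (N z) (T.restrict (hmaps z)) =
      ((z * (Module.finrank K (N z) : ℤ) : ℤ) : K) := by
    intro z
    have h1 : T.restrict (hmaps z) = (z : K) • LinearMap.id := by
      ext x
      have hx' : T (x : W) = (z : K) • (x : W) := Module.End.mem_eigenspace_iff.mp x.2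
      show ((T (x : W) : W) : V) = (((z : K) • (x : W) : W) : V)
      rw [hx']
    rw [h1, map_smul, LinearMap.trace_id, smul_eq_mul]
    push_cast
    rfl
  set d : ℤ → ℤ := fun z => (Module.finrank K (N z) : ℤ) with hd
  have hsum0 : ∑ z ∈ hfin.toFinset, z * d z = 0 := by
    have h1 : (((∑ z ∈ hfin.toFinset, z * d z : ℤ)) : K) = 0 := by
      rw [← htr, htrace, Int.cast_sum]
      exact Finset.sum_congr rfl fun z _ => (hloc z).symm
    exact_mod_cast h1
  have hdz : ∀ z, z ∉ hfin.toFinset → d z = 0 := by
    intro z hz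
    have h1 : N z = ⊥ := by
      by_contra h2
      exact hz (by rw [Set.Finite.mem_toFinset]; exact h2)
    simp only [hd]
    rw [h1]
    simp
  -- a symmetric finite set
  set S : Finset ℤ := hfin.toFinset ∪ hfin.toFinset.image (fun z => -z) with hS
  have hSsym : S.image (fun z => -z) = S := by
    rw [hS, Finset.image_union, Finset.image_image]
    have : ((fun z : ℤ => -z) ∘ fun z => -z) = id := by funext z; simp
    rw [this, Finset.image_id, Finset.union_comm]
  have hsum1 : ∑ z ∈ S, z * d z = 0 := by
    rw [← hsum0]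
    symm
    apply Finset.sum_subset Finset.subset_union_left
    intro z _ hz
    rw [hdz z hz, mul_zero]
  have hsum2 : ∑ z ∈ S, (-z) * d (-z) = 0 := by
    rw [← hsum1]
    conv_rhs => rw [← hSsym]
    rw [Finset.sum_image (by intro a _ b _ hab; simpa using hab)]
  have hsum3 : ∑ z ∈ S, z * (d z - d (-z)) = 0 := by
    have : ∑ z ∈ S, z * (d z - d (-z)) = ∑ z ∈ S, z * d z + ∑ z ∈ S, (-z) * d (-z) := by
      rw [← Finset.sum_add_distrib]
      exact Finset.sum_congr rfl fun z _ => by ring
    rw [this, hsum1, hsum2, add_zero]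
  -- the map `e ^ i`
  have hWpow : ∀ (j : ℕ) (v : V), v ∈ W → (e ^ j) v ∈ W := by
    intro j
    induction j with
    | zero => intro v hv; simpa using hv
    | succ j ih =>
      intro v hv
      rw [pow_succ', Module.End.mul_apply]
      exact hWe _ (ih v hv)
  set F : ℕ → Module.End K W := fun j => (e ^ j).restrict (hWpow j) with hF
  have hFm : ∀ (j : ℕ), ∀ x ∈ N (-(j : ℤ)), F j x ∈ N (j : ℤ) := by
    intro j x hx
    rw [hmem] at hx ⊢
    have h1 := SlStable_e_pow h _ _ hx j
    show t ((e ^ j) (x : V)) = _ • (e ^ j) (x : V)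
    rw [h1]
    congr 1
    push_cast
    ring
  have hFinj : ∀ j : ℕ, Function.Injective ((F j).restrict (hFm j)) := by
    intro j
    rw [← LinearMap.ker_eq_bot, LinearMap.ker_eq_bot']
    intro x hx
    have h1 : (e ^ j) ((x : W) : V) = 0 := by
      have := congrArg (fun y : N (j : ℤ) => ((y : W) : V)) hx
      exact this
    have h2 := (hmem _ _).mp x.2
    have h3 := h.pow_injective ht j ((x : W) : V) (by rw [h2]; push_cast; rfl) h1
    exact Subtype.ext (Subtype.ext h3)
  have hle : ∀ j : ℕ, d (-(j : ℤ)) ≤ d j := by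
    intro j
    have := LinearMap.finrank_le_finrank_of_injective (hFinj j)
    exact Int.ofNat_le.mpr this
  have hterm : ∀ z ∈ S, 0 ≤ z * (d z - d (-z)) := by
    intro z _
    rcases le_total 0 z with hz | hz
    · obtain ⟨j, rfl⟩ := Int.eq_ofNat_of_zero_le hz
      exact mul_nonneg hz (sub_nonneg.mpr (hle j))
    · obtain ⟨j, hj⟩ := Int.eq_ofNat_of_zero_le (neg_nonneg.mpr hz)
      have hz' : z = -(j : ℤ) := by omega
      rw [hz', neg_neg]
      have := hle j
      nlinarith [Int.natCast_nonneg j]
  have hall := (Finset.sum_eq_zero_iff_of_nonneg hterm).mp hsum3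
  have heq : d (-(i : ℤ)) = d i := by
    rcases Nat.eq_zero_or_pos i with h0 | h0
    · subst h0; simp
    · by_cases hiS : (i : ℤ) ∈ S
      · have h1 := hall _ hiS
        rcases mul_eq_zero.mp h1 with h2 | h2
        · omega
        · omega
      · have h1 : (i : ℤ) ∉ hfin.toFinset := fun hh => hiS (Finset.mem_union_left _ hh)
        have h2 : -(i : ℤ) ∉ hfin.toFinset := fun hh => hiS (Finset.mem_union_right _ (by
          rw [Finset.mem_image]
          exact ⟨_, hh, neg_neg _⟩))
        rw [hdz _ h1, hdz _ h2]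
  have hsurj : Function.Surjective ((F i).restrict (hFm i)) := by
    rw [← LinearMap.injective_iff_surjective_of_finrank_eq_finrank]
    · exact hFinj i
    · have := heq
      simp only [hd] at this
      exact_mod_cast this
  have hwN : (⟨w, hw⟩ : W) ∈ N (i : ℤ) := by
    rw [hmem]
    rw [hwt]
    push_cast
    rfl
  obtain ⟨x, hx⟩ := hsurj ⟨⟨w, hw⟩, hwN⟩
  refine ⟨((x : W) : V), (x : W).2, ?_, ?_⟩
  · have h2 := (hmem _ _).mp x.2
    rw [h2]
    push_cast
    rfl
  · have := congrArg (fun y : N (i : ℤ) => ((y : W) : V)) hx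
    exact this

omit [IsAlgClosed K] in
/-- There are only finitely many eigenvalues: `W_{-i} = 0` for large `i`. -/
theorem SlStable_large {t : Module.End K V} : ∃ B : ℕ, ∀ i : ℕ, B ≤ i → ∀ v : V,
    t v = (-(i : K)) • v → v = 0 := by
  classical
  have hind : iSupIndep (fun z : ℕ => Module.End.eigenspace t (-(z : K))) :=
    (Module.End.eigenspaces_iSupIndep t).comp
      (fun a b hab => by
        have : (a : K) = b := neg_injective hab
        exact_mod_cast this)
  have hfin : {z : ℕ | Module.End.eigenspace t (-(z : K)) ≠ ⊥}.Finite :=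
    WellFoundedGT.finite_ne_bot_of_iSupIndep hind
  obtain ⟨B, hB⟩ := hfin.bddAbove
  refine ⟨B + 1, fun i hi v hv => ?_⟩
  by_contra h0
  have h1 : i ∈ {z : ℕ | Module.End.eigenspace t (-(z : K)) ≠ ⊥} := by
    show Module.End.eigenspace t (-(i : K)) ≠ ⊥
    rw [Submodule.ne_bot_iff]
    exact ⟨v, Module.End.mem_eigenspace_iff.mpr hv, h0⟩
  have := hB h1
  omega

theorem IsTriple.stable_of_trace_eq_zero {e f t : Module.End K V} (h : IsTriple e f t)
    (ht : t.IsSemisimple) (W : Submodule K V) (hWe : ∀ v ∈ W, e v ∈ W) (hWt : ∀ v ∈ W, t v ∈ W)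
    (htr : LinearMap.trace K W (t.restrict hWt) = 0) : ∀ v ∈ W, f v ∈ W := by
  have hsurj := SlStable_surj h ht W hWe hWt htr
  have hWpow : ∀ (j : ℕ) (v : V), v ∈ W → (e ^ j) v ∈ W := by
    intro j
    induction j with
    | zero => intro v hv; simpa using hv
    | succ j ih =>
      intro v hv
      rw [pow_succ', Module.End.mul_apply]
      exact hWe _ (ih v hv)
  obtain ⟨B, hB⟩ := SlStable_large (t := t)
  -- step (2)
  have hneg : ∀ n i : ℕ, B ≤ i + n → ∀ w ∈ W, t w = (-(i : K)) • w → f w ∈ W := by
    intro n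
    induction n using Nat.strong_induction_on with
    | _ n ih =>
      intro i hi w hw hwt
      by_cases hBi : B ≤ i
      · rw [hB i hBi w hwt, map_zero]; exact W.zero_mem
      · have h1 : t ((e ^ (i + 1)) w) = ((i + 2 : ℕ) : K) • (e ^ (i + 1)) w := by
          rw [SlStable_e_pow h _ _ hwt (i + 1)]
          congr 1
          push_cast
          ring
        obtain ⟨w', hw', hw't, hw'e⟩ := hsurj (i + 2) _ (hWpow (i + 1) w hw) h1
        have hfw' : f w' ∈ W := by
          rcases Nat.lt_or_ge n 2 with hn | hn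
          · exact ih 0 (by omega) (i + 2) (by omega) w' hw' hw't
          · exact ih (n - 2) (by omega) (i + 2) (by omega) w' hw' hw't
        have hew' : t (e w') = (-(i : K)) • e w' := by
          have := SlStable_e_pow h _ _ hw't 1
          rw [pow_one] at this
          rw [this]
          congr 1
          push_cast
          ring
        have h2 : f (w - e w') = 0 := by
          apply SlStable_f_zero h ht i
          · rw [map_sub, hwt, hew', smul_sub]
          · rw [map_sub, ← Module.End.mul_apply, ← pow_succ, hw'e, sub_self]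
        have h3 : f w = e (f w') - t w' := by
          have h4 : f w = f (e w') := by
            rw [map_sub] at h2
            exact sub_eq_zero.mp h2
          have h5 := congrArg (fun g : Module.End K V => g w') h.ef
          simp only [LinearMap.sub_apply, Module.End.mul_apply] at h5
          rw [h4, ← h5]
          abel
        rw [h3]
        exact W.sub_mem (hWe _ hfw') (hWt _ hw')
  have hneg' : ∀ i : ℕ, ∀ w ∈ W, t w = (-(i : K)) • w → f w ∈ W := fun i w hw hwt =>
    hneg B i (by omega) w hw hwt
  -- step (3)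
  have hpos : ∀ i : ℕ, ∀ w ∈ W, t w = (i : K) • w → f w ∈ W := by
    intro i w hw hwt
    obtain ⟨w', hw', hw't, hw'e⟩ := hsurj i w hw hwt
    rcases Nat.eq_zero_or_pos i with h0 | h0
    · subst h0
      apply hneg' 0 w hw
      rw [hwt]
      simp
    · obtain ⟨j, rfl⟩ : ∃ j, i = j + 1 := ⟨i - 1, by omega⟩
      have h5 := congrArg (fun g : Module.End K V => g w') (SlStable_comm h j)
      simp only [LinearMap.add_apply, Module.End.mul_apply, LinearMap.smul_apply] at h5
      rw [hw'e] at h5
      have h6 : f w = (e ^ (j + 1)) (f w') - ((j : K) + 1) • (e ^ j) (t w') -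
          (((j : K) + 1) * (j : K)) • (e ^ j) w' := by
        rw [h5]; abel
      rw [h6]
      exact W.sub_mem (W.sub_mem (hWpow _ _ (hneg' _ w' hw' hw't))
        (W.smul_mem _ (hWpow _ _ (hWt _ hw')))) (W.smul_mem _ (hWpow _ _ hw'))
  have key : W ≤ W.comap f := by
    apply eig_induction t ht W (W.comap f) hWt
    intro μ u hu hut
    rw [Submodule.mem_comap]
    by_cases hu0 : u = 0
    · rw [hu0, map_zero]; exact W.zero_mem
    · obtain ⟨z, hz⟩ := h.eigenvalue_int ht μ u hut hu0
      rcases le_total 0 z with hz0 | hz0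
      · obtain ⟨j, rfl⟩ := Int.eq_ofNat_of_zero_le hz0
        apply hpos j u hu
        rw [hut, hz]
        push_cast
        rfl
      · obtain ⟨j, hj⟩ := Int.eq_ofNat_of_zero_le (neg_nonneg.mpr hz0)
        apply hneg' j u hu
        rw [hut, hz]
        have : z = -(j : ℤ) := by omega
        rw [this]
        push_cast
        rfl
  exact fun v hv => key hv

end Pool.Agent.B4801bT
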