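import Pool.Agent.W_b4801b_h32.Triple
import Pool.Agent.W_b4801b_h32.SlStable

set_option autoImplicit false

/-!
# The stabilizer of a balanced subspace is reductive

Theorem: `g`, `H` as in `Cent`.  Let `W` be a subspace of `V` stable under `H` with
`dim V · tr (h | W) = dim W · tr h` for all `h ∈ H`.  Then `Red (stab g W) H`: the stabilizer of `W` in
`g` has nondegenerate trace form, contains `H` as its own centralizer, and each weight vector which does
not commute with `H` is part of an `sl₂`-triple in it.

Proof.  `p := stab g W`.  `lie`, `le`, `ss`, `comm` are clear, `cent` is `mem_of_forall_commute`.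
`triple`: let `e ∈ p` be a weight vector not commuting with `H`.  Take `f`, `t` from `exists_triple`.
`tr t = tr (e f - f e) = 0`, so `dim V · tr (t | W) = 0`; `dim V ≠ 0` as `e ≠ 0`; so `tr (t | W) = 0` and
`W` is stable under `f` by `IsTriple.stable_of_trace_eq_zero`: `f ∈ p`.
`nondeg`: let `x ∈ p` with `tr (x y) = 0` for all `y ∈ p`.  The set `U` of all such `x` is a subspace
stable under commutators with `H` (`tr ([h, x] y) = tr (x [y, h])` up to sign, `[y, h] ∈ p`), so by
`wt_induction` (`C = ⊥`) it is enough to prove `x = 0` for a weight vector `x ∈ U`.  If `x` does not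
commute with `H`, the `f` above has `f ∈ p`, `tr (x f) ≠ 0`, contradiction.  If `x` commutes with `H` then
`x ∈ H`.  By `nondeg` for `g` it is enough that `tr (x z) = 0` for all `z ∈ g`, and by `wt_induction` for
weight vectors `z ∈ g`.  If `[h, z] = ν z`, `ν ≠ 0` for some `h ∈ H`: `ν tr (x z) = tr (x [h, z]) = 0` as
`x` commutes with `h`.  Otherwise `z` commutes with `H`, so `z ∈ H ≤ p` and `tr (x z) = 0`.
-/

noncomputable section

namespace Pool.Agent.B4801bT

variable {K : Type*} [Field K] [IsAlgClosed K] [CharZero K] {V : Type*} [AddCommGroup V]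
  [Module K V] [FiniteDimensional K V]

/-- The linear form `z ↦ tr (x z)`. -/
def StabRed_form (x : Module.End K V) : Module.End K V →ₗ[K] K :=
  (LinearMap.trace K V).comp (LinearMap.mulLeft K x)

omit [IsAlgClosed K] [CharZero K] [FiniteDimensional K V] in
theorem StabRed_form_apply (x z : Module.End K V) :
    StabRed_form x z = LinearMap.trace K V (x * z) := rfl

omit [IsAlgClosed K] [CharZero K] [FiniteDimensional K V] in
theorem StabRed_lie {g : Submodule K (Module.End K V)} (hg : AlgLie g) (W : Submodule K V)
    {x y : Module.End K V} (hx : x ∈ stab g W) (hy : y ∈ stab g W) :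
    x * y - y * x ∈ stab g W := by
  refine ⟨hg.lie x hx.1 y hy.1, fun v hv => ?_⟩
  rw [LinearMap.sub_apply]
  exact W.sub_mem (hx.2 _ (hy.2 v hv)) (hy.2 _ (hx.2 v hv))

omit [IsAlgClosed K] [CharZero K] [FiniteDimensional K V] in
/-- `tr ((h u - u h) y) = tr (u (y h - h y))`. -/
theorem StabRed_tr (h u y : Module.End K V) :
    LinearMap.trace K V ((h * u - u * h) * y) = LinearMap.trace K V (u * (y * h - h * y)) := by
  have e1 : LinearMap.trace K V (h * u * y) = LinearMap.trace K V (u * y * h) := by
    rw [mul_assoc, LinearMap.trace_mul_comm]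
  rw [sub_mul, mul_sub, map_sub, map_sub, e1, mul_assoc u y h, mul_assoc u h y]

theorem red_stab {g H : Submodule K (Module.End K V)} (hg : AlgLie g)
    (hH : MaxTorus g H) (W : Submodule K V) (hW : ∀ h ∈ H, ∀ v ∈ W, h v ∈ W)
    (hsl : ∀ (h : Module.End K V) (hh : h ∈ H), (Module.finrank K V : K) *
      LinearMap.trace K W (h.restrict (hW h hh)) =
        (Module.finrank K W : K) * LinearMap.trace K V h) :
    Red (stab g W) H := by
  have hle : H ≤ stab g W := fun h hh => ⟨hH.le hh, hW h hh⟩
  have hcent : ∀ x ∈ stab g W, (∀ h ∈ H, Commute h x) → x ∈ H :=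
    fun x hx hc => mem_of_forall_commute hg hH x hx.1 hc
  have htriple : ∀ e ∈ stab g W, IsWt H e → (∃ h ∈ H, ¬ Commute h e) →
      ∃ f ∈ stab g W, ∃ t ∈ H, IsTriple e f t ∧ LinearMap.trace K V (e * f) ≠ 0 := by
    intro e he hwt hne
    obtain ⟨f, hf, t, ht, htrip, htr⟩ := exists_triple hg hH e he.1 hwt hne
    refine ⟨f, ⟨hf, ?_⟩, t, ht, htrip, htr⟩
    refine htrip.stable_of_trace_eq_zero (hH.ss t ht) W he.2 (hW t ht) ?_
    have h0 : LinearMap.trace K V t = 0 := by
      rw [← htrip.ef, map_sub, LinearMap.trace_mul_comm, sub_self]
    have h1 := hsl t ht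
    rw [h0, mul_zero] at h1
    rcases mul_eq_zero.1 h1 with h2 | h2
    · exfalso
      have h3 : Module.finrank K V = 0 := by exact_mod_cast h2
      have h4 : Subsingleton V := Module.finrank_zero_iff.1 h3
      apply htr
      have h5 : e * f = 0 := LinearMap.ext fun v => Subsingleton.elim _ _
      rw [h5, map_zero]
    · exact h2
  refine ⟨fun x hx y hy => StabRed_lie hg W hx hy, hle, hH.ss, hH.comm, hcent, htriple, ?_⟩
  intro x hx hxy
  let U : Submodule K (Module.End K V) :=
    { carrier := {x | x ∈ stab g W ∧ ∀ y ∈ stab g W, LinearMap.trace K V (x * y) = 0}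
      add_mem' := fun {a b} ha hb => ⟨(stab g W).add_mem ha.1 hb.1, fun y hy => by
        rw [add_mul, map_add, ha.2 y hy, hb.2 y hy, add_zero]⟩
      zero_mem' := ⟨(stab g W).zero_mem, fun y _ => by rw [zero_mul, map_zero]⟩
      smul_mem' := fun c a ha => ⟨(stab g W).smul_mem c ha.1, fun y hy => by
        rw [smul_mul_assoc, map_smul, ha.2 y hy, smul_zero]⟩ }
  have hU : U ≤ ⊥ := by
    apply wt_induction H U ⊥ hH.ss hH.comm
    · intro h hh u hu
      refine ⟨StabRed_lie hg W (hle hh) hu.1, fun y hy => ?_⟩
      rw [StabRed_tr]
      exact hu.2 _ (StabRed_lie hg W hy (hle hh))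
    · intro u hu hwt
      rw [Submodule.mem_bot]
      by_cases hne : ∃ h ∈ H, ¬ Commute h u
      · exfalso
        obtain ⟨f, hf, t, ht, -, htr⟩ := htriple u hu.1 hwt hne
        exact htr (hu.2 f hf)
      · push Not at hne
        apply hg.nondeg u hu.1.1
        have hker : g ≤ LinearMap.ker (StabRed_form u) := by
          apply wt_induction H g _ hH.ss hH.comm
          · intro h hh z hz
            exact hg.lie h (hH.le hh) z hz
          · intro z hz hzwt
            rw [LinearMap.mem_ker, StabRed_form_apply]
            by_cases hnz : ∃ h ∈ H, ¬ Commute h z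
            · obtain ⟨h, hh, hhz⟩ := hnz
              obtain ⟨ν, hν⟩ := hzwt h hh
              have hν0 : ν ≠ 0 := by
                rintro rfl
                apply hhz
                rw [zero_smul, sub_eq_zero] at hν
                exact hν
              have e1 : ν * LinearMap.trace K V (u * z) = 0 := by
                have e2 : LinearMap.trace K V (u * (h * z - z * h)) =
                    ν * LinearMap.trace K V (u * z) := by
                  rw [hν, mul_smul_comm, map_smul, smul_eq_mul]
                rw [← e2, ← StabRed_tr z u h]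
                have e3 := StabRed_tr h u z
                have e4 : h * u - u * h = 0 := by
                  rw [sub_eq_zero]; exact hne h hh
                rw [e4, zero_mul, map_zero] at e3
                have e5 : LinearMap.trace K V (u * (h * z - z * h)) = 0 := by
                  have : u * (h * z - z * h) = - (u * (z * h - h * z)) := by
                    rw [← mul_neg, neg_sub]
                  rw [this, map_neg, ← e3, neg_zero]
                rw [StabRed_tr z u h]
                exact e5
              exact (mul_eq_zero.1 e1).resolve_left hν0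
            · push Not at hnz
              have hzH : z ∈ H := mem_of_forall_commute hg hH z hz hnz
              exact hu.2 z (hle hzH)
        intro y hy
        exact hker hy
  have := hU (show x ∈ U from ⟨hx, hxy⟩)
  exact this

end Pool.Agent.B4801bT
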