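import Pool.Agent.W_b4801b_h32.Defs
import Pool.Agent.W_MP_b4801b_h67.Defs2

set_option autoImplicit false

/-!
# Compatible systems with rational tensors

The data for the maximal torus criterion of `MP_b4801b_ag`.
-/

noncomputable section

open Polynomial Pool.Agent.B4801b

universe u v

namespace Pool.Agent.B4801bT

/-- The matrix of the endomorphism `f` of `V` in the basis `b`. -/
abbrev coordMat {K : Type*} [Field K] {V : Type*} [AddCommGroup V] [Module K V] {n : ℕ}
    (b : Module.Basis (Fin n) K V) (f : Module.End K V) : Mat n K :=
  LinearMap.toMatrix b b f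

/-- The tensor power of the matrix `A` over `K` commutes with the rational tensor `t`. -/
abbrev Fixes {K : Type*} [Field K] [Algebra ℚ K] {n : ℕ} (A : Mat n K)
    (t : Σ a : ℕ, TMat a n ℚ) : Prop :=
  tp t.1 A * t.2.map (algebraMap ℚ K) = t.2.map (algebraMap ℚ K) * tp t.1 A

/-- The rational tensor `t`, regarded as an operator on a tensor power of the representation `ρ` with the help
of the basis `b`, commutes with the elements of a subgroup of finite index. -/
abbrev PotFixed {K : Type*} [Field K] [Algebra ℚ K] {V : Type*} [AddCommGroup V] [Module K V]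
    {G : Type*} [Group G] {n : ℕ} (b : Module.Basis (Fin n) K V) (ρ : Representation K G V)
    (t : Σ a : ℕ, TMat a n ℚ) : Prop :=
  ∃ Γ : Subgroup G, Γ.FiniteIndex ∧ ∀ σ ∈ Γ, Fixes (coordMat b (ρ σ)) t

/-- A common rational structure on the spaces `V_ℓ` of a compatible system and a set of rational tensors
which are potentially fixed by the Galois group: a number `n`, for every prime `ℓ` a basis of `V_ℓ` with `n`
elements, and a set `T` of rational endomorphisms of tensor powers `(ℚ ^ n)^{⊗ a}` (`a` may vary), such that for
every `ℓ` every `t ∈ T`, regarded as an endomorphism of `V_ℓ^{⊗ a}` with the help of the basis, commutes with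
the elements of a subgroup of finite index of the Galois group (which may depend on `t` and `ℓ`).

For a smooth projective variety `X` over a subfield `k` of `ℂ`, `V_ℓ = H^w(X ×_k k̄, ℚ_ℓ)`: choose a basis
of `H^w(X(ℂ), ℚ)` (comparison theorem), and let `T` be the set of all algebraic, motivated or absolute Hodge
classes in `End (H^w(X(ℂ), ℚ)^{⊗ a})` for all `a`. -/
structure TensorData {k : Type u} [Field k] {w : ℕ} (S : CompSys.{u, v} k w) where
  /-- the dimension of the `V_ℓ` -/
  n : ℕ
  /-- the basis of `V_ℓ` -/
  basis : ∀ (ℓ : ℕ) [Fact ℓ.Prime], Module.Basis (Fin n) ℚ_[ℓ] (S.rep ℓ).V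
  /-- the rational tensors -/
  T : TensorSet n
  fixed : ∀ (ℓ : ℕ) [Fact ℓ.Prime], ∀ t ∈ T, PotFixed (basis ℓ) (S.rep ℓ).ρ t

/-- The condition at a place with Frobenius polynomial `P` for the field `F` of the determinants: `F` embeds
into the real numbers, or every element of the group generated by the quotients of the complex roots of `P`
all of whose conjugates lie in `F` is a root of unity. -/
def RootCond (F : Type*) [Field F] [Algebra ℚ F] (P : ℚ[X]) : Prop :=
  Nonempty (F →+* ℝ) ∨ ∀ z ∈ ratioGroup P ℂ, AlgIn F (z : ℂ) → ∃ N : ℕ, 0 < N ∧ z ^ N = 1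

end Pool.Agent.B4801bT
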