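import Pool.Agent.W_b4801b_h32.Casimir

set_option autoImplicit false

/-!
# Whitehead's first lemma

Theorem: let `L` be a finite-dimensional Lie algebra over the algebraically closed field `K` of
characteristic zero with trivial radical, `M` a finite-dimensional `L`-module.  Every cocycle
`f : L → M`, `f [x, y] = x f(y) - y f(x)`, is a coboundary: there is `m ∈ M` with `f(x) = x m`.

Proof.  Induction on `dim M`.  Take `x_i`, `y_i`, `r` from `exists_casimir` and `c := ∑ x_i y_i ∈ End M`.
`c` commutes with the action of `z ∈ L`:  `z c - c z = ∑ [z, x_i] y_i + x_i [z, y_i] = 0` by (a) for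
`β(a, b) = a b ∈ End M`.  By Fitting's lemma (Mathlib: `LinearMap.isCompl_iSup_ker_pow_iInf_range_pow`)
`M = M₀ ⊕ M₁` with `M₀ = ker c^n`, `M₁ = range c^n` (`n` large); both are `L`-submodules, `c` is bijective
on `M₁`.
* `r = 0`: `L` acts trivially on `M`, so `f [x, y] = 0` for all `x, y`; as `L = [L, L]` (a Lie algebra with
  trivial radical is perfect: `L / [L, L]` is abelian...; in Mathlib `LieAlgebra.IsSemisimple` /
  `LieAlgebra.IsKilling` with `LieAlgebra.derivedSeries_eq_top` or: the Killing orthogonal of `[L, L]` is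
  the center, which is `0`, and the Killing form is nondegenerate) `f = 0`, take `m = 0`.
* `r > 0`: `tr c = r ≠ 0`, so `c` is not nilpotent and `M₀ ≠ M`, `dim M₀ < dim M`.  Let `f₀`, `f₁` be the
  components of `f`, cocycles with values in `M₀`, `M₁` (`f = f₀ + f₁`).  By induction `f₀` is a
  coboundary.  For `f₁`: `c f₁(z) = ∑ x_i y_i f₁(z) = ∑ x_i (z f₁(y_i) + f₁ [y_i, z])
  = z ∑ x_i f₁(y_i) + ∑ ([x_i, z] f₁(y_i) + x_i f₁ [y_i, z]) = z ∑ x_i f₁(y_i)` by (a) for
  `β(a, b) = a f₁(b)`.  So with `m₁ := c⁻¹ ∑ x_i f₁(y_i) ∈ M₁`: `f₁(z) = c⁻¹ z ∑ ... = z m₁`.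
-/

noncomputable section

namespace Pool.Agent.B4801bT

universe u v w

theorem Whitehead_perfect (K : Type u) [Field K] [CharZero K] (L : Type v) [LieRing L]
    [LieAlgebra K L] [FiniteDimensional K L] [LieAlgebra.HasTrivialRadical K L] (M : Type w)
    [AddCommGroup M] [Module K M] (f : L →ₗ[K] M) (hf : ∀ x y : L, f ⁅x, y⁆ = 0) (x : L) :
    f x = 0 := by
  have hK : LieAlgebra.IsKilling K L := inferInstance
  let I : LieIdeal K L := ⁅(⊤ : LieIdeal K L), (⊤ : LieIdeal K L)⁆
  have hmem : ∀ y z : L, ⁅y, z⁆ ∈ I := fun y z =>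
    LieSubmodule.lie_mem_lie (LieSubmodule.mem_top y) (LieSubmodule.mem_top z)
  have hc : I.killingCompl = ⊥ := by
    rw [eq_bot_iff]
    intro x hx
    have h1 : x ∈ LieAlgebra.center K L := by
      rw [LieModule.mem_maxTrivSubmodule]
      intro y
      apply (LieAlgebra.IsKilling.killingForm_nondegenerate K L).1
      intro z
      have h2 := (LieIdeal.mem_killingCompl K L I).1 hx ⁅y, z⁆ (hmem y z)
      have h3 : killingForm K L ⁅x, y⁆ z = 0 := by
        rw [LieModule.traceForm_apply_lie_apply, LieModule.traceForm_comm]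
        exact h2
      rw [← lie_skew, map_neg, LinearMap.neg_apply, h3, neg_zero]
    rw [LieAlgebra.center_eq_bot] at h1
    exact h1
  have hI : I = ⊤ := by
    have h1 := (LieIdeal.isCompl_killingCompl I).sup_eq_top
    rwa [hc, sup_bot_eq] at h1
  have hx : x ∈ LieSubmodule.toSubmodule I := by
    show x ∈ I
    rw [hI]
    exact LieSubmodule.mem_top x
  rw [LieSubmodule.lieIdeal_oper_eq_linear_span'] at hx
  refine Submodule.span_induction (p := fun y _ => f y = 0) ?_ (map_zero f) ?_ ?_ hx
  · rintro _ ⟨y, -, z, -, rfl⟩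
    exact hf y z
  · intro y z _ _ hy hz
    rw [map_add, hy, hz, add_zero]
  · intro a y _ hy
    rw [map_smul, hy, smul_zero]

theorem Whitehead_aux (K : Type u) [Field K] [IsAlgClosed K] [CharZero K] (L : Type v) [LieRing L]
    [LieAlgebra K L] [FiniteDimensional K L] [LieAlgebra.HasTrivialRadical K L] (d : ℕ) :
    ∀ (M : Type w) [AddCommGroup M] [Module K M] [LieRingModule L M] [LieModule K L M]
      [FiniteDimensional K M], Module.finrank K M ≤ d →
    ∀ (f : L →ₗ[K] M), (∀ x y : L, f ⁅x, y⁆ = ⁅x, f y⁆ - ⁅y, f x⁆) →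
    ∃ m : M, ∀ x : L, f x = ⁅x, m⁆ := by
  induction d with
  | zero =>
    intro M _ _ _ _ _ hd f hf
    have : Subsingleton M := Module.finrank_zero_iff.1 (Nat.le_zero.1 hd)
    exact ⟨0, fun x => Subsingleton.elim _ _⟩
  | succ d ih =>
    intro M _ _ _ _ _ hd f hf
    obtain ⟨r, xs, ys, ha, hb, hc⟩ := exists_casimir K L M
    rcases Nat.eq_zero_or_pos r with hr | hr
    · have ht := hc hr
      refine ⟨0, fun x => ?_⟩
      rw [lie_zero]
      apply Whitehead_perfect K L M f
      intro y z
      rw [hf, ht, ht, sub_zero]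
    · let ρ : L →ₗ[K] Module.End K M := (LieModule.toEnd K L M : L →ₗ[K] Module.End K M)
      have hρ : ∀ (a : L) (m : M), ρ a m = ⁅a, m⁆ := fun a m => rfl
      let c : Module.End K M := ∑ i, ρ (xs i) * ρ (ys i)
      have hcm : ∀ m : M, c m = ∑ i, ⁅xs i, ⁅ys i, m⁆⁆ := by
        intro m
        simp only [c, LinearMap.sum_apply]
        rfl
      -- `c` commutes with the action
      have hccom : ∀ (z : L) (m : M), c ⁅z, m⁆ = ⁅z, c m⁆ := by
        intro z m
        have h1 := ha (Module.End K M) ((LinearMap.mul K (Module.End K M)).compl₁₂ ρ ρ) z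
        have h2 := congrArg (fun φ : Module.End K M => φ m) h1
        simp only [LinearMap.sum_apply, LinearMap.add_apply, LinearMap.zero_apply,
          LinearMap.compl₁₂_apply, LinearMap.mul_apply_apply, Module.End.mul_apply, hρ] at h2
        rw [hcm, hcm, lie_sum, ← sub_eq_zero, ← Finset.sum_sub_distrib, ← neg_eq_zero,
          ← Finset.sum_neg_distrib, ← h2]
        refine Finset.sum_congr rfl fun i _ => ?_
        rw [lie_lie, lie_lie z (ys i) m, lie_sub]
        abel
      have hpow : ∀ (n : ℕ) (z : L) (m : M), (c ^ n) ⁅z, m⁆ = ⁅z, (c ^ n) m⁆ := by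
        intro n z
        induction n with
        | zero => intro m; rfl
        | succ n ihn =>
          intro m
          rw [pow_succ, Module.End.mul_apply, Module.End.mul_apply, hccom, ihn]
      obtain ⟨n, hn, hn1⟩ := (c.eventually_isCompl_ker_pow_range_pow.and
        (Filter.eventually_ge_atTop 1)).exists
      set N := c ^ n with hN
      have hdisj : ∀ v : M, N v = 0 → v ∈ LinearMap.range N → v = 0 := fun v h1 h2 =>
        (Submodule.disjoint_def.1 hn.disjoint) v (LinearMap.mem_ker.2 h1) h2
      have hcN : ∀ v, c (N v) = N (c v) := by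
        intro v
        rw [hN, ← Module.End.mul_apply, ← Module.End.mul_apply, ← pow_succ, ← pow_succ']
      have hcinj : ∀ v ∈ LinearMap.range N, c v = 0 → v = 0 := by
        intro v hv hcv
        apply hdisj v _ hv
        obtain ⟨k, hk⟩ := Nat.exists_eq_add_of_le' hn1
        rw [hN, hk, pow_succ, Module.End.mul_apply, hcv, map_zero]
      have hmaps : ∀ v ∈ LinearMap.range N, c v ∈ LinearMap.range N := by
        rintro _ ⟨v, rfl⟩
        exact ⟨c v, (hcN v).symm⟩
      have hsurj : ∀ w ∈ LinearMap.range N, ∃ u ∈ LinearMap.range N, c u = w := by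
        intro w hw
        have h1 : Function.Injective (c.restrict hmaps) := by
          rw [injective_iff_map_eq_zero]
          intro a ha'
          have h2 : c (a : M) = 0 := by
            have := congrArg Subtype.val ha'
            rwa [LinearMap.restrict_apply] at this
          exact Subtype.ext (hcinj a a.2 h2)
        obtain ⟨u, hu⟩ := LinearMap.injective_iff_surjective.1 h1 ⟨w, hw⟩
        exact ⟨u, u.2, by simpa [LinearMap.restrict_apply] using congrArg Subtype.val hu⟩
      -- the cocycle `N f`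
      have hNf : ∀ x y : L, N (f ⁅x, y⁆) = ⁅x, N (f y)⁆ - ⁅y, N (f x)⁆ := by
        intro x y
        rw [hf, map_sub, hpow, hpow]
      let g : L →ₗ[K] M := N ∘ₗ f
      have hg : ∀ x, g x = N (f x) := fun x => rfl
      let w : M := ∑ i, ⁅xs i, g (ys i)⁆
      have hw : w ∈ LinearMap.range N := by
        refine Submodule.sum_mem _ fun i _ => ?_
        exact ⟨⁅xs i, f (ys i)⁆, hpow n _ _⟩
      obtain ⟨u, ⟨m₁, rfl⟩, hu⟩ := hsurj w hw
      have hcg : ∀ z, c (g z) = ⁅z, w⁆ := by
        intro z
        have h1 := ha M ((LinearMap.lcomp K M g) ∘ₗ ρ) z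
        have h2 : ∑ i, (⁅⁅z, xs i⁆, g (ys i)⁆ + ⁅xs i, g ⁅z, ys i⁆⁆) = 0 := h1
        rw [hcm, lie_sum, ← sub_eq_zero, ← Finset.sum_sub_distrib, ← neg_eq_zero,
          ← Finset.sum_neg_distrib, ← h2]
        refine Finset.sum_congr rfl fun i _ => ?_
        rw [hg ⁅z, ys i⁆, hNf, ← hg, ← hg, lie_lie, lie_sub]
        abel
      have hgz : ∀ z, g z = ⁅z, N m₁⁆ := by
        intro z
        apply sub_eq_zero.1
        apply hcinj
        · refine Submodule.sub_mem _ ⟨f z, rfl⟩ ⟨⁅z, m₁⁆, hpow n _ _⟩
        · rw [map_sub, hcg, hccom, hu, sub_self]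
      -- now `f - coboundary` has values in `ker N`
      let M₀ : LieSubmodule K L M :=
        { LinearMap.ker N with
          lie_mem := by
            intro x m hm
            have hm' : N m = 0 := hm
            show N ⁅x, m⁆ = 0
            rw [hpow, hm', lie_zero] }
      have hM₀ : ∀ m, m ∈ M₀ ↔ N m = 0 := fun m => Iff.rfl
      let f₀ : L →ₗ[K] M₀ := LinearMap.codRestrict (M₀ : Submodule K M)
        (f - (ρ.flip m₁)) (by
          intro z
          show N (f z - ⁅z, m₁⁆) = 0
          rw [map_sub, hpow, ← hg, hgz, sub_self])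
      have hf₀ : ∀ z, ((f₀ z : M₀) : M) = f z - ⁅z, m₁⁆ := fun z => rfl
      have hdim : Module.finrank K M₀ ≤ d := by
        have h1 : (M₀ : Submodule K M) < ⊤ := by
          rw [lt_top_iff_ne_top]
          intro h2
          have h3 : N = 0 := by
            ext m
            have : m ∈ (M₀ : Submodule K M) := by rw [h2]; trivial
            exact this
          have h4 : IsNilpotent c := ⟨n, h3⟩
          have h5 := (LinearMap.isNilpotent_trace_of_isNilpotent h4).eq_zero
          have h6 : LinearMap.trace K M c = r := by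
            rw [← hb]
            simp only [c, map_sum]
            rfl
          rw [h6] at h5
          exact hr.ne' (by exact_mod_cast h5)
        have h7 := Submodule.finrank_lt (lt_top_iff_ne_top.1 h1)
        have h8 : Module.finrank K M₀ = Module.finrank K (M₀ : Submodule K M) := rfl
        omega
      obtain ⟨m₀, hm₀⟩ := ih M₀ hdim f₀ (by
        intro x y
        apply Subtype.ext
        rw [LieSubmodule.coe_sub, LieSubmodule.coe_bracket, LieSubmodule.coe_bracket, hf₀, hf₀,
          hf₀, hf, lie_sub, lie_sub, lie_lie]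
        abel)
      refine ⟨m₀ + m₁, fun x => ?_⟩
      have h1 := congrArg Subtype.val (hm₀ x)
      rw [LieSubmodule.coe_bracket] at h1
      have h2 : f x - ⁅x, m₁⁆ = ⁅x, (m₀ : M)⁆ := h1
      rw [lie_add, ← h2]
      abel

theorem whitehead (K : Type*) [Field K] [IsAlgClosed K] [CharZero K] (L : Type*) [LieRing L]
    [LieAlgebra K L] [FiniteDimensional K L] [LieAlgebra.HasTrivialRadical K L] (M : Type*)
    [AddCommGroup M] [Module K M] [LieRingModule L M] [LieModule K L M] [FiniteDimensional K M]
    (f : L →ₗ[K] M) (hf : ∀ x y : L, f ⁅x, y⁆ = ⁅x, f y⁆ - ⁅y, f x⁆) :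
    ∃ m : M, ∀ x : L, f x = ⁅x, m⁆ := by
  exact Whitehead_aux K L (Module.finrank K M) M le_rfl f hf

end Pool.Agent.B4801bT
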